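import Pool.Agent.TWT.Targets

/-!
# TWT: `[x]` is divisible by `p` for small `x` (target T_APD)
-/

namespace TWT

open WittVector Matrix

namespace APD_

variable (p : ℕ) [hp : Fact p.Prime]

lemma tm_mul (x y : Tl p) : tm p (x * y) = tm p x * tm p y := by
  unfold tm
  rw [map_mul, map_mul]

lemma tm_pow (x : Tl p) (n : ℕ) : tm p (x ^ n) = tm p x ^ n := by
  unfold tm
  rw [map_pow, map_pow]

/-- the `p`-th power of an element of the kernel of `θ` is divisible by `p` -/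
lemma jj_pow (a : Ainf p) (ha : theta p a = 0) : ∃ c : Acris p, jj p a ^ p = p * c := by
  obtain ⟨u, hu⟩ := isUnit_factorial p p
  have h1 : (p.factorial : AinfP p) *
      (((u⁻¹ : (AinfP p)ˣ) : AinfP p) * algebraMap (Ainf p) (AinfP p) a ^ p) =
      algebraMap (Ainf p) (AinfP p) a ^ p := by
    rw [← hu, ← mul_assoc, Units.mul_inv, one_mul]
  have hy := dp_mem p ha h1
  obtain ⟨m, hm⟩ : p ∣ p.factorial := Nat.dvd_factorial hp.out.pos le_rfl
  refine ⟨(m : Acris p) * AdicCompletion.of (Ideal.span {(p : Acris0 p)}) (Acris0 p) ⟨_, hy⟩, ?_⟩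
  have h2 : (⟨algebraMap (Ainf p) (AinfP p) (a ^ p), alg_mem p (a ^ p)⟩ : Acris0 p) =
      (p.factorial : Acris0 p) * ⟨_, hy⟩ := by
    apply Subtype.ext
    rw [Subring.coe_mul]
    have h3 : (((p.factorial : Acris0 p)) : AinfP p) = (p.factorial : AinfP p) := by
      push_cast
      rfl
    rw [h3]
    change algebraMap (Ainf p) (AinfP p) (a ^ p) = _
    rw [map_pow]
    exact h1.symm
  have h4 : jj p (a ^ p) = (p.factorial : Acris p) *
      AdicCompletion.of (Ideal.span {(p : Acris0 p)}) (Acris0 p) ⟨_, hy⟩ := by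
    rw [jj_apply, h2]
    have h5 := (algebraMap (Acris0 p) (Acris p)).map_mul (p.factorial : Acris0 p) ⟨_, hy⟩
    rw [map_natCast] at h5
    exact h5
  rw [← map_pow, h4, hm]
  push_cast
  ring

end APD_

open APD_ in
theorem p_APD (p : ℕ) [hp : Fact p.Prime] (hUNT : T_UNT p) : T_APD p := by
  intro x hx
  obtain ⟨ϖ, hϖ⟩ := hUNT.1 (p : OC p)
  have hn : nO p (sh p (ϖ ^ p)) = np p ^ p := by
    have h1 : sh p (ϖ ^ p) = (p : OC p) ^ p := by
      change PreTilt.untilt (ϖ ^ p) = _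
      rw [map_pow]
      exact congrArg (· ^ p) hϖ
    change ‖((sh p (ϖ ^ p) : OC p) : ℂ_[p])‖ = _
    rw [h1]
    have h2 : (((p : OC p) ^ p : OC p) : ℂ_[p]) = (p : ℂ_[p]) ^ p := by norm_cast
    rw [h2, norm_pow]
  obtain ⟨w, rfl⟩ := hUNT.2.2.1 x (ϖ ^ p) (hx.trans hn.ge)
  have ha : theta p (WittVector.teichmuller p ϖ - (p : Ainf p)) = 0 := by
    rw [map_sub, map_natCast]
    change fontaineTheta (OC p) p (WittVector.teichmuller p ϖ) - _ = 0
    rw [fontaineTheta_teichmuller]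
    exact sub_eq_zero.mpr hϖ
  obtain ⟨c, hc⟩ := jj_pow p _ ha
  have h3 : (p : Acris p) ∣ tm p ϖ ^ p - jj p (WittVector.teichmuller p ϖ - (p : Ainf p)) ^ p := by
    have h4 := sub_dvd_pow_sub_pow (tm p ϖ) (jj p (WittVector.teichmuller p ϖ - (p : Ainf p))) p
    have h5 : tm p ϖ - jj p (WittVector.teichmuller p ϖ - (p : Ainf p)) = (p : Acris p) := by
      unfold tm
      rw [map_sub, map_natCast]
      ring
    rwa [h5] at h4
  obtain ⟨d, hd⟩ := h3
  refine ⟨(c + d) * tm p w, ?_⟩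
  rw [tm_mul, tm_pow]
  rw [hc] at hd
  have h6 : tm p ϖ ^ p = p * (c + d) := by
    linear_combination hd
  rw [h6]
  ring

end TWT
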