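import Pool.Agent.TWT.Targets

set_option autoImplicit false
set_option maxHeartbeats 4000000

namespace TWT

namespace ATF_

variable (p : ℕ) [hp : Fact p.Prime]

omit hp in
lemma smod_iff {S : Type} [CommRing S] (x y : S) (n : ℕ) :
    x ≡ y [SMOD ((Ideal.span {(p : S)}) ^ n • ⊤ : Submodule S S)] ↔
      ∃ r, x - y = (p : S) ^ n * r := by
  rw [SModEq.sub_mem, smul_eq_mul, Ideal.mul_top, Ideal.span_singleton_pow,
    Ideal.mem_span_singleton]
  exact Iff.rfl

/-- the completion of a `p`-torsion free ring is `p`-torsion free -/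
lemma torsion {S : Type} [CommRing S] (hS : ∀ a : S, (p : S) * a = 0 → a = 0)
    (a : AdicCompletion (Ideal.span {(p : S)}) S)
    (ha : (p : AdicCompletion (Ideal.span {(p : S)}) S) * a = 0) : a = 0 := by
  obtain ⟨y, rfl⟩ := AdicCompletion.mk_surjective _ _ a
  refine AdicCompletion.ext_evalₐ fun n => ?_
  rw [map_zero, AdicCompletion.evalₐ_mk]
  have h1 := congrArg (AdicCompletion.evalₐ (Ideal.span {(p : S)}) (n + 1)) ha
  rw [map_mul, map_natCast, map_zero, AdicCompletion.evalₐ_mk] at h1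
  have h2 : (p : S) * y.val (n + 1) ∈ (Ideal.span {(p : S)}) ^ (n + 1) := by
    rw [← Ideal.Quotient.eq_zero_iff_mem, map_mul, map_natCast]
    exact h1
  rw [Ideal.span_singleton_pow, Ideal.mem_span_singleton] at h2
  obtain ⟨c, hc⟩ := h2
  have h3 : y.val (n + 1) = (p : S) ^ n * c := by
    have : (p : S) * (y.val (n + 1) - (p : S) ^ n * c) = 0 := by
      rw [mul_sub, hc]
      ring
    exact sub_eq_zero.1 (hS _ this)
  obtain ⟨r, hr⟩ := (smod_iff p _ _ n).1 (y.2 (Nat.le_succ n))
  change Ideal.Quotient.mk _ (y.val n) = 0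
  rw [Ideal.Quotient.eq_zero_iff_mem, Ideal.span_singleton_pow, Ideal.mem_span_singleton]
  refine ⟨r + c, ?_⟩
  have : (y.val n : S) = (y.val n - y.val (n + 1)) + y.val (n + 1) := by ring
  rw [this, h3]
  have hr' : y.val n - y.val (n + 1) = (p : S) ^ n * r := hr
  rw [h3] at hr'
  rw [hr']
  ring

lemma torsion0 (a : Acris0 p) (ha : (p : Acris0 p) * a = 0) : a = 0 := by
  have h1 : (p : AinfP p) * (a : AinfP p) = 0 := by
    have := congrArg Subtype.val ha
    exact this
  have h2 : IsUnit (p : AinfP p) := by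
    have := isUnit_pP p
    rwa [map_natCast] at this
  apply Subtype.ext
  exact h2.mul_right_eq_zero.1 h1

end ATF_

open ATF_ in
theorem p_ATF (p : ℕ) [Fact p.Prime] : T_ATF p := by
  refine ⟨fun a ha => torsion p (torsion0 p) a ha, fun a ha => ?_, fun s => ?_⟩
  · refine (completeAcris p).haus' a fun n => ?_
    rw [smod_iff, sub_zero]
    exact ha n
  · obtain ⟨S, hS⟩ := (completeAcris p).prec' (f := fun n => ∑ i ∈ Finset.range n,
      (p : Acris p) ^ i * s i) (fun {m n} hmn => by
        rw [smod_iff]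
        rw [← Finset.sum_range_add_sum_Ico _ hmn]
        have h : ∃ r, ∑ i ∈ Finset.Ico m n, (p : Acris p) ^ i * s i = (p : Acris p) ^ m * r := by
          refine Finset.dvd_sum (s := Finset.Ico m n) (a := (p : Acris p) ^ m) fun i hi => ?_
          exact (pow_dvd_pow _ (Finset.mem_Ico.1 hi).1).mul_right _
        obtain ⟨r, hr⟩ := h
        refine ⟨-r, ?_⟩
        rw [hr]
        ring)
    refine ⟨S, fun n => ?_⟩
    obtain ⟨r, hr⟩ := (smod_iff p _ _ n).1 (hS n)
    refine ⟨-r, ?_⟩
    have hr' : ∑ i ∈ Finset.range n, (p : Acris p) ^ i * s i - S = (p : Acris p) ^ n * r := hr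
    linear_combination -hr'

end TWT
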