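import Pool.Agent.TWT.Targets

/-!
# TWT: the auxiliary ring `A_max`
-/

namespace TWT

open WittVector Matrix

noncomputable section

namespace AX2_

/-! ## An algebraic lemma -/

theorem key {A R : Type} [CommRing A] [CommRing R] (π q : A) (c : A →+* R)
    (hR : ∀ x y : R, x * y = 0 → x = 0 ∨ y = 0) (hc : ∀ a, c a = 0 → ∃ b, a = π * b)
    (hπ : c π = 0) (hq : c q ≠ 0) (hreg : ∀ a, π * a = 0 → a = 0) : ∀ (N : ℕ) (b a : ℕ → A),
    ∑ j ∈ Finset.range (N + 1), π ^ (N - j) * q ^ j * b j =
      ∑ j ∈ Finset.range (N + 2), π ^ (N + 1 - j) * q ^ j * a j →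
    ∃ s t, b 0 = π * s + q * t := by
  intro N
  induction N with
  | zero =>
    intro b a h
    refine ⟨a 0, a 1, ?_⟩
    simpa [Finset.sum_range_succ] using h
  | succ N ih =>
    intro b a h
    rw [Finset.sum_range_succ, Finset.sum_range_succ _ (N + 2)] at h
    have e1 : ∑ j ∈ Finset.range (N + 1), π ^ (N + 1 - j) * q ^ j * b j =
        π * ∑ j ∈ Finset.range (N + 1), π ^ (N - j) * q ^ j * b j := by
      rw [Finset.mul_sum]
      refine Finset.sum_congr rfl fun j hj => ?_
      have hj' : N + 1 - j = (N - j) + 1 := by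
        have := Finset.mem_range.mp hj
        omega
      rw [hj', pow_succ]
      ring
    have e2 : ∑ j ∈ Finset.range (N + 2), π ^ (N + 1 + 1 - j) * q ^ j * a j =
        π * ∑ j ∈ Finset.range (N + 2), π ^ (N + 1 - j) * q ^ j * a j := by
      rw [Finset.mul_sum]
      refine Finset.sum_congr rfl fun j hj => ?_
      have hj' : N + 1 + 1 - j = (N + 1 - j) + 1 := by
        have := Finset.mem_range.mp hj
        omega
      rw [hj', pow_succ]
      ring
    rw [e1, e2] at h
    set S1 := ∑ j ∈ Finset.range (N + 1), π ^ (N - j) * q ^ j * b j with hS1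
    set S2 := ∑ j ∈ Finset.range (N + 2), π ^ (N + 1 - j) * q ^ j * a j with hS2
    have h0 : π ^ (N + 1 - (N + 1)) = 1 := by rw [Nat.sub_self, pow_zero]
    have h0' : π ^ (N + 1 + 1 - (N + 2)) = 1 := by
      rw [show N + 1 + 1 - (N + 2) = 0 by omega, pow_zero]
    rw [h0, h0', one_mul, one_mul] at h
    have h1 : c q ^ (N + 1) * c (b (N + 1) - q * a (N + 2)) = 0 := by
      have h2 := congrArg c h
      simp only [map_add, map_mul, map_pow, hπ, zero_mul, zero_add] at h2
      rw [map_sub, map_mul, mul_sub, h2]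
      ring
    have h3 : c (b (N + 1) - q * a (N + 2)) = 0 := by
      have h4 : ∀ n : ℕ, ∀ y : R, c q ^ n * y = 0 → y = 0 := by
        intro n
        induction n with
        | zero => intro y hy; simpa using hy
        | succ n ihn =>
          intro y hy
          rw [pow_succ, mul_assoc] at hy
          rcases hR _ _ (ihn _ hy) with h5 | h5
          · exact absurd h5 hq
          · exact h5
      exact h4 _ _ h1
    obtain ⟨b', hb'⟩ := hc _ h3
    have h5 : S1 + q ^ (N + 1) * b' - S2 = 0 := by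
      apply hreg
      have h6 : b (N + 1) = q * a (N + 2) + π * b' := by linear_combination hb'
      rw [h6] at h
      linear_combination h
    refine ih b (fun j => if j = N + 1 then a (N + 1) - b' else a j) ?_
    rw [Finset.sum_range_succ _ (N + 1)]
    have h7 : ∑ j ∈ Finset.range (N + 1), π ^ (N + 1 - j) * q ^ j *
        (if j = N + 1 then a (N + 1) - b' else a j) =
        ∑ j ∈ Finset.range (N + 1), π ^ (N + 1 - j) * q ^ j * a j := by
      refine Finset.sum_congr rfl fun j hj => ?_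
      have hj' : j ≠ N + 1 := by
        have := Finset.mem_range.mp hj
        omega
      rw [if_neg hj']
    rw [h7, if_pos rfl]
    have h8 : S2 = ∑ j ∈ Finset.range (N + 1), π ^ (N + 1 - j) * q ^ j * a j +
        π ^ (N + 1 - (N + 1)) * q ^ (N + 1) * a (N + 1) := by
      rw [hS2, Finset.sum_range_succ _ (N + 1)]
    rw [h0] at h8
    rw [h0, ← hS1]
    linear_combination h5 + h8

/-! ## Completions -/

section tf

variable (p : ℕ) (S : Type) [CommRing S]

theorem tf (hS : ∀ a : S, (p : S) * a = 0 → a = 0)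
    (a : AdicCompletion (Ideal.span {(p : S)}) S)
    (ha : (p : AdicCompletion (Ideal.span {(p : S)}) S) * a = 0) : a = 0 := by
  obtain ⟨y, rfl⟩ := AdicCompletion.mk_surjective _ _ a
  have h1 : ∀ n, (p : S) * y.val n ∈ (Ideal.span {(p : S)}) ^ n := by
    intro n
    have h2 := congrArg (AdicCompletion.evalₐ (Ideal.span {(p : S)}) n) ha
    rw [map_mul, AdicCompletion.evalₐ_mk, map_natCast, map_zero] at h2
    rw [← Ideal.Quotient.eq_zero_iff_mem, map_mul, map_natCast]
    exact h2
  refine AdicCompletion.ext_evalₐ fun n => ?_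
  rw [AdicCompletion.evalₐ_mk, map_zero, Ideal.Quotient.eq_zero_iff_mem]
  have h3 := h1 (n + 1)
  rw [Ideal.span_singleton_pow, Ideal.mem_span_singleton] at h3
  obtain ⟨c, hc⟩ := h3
  have h4 : y.val (n + 1) = (p : S) ^ n * c := by
    have h5 : y.val (n + 1) - (p : S) ^ n * c = 0 := by
      apply hS
      rw [mul_sub, hc]
      ring
    exact sub_eq_zero.mp h5
  have h6 := y.2 (Nat.le_succ n)
  rw [SModEq.sub_mem, smul_eq_mul, Ideal.mul_top] at h6
  have h7 : y.val (n + 1) ∈ (Ideal.span {(p : S)}) ^ n := by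
    rw [h4, Ideal.span_singleton_pow]
    exact Ideal.mul_mem_right _ _ (Ideal.mem_span_singleton_self _)
  have h8 := Ideal.add_mem _ h6 h7
  have h9 : (y.val n - y.val (n + 1)) + y.val (n + 1) = y.val n := by ring
  rw [← h9]
  exact h8

theorem of_div (y : S) (a : AdicCompletion (Ideal.span {(p : S)}) S)
    (ha : AdicCompletion.of (Ideal.span {(p : S)}) S y =
      (p : AdicCompletion (Ideal.span {(p : S)}) S) * a) : ∃ z, y = (p : S) * z := by
  have h1 := congrArg (AdicCompletion.evalₐ (Ideal.span {(p : S)}) 1) ha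
  rw [AdicCompletion.evalₐ_of, map_mul, map_natCast] at h1
  have h2 : ((p : ℕ) : S ⧸ (Ideal.span {(p : S)}) ^ 1) = 0 := by
    rw [← map_natCast (Ideal.Quotient.mk _), Ideal.Quotient.eq_zero_iff_mem, pow_one]
    exact Ideal.mem_span_singleton_self _
  rw [h2, zero_mul, Ideal.Quotient.eq_zero_iff_mem, pow_one, Ideal.mem_span_singleton] at h1
  exact h1

end tf

/-! ## The ring `A_max` -/

section Amax

variable (p : ℕ) [hp : Fact p.Prime]

/-- The subring generated by `A_inf` and the elements `a / p` with `θ a = 0`. -/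
def Amax0 : Subring (AinfP p) :=
  Subring.closure (Set.range (algebraMap (Ainf p) (AinfP p)) ∪
    {x | ∃ a : Ainf p, theta p a = 0 ∧ (p : AinfP p) * x = algebraMap (Ainf p) (AinfP p) a})

theorem isUnit_p : IsUnit (p : AinfP p) := by
  have h := isUnit_pP p
  rwa [map_natCast] at h

theorem alg_mem' (a : Ainf p) : algebraMap (Ainf p) (AinfP p) a ∈ Amax0 p :=
  Subring.subset_closure (Or.inl ⟨a, rfl⟩)

theorem div_mem {a : Ainf p} (ha : theta p a = 0) {x : AinfP p}
    (hx : (p : AinfP p) * x = algebraMap (Ainf p) (AinfP p) a) : x ∈ Amax0 p :=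
  Subring.subset_closure (Or.inr ⟨a, ha, hx⟩)

theorem exists_div (x : AinfP p) : ∃ y, (p : AinfP p) * y = x := by
  obtain ⟨u, hu⟩ := isUnit_p p
  exact ⟨((u⁻¹ : (AinfP p)ˣ) : AinfP p) * x, by rw [← hu, ← mul_assoc, Units.mul_inv, one_mul]⟩

theorem le_Amax : Acris0 p ≤ Amax0 p := by
  refine Subring.closure_le.mpr ?_
  rintro y (⟨a, rfl⟩ | ⟨a, n, ha, hy⟩)
  · exact alg_mem' p a
  · obtain ⟨z, hz⟩ := exists_div p (algebraMap (Ainf p) (AinfP p) a)
    obtain ⟨m, hm⟩ := factorial_dvd p n
    have h1 : y = algebraMap (Ainf p) (AinfP p) m * z ^ n := by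
      refine (isUnit_factorial p n).mul_left_cancel ?_
      have h2 := congrArg (algebraMap (Ainf p) (AinfP p)) hm
      rw [map_mul, map_natCast, map_pow, map_natCast] at h2
      rw [hy, ← mul_assoc, h2, ← mul_pow, hz]
    rw [h1]
    exact Subring.mul_mem _ (alg_mem' p m) (Subring.pow_mem _ (div_mem p ha hz) n)

/-- The auxiliary ring. -/
abbrev Amax : Type := AdicCompletion (Ideal.span {(p : Amax0 p)}) (Amax0 p)

instance completeAmax : IsAdicComplete (Ideal.span {(p : Amax p)}) (Amax p) :=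
  completion_complete p (Amax0 p)

/-- The map from `A_cris`. -/
def kap : Acris p →+* Amax p :=
  acLift p ((algebraMap (Amax0 p) (Amax p)).comp (Subring.inclusion (le_Amax p)))

theorem kap_jj (a : Ainf p) : kap p (jj p a) =
    AdicCompletion.of (Ideal.span {(p : Amax0 p)}) (Amax0 p)
      ⟨algebraMap (Ainf p) (AinfP p) a, alg_mem' p a⟩ := by
  rw [jj_apply, kap, acLift_of]
  rfl

theorem tf0 (a : Amax0 p) (ha : (p : Amax0 p) * a = 0) : a = 0 := by
  have h1 : (p : AinfP p) * (a : AinfP p) = 0 := by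
    have h2 := congrArg (Subtype.val) ha
    simpa using h2
  obtain ⟨u, hu⟩ := isUnit_p p
  apply Subtype.ext
  change (a : AinfP p) = 0
  calc (a : AinfP p) = ((u⁻¹ : (AinfP p)ˣ) : AinfP p) * ((u : AinfP p) * a) := by
        rw [← mul_assoc, Units.inv_mul, one_mul]
    _ = 0 := by rw [hu, h1, mul_zero]

theorem tfA (a : Amax p) (ha : (p : Amax p) * a = 0) : a = 0 := tf p (Amax0 p) (tf0 p) a ha

theorem theta_tm (x : Tl p) : theta p (WittVector.teichmuller p x) = sh p x :=
  fontaineTheta_teichmuller x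

/-- `[ϖ] / p`. -/
theorem exists_x {ϖ : Tl p} (hϖ : sh p ϖ = (p : OC p)) :
    ∃ x : Amax0 p, (p : AinfP p) * (x : AinfP p) =
      algebraMap (Ainf p) (AinfP p) (WittVector.teichmuller p ϖ) := by
  obtain ⟨y, hy⟩ := exists_div p (algebraMap (Ainf p) (AinfP p)
    (WittVector.teichmuller p ϖ - (p : Ainf p)))
  have h1 : y ∈ Amax0 p := by
    refine div_mem p (a := WittVector.teichmuller p ϖ - (p : Ainf p)) ?_ hy
    rw [map_sub, theta_tm, hϖ, map_natCast, sub_self]
  refine ⟨⟨y + 1, Subring.add_mem _ h1 (Subring.one_mem _)⟩, ?_⟩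
  change (p : AinfP p) * (y + 1) = _
  rw [mul_add, hy, map_sub, map_natCast]
  ring

theorem kap_tm {ϖ : Tl p} {x : Amax0 p} (hx : (p : AinfP p) * (x : AinfP p) =
      algebraMap (Ainf p) (AinfP p) (WittVector.teichmuller p ϖ)) :
    kap p (tm p ϖ) = p * AdicCompletion.of (Ideal.span {(p : Amax0 p)}) (Amax0 p) x := by
  have h1 : (⟨algebraMap (Ainf p) (AinfP p) (WittVector.teichmuller p ϖ), alg_mem' p _⟩ :
      Amax0 p) = (p : Amax0 p) * x := by
    apply Subtype.ext
    change algebraMap (Ainf p) (AinfP p) (WittVector.teichmuller p ϖ) = _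
    rw [← hx]
    simp
  unfold tm
  rw [kap_jj, h1]
  change algebraMap (Amax0 p) (Amax p) ((p : Amax0 p) * x) = _
  rw [map_mul, map_natCast]
  rfl

theorem kapOK (hU : T_UNT p) : KapOK p (Amax p) (kap p) := by
  refine ⟨tfA p, ?_⟩
  intro u hu
  obtain ⟨ϖ, hϖ⟩ := hU.1 (p : OC p)
  have h1 : nO p (sh p u) ≤ nO p (sh p ϖ) := by
    rw [hϖ]
    exact hu
  obtain ⟨w, hw⟩ := hU.2.2.1 u ϖ h1
  obtain ⟨x, hx⟩ := exists_x p hϖ
  refine ⟨AdicCompletion.of (Ideal.span {(p : Amax0 p)}) (Amax0 p) x * kap p (tm p w), ?_⟩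
  have h2 : tm p u = tm p ϖ * tm p w := by
    unfold tm
    rw [hw, map_mul, map_mul]
  rw [h2, map_mul, kap_tm p hx, mul_assoc]

/-- elements of `A_max` are polynomials in `[ϖ] / p` -/
theorem poly (hK : T_KER p) {ϖ : Tl p} (hϖ : sh p ϖ = (p : OC p)) {x : AinfP p}
    (hx : (p : AinfP p) * x = algebraMap (Ainf p) (AinfP p) (WittVector.teichmuller p ϖ))
    (z : AinfP p) (hz : z ∈ Amax0 p) :
    ∃ P : Polynomial (Ainf p), z = P.eval₂ (algebraMap (Ainf p) (AinfP p)) x := by
  have hle : Amax0 p ≤ (Polynomial.eval₂RingHom (algebraMap (Ainf p) (AinfP p)) x).range := by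
    refine Subring.closure_le.mpr ?_
    rintro y (⟨a, rfl⟩ | ⟨a, ha, hy⟩)
    · exact ⟨Polynomial.C a, by simp⟩
    · obtain ⟨c, hc⟩ := hK ϖ hϖ a ha
      refine ⟨Polynomial.C c * (1 - Polynomial.X), ?_⟩
      refine (isUnit_p p).mul_left_cancel ?_
      rw [hy, hc]
      simp only [Polynomial.coe_eval₂RingHom, Polynomial.eval₂_C,
        Polynomial.eval₂_one, Polynomial.eval₂_X, map_mul, map_sub,
        map_natCast]
      linear_combination (-(algebraMap (Ainf p) (AinfP p) c)) * hx
  obtain ⟨P, hP⟩ := hle hz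
  exact ⟨P, hP.symm⟩

theorem cc_tm (x : Tl p) : WittVector.constantCoeff (WittVector.teichmuller p x) = x := by
  rw [WittVector.constantCoeff_apply, WittVector.teichmuller_coeff_zero]

theorem cc_zero (a : Ainf p) (ha : WittVector.constantCoeff a = 0) :
    ∃ b, a = (p : Ainf p) * b := by
  have h : a ∈ Ideal.span {(p : Ainf p)} := by
    rw [WittVector.mem_span_p_iff_coeff_zero_eq_zero]
    simpa [WittVector.constantCoeff_apply] using ha
  exact Ideal.mem_span_singleton.mp h

theorem cc_p : WittVector.constantCoeff (p : Ainf p) = 0 := by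
  have h : (p : Ainf p) ∈ Ideal.span {(p : Ainf p)} := Ideal.mem_span_singleton_self _
  rw [WittVector.mem_span_p_iff_coeff_zero_eq_zero] at h
  rw [WittVector.constantCoeff_apply]
  exact h

end Amax

end AX2_

theorem p_AX2 (p : ℕ) [hp : Fact p.Prime] (hU : T_UNT p) (hK : T_KER p) : T_AX2 p := by
  refine ⟨AX2_.Amax p, inferInstance, AX2_.kap p, AX2_.kapOK p hU, ?_⟩
  intro ϖ v e X hϖ hX hv
  rintro ⟨a, ha⟩
  -- the tilt is a domain
  have hdom : IsDomain (Tl p) := by
    have : Nontrivial (Tl p) := by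
      refine ⟨0, 1, ?_⟩
      intro h
      have h1 : sh p 0 = 0 := (hU.2.1 0).2 rfl
      rw [h] at h1
      have h2 : sh p (1 : Tl p) = 1 := map_one _
      rw [h2] at h1
      exact one_ne_zero h1
    have : NoZeroDivisors (Tl p) := ⟨fun {a b} h => hU.2.2.2 a b h⟩
    exact NoZeroDivisors.to_isDomain _
  have hdomA : IsDomain (Ainf p) := inferInstance
  have hpA : (p : Ainf p) ≠ 0 := by
    intro h
    have h1 := congrArg (theta p) h
    rw [map_natCast, map_zero] at h1
    have h2 := congrArg (fun t : OC p => (t : ℂ_[p])) h1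
    have h3 : (p : ℂ_[p]) = 0 := by
      simpa using h2
    exact p_ne_zero p h3
  have hinj : Function.Injective (algebraMap (Ainf p) (AinfP p)) :=
    IsLocalization.injective (AinfP p) (M := Submonoid.powers (p : Ainf p))
      (powers_le_nonZeroDivisors_of_noZeroDivisors hpA)
  obtain ⟨x, hx⟩ := AX2_.exists_x p hϖ
  -- `X` is the image of `x`
  have hXx : X = AdicCompletion.of (Ideal.span {(p : AX2_.Amax0 p)}) (AX2_.Amax0 p) x := by
    have h1 := AX2_.kap_tm p hx
    rw [hX] at h1
    have h2 := AX2_.tfA p (X - AdicCompletion.of (Ideal.span {(p : AX2_.Amax0 p)})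
      (AX2_.Amax0 p) x) (by rw [mul_sub, h1, sub_self])
    exact sub_eq_zero.mp h2
  let V : Ainf p := WittVector.teichmuller p (v ^ (p + 1))
  let E : Ainf p := WittVector.teichmuller p e
  let y : AX2_.Amax0 p := ⟨algebraMap (Ainf p) (AinfP p) V, AX2_.alg_mem' p _⟩ *
    (1 + x * ⟨algebraMap (Ainf p) (AinfP p) E, AX2_.alg_mem' p _⟩)
  have hy : AdicCompletion.of (Ideal.span {(p : AX2_.Amax0 p)}) (AX2_.Amax0 p) y = p * a := by
    rw [← ha, hXx]
    unfold tm
    rw [AX2_.kap_jj, AX2_.kap_jj]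
    change algebraMap (AX2_.Amax0 p) (AX2_.Amax p) y = _
    simp only [y, map_mul, map_add, map_one]
    rfl
  obtain ⟨z, hz⟩ := AX2_.of_div p (AX2_.Amax0 p) y a hy
  obtain ⟨P, hP⟩ := AX2_.poly p hK hϖ hx (z : AinfP p) z.2
  have hyz : algebraMap (Ainf p) (AinfP p) V * (1 + (x : AinfP p) *
      algebraMap (Ainf p) (AinfP p) E) = (p : AinfP p) * (z : AinfP p) := by
    have h1 := congrArg (Subtype.val) hz
    simpa [y] using h1
  -- the identity in `A_inf`
  set N := P.natDegree + 1 with hN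
  set q : Ainf p := WittVector.teichmuller p ϖ with hq
  let b : ℕ → Ainf p := fun j => if j = 0 then V else if j = 1 then V * E else 0
  have hb : ∑ j ∈ Finset.range (N + 1), (p : Ainf p) ^ (N - j) * q ^ j * b j =
      (p : Ainf p) ^ N * V + (p : Ainf p) ^ (N - 1) * q * (V * E) := by
    rw [Finset.sum_range_succ', hN, Finset.sum_range_succ']
    have h1 : ∑ k ∈ Finset.range P.natDegree,
        (p : Ainf p) ^ (P.natDegree + 1 - (k + 1 + 1)) * q ^ (k + 1 + 1) * b (k + 1 + 1) = 0 := by
      refine Finset.sum_eq_zero fun k _ => ?_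
      have h2 : b (k + 1 + 1) = 0 := by
        simp [b]
      rw [h2, mul_zero]
    rw [h1]
    simp [b]
    ring
  have hmain : ∑ j ∈ Finset.range (N + 1), (p : Ainf p) ^ (N - j) * q ^ j * b j =
      ∑ j ∈ Finset.range (N + 2), (p : Ainf p) ^ (N + 1 - j) * q ^ j * P.coeff j := by
    rw [hb]
    apply hinj
    have h1 : algebraMap (Ainf p) (AinfP p) (∑ j ∈ Finset.range (N + 2),
        (p : Ainf p) ^ (N + 1 - j) * q ^ j * P.coeff j) = (p : AinfP p) ^ (N + 1) * z := by
      rw [hP, Polynomial.eval₂_eq_sum_range' _ (show P.natDegree < N + 2 by omega),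
        Finset.mul_sum, map_sum]
      refine Finset.sum_congr rfl fun j hj => ?_
      have hj' : j ≤ N + 1 := by
        have := Finset.mem_range.mp hj
        omega
      rw [map_mul, map_mul, map_pow, map_pow, map_natCast, ← hx, mul_pow]
      have h2 : (p : AinfP p) ^ (N + 1) = (p : AinfP p) ^ (N + 1 - j) * (p : AinfP p) ^ j := by
        rw [← pow_add, Nat.sub_add_cancel hj']
      rw [h2]
      ring
    have h2 : (p : AinfP p) ^ (N + 1) * z = (p : AinfP p) ^ N * ((p : AinfP p) * z) := by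
      rw [pow_succ, mul_assoc]
    rw [h1, h2, ← hyz]
    rw [map_add, map_mul, map_mul, map_mul, map_mul, map_pow, map_pow, map_natCast, ← hx]
    have h3 : (p : AinfP p) ^ N = (p : AinfP p) ^ (N - 1) * p := by
      rw [← pow_succ]
      congr 1
    rw [h3]
    ring
  have hϖ0 : ϖ ≠ 0 := by
    intro h
    have h1 := (hU.2.1 ϖ).2 h
    rw [hϖ] at h1
    have h2 := congrArg (fun t : OC p => (t : ℂ_[p])) h1
    have h3 : (p : ℂ_[p]) = 0 := by
      simpa using h2
    exact p_ne_zero p h3
  obtain ⟨s, t, hst⟩ := AX2_.key (p : Ainf p) q WittVector.constantCoeff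
    (fun x y h => hU.2.2.2 x y h) (AX2_.cc_zero p) (AX2_.cc_p p)
    (by rw [hq, AX2_.cc_tm]; exact hϖ0)
    (fun a h => (mul_eq_zero.mp h).resolve_left hpA) N b (fun j => P.coeff j) hmain
  have hV : V = (p : Ainf p) * s + q * t := by
    rw [← hst]
    simp [b]
  have h1 := congrArg WittVector.constantCoeff hV
  rw [map_add, map_mul, map_mul, AX2_.cc_p, zero_mul, zero_add] at h1
  simp only [V] at h1
  rw [hq, AX2_.cc_tm, AX2_.cc_tm] at h1
  have h2 := congrArg (fun u => nO p (sh p u)) h1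
  simp only [map_mul, map_pow, hϖ] at h2
  have h3 : nO p (sh p v ^ (p + 1)) = nO p (sh p v) ^ (p + 1) := by
    change ‖((sh p v ^ (p + 1) : OC p) : ℂ_[p])‖ = _
    push_cast
    rw [norm_pow]
  have h4 : nO p ((p : OC p) * sh p (WittVector.constantCoeff t)) ≤ np p := by
    change ‖(((p : OC p) * sh p (WittVector.constantCoeff t) : OC p) : ℂ_[p])‖ ≤ _
    push_cast
    rw [norm_mul]
    exact mul_le_of_le_one_right (norm_nonneg _) (norm_OC_le p _)
  rw [h3] at h2
  linarith

end

end TWT
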