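import Pool.Agent.TWT.Targets

/-!
# TWT: Galois descent of a line
-/

set_option autoImplicit false

namespace TWT

theorem p_DES (p : ℕ) [Fact p.Prime] : T_DES p := by
  intro ι _ x hx hσ
  obtain ⟨i0, hi0⟩ : ∃ i, x i ≠ 0 := Function.ne_iff.1 hx
  have key : ∀ i, ∃ y : ℚ_[p], algebraMap ℚ_[p] (PadicAlgCl p) y = (x i0)⁻¹ * x i := by
    intro i
    have h : (x i0)⁻¹ * x i ∈ Set.range (algebraMap ℚ_[p] (PadicAlgCl p)) := by
      rw [InfiniteGalois.mem_range_algebraMap_iff_fixed]
      intro σ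
      obtain ⟨c, hc⟩ := hσ σ
      have hc0 : c ≠ 0 := by
        rintro rfl
        have := hc i0
        rw [zero_mul, map_eq_zero] at this
        exact hi0 this
      rw [map_mul, map_inv₀, hc i0, hc i]
      field_simp
    exact h
  choose y hy using key
  exact ⟨(x i0)⁻¹, y, inv_ne_zero hi0, fun i => (hy i).symm⟩

end TWT
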