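import Pool.Agent.TWT.Targets

/-!
# TWT: `D` has no nilpotents (target T_DV)
-/

namespace TWT

open WittVector Matrix

namespace DV_

variable {p : ℕ} [hp : Fact p.Prime]

lemma norm_one_add_sq (h3 : p % 4 = 3) (u : ℚ_[p]) (hu : ‖u‖ ≤ 1) : ‖1 + u ^ 2‖ = 1 := by
  let u' : ℤ_[p] := ⟨u, hu⟩
  have h1 : ‖(1 + u' ^ 2 : ℤ_[p])‖ = ‖1 + u ^ 2‖ := by
    rw [PadicInt.norm_def]
    push_cast
    rfl
  rw [← h1]
  by_contra hne
  have hlt : ‖(1 + u' ^ 2 : ℤ_[p])‖ < 1 := lt_of_le_of_ne (PadicInt.norm_le_one _) hne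
  have hmem : (1 + u' ^ 2 : ℤ_[p]) ∈ IsLocalRing.maximalIdeal ℤ_[p] := by
    rw [IsLocalRing.mem_maximalIdeal]
    exact PadicInt.mem_nonunits.mpr hlt
  rw [← PadicInt.ker_toZMod, RingHom.mem_ker, map_add, map_one, map_pow] at hmem
  have hsq : IsSquare (-1 : ZMod p) :=
    ⟨PadicInt.toZMod u', by linear_combination -hmem⟩
  exact (ZMod.exists_sq_eq_neg_one_iff.mp hsq) h3

lemma norm_sq_ne (y : ℚ_[p]) : ‖y‖ ^ 2 ≠ (p : ℝ)⁻¹ := by
  have hp1 : (1 : ℝ) < p := by exact_mod_cast hp.out.one_lt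
  intro h
  by_cases hy : y = 0
  · rw [hy, norm_zero] at h
    have : (0 : ℝ) < (p : ℝ)⁻¹ := by positivity
    rw [← h] at this
    norm_num at this
  · rw [Padic.norm_eq_zpow_neg_valuation hy, ← zpow_natCast, ← _root_.zpow_mul, ← _root_.zpow_neg_one] at h
    have h2 := zpow_right_injective₀ (by linarith) hp1.ne' h
    simp only [Nat.cast_ofNat] at h2
    omega

lemma key' (h3 : p % 4 = 3) (a b c : ℚ_[p]) (h : a ^ 2 = p * (b ^ 2 + c ^ 2))
    (hbc : ‖c‖ ≤ ‖b‖) : b = 0 := by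
  by_contra hb
  have h1 : (a / b) ^ 2 = p * (1 + (c / b) ^ 2) := by
    field_simp
    exact h
  have h2 := congrArg norm h1
  rw [norm_pow, norm_mul, norm_one_add_sq h3 (c / b) (by
    rw [norm_div]
    exact div_le_one_of_le₀ hbc (norm_nonneg _)), mul_one, Padic.norm_p] at h2
  exact norm_sq_ne _ h2

lemma key (h3 : p % 4 = 3) (a b c : ℚ_[p]) (h : a ^ 2 = p * (b ^ 2 + c ^ 2)) :
    a = 0 ∧ b = 0 ∧ c = 0 := by
  rcases le_total ‖c‖ ‖b‖ with hbc | hbc
  · have hb := key' h3 a b c h hbc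
    have hc : c = 0 := by
      rw [hb, norm_zero] at hbc
      exact norm_le_zero_iff.mp hbc
    refine ⟨?_, hb, hc⟩
    rw [hb, hc] at h
    simpa using h
  · have hc := key' h3 a c b (by rw [h]; ring) hbc
    have hb : b = 0 := by
      rw [hc, norm_zero] at hbc
      exact norm_le_zero_iff.mp hbc
    refine ⟨?_, hb, hc⟩
    rw [hb, hc] at h
    simpa using h

end DV_

open DV_ in
theorem p_DV (p : ℕ) [hp : Fact p.Prime] : T_DV p := by
  intro h3 x hx
  have e0 := congrArg QuaternionAlgebra.re hx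
  have e1 := congrArg QuaternionAlgebra.imI hx
  have e2 := congrArg QuaternionAlgebra.imJ hx
  have e3 := congrArg QuaternionAlgebra.imK hx
  simp only [QuaternionAlgebra.re_mul, QuaternionAlgebra.imI_mul, QuaternionAlgebra.imJ_mul,
    QuaternionAlgebra.imK_mul, QuaternionAlgebra.re_zero, QuaternionAlgebra.imI_zero,
    QuaternionAlgebra.imJ_zero, QuaternionAlgebra.imK_zero] at e0 e1 e2 e3
  have f1 : x.re * x.imI = 0 := by linear_combination e1 / 2
  have f2 : x.re * x.imJ = 0 := by linear_combination e2 / 2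
  have f3 : x.re * x.imK = 0 := by linear_combination e3 / 2
  have hre : x.re = 0 := by
    by_contra hne
    have g1 := (mul_eq_zero.mp f1).resolve_left hne
    have g2 := (mul_eq_zero.mp f2).resolve_left hne
    have g3 := (mul_eq_zero.mp f3).resolve_left hne
    rw [g1, g2, g3] at e0
    apply hne
    have : x.re * x.re = 0 := by linear_combination e0
    exact mul_self_eq_zero.mp this
  have h := key h3 x.imI x.imJ x.imK (by
    rw [hre] at e0
    linear_combination -e0)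
  ext
  · exact hre
  · exact h.1
  · exact h.2.1
  · exact h.2.2

end TWT
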