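import Pool.Agent.TWT.Targets

/-!
# TWT: target T_EX (the periods of the point)
-/

namespace TWT

open WittVector Matrix

noncomputable section

/-! ### Real numbers -/

section reals

/-- the norm of the root of `W ^ (p ^ 2) + p W = d'` -/
lemma EX_.real1 {p : ℕ} (hp3 : 3 ≤ p) {q x y d : ℝ} (hq0 : 0 < q) (hq1 : q < 1)
    (hx0 : 0 < x) (hx : x ^ (p ^ 2 - 1) = q) (hd0 : 0 ≤ d) (hd : d ^ 2 = q * x ^ (2 * p))
    (hy0 : 0 ≤ y) (hle : y ^ p ^ 2 ≤ q * y → d ≤ q * y) : q * y < y ^ p ^ 2 := by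
  by_contra hcon
  rw [not_lt] at hcon
  have h1 := hle hcon
  have hdpos : 0 < d := by
    rcases hd0.lt_or_eq with h | h
    · exact h
    · exfalso
      rw [← h] at hd
      have : 0 < q * x ^ (2 * p) := by positivity
      rw [← hd] at this
      simp at this
  have hypos : 0 < y := by
    rcases hy0.lt_or_eq with h | h
    · exact h
    · exfalso
      rw [← h] at h1
      simp at h1
      linarith
  have hp2 : 1 ≤ p ^ 2 := Nat.one_le_pow _ _ (by omega)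
  have h2 : y ^ (p ^ 2 - 1) ≤ q := by
    have h3 : y ^ p ^ 2 = y ^ (p ^ 2 - 1) * y := by
      rw [← pow_succ, Nat.sub_add_cancel hp2]
    rw [h3] at hcon
    exact le_of_mul_le_mul_right hcon hypos
  have h4 : d ^ (2 * (p ^ 2 - 1)) ≤ q ^ (2 * p ^ 2) := by
    calc d ^ (2 * (p ^ 2 - 1)) ≤ (q * y) ^ (2 * (p ^ 2 - 1)) :=
          pow_le_pow_left₀ hd0 h1 _
      _ = q ^ (2 * (p ^ 2 - 1)) * (y ^ (p ^ 2 - 1)) ^ 2 := by
          rw [mul_pow]
          congr 1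
          rw [← pow_mul, mul_comm]
      _ ≤ q ^ (2 * (p ^ 2 - 1)) * q ^ 2 := by
          refine mul_le_mul_of_nonneg_left ?_ (by positivity)
          exact pow_le_pow_left₀ (by positivity) h2 2
      _ = q ^ (2 * p ^ 2) := by
          rw [← pow_add]
          congr 1
          omega
  have h5 : d ^ (2 * (p ^ 2 - 1)) = q ^ (p ^ 2 - 1 + 2 * p) := by
    rw [pow_mul, hd, mul_pow, ← pow_mul, mul_comm (2 * p), pow_mul, hx, ← pow_add]
  rw [h5] at h4
  have h6 : 2 * p ^ 2 ≤ p ^ 2 - 1 + 2 * p := by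
    by_contra h
    rw [not_le] at h
    exact absurd (pow_lt_pow_right_of_lt_one₀ hq0 hq1 h) (not_lt.2 h4)
  have h7 : p ^ 2 + 1 ≤ 2 * p := by omega
  nlinarith

/-- consequences of `y ^ (2 p ^ 2) = q x ^ (2 p)` -/
lemma EX_.real2 {p : ℕ} (hp3 : 3 ≤ p) {q x y : ℝ} (hq0 : 0 < q) (hq1 : q < 1)
    (hx : x ^ (p ^ 2 - 1) = q) (hy0 : 0 < y)
    (hy : y ^ (2 * p ^ 2) = q * x ^ (2 * p)) : q < y ^ p ∧ y ^ p ^ 3 < q * y ^ p := by
  have hp2 : 1 ≤ p ^ 2 := Nat.one_le_pow _ _ (by omega)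
  have h1 : y ^ (2 * p ^ 2 * (p ^ 2 - 1)) = q ^ (p ^ 2 - 1 + 2 * p) := by
    rw [pow_mul, hy, mul_pow, ← pow_mul, mul_comm (2 * p), pow_mul, hx, ← pow_add]
  obtain ⟨k, hk⟩ : ∃ k, p = k + 3 := ⟨p - 3, by omega⟩
  have hA : p ^ 2 - 1 + 2 * p < 2 * p * (p ^ 2 - 1) := by
    zify [hp2]
    rw [hk]
    push_cast
    nlinarith
  constructor
  · by_contra hcon
    rw [not_lt] at hcon
    have h2 : (y ^ p) ^ (2 * p * (p ^ 2 - 1)) ≤ q ^ (2 * p * (p ^ 2 - 1)) :=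
      pow_le_pow_left₀ (by positivity) hcon _
    have h3 : (y ^ p) ^ (2 * p * (p ^ 2 - 1)) = q ^ (p ^ 2 - 1 + 2 * p) := by
      rw [← h1, ← pow_mul]
      congr 1
      ring
    rw [h3] at h2
    exact absurd (pow_lt_pow_right_of_lt_one₀ hq0 hq1 hA) (not_lt.2 h2)
  · have h4 : y ^ p ^ 3 = y ^ (p * (p ^ 2 - 1)) * y ^ p := by
      rw [← pow_add]
      congr 1
      have : p * (p ^ 2 - 1) + p = p * p ^ 2 := by
        rw [← Nat.mul_succ]
        congr 1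
        omega
      rw [this]
      ring
    rw [h4]
    refine mul_lt_mul_of_pos_right ?_ (by positivity)
    by_contra hcon
    rw [not_lt] at hcon
    have h5 : q ^ (2 * p) ≤ (y ^ (p * (p ^ 2 - 1))) ^ (2 * p) :=
      pow_le_pow_left₀ hq0.le hcon _
    have h6 : (y ^ (p * (p ^ 2 - 1))) ^ (2 * p) = q ^ (p ^ 2 - 1 + 2 * p) := by
      rw [← h1, ← pow_mul]
      congr 1
      ring
    rw [h6] at h5
    have h7 : 2 * p < p ^ 2 - 1 + 2 * p := by
      have : 9 ≤ p ^ 2 := by nlinarith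
      omega
    exact absurd (pow_lt_pow_right_of_lt_one₀ hq0 hq1 h7) (not_lt.2 h5)

lemma EX_.real3 {p : ℕ} (hp3 : 3 ≤ p) {q x : ℝ} (hq1 : q < 1)
    (hx0 : 0 < x) (hx : x ^ (p ^ 2 - 1) = q) : x < 1 ∧ q < x ^ p := by
  have hp2 : 9 ≤ p ^ 2 := by nlinarith
  have hx1 : x < 1 := by
    by_contra h
    rw [not_lt] at h
    have : 1 ≤ x ^ (p ^ 2 - 1) := one_le_pow₀ h
    linarith
  refine ⟨hx1, ?_⟩
  rw [← hx]
  refine pow_lt_pow_right_of_lt_one₀ hx0 hx1 ?_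
  have : p + 1 < p ^ 2 := by nlinarith
  omega

/-- the valuation argument -/
lemma EX_.real4 {p : ℕ} (hp3 : 3 ≤ p) {q x y : ℝ} (hq0 : 0 < q) (hq1 : q < 1)
    (hx0 : 0 < x) (hx : x ^ (p ^ 2 - 1) = q)
    (hy : y ^ (2 * p ^ 2) = q * x ^ (2 * p)) (m : ℤ) :
    q ^ 4 * y ^ p ≠ q ^ m * (q * x ^ p) := by
  intro h
  have hqne : q ≠ 0 := hq0.ne'
  have hxne : x ≠ 0 := hx0.ne'
  have h1 : y ^ p = q ^ (m - 3) * x ^ p := by
    have h2 : q ^ m = q ^ (m - 3) * q ^ (3 : ℕ) := by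
      rw [← zpow_natCast, ← zpow_add₀ hqne]
      congr 1
      norm_num
    rw [h2] at h
    have h3 : q ^ 4 * y ^ p = q ^ 4 * (q ^ (m - 3) * x ^ p) := by
      rw [h]
      ring
    exact mul_left_cancel₀ (pow_ne_zero 4 hqne) h3
  have h4 : y ^ (2 * p ^ 2) = q ^ ((m - 3) * (2 * p : ℕ)) * x ^ (2 * p ^ 2) := by
    have h5 : y ^ (2 * p ^ 2) = (y ^ p) ^ (2 * p) := by
      rw [← pow_mul]
      congr 1
      ring
    rw [h5, h1, mul_pow, ← zpow_natCast (q ^ (m - 3)), ← _root_.zpow_mul]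
    congr 1
    rw [← pow_mul]
    congr 1
    ring
  rw [hy] at h4
  have h6 : q ^ (1 - (m - 3) * (2 * p : ℕ)) = x ^ (2 * p * (p - 1)) := by
    have h7 : x ^ (2 * p ^ 2) = x ^ (2 * p * (p - 1)) * x ^ (2 * p) := by
      rw [← pow_add]
      congr 1
      have : 2 * p * (p - 1) + 2 * p = 2 * p * p := by
        rw [← Nat.mul_succ]
        congr 1
        omega
      rw [this]
      ring
    rw [h7, ← mul_assoc] at h4
    have h8 := mul_right_cancel₀ (pow_ne_zero _ hxne) h4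
    rw [zpow_sub₀ hqne, zpow_one, div_eq_iff (zpow_ne_zero _ hqne)]
    exact h8.trans (mul_comm _ _)
  have h9 : q ^ ((1 - (m - 3) * (2 * p : ℕ)) * (p + 1 : ℕ)) = q ^ ((2 * p : ℕ) : ℤ) := by
    rw [_root_.zpow_mul, h6, zpow_natCast, zpow_natCast, ← pow_mul]
    have : 2 * p * (p - 1) * (p + 1) = (p ^ 2 - 1) * (2 * p) := by
      have h10 : (p - 1) * (p + 1) = p ^ 2 - 1 := by
        have h1p : 1 ≤ p := by omega
        have h1p2 : 1 ≤ p ^ 2 := Nat.one_le_pow _ _ h1p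
        zify [h1p, h1p2]
        ring
      rw [mul_assoc, h10]
      ring
    rw [this, pow_mul, hx]
  have h11 : (1 - (m - 3) * (2 * p : ℕ)) * (p + 1 : ℕ) = ((2 * p : ℕ) : ℤ) :=
    zpow_right_injective₀ hq0 hq1.ne h9
  push_cast at h11
  have h12 : (p : ℤ) ∣ 1 := by
    refine ⟨1 + 2 * (m - 3) * (p + 1), ?_⟩
    linear_combination h11
  have h13 : (p : ℤ) ≤ 1 := Int.le_of_dvd one_pos h12
  omega

end reals

/-! ### The wedge -/

lemma EX_.wedge {A : Type} [CommRing A] (P a t s r t' s' r' k : A) (hk : P ^ 3 = 2 * k + 1)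
    (ha : a * a = -1)
    (h : (t + P ^ 3 * s) * (-(a * t') + a * (P ^ 3 * s') + P ^ 5 * r') -
      (a * t - a * (P ^ 3 * s) + P ^ 5 * r) * (t' + P ^ 3 * s') = 0) :
    ∃ c, t * t' = P ^ 3 * c := by
  refine ⟨t * t' + k * a * (P ^ 2 * (t * r' - r * t') + 2 * P ^ 3 * a * s * s' +
    P ^ 5 * (s * r' - r * s')), ?_⟩
  linear_combination (-t * t') * hk + (-(k * a)) * h - 2 * k * t * t' * ha

variable (p : ℕ) [hp : Fact p.Prime]

lemma EX_.nO_mul (x y : OC p) : nO p (x * y) = nO p x * nO p y := by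
  change ‖(x : ℂ_[p]) * (y : ℂ_[p])‖ = _
  rw [norm_mul]

lemma EX_.nO_pow (x : OC p) (n : ℕ) : nO p (x ^ n) = nO p x ^ n := by
  change ‖(x : ℂ_[p]) ^ n‖ = _
  rw [norm_pow]

lemma EX_.nO_p : nO p (p : OC p) = np p := rfl

lemma EX_.nO_neg (x : OC p) : nO p (-x) = nO p x := by
  change ‖-(x : ℂ_[p])‖ = _
  rw [norm_neg]

lemma EX_.nO_add (x y : OC p) : nO p (x + y) ≤ max (nO p x) (nO p y) :=
  IsUltrametricDist.norm_add_le_max (x : ℂ_[p]) y

lemma EX_.nO_nonneg (x : OC p) : 0 ≤ nO p x := norm_nonneg _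

lemma EX_.nO_le_one (x : OC p) : nO p x ≤ 1 := norm_OC_le p x

lemma EX_.nO_zero : nO p 0 = 0 := by
  change ‖(0 : ℂ_[p])‖ = 0
  exact norm_zero

/-- the dominant term -/
lemma EX_.nO_dom {x y : OC p} (h : nO p y < nO p x) : nO p (x + y) = nO p x := by
  refine le_antisymm ((EX_.nO_add p x y).trans (max_le le_rfl h.le)) ?_
  have h1 : nO p x ≤ max (nO p (x + y)) (nO p (-y)) := by
    have := EX_.nO_add p (x + y) (-y)
    rwa [add_neg_cancel_right] at this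
  rw [EX_.nO_neg] at h1
  rcases le_max_iff.1 h1 with h2 | h2
  · exact h2
  · exact absurd h2 (not_le.2 h)

lemma EX_.nO_eq_of_sub {x y : OC p} (h : nO p (x - y) < nO p y) : nO p x = nO p y := by
  have := EX_.nO_dom p h
  rwa [add_sub_cancel] at this

/-- divisibility by powers of `p` -/
lemma EX_.divp {x : OC p} {n : ℕ} (h : nO p x ≤ np p ^ n) : ∃ d, (p : OC p) ^ n * d = x := by
  have h1 := (mem_pow_iff p x n).2 h
  rw [Ideal.span_singleton_pow, Ideal.mem_span_singleton] at h1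
  obtain ⟨c, hc⟩ := h1
  exact ⟨c, hc.symm⟩

lemma EX_.nO_two (h3 : 3 ≤ p) : nO p 2 = 1 := by
  refine le_antisymm (EX_.nO_le_one p 2) ?_
  by_contra hcon
  rw [not_le] at hcon
  obtain ⟨k, hk⟩ : ∃ k, p = 2 * k + 1 := by
    rcases hp.out.eq_two_or_odd' with h | h
    · omega
    · exact h
  have h1 : (1 : OC p) = (p : OC p) + -(2 * (k : OC p)) := by
    have : (p : OC p) = 2 * (k : OC p) + 1 := by
      exact_mod_cast congrArg (fun n : ℕ => (n : OC p)) hk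
    rw [this]
    ring
  have h2 : nO p (1 : OC p) = 1 := by
    change ‖(1 : ℂ_[p])‖ = 1
    exact norm_one
  have h4 := EX_.nO_add p (p : OC p) (-(2 * (k : OC p)))
  rw [← h1, h2, EX_.nO_neg, EX_.nO_mul, EX_.nO_p] at h4
  rcases le_max_iff.1 h4 with h5 | h5
  · exact absurd h5 (not_le.2 (norm_p_lt_one p))
  · have h6 : nO p 2 * nO p (k : OC p) ≤ nO p 2 * 1 :=
      mul_le_mul_of_nonneg_left (EX_.nO_le_one p _) (EX_.nO_nonneg p _)
    linarith

theorem p_EX (hROOT : T_ROOT p) (hPER : T_PER p) (hLT0 : T_LT0 p) : T_EX p := by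
  intro hp4 ω hω hωF η hη
  have h3 : 3 ≤ p := by
    have := hp.out.two_le
    omega
  have hq0 : 0 < np p := norm_p_pos p
  have hq1 : np p < 1 := norm_p_lt_one p
  obtain ⟨t₀, W₀, hg0, hθ0, hW0, hP0, hnd⟩ := hLT0 h3
  -- the data
  set a : Acris p := jj p ω with ha_def
  set I : OC p := theta p ω with hI_def
  have ha : a * a = -1 := by
    rw [ha_def, ← map_mul, hω, map_neg, map_one]
  have hI : I * I = -1 := by
    rw [hI_def, ← map_mul, hω, map_neg, map_one]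
  have hΦa : phiA p a = -a := by
    rw [ha_def, phiA_jj, hωF, map_neg]
  have hθa : thetaA p a = I := thetaA_jj p ω
  have hnI : nO p I = 1 := by
    have h1 : nO p I * nO p I = 1 := by
      rw [← EX_.nO_mul, hI, EX_.nO_neg]
      change ‖(1 : ℂ_[p])‖ = 1
      exact norm_one
    nlinarith [EX_.nO_nonneg p I]
  have hnpow : ∀ n : ℕ, nO p ((p : OC p) ^ n) = np p ^ n := fun n => EX_.nO_pow p _ n
  have hnη : nO p η ^ 2 = np p ^ 5 := by
    rw [← EX_.nO_pow, hη, hnpow]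
  have hη1 : nO p η ^ 2 ≤ np p := by
    rw [hnη]
    calc np p ^ 5 ≤ np p ^ 1 := pow_le_pow_of_le_one hq0.le hq1.le (by norm_num)
      _ = np p := pow_one _
  set P : OC p := thetaA p (phiA p t₀) with hP_def
  set x : ℝ := nO p W₀ with hx_def
  have hx : x ^ (p ^ 2 - 1) = np p := by
    rw [hx_def, ← EX_.nO_pow, hW0, EX_.nO_neg, EX_.nO_p]
  have hx0 : 0 < x := by
    rcases (EX_.nO_nonneg p W₀).lt_or_eq with h | h
    · exact h
    · exfalso
      have hne : p ^ 2 - 1 ≠ 0 := by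
        have : 9 ≤ p ^ 2 := by nlinarith
        omega
      have h1 : x = 0 := h.symm
      rw [h1, zero_pow hne] at hx
      exact hq0.ne hx
  obtain ⟨hx1, hxp⟩ := EX_.real3 h3 hq1 hx0 hx
  -- step 1
  have hnηP : nO p (-(η * P)) ^ 2 = (np p ^ 3) ^ 2 * (np p * x ^ (2 * p)) := by
    rw [EX_.nO_neg, EX_.nO_mul, mul_pow, hnη, hP0]
    ring
  have hxle : x ^ (2 * p) ≤ 1 := pow_le_one₀ hx0.le hx1.le
  have hle0 : np p * x ^ (2 * p) ≤ np p := mul_le_of_le_one_right hq0.le hxle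
  have hle1 : nO p (-(η * P)) ≤ np p ^ 3 := by
    refine (pow_le_pow_iff_left₀ (EX_.nO_nonneg p _) (by positivity) two_ne_zero).1 ?_
    rw [hnηP]
    exact mul_le_of_le_one_right (by positivity) (hle0.trans hq1.le)
  obtain ⟨d, hd⟩ := EX_.divp p hle1
  have hnd2 : nO p d ^ 2 = np p * x ^ (2 * p) := by
    have h1 : (np p ^ 3) ^ 2 * nO p d ^ 2 = (np p ^ 3) ^ 2 * (np p * x ^ (2 * p)) := by
      rw [← hnηP, ← hd, EX_.nO_mul, hnpow, mul_pow]
    exact mul_left_cancel₀ (by positivity) h1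
  obtain ⟨w, hw1, hw2, -⟩ := hROOT h3 d (hnd2.le.trans hle0)
  obtain ⟨s, hsg, hsθ, hsn⟩ := hPER h3 η hη1 w hw2
  rw [hw1] at hsθ
  -- step 2
  set y : ℝ := nO p (sh p w) with hy_def
  have hy0 : 0 ≤ y := EX_.nO_nonneg p _
  have hnW1 : nO p (sh p w ^ p ^ 2) = y ^ p ^ 2 := EX_.nO_pow p _ _
  have hnW2 : nO p ((p : OC p) * sh p w) = np p * y := EX_.nO_mul p _ _
  have hdom : np p * y < y ^ p ^ 2 := by
    refine EX_.real1 h3 hq0 hq1 hx0 hx (EX_.nO_nonneg p d) hnd2 hy0 fun h => ?_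
    rw [← hw1]
    refine (EX_.nO_add p _ _).trans ?_
    rw [hnW1, hnW2]
    exact max_le h le_rfl
  have hdy : nO p d = y ^ p ^ 2 := by
    rw [← hw1, EX_.nO_dom p (by rw [hnW1, hnW2]; exact hdom), hnW1]
  have hyst : y ^ (2 * p ^ 2) = np p * x ^ (2 * p) := by
    rw [← hnd2, hdy, ← pow_mul, mul_comm]
  have hypos : 0 < y := by
    rcases hy0.lt_or_eq with h | h
    · exact h
    · exfalso
      rw [← h, zero_pow (by positivity), mul_zero] at hdom
      exact lt_irrefl _ hdom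
  -- step 3
  obtain ⟨hyp1, hyp2⟩ := EX_.real2 h3 hq0 hq1 hx hypos hyst
  have hy1 : y ≤ 1 := EX_.nO_le_one p _
  have hns : nO p (thetaA p (phiA p s)) = np p * y ^ p := by
    have h1 : nO p (sh p w ^ p ^ 3 + (p : OC p) * sh p w ^ p) = np p * y ^ p := by
      rw [add_comm, EX_.nO_dom p, EX_.nO_mul, EX_.nO_pow, EX_.nO_p]
      rw [EX_.nO_mul, EX_.nO_pow, EX_.nO_pow, EX_.nO_p]
      exact hyp2
    rw [EX_.nO_eq_of_sub p (lt_of_le_of_lt hsn _), h1]
    rw [h1, pow_two]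
    exact mul_lt_mul_of_pos_left hyp1 hq0
  -- step 4
  set Q : OC p := (p : OC p) ^ 3 * thetaA p (phiA p s) with hQ_def
  have hnQ : nO p Q = np p ^ 4 * y ^ p := by
    rw [hQ_def, EX_.nO_mul, hnpow, hns]
    ring
  have hpy : y ^ p ≤ 1 := pow_le_one₀ hy0 hy1
  -- step 5
  have hn2 : nO p 2 = 1 := EX_.nO_two p h3
  have hn5 : nO p (-(2 * I * η * Q)) ^ 2 = (np p ^ 5) ^ 2 * (np p ^ 3 * y ^ (2 * p)) := by
    rw [EX_.nO_neg, EX_.nO_mul, EX_.nO_mul, EX_.nO_mul, hn2, hnI, mul_pow, mul_pow, hnη, hnQ]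
    ring
  have hyle : y ^ (2 * p) ≤ 1 := pow_le_one₀ hy0 hy1
  have hle5 : np p ^ 3 * y ^ (2 * p) ≤ np p := by
    calc np p ^ 3 * y ^ (2 * p) ≤ np p ^ 3 := mul_le_of_le_one_right (by positivity) hyle
      _ ≤ np p ^ 1 := pow_le_pow_of_le_one hq0.le hq1.le (by norm_num)
      _ = np p := pow_one _
  have hle6 : nO p (-(2 * I * η * Q)) ≤ np p ^ 5 := by
    refine (pow_le_pow_iff_left₀ (EX_.nO_nonneg p _) (by positivity) two_ne_zero).1 ?_
    rw [hn5]
    exact mul_le_of_le_one_right (by positivity) (hle5.trans hq1.le)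
  obtain ⟨d', hd'⟩ := EX_.divp p hle6
  have hnd3 : nO p d' ^ 2 ≤ np p := by
    have h1 : (np p ^ 5) ^ 2 * nO p d' ^ 2 = (np p ^ 5) ^ 2 * (np p ^ 3 * y ^ (2 * p)) := by
      rw [← hn5, ← hd', EX_.nO_mul, hnpow, mul_pow]
    rw [mul_left_cancel₀ (by positivity) h1]
    exact hle5
  obtain ⟨w', hw1', hw2', -⟩ := hROOT h3 d' hnd3
  obtain ⟨r, hrg, hrθ, hrn⟩ := hPER h3 η hη1 w' hw2'
  rw [hw1'] at hrθ
  have hnr : nO p (thetaA p (phiA p r)) ≤ np p := by
    set z : ℝ := nO p (sh p w') with hz_def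
    have hz0 : 0 ≤ z := EX_.nO_nonneg p _
    have hz1 : z ≤ 1 := EX_.nO_le_one p _
    have h1 : nO p (sh p w' ^ p ^ 3 + (p : OC p) * sh p w' ^ p) ≤ np p := by
      refine (EX_.nO_add p _ _).trans (max_le ?_ ?_)
      · rw [EX_.nO_pow]
        refine (pow_le_pow_iff_left₀ (by positivity) hq0.le two_ne_zero).1 ?_
        calc (z ^ p ^ 3) ^ 2 = (z ^ (2 * p ^ 2)) ^ p := by
              rw [← pow_mul, ← pow_mul]
              congr 1
              ring
          _ ≤ np p ^ p := pow_le_pow_left₀ (by positivity) hw2' p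
          _ ≤ np p ^ 2 := pow_le_pow_of_le_one hq0.le hq1.le (by omega)
      · rw [EX_.nO_mul, EX_.nO_pow, EX_.nO_p]
        exact mul_le_of_le_one_right hq0.le (pow_le_one₀ hz0 hz1)
    have h2 : thetaA p (phiA p r) = (thetaA p (phiA p r) -
        (sh p w' ^ p ^ 3 + (p : OC p) * sh p w' ^ p)) +
        (sh p w' ^ p ^ 3 + (p : OC p) * sh p w' ^ p) := by ring
    rw [h2]
    refine (EX_.nO_add p _ _).trans (max_le (hrn.trans ?_) h1)
    calc np p ^ 2 ≤ np p ^ 1 := pow_le_pow_of_le_one hq0.le hq1.le (by norm_num)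
      _ = np p := pow_one _
  set Q' : OC p := (p : OC p) ^ 5 * thetaA p (phiA p r) with hQ'_def
  have hnQ' : nO p Q' ≤ np p ^ 6 := by
    rw [hQ'_def, EX_.nO_mul, hnpow]
    calc np p ^ 5 * nO p (thetaA p (phiA p r)) ≤ np p ^ 5 * np p :=
          mul_le_mul_of_nonneg_left hnr (by positivity)
      _ = np p ^ 6 := by ring
  -- step 6
  have hΦp : ∀ n : ℕ, phiA p ((p : Acris p) ^ n) = (p : Acris p) ^ n := fun n => by
    rw [map_pow, map_natCast]
  have hθp : ∀ n : ℕ, thetaA p ((p : Acris p) ^ n) = (p : OC p) ^ n := fun n => by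
    rw [map_pow, map_natCast]
  have hΦ1 : phiA p (t₀ + (p : Acris p) ^ 3 * s) = phiA p t₀ + (p : Acris p) ^ 3 * phiA p s := by
    rw [map_add, map_mul, hΦp]
  have hΦ2 : phiA p (a * t₀ - a * ((p : Acris p) ^ 3 * s) + (p : Acris p) ^ 5 * r) =
      -(a * phiA p t₀) + a * ((p : Acris p) ^ 3 * phiA p s) + (p : Acris p) ^ 5 * phiA p r := by
    rw [map_add, map_sub, map_mul, map_mul, map_mul, map_mul, hΦp, hΦp, hΦa]
    ring
  have hθ1 : thetaA p (phiA p (t₀ + (p : Acris p) ^ 3 * s)) = P + Q := by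
    rw [hΦ1, map_add, map_mul, hθp]
  have hθ2 : thetaA p (phiA p (a * t₀ - a * ((p : Acris p) ^ 3 * s) + (p : Acris p) ^ 5 * r)) =
      -(I * P) + I * Q + Q' := by
    rw [hΦ2, map_add, map_add, map_neg, map_mul, map_mul, map_mul, map_mul, hθp, hθp, hθa]
  have hsum : thetaA p (phiA p (a * t₀ - a * ((p : Acris p) ^ 3 * s) +
      (p : Acris p) ^ 5 * r)) + I * thetaA p (phiA p (t₀ + (p : Acris p) ^ 3 * s)) =
      2 * I * Q + Q' := by
    rw [hθ1, hθ2]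
    ring
  have hnP : nO p P = np p * x ^ p := hP0
  have hQP : nO p Q < nO p P := by
    rw [hnQ, hnP]
    calc np p ^ 4 * y ^ p ≤ np p ^ 4 := mul_le_of_le_one_right (by positivity) hpy
      _ ≤ np p ^ 2 := pow_le_pow_of_le_one hq0.le hq1.le (by norm_num)
      _ = np p * np p := pow_two _
      _ < np p * x ^ p := mul_lt_mul_of_pos_left hxp hq0
  have hn1 : nO p (thetaA p (phiA p (t₀ + (p : Acris p) ^ 3 * s))) = np p * x ^ p := by
    rw [hθ1, EX_.nO_dom p hQP, hnP]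
  have hnS : nO p (thetaA p (phiA p (a * t₀ - a * ((p : Acris p) ^ 3 * s) +
      (p : Acris p) ^ 5 * r)) + I * thetaA p (phiA p (t₀ + (p : Acris p) ^ 3 * s))) =
      np p ^ 4 * y ^ p := by
    have h1 : nO p (2 * I * Q) = np p ^ 4 * y ^ p := by
      rw [EX_.nO_mul, EX_.nO_mul, hn2, hnI, one_mul, one_mul, hnQ]
    rw [hsum, EX_.nO_dom p, h1]
    rw [h1]
    calc nO p Q' ≤ np p ^ 6 := hnQ'
      _ ≤ np p ^ 5 := pow_le_pow_of_le_one hq0.le hq1.le (by norm_num)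
      _ = np p ^ 4 * np p := pow_succ _ _
      _ < np p ^ 4 * y ^ p := mul_lt_mul_of_pos_left hyp1 (by positivity)
  refine ⟨t₀ + (p : Acris p) ^ 3 * s,
    a * t₀ - a * ((p : Acris p) ^ 3 * s) + (p : Acris p) ^ 5 * r, ?_, ?_, ?_, ?_, ?_, ?_, ?_, ?_, ?_⟩
  · unfold Good at hg0 hsg ⊢
    rw [hΦ1, map_add, map_mul, hΦp, hg0, hsg]
    ring
  · unfold Good at hg0 hsg hrg ⊢
    rw [hΦ2, map_add, map_add, map_neg, map_mul, map_mul, map_mul, map_mul, hΦp, hΦp, hg0, hsg,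
      hrg, hΦa]
    ring
  · rw [hθ1, map_add, map_mul, hθp, hθ0]
    linear_combination (p : OC p) ^ 3 * hsθ + hd
  · rw [hθ2, map_add, map_sub, map_mul, map_mul, map_mul, map_mul, hθp, hθp, hθ0, hθa]
    linear_combination (-I * (p : OC p) ^ 3) * hsθ - I * hd + (p : OC p) ^ 5 * hrθ + hd'
  · intro h
    rw [h, EX_.nO_zero] at hn1
    have : 0 < np p * x ^ p := by positivity
    rw [← hn1] at this
    exact lt_irrefl _ this
  · intro h
    rw [h, EX_.nO_zero] at hnS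
    have : 0 < np p ^ 4 * y ^ p := by positivity
    rw [← hnS] at this
    exact lt_irrefl _ this
  · rw [hnS, hn1, ← hnQ, ← hnP]
    exact hQP
  · intro m
    rw [hnS, hn1]
    exact EX_.real4 h3 hq0 hq1 hx0 hx hyst m
  · intro h
    apply hnd
    rw [hΦ1, hΦ2] at h
    obtain ⟨k, hk⟩ : ∃ k, p = 2 * k + 1 := by
      rcases hp.out.eq_two_or_odd' with h | h
      · omega
      · exact h
    have hk3 : (p : Acris p) ^ 3 = 2 * (4 * (k : Acris p) ^ 3 + 6 * (k : Acris p) ^ 2 +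
        3 * (k : Acris p)) + 1 := by
      have : (p : Acris p) = 2 * (k : Acris p) + 1 := by
        exact_mod_cast congrArg (fun n : ℕ => (n : Acris p)) hk
      rw [this]
      ring
    exact EX_.wedge (p : Acris p) a t₀ s r (phiA p t₀) (phiA p s) (phiA p r) _ hk3 ha h

end

end TWT
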