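import Pool.Agent.TWT.Targets

/-!
# TWT: the final assembly
-/

namespace TWT

open WittVector Matrix

noncomputable section

variable (p : ℕ) [hp : Fact p.Prime]

namespace FIN_

/-- the curve condition for the point of `T_PT` -/
lemma mem_SS {F : Type} [Field F] (I η y : F) :
    ((lineOf η, idealOf p I (Submodule.span F {![y, 1]})),
      (Submodule.span F {![y, 1]}, idealOf p I (lineOf η))) ∈ SS p I η := by
  refine ⟨Submodule.span F {![y, 1]}, finrank_span_singleton ?_, rfl⟩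
  intro h
  have h1 := congrFun h 1
  simp at h1

/-- torus elements in the first projection -/
lemma tor1 {H : ClSub p} {e : AA p (PadicAlgCl p)} (hc : Coch p H e) (s : PadicAlgCl p)
    (hs : s ≠ 0) : ∃ g ∈ P1 p H,
      (g : Matrix (Fin 2) (Fin 2) (PadicAlgCl p)) = s • e.1 + (1 - e.1) := by
  obtain ⟨h, hh, he⟩ := hc.2 s hs
  refine ⟨Units.map (RingHom.fst (Matrix (Fin 2) (Fin 2) (PadicAlgCl p))
    (Quat p (PadicAlgCl p)) : _ →* _) h, Subgroup.mem_map_of_mem _ hh, ?_⟩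
  change (h : AA p (PadicAlgCl p)).1 = _
  rw [he]
  rfl

/-- torus elements in the second projection -/
lemma tor2 {H : ClSub p} {e : AA p (PadicAlgCl p)} (hc : Coch p H e) (s : PadicAlgCl p)
    (hs : s ≠ 0) : ∃ g ∈ P2 p H, (g : Quat p (PadicAlgCl p)) = s • e.2 + (1 - e.2) := by
  obtain ⟨h, hh, he⟩ := hc.2 s hs
  refine ⟨Units.map (RingHom.snd (Matrix (Fin 2) (Fin 2) (PadicAlgCl p))
    (Quat p (PadicAlgCl p)) : _ →* _) h, Subgroup.mem_map_of_mem _ hh, ?_⟩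
  change (h : AA p (PadicAlgCl p)).2 = _
  rw [he]
  rfl

end FIN_

theorem p_FIN (hPT : T_PT p) (hNQ : T_NQ p) (hNX : T_NX p) (hTRI : T_TRI) (hTRQ : T_TRQ p)
    (hNL1 : T_NL1 p) (hNL2 : T_NL2 p) (hTO1 : T_TO1 p) (hTO2 : T_TO2 p) (hGOU : T_GOU p) :
    T_FIN p := by
  intro h34
  obtain ⟨I, η, hI, hη, z, y, hz, hHdg, hHT, hyI, hyI1, hyI2⟩ := hPT h34
  have hI' : (algebraMap (PadicAlgCl p) ℂ_[p] I) ^ 2 = -1 := by
    rw [← map_pow, hI, map_neg, map_one]
  have hη' : (algebraMap (PadicAlgCl p) ℂ_[p] η) ^ 2 = (p : ℂ_[p]) ^ 5 := by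
    rw [← map_pow, hη, map_pow, map_natCast]
  refine ⟨I, η, hI, hη, z, hz, ?_, ?_⟩
  · rw [hHdg, hHT]
    exact FIN_.mem_SS p _ _ _
  · rintro H hS ⟨e, g, βH, hidem, hcoch, hβH, hg, h, hh, hq⟩
    have hc : Coch p H e := ⟨hidem, hcoch⟩
    obtain ⟨hee, he1, he1', he2, he2'⟩ := hidem
    have hq1 : (ranFl p ((h : AA p ℂ_[p]) *
        aaMap p (algebraMap (PadicAlgCl p) ℂ_[p]) e)).1 =
        Submodule.span ℂ_[p] {![y, 1]} := by
      rw [← hq, hHT]
    have hq2 : (ranFl p ((h : AA p ℂ_[p]) *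
        aaMap p (algebraMap (PadicAlgCl p) ℂ_[p]) e)).2 =
        idealOf p (algebraMap (PadicAlgCl p) ℂ_[p] I)
          (lineOf (algebraMap (PadicAlgCl p) ℂ_[p] η)) := by
      rw [← hq, hHT]
    have hB1 : BigM (P1 p H) := by
      rcases hTRI (PadicAlgCl p) (P1 p H) e.1 (congrArg Prod.fst hee) he1 he1'
        (fun s hs => FIN_.tor1 p hc s hs) with h1 | h1 | h1
      · exact (hNL1 H h1 g βH hβH hg).elim
      · obtain ⟨a, b, c, hne, hrel⟩ := hTO1 H e hc h1 h hh y hq1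
        exact (hne (hNQ h34 _ y hI' hyI hyI1 hyI2 a b c hrel)).elim
      · exact h1
    have hB2 : BigQ p (P2 p H) := by
      rcases hTRQ (PadicAlgCl p) (P2 p H) e.2 (congrArg Prod.snd hee) he2 he2'
        (fun s hs => FIN_.tor2 p hc s hs) with h1 | h1 | h1
      · exact (hNL2 h34 H h1).elim
      · obtain ⟨N, hN0, hNre, hN⟩ := hTO2 H e hc h1 h hh _ _ hI' hq2
        exact (hN0 (hNX h34 _ _ hI' hη' N hNre
          (hN _ (Submodule.mem_span_singleton_self _)))).elim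
      · exact h1
    exact hGOU h34 H hB1 hB2 hS

end

end TWT
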