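import Pool.Agent.TWT.Targets

/-!
# TWT: Goursat and Galois
-/

namespace TWT

open WittVector Matrix
open scoped commutatorElement

noncomputable section

namespace GOU_

variable (p : ℕ) [hp : Fact p.Prime]

/-! ### Norms and traces -/

omit hp in
lemma nrd_mul {R : Type} [CommRing R] (x y : Quat p R) :
    nrd p (x * y) = nrd p x * nrd p y := by
  simp only [nrd, QuaternionAlgebra.re_mul, QuaternionAlgebra.imI_mul,
    QuaternionAlgebra.imJ_mul, QuaternionAlgebra.imK_mul]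
  ring

omit hp in
lemma nrd_one {R : Type} [CommRing R] : nrd p (1 : Quat p R) = 1 := by
  simp [nrd]

/-- the reduced norm as a homomorphism -/
def nrdHom (R : Type) [CommRing R] : Quat p R →* R where
  toFun := nrd p
  map_one' := nrd_one p
  map_mul' := nrd_mul p

omit hp in
lemma re_comm {R : Type} [CommRing R] (x y : Quat p R) : (x * y).re = (y * x).re := by
  simp only [QuaternionAlgebra.re_mul]
  ring

omit hp in
lemma re_conj {R : Type} [CommRing R] (x : (Quat p R)ˣ) (y : Quat p R) :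
    ((x : Quat p R) * y * ((x⁻¹ : (Quat p R)ˣ) : Quat p R)).re = y.re := by
  rw [re_comm, ← mul_assoc, Units.inv_mul, one_mul]

omit hp in
/-- the characteristic equation -/
lemma sq_eq {R : Type} [CommRing R] (x : Quat p R) (hx : nrd p x = 1) :
    x * x = (2 * x.re) • x - 1 := by
  simp only [nrd] at hx
  ext
  · simp only [QuaternionAlgebra.re_mul, QuaternionAlgebra.re_sub, QuaternionAlgebra.re_smul,
      QuaternionAlgebra.re_one, smul_eq_mul]
    linear_combination -hx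
  · simp only [QuaternionAlgebra.imI_mul, QuaternionAlgebra.imI_sub, QuaternionAlgebra.imI_smul,
      QuaternionAlgebra.imI_one, smul_eq_mul]
    ring
  · simp only [QuaternionAlgebra.imJ_mul, QuaternionAlgebra.imJ_sub, QuaternionAlgebra.imJ_smul,
      QuaternionAlgebra.imJ_one, smul_eq_mul]
    ring
  · simp only [QuaternionAlgebra.imK_mul, QuaternionAlgebra.imK_sub, QuaternionAlgebra.imK_smul,
      QuaternionAlgebra.imK_one, smul_eq_mul]
    ring

omit hp in
lemma re_sq {R : Type} [CommRing R] (x : Quat p R) (hx : nrd p x = 1) :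
    (x * x).re = 2 * x.re ^ 2 - 1 := by
  rw [sq_eq p x hx]
  simp only [QuaternionAlgebra.re_sub, QuaternionAlgebra.re_smul, QuaternionAlgebra.re_one,
    smul_eq_mul]
  ring

omit hp in
lemma re_cube {R : Type} [CommRing R] (x : Quat p R) (hx : nrd p x = 1) :
    (x * x * x).re = 4 * x.re ^ 3 - 3 * x.re := by
  have h1 : x * x * x = (2 * x.re) • (x * x) - x := by
    rw [sq_eq p x hx, sub_mul, smul_mul_assoc, one_mul, sq_eq p x hx]
  rw [h1]
  simp only [QuaternionAlgebra.re_sub, QuaternionAlgebra.re_smul, smul_eq_mul, re_sq p x hx]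
  ring

/-! ### The two factors -/

/-- the matrix factor -/
abbrev MM : Type := Matrix (Fin 2) (Fin 2) (PadicAlgCl p)

/-- the quaternion factor -/
abbrev DD : Type := Quat p (PadicAlgCl p)

/-- first projection -/
def q1 : (AA p (PadicAlgCl p))ˣ →* (MM p)ˣ :=
  Units.map (RingHom.fst (MM p) (DD p) : _ →* _)

/-- second projection -/
def q2 : (AA p (PadicAlgCl p))ˣ →* (DD p)ˣ :=
  Units.map (RingHom.snd (MM p) (DD p) : _ →* _)

/-- first inclusion -/
def i1 : (MM p)ˣ →* (AA p (PadicAlgCl p))ˣ := Units.map (MonoidHom.inl (MM p) (DD p))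

/-- second inclusion -/
def i2 : (DD p)ˣ →* (AA p (PadicAlgCl p))ˣ := Units.map (MonoidHom.inr (MM p) (DD p))

lemma i1_conj (q : (AA p (PadicAlgCl p))ˣ) (a : (MM p)ˣ) :
    q * i1 p a * q⁻¹ = i1 p (q1 p q * a * (q1 p q)⁻¹) := by
  ext1
  refine Prod.ext ?_ ?_
  · simp [i1, q1]
  · have h : ((q : AA p (PadicAlgCl p)) * ((q⁻¹ : (AA p (PadicAlgCl p))ˣ) :
        AA p (PadicAlgCl p))).2 = 1 := by
      rw [Units.mul_inv]; rfl
    simp only [i1, q1, Units.val_mul, Units.coe_map, MonoidHom.inl_apply, Prod.snd_mul, mul_one]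
    exact h

lemma i2_conj (q : (AA p (PadicAlgCl p))ˣ) (b : (DD p)ˣ) :
    q * i2 p b * q⁻¹ = i2 p (q2 p q * b * (q2 p q)⁻¹) := by
  ext1
  refine Prod.ext ?_ ?_
  · have h : ((q : AA p (PadicAlgCl p)) * ((q⁻¹ : (AA p (PadicAlgCl p))ˣ) :
        AA p (PadicAlgCl p))).1 = 1 := by
      rw [Units.mul_inv]; rfl
    simp only [i2, q2, Units.val_mul, Units.coe_map, MonoidHom.inr_apply, Prod.fst_mul, mul_one]
    exact h
  · simp [i2, q2]

/-- elements with equal second projections differ by an element of the first factor -/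
lemma eq_i1 (g q : (AA p (PadicAlgCl p))ˣ) (h : q2 p g = q2 p q) :
    g = i1 p (q1 p g * (q1 p q)⁻¹) * q := by
  have h2 : (g : AA p (PadicAlgCl p)).2 = (q : AA p (PadicAlgCl p)).2 := congrArg Units.val h
  ext1
  refine Prod.ext ?_ ?_
  · have h3 : (((q1 p q)⁻¹ : (MM p)ˣ) : MM p) * (q : AA p (PadicAlgCl p)).1 = 1 :=
      Units.inv_mul (q1 p q)
    simp only [i1, Units.val_mul, Units.coe_map, MonoidHom.inl_apply, Prod.fst_mul]
    rw [mul_assoc, h3, mul_one]
    rfl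
  · simp only [i1, Units.val_mul, Units.coe_map, MonoidHom.inl_apply, Prod.snd_mul, one_mul]
    exact h2

/-- elements with equal first projections differ by an element of the second factor -/
lemma eq_i2 (g q : (AA p (PadicAlgCl p))ˣ) (h : q1 p g = q1 p q) :
    g = i2 p (q2 p g * (q2 p q)⁻¹) * q := by
  have h2 : (g : AA p (PadicAlgCl p)).1 = (q : AA p (PadicAlgCl p)).1 := congrArg Units.val h
  ext1
  refine Prod.ext ?_ ?_
  · simp only [i2, Units.val_mul, Units.coe_map, MonoidHom.inr_apply, Prod.fst_mul, one_mul]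
    exact h2
  · have h3 : (((q2 p q)⁻¹ : (DD p)ˣ) : DD p) * (q : AA p (PadicAlgCl p)).2 = 1 :=
      Units.inv_mul (q2 p q)
    simp only [i2, Units.val_mul, Units.coe_map, MonoidHom.inr_apply, Prod.snd_mul]
    rw [mul_assoc, h3, mul_one]
    rfl

/-- the group of pairs of elements of norm one -/
def KK : Subgroup (AA p (PadicAlgCl p))ˣ :=
  (((Units.map (Matrix.detMonoidHom : MM p →* PadicAlgCl p)).comp (q1 p)).ker) ⊓
    (((Units.map (nrdHom p (PadicAlgCl p))).comp (q2 p)).ker)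

lemma mem_KK (g : (AA p (PadicAlgCl p))ˣ) : g ∈ KK p ↔
    ((q1 p g : (MM p)ˣ) : MM p).det = 1 ∧ nrd p ((q2 p g : (DD p)ˣ) : DD p) = 1 := by
  unfold KK
  rw [Subgroup.mem_inf, MonoidHom.mem_ker, MonoidHom.mem_ker]
  refine and_congr ?_ ?_
  · rw [← Units.val_inj]
    rfl
  · rw [← Units.val_inj]
    rfl

lemma comm_le_KK : ⁅(⊤ : Subgroup (AA p (PadicAlgCl p))ˣ),
    (⊤ : Subgroup (AA p (PadicAlgCl p))ˣ)⁆ ≤ KK p := by
  unfold KK
  refine le_inf ?_ ?_
  · rw [Subgroup.commutator_le]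
    intro a _ b _
    rw [MonoidHom.mem_ker, map_commutatorElement, commutatorElement_eq_one_iff_mul_comm]
    exact mul_comm _ _
  · rw [Subgroup.commutator_le]
    intro a _ b _
    rw [MonoidHom.mem_ker, map_commutatorElement, commutatorElement_eq_one_iff_mul_comm]
    exact mul_comm _ _

/-! ### Commutators -/

lemma mat_ne : (!![1, 1; 0, 1] : MM p) * !![2, 0; 0, 2⁻¹] ≠ !![2, 0; 0, 2⁻¹] * !![1, 1; 0, 1] ∧
    -((!![1, 1; 0, 1] : MM p) * !![2, 0; 0, 2⁻¹]) ≠ !![2, 0; 0, 2⁻¹] * !![1, 1; 0, 1] := by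
  constructor
  · intro h
    have h1 := congrFun (congrFun h 0) 1
    simp only [Matrix.mul_apply, Fin.sum_univ_two] at h1
    norm_num at h1
  · intro h
    have h1 := congrFun (congrFun h 0) 0
    simp only [Matrix.neg_apply, Matrix.mul_apply, Fin.sum_univ_two] at h1
    norm_num at h1

lemma comm_mul {G : Type} [Group G] (a b : G) : ⁅a, b⁆ * b * a = a * b := by
  rw [commutatorElement_def]
  group

lemma comm_conj {G : Type} [Group G] {P : Subgroup G} {g n : G} (hg : g ∈ P)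
    (hn : n ∈ ⁅P, P⁆) : g * n * g⁻¹ ∈ ⁅P, P⁆ := by
  have hle : ⁅P, P⁆ ≤ P := by
    rw [Subgroup.commutator_le]
    intro a ha b hb
    rw [commutatorElement_def]
    exact P.mul_mem (P.mul_mem (P.mul_mem ha hb) (P.inv_mem ha)) (P.inv_mem hb)
  have h1 : g * n * g⁻¹ = ⁅g, n⁆ * n := by
    rw [commutatorElement_def]
    group
  rw [h1]
  exact Subgroup.mul_mem _ (Subgroup.commutator_mem_commutator hg (hle hn)) hn

lemma bigM_comm (hSIM : T_SIM) (P : Subgroup (MM p)ˣ) (hP : BigM P) : BigM ⁅P, P⁆ := by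
  refine hSIM (PadicAlgCl p) ⁅P, P⁆ ?_ ?_
  · intro g hg n hn
    obtain ⟨h, hh, e⟩ := hP (g : MM p) hg
    have : h = g := Units.ext e
    subst this
    exact comm_conj hh hn
  · obtain ⟨u, hu, eu⟩ := hP !![1, 1; 0, 1] (by simp [Matrix.det_fin_two])
    obtain ⟨d, hd, ed⟩ := hP !![2, 0; 0, 2⁻¹] (by simp [Matrix.det_fin_two])
    have h1 : ((⁅d, u⁆ : (MM p)ˣ) : MM p) * (!![1, 1; 0, 1] * !![2, 0; 0, 2⁻¹]) =
        !![2, 0; 0, 2⁻¹] * !![1, 1; 0, 1] := by
      have := congrArg Units.val (comm_mul d u)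
      rw [Units.val_mul, Units.val_mul, Units.val_mul, eu, ed, Matrix.mul_assoc] at this
      exact this
    refine ⟨⁅d, u⁆, Subgroup.commutator_mem_commutator hd hu, ?_, ?_, ?_⟩
    · have := congrArg Matrix.det h1
      rw [Matrix.det_mul, Matrix.det_mul, Matrix.det_mul] at this
      simpa [Matrix.det_fin_two] using this
    · intro h
      rw [h, one_mul] at h1
      exact (mat_ne p).1 h1
    · intro h
      rw [h, neg_one_mul] at h1
      exact (mat_ne p).2 h1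

/-- preimages under the splitting -/
lemma exists_spl (hSPL : T_SPL p) : ∃ I : PadicAlgCl p, I ^ 2 = -1 ∧
    Function.Bijective (spl p I : DD p → MM p) := by
  obtain ⟨I, hI⟩ := IsAlgClosed.exists_pow_nat_eq (-1 : PadicAlgCl p) (n := 2) (by norm_num)
  refine ⟨I, hI, (hSPL (PadicAlgCl p) I hI).2.2.2.2.2.2 ?_ ?_⟩
  · exact isUnit_iff_ne_zero.mpr two_ne_zero
  · exact isUnit_iff_ne_zero.mpr (by exact_mod_cast hp.out.ne_zero)

lemma spl_neg (hSPL : T_SPL p) (I : PadicAlgCl p) (hI : I ^ 2 = -1) (x : DD p) :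
    spl p I (-x) = -spl p I x := by
  have h := (hSPL (PadicAlgCl p) I hI).2.2.2.1 (-1) x
  rw [neg_one_smul, neg_one_smul] at h
  exact h

lemma bigQ_comm (hSIQ : T_SIQ p) (hSPL : T_SPL p) (P : Subgroup (DD p)ˣ) (hP : BigQ p P) :
    BigQ p ⁅P, P⁆ := by
  refine hSIQ (PadicAlgCl p) ⁅P, P⁆ ?_ ?_
  · intro g hg n hn
    obtain ⟨h, hh, e⟩ := hP (g : DD p) hg
    have : h = g := Units.ext e
    subst this
    exact comm_conj hh hn
  · obtain ⟨I, hI, -, hsur⟩ := exists_spl p hSPL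
    obtain ⟨-, hmul, -, -, hdet, -, -⟩ := hSPL (PadicAlgCl p) I hI
    obtain ⟨xu, hxu⟩ := hsur !![1, 1; 0, 1]
    obtain ⟨xd, hxd⟩ := hsur !![2, 0; 0, 2⁻¹]
    have nu : nrd p xu = 1 := by rw [← hdet, hxu]; simp [Matrix.det_fin_two]
    have nd : nrd p xd = 1 := by rw [← hdet, hxd]; simp [Matrix.det_fin_two]
    obtain ⟨u, hu, eu⟩ := hP xu nu
    obtain ⟨d, hd, ed⟩ := hP xd nd
    have h1 : ((⁅d, u⁆ : (DD p)ˣ) : DD p) * (xu * xd) = xd * xu := by
      have := congrArg Units.val (comm_mul d u)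
      rw [Units.val_mul, Units.val_mul, Units.val_mul, eu, ed, mul_assoc] at this
      exact this
    refine ⟨⁅d, u⁆, Subgroup.commutator_mem_commutator hd hu, ?_, ?_, ?_⟩
    · have := congrArg (nrd p) h1
      rw [nrd_mul, nrd_mul, nrd_mul, nu, nd] at this
      simpa using this
    · intro h
      rw [h, one_mul] at h1
      have := congrArg (spl p I) h1
      rw [hmul, hmul, hxu, hxd] at this
      exact (mat_ne p).1 this
    · intro h
      rw [h, neg_one_mul] at h1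
      have := congrArg (spl p I) h1
      rw [spl_neg p hSPL I hI, hmul, hmul, hxu, hxd] at this
      exact (mat_ne p).2 this

/-! ### Goursat -/

/-- the first projection contains all elements of determinant one -/
def S1 (Q : Subgroup (AA p (PadicAlgCl p))ˣ) : Prop :=
  ∀ a : (MM p)ˣ, (a : MM p).det = 1 → ∃ q ∈ Q, q1 p q = a

/-- the second projection contains all elements of norm one -/
def S2 (Q : Subgroup (AA p (PadicAlgCl p))ˣ) : Prop :=
  ∀ b : (DD p)ˣ, nrd p (b : DD p) = 1 → ∃ q ∈ Q, q2 p q = b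

lemma first (hSIM : T_SIM) (Q : Subgroup (AA p (PadicAlgCl p))ˣ) (hQ : Q ≤ KK p)
    (h1 : S1 p Q) (h2 : S2 p Q)
    (hn : ∃ n : (MM p)ˣ, i1 p n ∈ Q ∧ (n : MM p) ≠ 1 ∧ (n : MM p) ≠ -1) : KK p ≤ Q := by
  have hN : BigM (Q.comap (i1 p)) := by
    refine hSIM (PadicAlgCl p) _ ?_ ?_
    · intro g hg n hn
      obtain ⟨q, hq, rfl⟩ := h1 g hg
      rw [Subgroup.mem_comap, ← i1_conj]
      exact Q.mul_mem (Q.mul_mem hq hn) (Q.inv_mem hq)
    · obtain ⟨n, hn, hn1, hn2⟩ := hn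
      exact ⟨n, hn, ((mem_KK p _).mp (hQ hn)).1, hn1, hn2⟩
  intro g hg
  obtain ⟨hg1, hg2⟩ := (mem_KK p g).mp hg
  obtain ⟨q, hq, e⟩ := h2 (q2 p g) hg2
  rw [eq_i1 p g q e.symm]
  refine Q.mul_mem ?_ hq
  have hq1 := ((mem_KK p _).mp (hQ hq)).1
  have hdet : ((q1 p g * (q1 p q)⁻¹ : (MM p)ˣ) : MM p).det = 1 := by
    have h3 : ((q1 p g * (q1 p q)⁻¹ : (MM p)ˣ) : MM p) * ((q1 p q : (MM p)ˣ) : MM p) =
        ((q1 p g : (MM p)ˣ) : MM p) := by
      rw [← Units.val_mul, inv_mul_cancel_right]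
    have h4 := congrArg Matrix.det h3
    rw [Matrix.det_mul, hq1, hg1, mul_one] at h4
    exact h4
  obtain ⟨h, hh, e2⟩ := hN _ hdet
  have e3 : h = q1 p g * (q1 p q)⁻¹ := Units.ext e2
  rw [← e3]
  exact hh

lemma second (hSIQ : T_SIQ p) (Q : Subgroup (AA p (PadicAlgCl p))ˣ) (hQ : Q ≤ KK p)
    (h1 : S1 p Q) (h2 : S2 p Q)
    (hn : ∃ n : (DD p)ˣ, i2 p n ∈ Q ∧ (n : DD p) ≠ 1 ∧ (n : DD p) ≠ -1) : KK p ≤ Q := by
  have hN : BigQ p (Q.comap (i2 p)) := by
    refine hSIQ (PadicAlgCl p) _ ?_ ?_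
    · intro g hg n hn
      obtain ⟨q, hq, rfl⟩ := h2 g hg
      rw [Subgroup.mem_comap, ← i2_conj]
      exact Q.mul_mem (Q.mul_mem hq hn) (Q.inv_mem hq)
    · obtain ⟨n, hn, hn1, hn2⟩ := hn
      exact ⟨n, hn, ((mem_KK p _).mp (hQ hn)).2, hn1, hn2⟩
  intro g hg
  obtain ⟨hg1, hg2⟩ := (mem_KK p g).mp hg
  obtain ⟨q, hq, e⟩ := h1 (q1 p g) hg1
  rw [eq_i2 p g q e.symm]
  refine Q.mul_mem ?_ hq
  have hq2 := ((mem_KK p _).mp (hQ hq)).2
  have hdet : nrd p ((q2 p g * (q2 p q)⁻¹ : (DD p)ˣ) : DD p) = 1 := by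
    have h3 : ((q2 p g * (q2 p q)⁻¹ : (DD p)ˣ) : DD p) * ((q2 p q : (DD p)ˣ) : DD p) =
        ((q2 p g : (DD p)ˣ) : DD p) := by
      rw [← Units.val_mul, inv_mul_cancel_right]
    have h4 := congrArg (nrd p) h3
    rw [nrd_mul, hq2, hg2, mul_one] at h4
    exact h4
  obtain ⟨h, hh, e2⟩ := hN _ hdet
  have e3 : h = q2 p g * (q2 p q)⁻¹ := Units.ext e2
  rw [← e3]
  exact hh

/-! ### Galois -/

/-- unipotent elements -/
def UU (a : PadicAlgCl p) : (MM p)ˣ where
  val := !![1, a; 0, 1]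
  inv := !![1, -a; 0, 1]
  val_inv := by
    ext i j
    fin_cases i <;> fin_cases j <;> simp [Matrix.mul_apply, Fin.sum_univ_two]
  inv_val := by
    ext i j
    fin_cases i <;> fin_cases j <;> simp [Matrix.mul_apply, Fin.sum_univ_two]

lemma UU_val (a : PadicAlgCl p) : (UU p a : MM p) = !![1, a; 0, 1] := rfl

lemma UU_mul (a b : PadicAlgCl p) : UU p a * UU p b = UU p (a + b) := by
  ext i j
  rw [Units.val_mul, UU_val, UU_val, UU_val]
  fin_cases i <;> fin_cases j <;> simp [Matrix.mul_apply, Fin.sum_univ_two, add_comm]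

lemma UU_pow (n : ℕ) : UU p 1 ^ n = UU p n := by
  induction n with
  | zero =>
    ext i j
    rw [pow_zero, Units.val_one, UU_val]
    fin_cases i <;> fin_cases j <;> simp
  | succ n ih =>
    rw [pow_succ, ih, UU_mul]
    push_cast
    rfl

/-- diagonal elements -/
def DG (r : PadicAlgCl p) (hr : r ≠ 0) : (MM p)ˣ where
  val := !![r, 0; 0, r⁻¹]
  inv := !![r⁻¹, 0; 0, r]
  val_inv := by
    ext i j
    fin_cases i <;> fin_cases j <;> simp [Matrix.mul_apply, Fin.sum_univ_two, hr]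
  inv_val := by
    ext i j
    fin_cases i <;> fin_cases j <;> simp [Matrix.mul_apply, Fin.sum_univ_two, hr]

lemma DG_conj (r : PadicAlgCl p) (hr : r ≠ 0) :
    DG p r hr * UU p 1 * (DG p r hr)⁻¹ = UU p (r ^ 2) := by
  rw [mul_inv_eq_iff_eq_mul]
  have hv : (DG p r hr : MM p) = !![r, 0; 0, r⁻¹] := rfl
  apply Units.ext
  rw [Units.val_mul, Units.val_mul, UU_val, UU_val, hv]
  ext i j
  fin_cases i <;> fin_cases j <;> simp [Matrix.mul_apply, Fin.sum_univ_two]
  field_simp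

lemma eq_i2_of (w : (AA p (PadicAlgCl p))ˣ) (h : q1 p w = 1) : w = i2 p (q2 p w) := by
  have := eq_i2 p w 1 (by rw [h, map_one])
  rw [map_one, inv_one, mul_one, mul_one] at this
  exact this

lemma eq_i1_of (w : (AA p (PadicAlgCl p))ˣ) (h : q2 p w = 1) : w = i1 p (q1 p w) := by
  have := eq_i1 p w 1 (by rw [h, map_one])
  rw [map_one, inv_one, mul_one, mul_one] at this
  exact this

lemma step (Q : Subgroup (AA p (PadicAlgCl p))ˣ) (h1 : S1 p Q)
    (n2 : ∀ n : (DD p)ˣ, i2 p n ∈ Q → (n : DD p) = 1 ∨ (n : DD p) = -1)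
    (q : (AA p (PadicAlgCl p))ˣ) (hq : q ∈ Q) (e : q1 p q = UU p 1) (n : ℕ) (hn : n ≠ 0) :
    ((q2 p q : (DD p)ˣ) : DD p).re = (((q2 p q : (DD p)ˣ) : DD p) ^ n).re ∨
    ((q2 p q : (DD p)ˣ) : DD p).re = -(((q2 p q : (DD p)ˣ) : DD p) ^ n).re := by
  obtain ⟨r, hr⟩ := IsAlgClosed.exists_pow_nat_eq (n : PadicAlgCl p) (n := 2) (by norm_num)
  have hr0 : r ≠ 0 := by
    rintro rfl
    rw [zero_pow two_ne_zero] at hr
    exact hn (by exact_mod_cast hr.symm)
  obtain ⟨d, hd, ed⟩ := h1 (DG p r hr0) (by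
    change (!![r, 0; 0, r⁻¹] : MM p).det = 1
    rw [Matrix.det_fin_two_of, mul_inv_cancel₀ hr0]
    simp)
  set w := d * q * d⁻¹ * (q ^ n)⁻¹ with hw
  have hwQ : w ∈ Q := Q.mul_mem (Q.mul_mem (Q.mul_mem hd hq) (Q.inv_mem hd))
    (Q.inv_mem (Q.pow_mem hq n))
  have hw1 : q1 p w = 1 := by
    rw [hw, map_mul, map_mul, map_mul, map_inv, map_inv, map_pow, e, ed, DG_conj, UU_pow, hr,
      mul_inv_cancel]
  have hw2 := n2 (q2 p w) (by rw [← eq_i2_of p w hw1]; exact hwQ)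
  have hw3 : ((q2 p w : (DD p)ˣ) : DD p) * ((q2 p q : (DD p)ˣ) : DD p) ^ n =
      ((q2 p d : (DD p)ˣ) : DD p) * ((q2 p q : (DD p)ˣ) : DD p) *
        (((q2 p d)⁻¹ : (DD p)ˣ) : DD p) := by
    rw [← Units.val_pow_eq_pow_val, ← Units.val_mul, ← Units.val_mul, ← Units.val_mul, hw]
    congr 1
    rw [map_mul, map_mul, map_mul, map_inv, map_inv, map_pow, inv_mul_cancel_right]
  have hw4 := congrArg QuaternionAlgebra.re hw3
  rw [re_conj] at hw4
  rcases hw2 with h | h
  · rw [h, one_mul] at hw4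
    exact Or.inl hw4.symm
  · rw [h, neg_one_mul, QuaternionAlgebra.re_neg] at hw4
    exact Or.inr hw4.symm

lemma fixed (x : PadicAlgCl p) (h : ∀ σ : PadicAlgCl p ≃ₐ[ℚ_[p]] PadicAlgCl p, σ x = x) :
    ∃ y : ℚ_[p], algebraMap _ _ y = x := by
  have h1 : x ∈ (⊥ : IntermediateField ℚ_[p] (PadicAlgCl p)) :=
    (InfiniteGalois.mem_bot_iff_fixed x).mpr h
  exact IntermediateField.mem_bot.mp h1

lemma third (hDV : T_DV p) (hp4 : p % 4 = 3) (Q : Subgroup (AA p (PadicAlgCl p))ˣ)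
    (hQ : Q ≤ KK p) (h1 : S1 p Q)
    (hσ : ∀ σ : PadicAlgCl p ≃ₐ[ℚ_[p]] PadicAlgCl p, ∀ q ∈ Q,
      Units.map (aaMap p (σ : PadicAlgCl p →+* PadicAlgCl p) : _ →* _) q ∈ Q)
    (n1 : ∀ n : (MM p)ˣ, i1 p n ∈ Q → (n : MM p) = 1 ∨ (n : MM p) = -1)
    (n2 : ∀ n : (DD p)ˣ, i2 p n ∈ Q → (n : DD p) = 1 ∨ (n : DD p) = -1) : False := by
  obtain ⟨q, hq, e⟩ := h1 (UU p 1) (by rw [UU_val, Matrix.det_fin_two_of]; simp)
  set h : DD p := ((q2 p q : (DD p)ˣ) : DD p) with hh
  have hnrd : nrd p h = 1 := ((mem_KK p _).mp (hQ hq)).2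
  have hre : h.re ^ 2 = 1 := by
    have s2 := step p Q h1 n2 q hq e 2 two_ne_zero
    have s3 := step p Q h1 n2 q hq e 3 three_ne_zero
    rw [← hh, pow_two, re_sq p h hnrd] at s2
    rw [← hh, pow_succ, pow_two, re_cube p h hnrd] at s3
    set r := h.re with hr
    have e1 : r ^ 2 = (2 * r ^ 2 - 1) ^ 2 := by
      rcases s2 with s | s
      · linear_combination (r + (2 * r ^ 2 - 1)) * s
      · linear_combination (r - (2 * r ^ 2 - 1)) * s
    have e2 : r ^ 2 = (4 * r ^ 3 - 3 * r) ^ 2 := by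
      rcases s3 with s | s
      · linear_combination (r + (4 * r ^ 3 - 3 * r)) * s
      · linear_combination (r - (4 * r ^ 3 - 3 * r)) * s
    have e3 : (4 * r ^ 2 - 1) * (r ^ 2 - 1) = 0 := by linear_combination -e1
    rcases mul_eq_zero.mp e3 with e4 | e4
    · exfalso
      have e5 : (3 : PadicAlgCl p) = 0 := by
        have e6 : (3 : PadicAlgCl p) * r ^ 2 = 0 := by
          linear_combination -e2 - r ^ 2 * (4 * r ^ 2 - 5) * e4
        linear_combination 4 * e6 - 3 * e4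
      exact three_ne_zero e5
    · linear_combination e4
  have hre' : h.re = 1 ∨ h.re = -1 := by
    have ht : (h.re - 1) * (h.re + 1) = 0 := by linear_combination hre
    rcases mul_eq_zero.mp ht with s | s
    · exact Or.inl (sub_eq_zero.mp s)
    · exact Or.inr (eq_neg_of_add_eq_zero_left s)
  have hfix : ∀ σ : PadicAlgCl p ≃ₐ[ℚ_[p]] PadicAlgCl p,
      quatMap p (σ : PadicAlgCl p →+* PadicAlgCl p) h = h := by
    intro σ
    set q' := Units.map ((aaMap p (σ : PadicAlgCl p →+* PadicAlgCl p) :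
      AA p (PadicAlgCl p) →+* AA p (PadicAlgCl p)) :
        AA p (PadicAlgCl p) →* AA p (PadicAlgCl p)) q with hq'
    have hq'Q : q' ∈ Q := hσ σ q hq
    have e' : q1 p q' = UU p 1 := by
      have ht : ((q1 p q' : (MM p)ˣ) : MM p) =
          (σ : PadicAlgCl p →+* PadicAlgCl p).mapMatrix ((q1 p q : (MM p)ˣ) : MM p) := rfl
      apply Units.ext
      rw [ht, e, UU_val]
      ext i j
      fin_cases i <;> fin_cases j <;> simp
    have hw1 : q1 p (q' * q⁻¹) = 1 := by rw [map_mul, map_inv, e', e, mul_inv_cancel]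
    have hw2 := n2 (q2 p (q' * q⁻¹)) (by
      rw [← eq_i2_of p _ hw1]; exact Q.mul_mem hq'Q (Q.inv_mem hq))
    have h3 : ((q2 p (q' * q⁻¹) : (DD p)ˣ) : DD p) * h =
        quatMap p (σ : PadicAlgCl p →+* PadicAlgCl p) h := by
      have h3' : q2 p (q' * q⁻¹) * q2 p q = q2 p q' := by
        rw [map_mul, map_inv, inv_mul_cancel_right]
      exact congrArg Units.val h3'
    rcases hw2 with s | s
    · rw [s, one_mul] at h3
      exact h3.symm
    · exfalso
      rw [s, neg_one_mul] at h3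
      have h4 : -h.re = (σ : PadicAlgCl p →+* PadicAlgCl p) h.re :=
        congrArg QuaternionAlgebra.re h3
      have h5 : (2 : PadicAlgCl p) = 0 := by
        rcases hre' with t | t
        · rw [t, map_one] at h4
          linear_combination -h4
        · rw [t, map_neg, map_one] at h4
          linear_combination h4
      exact two_ne_zero h5
  obtain ⟨yI, hyI⟩ := fixed p h.imI fun σ => congrArg QuaternionAlgebra.imI (hfix σ)
  obtain ⟨yJ, hyJ⟩ := fixed p h.imJ fun σ => congrArg QuaternionAlgebra.imJ (hfix σ)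
  obtain ⟨yK, hyK⟩ := fixed p h.imK fun σ => congrArg QuaternionAlgebra.imK (hfix σ)
  have hy : yI ^ 2 - (p : ℚ_[p]) * (yJ ^ 2 + yK ^ 2) = 0 := by
    apply (algebraMap ℚ_[p] (PadicAlgCl p)).injective
    have ht := hnrd
    unfold nrd at ht
    rw [← hyI, ← hyJ, ← hyK, hre] at ht
    rw [map_sub, map_mul, map_pow, map_add, map_pow, map_pow, map_natCast, map_zero]
    linear_combination ht
  have hx := hDV hp4 ⟨0, yI, yJ, yK⟩ (by
    ext
    · simp only [QuaternionAlgebra.re_mul, QuaternionAlgebra.re_zero]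
      linear_combination -hy
    · simp only [QuaternionAlgebra.imI_mul, QuaternionAlgebra.imI_zero]
      ring
    · simp only [QuaternionAlgebra.imJ_mul, QuaternionAlgebra.imJ_zero]
      ring
    · simp only [QuaternionAlgebra.imK_mul, QuaternionAlgebra.imK_zero]
      ring)
  have hzI : yI = 0 := congrArg QuaternionAlgebra.imI hx
  have hzJ : yJ = 0 := congrArg QuaternionAlgebra.imJ hx
  have hzK : yK = 0 := congrArg QuaternionAlgebra.imK hx
  rw [hzI, map_zero] at hyI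
  rw [hzJ, map_zero] at hyJ
  rw [hzK, map_zero] at hyK
  have hhh : h * h = 1 := by
    rw [sq_eq p h hnrd]
    ext
    · simp only [QuaternionAlgebra.re_sub, QuaternionAlgebra.re_smul, QuaternionAlgebra.re_one,
        smul_eq_mul]
      linear_combination 2 * hre
    · simp only [QuaternionAlgebra.imI_sub, QuaternionAlgebra.imI_smul,
        QuaternionAlgebra.imI_one, smul_eq_mul]
      rw [← hyI]; ring
    · simp only [QuaternionAlgebra.imJ_sub, QuaternionAlgebra.imJ_smul,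
        QuaternionAlgebra.imJ_one, smul_eq_mul]
      rw [← hyJ]; ring
    · simp only [QuaternionAlgebra.imK_sub, QuaternionAlgebra.imK_smul,
        QuaternionAlgebra.imK_one, smul_eq_mul]
      rw [← hyK]; ring
  have hq2 : q2 p (q * q) = 1 := by
    apply Units.ext
    rw [map_mul, Units.val_mul]
    exact hhh
  have hi : i1 p (UU p 2) ∈ Q := by
    have ht : q1 p (q * q) = UU p 2 := by
      rw [map_mul, e, UU_mul]
      norm_num
    rw [← ht, ← eq_i1_of p _ hq2]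
    exact Q.mul_mem hq hq
  rcases n1 _ hi with s | s
  · have := congrFun (congrFun s 0) 1
    rw [UU_val] at this
    simp at this
  · have := congrFun (congrFun s 0) 1
    rw [UU_val] at this
    simp at this

lemma map_stable (H : ClSub p) (hSTA : T_STA p)
    (σ : PadicAlgCl p ≃ₐ[ℚ_[p]] PadicAlgCl p) (q : (AA p (PadicAlgCl p))ˣ)
    (hq : q ∈ ⁅H.pts (PadicAlgCl p), H.pts (PadicAlgCl p)⁆) :
    Units.map (aaMap p (σ : PadicAlgCl p →+* PadicAlgCl p) : _ →* _) q ∈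
      ⁅H.pts (PadicAlgCl p), H.pts (PadicAlgCl p)⁆ := by
  have h1 : ⁅H.pts (PadicAlgCl p), H.pts (PadicAlgCl p)⁆.map
      (Units.map (aaMap p (σ : PadicAlgCl p →+* PadicAlgCl p) : _ →* _)) ≤
      ⁅H.pts (PadicAlgCl p), H.pts (PadicAlgCl p)⁆ := by
    rw [Subgroup.map_commutator]
    have h2 : (H.pts (PadicAlgCl p)).map
        (Units.map (aaMap p (σ : PadicAlgCl p →+* PadicAlgCl p) : _ →* _)) ≤
        H.pts (PadicAlgCl p) := by
      rintro _ ⟨g, hg, rfl⟩
      exact hSTA H σ g hg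
    exact Subgroup.commutator_mono h2 h2
  exact h1 ⟨q, hq, rfl⟩

end GOU_

/-- Goursat and Galois -/
theorem p_GOU (p : ℕ) [hp : Fact p.Prime] (hSTA : T_STA p) (hSIM : T_SIM) (hSIQ : T_SIQ p)
    (hDV : T_DV p) (hSPL : T_SPL p) : T_GOU p := by
  intro hp4 H hM hQ hstr
  set Q := ⁅H.pts (PadicAlgCl p), H.pts (PadicAlgCl p)⁆ with hQdef
  have hle : Q ≤ ⁅(⊤ : Subgroup (AA p (PadicAlgCl p))ˣ), (⊤ : Subgroup (AA p (PadicAlgCl p))ˣ)⁆ :=
    Subgroup.commutator_mono le_top le_top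
  have hK : Q ≤ GOU_.KK p := hle.trans (GOU_.comm_le_KK p)
  have h1 : GOU_.S1 p Q := by
    intro a ha
    have hb := GOU_.bigM_comm p hSIM _ hM
    obtain ⟨h, hh, e⟩ := hb (a : GOU_.MM p) ha
    have e2 : h = a := Units.ext e
    subst e2
    have e3 : ⁅P1 p H, P1 p H⁆ = Q.map (GOU_.q1 p) := by
      rw [hQdef, Subgroup.map_commutator]
      rfl
    rw [e3] at hh
    obtain ⟨q, hq, e4⟩ := hh
    exact ⟨q, hq, e4⟩
  have h2 : GOU_.S2 p Q := by
    intro a ha
    have hb := GOU_.bigQ_comm p hSIQ hSPL _ hQ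
    obtain ⟨h, hh, e⟩ := hb (a : GOU_.DD p) ha
    have e2 : h = a := Units.ext e
    subst e2
    have e3 : ⁅P2 p H, P2 p H⁆ = Q.map (GOU_.q2 p) := by
      rw [hQdef, Subgroup.map_commutator]
      rfl
    rw [e3] at hh
    obtain ⟨q, hq, e4⟩ := hh
    exact ⟨q, hq, e4⟩
  have hnot : ¬ GOU_.KK p ≤ Q := fun hc =>
    hstr (le_antisymm hle ((GOU_.comm_le_KK p).trans hc))
  refine GOU_.third p hDV hp4 Q hK h1 (fun σ q hq => GOU_.map_stable p H hSTA σ q hq) ?_ ?_
  · intro n hn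
    by_contra hc
    rw [not_or] at hc
    exact hnot (GOU_.first p hSIM Q hK h1 h2 ⟨n, hn, hc.1, hc.2⟩)
  · intro n hn
    by_contra hc
    rw [not_or] at hc
    exact hnot (GOU_.second p hSIQ Q hK h1 h2 ⟨n, hn, hc.1, hc.2⟩)

end

end TWT
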