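import Pool.Agent.TWT.Targets

/-!
# TWT: a square root of `-1` in `A_inf`
-/

namespace TWT

open WittVector Matrix

noncomputable section

variable (p : ℕ) [hp : Fact p.Prime]

namespace IOT_

lemma exists_sqrt : ∃ x : OC p, x * x = -1 := by
  obtain ⟨z, hz⟩ := IsAlgClosed.exists_pow_nat_eq (-1 : ℂ_[p]) (n := 2) (by norm_num)
  have h1 : ‖z‖ ^ 2 = 1 := by
    rw [← norm_pow, hz, norm_neg, norm_one]
  have h2 : ‖z‖ ≤ 1 := by nlinarith [norm_nonneg z]
  refine ⟨⟨z, (mem_OC_iff p z).mpr h2⟩, Subtype.ext ?_⟩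
  change z * z = -1
  rw [← hz]
  ring

lemma pow_eq_neg (hp4 : p % 4 = 3) {R : Type} [CommRing R] (y : R) (hy : y * y = -1) :
    y ^ p = -y := by
  obtain ⟨k, hk⟩ : ∃ k, p = 4 * k + 3 := ⟨p / 4, by omega⟩
  have h4 : y ^ 4 = 1 := by
    calc y ^ 4 = (y * y) * (y * y) := by ring
      _ = 1 := by rw [hy]; ring
  rw [hk, pow_add, pow_mul, h4, one_pow, one_mul]
  calc y ^ 3 = (y * y) * y := by ring
    _ = -y := by rw [hy]; ring

lemma exists_tilt (hp4 : p % 4 = 3) : ∃ w : Tl p, w * w = -1 := by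
  obtain ⟨x, hx⟩ := exists_sqrt p
  have hy : (Ideal.Quotient.mk _ x : ModP (OC p) p) * Ideal.Quotient.mk _ x = -1 := by
    rw [← map_mul, hx, map_neg, map_one]
  generalize (Ideal.Quotient.mk _ x : ModP (OC p) p) = y at hy
  have hodd : Odd p := by
    rw [Nat.odd_iff]
    omega
  have hmem : ∀ n : ℕ, ((-1 : ModP (OC p) p) ^ (n + 1) * y) ^ p = (-1) ^ n * y := by
    intro n
    have h1 : ((-1 : ModP (OC p) p) ^ (n + 1)) ^ p = (-1) ^ (n + 1) := by
      rw [← pow_mul, mul_comm, pow_mul, hodd.neg_one_pow]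
    rw [mul_pow, h1, pow_eq_neg p hp4 y hy]
    ring
  let w : Perfection (ModP (OC p) p) p := ⟨fun n => (-1) ^ n * y, hmem⟩
  refine ⟨(w : Tl p), ?_⟩
  refine Perfection.ext (R := ModP (OC p) p) (p := p) fun n => ?_
  have h2 : Perfection.coeff (ModP (OC p) p) p n w = (-1) ^ n * y := rfl
  change Perfection.coeff (ModP (OC p) p) p n (w * w) =
    Perfection.coeff (ModP (OC p) p) p n (-1)
  rw [map_mul, map_neg, map_one, h2]
  calc (-1) ^ n * y * ((-1) ^ n * y) = ((-1) * (-1)) ^ n * (y * y) := by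
        rw [mul_pow]
        ring
    _ = -1 := by rw [hy]; simp

lemma teich_neg_one (hp4 : p % 4 = 3) : WittVector.teichmuller p (-1 : Tl p) = -1 := by
  have hT : WittVector.teichmuller p (-1 : Tl p) * WittVector.teichmuller p (-1 : Tl p) = 1 := by
    rw [← map_mul, neg_mul_neg, one_mul, map_one]
  have h0 : WittVector.teichmuller p (-1 : Tl p) + 1 ∈ Ideal.span {(p : Ainf p)} := by
    rw [WittVector.mem_span_p_iff_coeff_zero_eq_zero]
    have h1 : WittVector.constantCoeff (WittVector.teichmuller p (-1 : Tl p) + 1) = 0 := by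
      rw [map_add, map_one]
      simp [WittVector.constantCoeff_apply]
    simpa [WittVector.constantCoeff_apply] using h1
  generalize WittVector.teichmuller p (-1 : Tl p) = T at hT h0
  have hd : ¬ p ∣ 2 := by
    intro h
    have := Nat.le_of_dvd (by norm_num) h
    omega
  obtain ⟨u, hu⟩ := isUnit_nat p hd
  have hj : T + 1 ∈ Ideal.jacobson (⊥ : Ideal (Ainf p)) :=
    IsAdicComplete.le_jacobson_bot (Ideal.span {(p : Ainf p)}) h0
  have h3 := (Ideal.mem_jacobson_bot.mp hj (-((u⁻¹ : (Ainf p)ˣ) : Ainf p)))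
  have h4 : IsUnit (-(u : Ainf p) * ((T + 1) * (-((u⁻¹ : (Ainf p)ˣ) : Ainf p)) + 1)) :=
    (u.isUnit.neg).mul h3
  have h5 : -(u : Ainf p) * ((T + 1) * (-((u⁻¹ : (Ainf p)ˣ) : Ainf p)) + 1) = T - 1 := by
    have h6 : (u : Ainf p) * ((u⁻¹ : (Ainf p)ˣ) : Ainf p) = 1 := Units.mul_inv u
    have h7 : (u : Ainf p) = 2 := by
      rw [hu]
      norm_num
    calc -(u : Ainf p) * ((T + 1) * (-((u⁻¹ : (Ainf p)ˣ) : Ainf p)) + 1)
        = ((u : Ainf p) * ((u⁻¹ : (Ainf p)ˣ) : Ainf p)) * (T + 1) - (u : Ainf p) := by ring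
      _ = T - 1 := by
        rw [h6, h7]
        ring
  rw [h5] at h4
  have h8 : (T - 1) * (T + 1) = (T - 1) * 0 := by
    linear_combination hT
  have h9 : T + 1 = 0 := h4.mul_left_cancel h8
  exact eq_neg_of_add_eq_zero_left h9

lemma frob_teich (a : Tl p) :
    WittVector.frobenius (WittVector.teichmuller p a) = WittVector.teichmuller p (a ^ p) := by
  ext n
  rw [WittVector.coeff_frobenius_charP]
  rcases n with - | n
  · rw [WittVector.teichmuller_coeff_zero, WittVector.teichmuller_coeff_zero]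
  · rw [WittVector.teichmuller_coeff_pos p _ _ n.succ_pos,
      WittVector.teichmuller_coeff_pos p _ _ n.succ_pos, zero_pow hp.out.ne_zero]

end IOT_

open IOT_ in
theorem p_IOT : T_IOT p := by
  intro hp4
  obtain ⟨w, hw⟩ := exists_tilt p hp4
  refine ⟨WittVector.teichmuller p w, ?_, ?_⟩
  · rw [← map_mul, hw, teich_neg_one p hp4]
  · rw [frob_teich, pow_eq_neg p hp4 w hw, ← neg_one_mul, map_mul, teich_neg_one p hp4, neg_one_mul]

end

end TWT
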