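import Pool.Agent.TWT.Targets

/-!
# TWT: the isocrystal of `β` has no rational line
-/

namespace TWT

open WittVector Matrix

noncomputable section

variable (p : ℕ) [hp : Fact p.Prime]

/-- `x` is `p ^ n` times a unit of `W` -/
def ISO_V (x : Breve p) (n : ℤ) : Prop :=
  ∃ u : (WittVector p (K0 p))ˣ,
    x = (p : Breve p) ^ n * algebraMap (WittVector p (K0 p)) (Breve p) u

theorem ISO_inj : Function.Injective (algebraMap (WittVector p (K0 p)) (Breve p)) :=
  IsFractionRing.injective _ _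

theorem ISO_p_ne : (p : Breve p) ≠ 0 := by
  have h : (p : WittVector p (K0 p)) ≠ 0 := WittVector.p_nonzero p (K0 p)
  have := (ISO_inj p).ne h
  rwa [map_natCast, map_zero] at this

theorem ISO_sigma_alg (w : WittVector p (K0 p)) :
    sigma p (algebraMap (WittVector p (K0 p)) (Breve p) w) =
      algebraMap (WittVector p (K0 p)) (Breve p) (WittVector.frobenius w) :=
  IsFractionRing.ringEquivOfRingEquiv_algebraMap _ _

theorem ISO_V_exists (x : Breve p) (hx : x ≠ 0) : ∃ n, ISO_V p x n := by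
  obtain ⟨a, b, hb, rfl⟩ := IsFractionRing.div_surjective (A := WittVector p (K0 p)) x
  have hb0 : b ≠ 0 := nonZeroDivisors.ne_zero hb
  have ha0 : a ≠ 0 := by
    rintro rfl
    exact hx (by simp)
  obtain ⟨m, u, hu⟩ := WittVector.exists_eq_pow_p_mul' a ha0
  obtain ⟨n, w, hw⟩ := WittVector.exists_eq_pow_p_mul' b hb0
  refine ⟨(m : ℤ) - n, u * w⁻¹, ?_⟩
  have hp0 := ISO_p_ne p
  have h1 : algebraMap (WittVector p (K0 p)) (Breve p) (w : WittVector p (K0 p)) *
      algebraMap (WittVector p (K0 p)) (Breve p) ((w⁻¹ : (WittVector p (K0 p))ˣ) :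
        WittVector p (K0 p)) = 1 := by
    rw [← map_mul, Units.mul_inv, map_one]
  have h2 : algebraMap (WittVector p (K0 p)) (Breve p) (w : WittVector p (K0 p)) ≠ 0 :=
    left_ne_zero_of_mul_eq_one h1
  rw [hu, hw, map_mul, map_mul, map_pow, map_pow, map_natCast, zpow_sub₀ hp0, zpow_natCast,
    zpow_natCast, Units.val_mul, map_mul, eq_inv_of_mul_eq_one_right h1]
  field_simp

theorem ISO_V_mul {x y : Breve p} {n m : ℤ} (hx : ISO_V p x n) (hy : ISO_V p y m) :
    ISO_V p (x * y) (n + m) := by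
  obtain ⟨u, rfl⟩ := hx
  obtain ⟨w, rfl⟩ := hy
  refine ⟨u * w, ?_⟩
  rw [zpow_add₀ (ISO_p_ne p), Units.val_mul, map_mul]
  ring

theorem ISO_V_p : ISO_V p (p : Breve p) 1 := ⟨1, by simp⟩

theorem ISO_V_sigma {x : Breve p} {n : ℤ} (hx : ISO_V p x n) : ISO_V p (sigma p x) n := by
  obtain ⟨u, rfl⟩ := hx
  refine ⟨Units.map (WittVector.frobenius : WittVector p (K0 p) →+* _).toMonoidHom u, ?_⟩
  rw [map_mul, map_zpow₀, map_natCast, ISO_sigma_alg]
  rfl

theorem ISO_V_unique_aux {x : Breve p} {n m : ℤ} (hx : ISO_V p x n) (hy : ISO_V p x m) :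
    ¬ n < m := by
  intro hnm
  obtain ⟨u, hu⟩ := hx
  obtain ⟨w, hw⟩ := hy
  obtain ⟨d, hd⟩ := Int.eq_ofNat_of_zero_le (by omega : 0 ≤ m - n)
  have hp0 := ISO_p_ne p
  have h1 : algebraMap (WittVector p (K0 p)) (Breve p) (u : WittVector p (K0 p)) =
      algebraMap (WittVector p (K0 p)) (Breve p)
        ((p : WittVector p (K0 p)) ^ d * (w : WittVector p (K0 p))) := by
    have h2 : (p : Breve p) ^ n ≠ 0 := zpow_ne_zero _ hp0
    apply mul_left_cancel₀ h2
    rw [← hu, hw, map_mul, map_pow, map_natCast, ← mul_assoc]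
    congr 1
    rw [← zpow_natCast, ← zpow_add₀ hp0]
    congr 1
    omega
  have h3 := ISO_inj p h1
  have h4 : IsUnit ((p : WittVector p (K0 p)) ^ d * (w : WittVector p (K0 p))) := by
    rw [← h3]
    exact u.isUnit
  have h5 : IsUnit ((p : WittVector p (K0 p)) ^ d) := isUnit_of_mul_isUnit_left h4
  have hd0 : d ≠ 0 := by omega
  have h6 : IsUnit (p : WittVector p (K0 p)) := (isUnit_pow_iff hd0).1 h5
  have h7 := h6.map (WittVector.constantCoeff : WittVector p (K0 p) →+* K0 p)
  rw [map_natCast, CharP.cast_eq_zero] at h7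
  exact not_isUnit_zero h7

theorem ISO_V_unique {x : Breve p} {n m : ℤ} (hx : ISO_V p x n) (hy : ISO_V p x m) : n = m :=
  le_antisymm (not_lt.1 (ISO_V_unique_aux p hy hx)) (not_lt.1 (ISO_V_unique_aux p hx hy))

theorem ISO_alg_zp (z : ℤ_[p]) : algebraMap ℚ_[p] (Breve p) (z : ℚ_[p]) =
    algebraMap (WittVector p (K0 p)) (Breve p) (zpHom p z) :=
  IsFractionRing.lift_algebraMap (A := ℤ_[p]) (K := ℚ_[p])
    (g := (algebraMap (WittVector p (K0 p)) (Breve p)).comp (zpHom p))
    ((IsFractionRing.injective (WittVector p (K0 p)) (Breve p)).comp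
      (zpHom_injective p)) z

theorem ISO_sigma_zp (z : ℤ_[p]) :
    WittVector.frobenius (zpHom p z) = zpHom p z := by
  unfold zpHom
  rw [RingHom.comp_apply]
  ext n
  rw [WittVector.coeff_frobenius_charP, WittVector.map_coeff, ← map_pow, ZMod.pow_card]

theorem ISO_sigma_qp (x : ℚ_[p]) :
    sigma p (algebraMap ℚ_[p] (Breve p) x) = algebraMap ℚ_[p] (Breve p) x := by
  have h : (sigma p).comp (algebraMap ℚ_[p] (Breve p)) = algebraMap ℚ_[p] (Breve p) := by
    apply IsLocalization.ringHom_ext (nonZeroDivisors ℤ_[p])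
    ext z
    have h1 := ISO_alg_zp p z
    change sigma p (algebraMap ℚ_[p] (Breve p) (z : ℚ_[p])) =
      algebraMap ℚ_[p] (Breve p) (z : ℚ_[p])
    rw [h1, ISO_sigma_alg, ISO_sigma_zp]
  exact RingHom.congr_fun h x

/-- Target ISO. -/
theorem p_ISO : T_ISO p := by
  intro g b v hv hl hg
  obtain ⟨l, hl⟩ := hl
  set w : Fin 2 → Breve p := fun i => algebraMap ℚ_[p] (Breve p) (v i) with hw
  set a : Fin 2 → Breve p := (g : Matrix (Fin 2) (Fin 2) (Breve p)) *ᵥ w with ha
  have hσw : (fun i => sigma p (w i)) = w := by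
    funext i
    exact ISO_sigma_qp p (v i)
  have hmain : (beta p (Breve p)).1 *ᵥ a = l • fun i => sigma p (a i) := by
    rw [ha, Matrix.mulVec_mulVec, hg, ← Matrix.mulVec_mulVec, hl, Matrix.mulVec_smul]
    congr 1
    funext i
    have h1 := RingHom.map_mulVec (sigma p) (g : Matrix (Fin 2) (Fin 2) (Breve p)) w i
    rw [h1]
    change _ = ((sigma p).mapMatrix (g : Matrix (Fin 2) (Fin 2) (Breve p)) *ᵥ
      (fun i => sigma p (w i))) i
    rw [hσw]
  have h0 : a 1 = l * sigma p (a 0) := by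
    have := congrFun hmain 0
    simpa [beta, Matrix.mulVec, dotProduct, Fin.sum_univ_two] using this
  have h1 : (p : Breve p) * a 0 = l * sigma p (a 1) := by
    have := congrFun hmain 1
    simpa [beta, Matrix.mulVec, dotProduct, Fin.sum_univ_two] using this
  have hp0 := ISO_p_ne p
  have ha0 : a 0 ≠ 0 := by
    intro h
    rw [h, map_zero, mul_zero] at h0
    have haz : a = 0 := by
      funext i
      fin_cases i
      · exact h
      · exact h0
    have hwz : w = 0 := by
      have h2 : (((g⁻¹ : (Matrix (Fin 2) (Fin 2) (Breve p))ˣ) :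
          Matrix (Fin 2) (Fin 2) (Breve p)) *ᵥ a) = w := by
        rw [ha, Matrix.mulVec_mulVec, Units.inv_mul, Matrix.one_mulVec]
      rw [← h2, haz, Matrix.mulVec_zero]
    apply hv
    funext i
    have h3 := congrFun hwz i
    exact (map_eq_zero (algebraMap ℚ_[p] (Breve p))).1 h3
  have hl0 : l ≠ 0 := by
    intro h
    rw [h, zero_mul] at h1
    exact (mul_ne_zero hp0 ha0) h1
  obtain ⟨n, hn⟩ := ISO_V_exists p (a 0) ha0
  obtain ⟨m, hm⟩ := ISO_V_exists p l hl0
  have h2 : ISO_V p (a 1) (m + n) := by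
    rw [h0]
    exact ISO_V_mul p hm (ISO_V_sigma p hn)
  have h3 : ISO_V p ((p : Breve p) * a 0) (1 + n) := ISO_V_mul p (ISO_V_p p) hn
  have h4 : ISO_V p ((p : Breve p) * a 0) (m + (m + n)) := by
    rw [h1]
    exact ISO_V_mul p hm (ISO_V_sigma p h2)
  have h5 := ISO_V_unique p h3 h4
  omega

end

end TWT
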