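import Pool.Agent.TWT.Targets

/-!
# TWT: the kernel of `θ` is principal
-/

namespace TWT

open WittVector

noncomputable section

namespace KER_

variable (p : ℕ) [hp : Fact p.Prime]

/-- one step -/
lemma step (hU : T_UNT p) (ϖ : Tl p) (hϖ : sh p ϖ = (p : OC p)) (a : Ainf p)
    (ha : theta p a = 0) : ∃ (c : Tl p) (b : Ainf p), theta p b = 0 ∧
    a = (p : Ainf p) * b -
      ((p : Ainf p) - WittVector.teichmuller p ϖ) * WittVector.teichmuller p c := by
  have h1 : PreTilt.coeff 0 (a.coeff 0) = 0 := by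
    rw [← WittVector.mk_fontaineTheta a]
    change Ideal.Quotient.mk _ (theta p a) = 0
    rw [ha, map_zero]
  have h2 : sh p (a.coeff 0) ∈ Ideal.span {(p : OC p)} := by
    rw [← Ideal.Quotient.eq_zero_iff_mem, PreTilt.mk_untilt_eq_coeff_zero, h1]
  have h3 : nO p (sh p (a.coeff 0)) ≤ nO p (sh p ϖ) := by
    have h4 := (mem_pow_iff p (sh p (a.coeff 0)) 1).mp (by rwa [pow_one])
    rw [pow_one] at h4
    rw [hϖ]
    have h5 : (((p : OC p)) : ℂ_[p]) = (p : ℂ_[p]) := by norm_cast
    rw [nO, nO, h5]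
    exact h4
  obtain ⟨c, hc⟩ := hU.2.2.1 _ _ h3
  have h6 : a + ((p : Ainf p) - WittVector.teichmuller p ϖ) * WittVector.teichmuller p c ∈
      Ideal.span {(p : Ainf p)} := by
    rw [WittVector.mem_span_p_iff_coeff_zero_eq_zero]
    have h7 : WittVector.constantCoeff (a + ((p : Ainf p) - WittVector.teichmuller p ϖ) *
        WittVector.teichmuller p c) = 0 := by
      rw [map_add, map_mul, map_sub, map_natCast, CharP.cast_eq_zero, zero_sub]
      rw [WittVector.constantCoeff_apply, WittVector.constantCoeff_apply,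
        WittVector.constantCoeff_apply, WittVector.teichmuller_coeff_zero,
        WittVector.teichmuller_coeff_zero, hc]
      ring
    simpa [WittVector.constantCoeff_apply] using h7
  obtain ⟨b, hb⟩ := Ideal.mem_span_singleton.mp h6
  refine ⟨c, b, ?_, by linear_combination hb⟩
  have h8 : theta p ((p : Ainf p) - WittVector.teichmuller p ϖ) = 0 := by
    rw [map_sub, map_natCast]
    have : theta p (WittVector.teichmuller p ϖ) = sh p ϖ :=
      WittVector.fontaineTheta_teichmuller ϖ
    rw [this, hϖ, sub_self]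
  have h9 := congrArg (theta p) hb
  rw [map_add, map_mul, h8, zero_mul, add_zero, ha, map_mul, map_natCast] at h9
  have h10 : (p : OC p) ≠ 0 := by
    intro h
    apply p_ne_zero p
    have := congrArg (Subtype.val) h
    exact_mod_cast this
  exact (mul_eq_zero.mp h9.symm).resolve_left h10

end KER_

open KER_ in
/-- the kernel of `θ` is generated by `p - [ϖ]` -/
theorem p_KER (p : ℕ) [Fact p.Prime] (hU : T_UNT p) : T_KER p := by
  intro ϖ hϖ a ha
  set π : Ainf p := (p : Ainf p) - WittVector.teichmuller p ϖ with hπ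
  have hst : ∀ x : {x : Ainf p // theta p x = 0}, ∃ y : Tl p × {x : Ainf p // theta p x = 0},
      (x : Ainf p) = (p : Ainf p) * (y.2 : Ainf p) - π * WittVector.teichmuller p y.1 := by
    rintro ⟨x, hx⟩
    obtain ⟨c, b, hb, hxb⟩ := step p hU ϖ hϖ x hx
    exact ⟨(c, ⟨b, hb⟩), hxb⟩
  choose f hf using hst
  let A : ℕ → {x : Ainf p // theta p x = 0} := fun n =>
    Nat.rec ⟨a, ha⟩ (fun _ x => (f x).2) n
  let C : ℕ → Ainf p := fun n => WittVector.teichmuller p (f (A n)).1
  have hA : ∀ n, (A n).1 = (p : Ainf p) * (A (n + 1)).1 - π * C n := fun n =>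
    hf (A n)
  let s : ℕ → Ainf p := fun n => -∑ i ∈ Finset.range n, (p : Ainf p) ^ i * C i
  have hs : ∀ n, a = (p : Ainf p) ^ n * (A n).1 + π * s n := by
    intro n
    induction n with
    | zero => simp [s, A]
    | succ n ih =>
      have h1 : s (n + 1) = s n - (p : Ainf p) ^ n * C n := by
        simp only [s, Finset.sum_range_succ]
        ring
      rw [h1]
      linear_combination ih + (p : Ainf p) ^ n * hA n
  have hcau : ∀ {m n : ℕ}, m ≤ n → s m ≡ s n
      [SMOD ((Ideal.span {(p : Ainf p)}) ^ m • ⊤ : Submodule (Ainf p) (Ainf p))] := by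
    intro m n hmn
    rw [SModEq.sub_mem, smul_eq_mul, Ideal.mul_top, Ideal.span_singleton_pow,
      Ideal.mem_span_singleton]
    obtain ⟨k, rfl⟩ := Nat.exists_eq_add_of_le hmn
    refine ⟨∑ i ∈ Finset.range k, (p : Ainf p) ^ i * C (m + i), ?_⟩
    simp only [s, Finset.sum_range_add, Finset.mul_sum]
    rw [neg_sub_neg, add_sub_cancel_left]
    refine Finset.sum_congr rfl fun i _ => ?_
    ring
  obtain ⟨c, hc⟩ := IsPrecomplete.prec (I := Ideal.span {(p : Ainf p)}) inferInstance hcau
  refine ⟨c, ?_⟩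
  rw [← sub_eq_zero]
  refine IsHausdorff.haus (I := Ideal.span {(p : Ainf p)}) inferInstance _ fun n => ?_
  have h1 := hc n
  rw [SModEq.sub_mem, smul_eq_mul, Ideal.mul_top, Ideal.span_singleton_pow,
    Ideal.mem_span_singleton] at h1
  rw [SModEq.sub_mem, sub_zero, smul_eq_mul, Ideal.mul_top, Ideal.span_singleton_pow,
    Ideal.mem_span_singleton]
  obtain ⟨r, hr⟩ := h1
  refine ⟨(A n).1 + π * r, ?_⟩
  linear_combination hs n + π * hr

end

end TWT
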