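import Pool.Agent.TWT.Targets

/-!
# TWT: the Lubin-Tate period (target `T_LT0`)
-/

set_option autoImplicit false

namespace TWT

open WittVector

noncomputable section

namespace LT0_

variable (p : ℕ) [hp : Fact p.Prime]

lemma tm_mul (x y : Tl p) : tm p (x * y) = tm p x * tm p y := by
  unfold tm
  rw [map_mul, map_mul]

lemma tm_pow (x : Tl p) (n : ℕ) : tm p (x ^ n) = tm p x ^ n := by
  unfold tm
  rw [map_pow, map_pow]

lemma sh_pow (x : Tl p) (n : ℕ) : sh p (x ^ n) = sh p x ^ n := map_pow _ x n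

lemma nO_p : nO p (p : OC p) = np p := rfl

lemma nO_mul (x y : OC p) : nO p (x * y) = nO p x * nO p y := norm_mul _ _

lemma nO_pow (x : OC p) (n : ℕ) : nO p (x ^ n) = nO p x ^ n := by
  change ‖((x ^ n : OC p) : ℂ_[p])‖ = _
  rw [← norm_pow]
  norm_cast

/-- a root of `-p` of degree `N` -/
lemma exists_root (N : ℕ) (hN : 0 < N) : ∃ W : OC p, W ^ N = -(p : OC p) ∧ nO p W ^ N = np p := by
  obtain ⟨z, hz⟩ := IsAlgClosed.exists_pow_nat_eq (-(p : ℂ_[p])) hN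
  have h1 : ‖z‖ ^ N = np p := by
    rw [← norm_pow, hz, norm_neg]
  have h2 : ‖z‖ ≤ 1 := by
    by_contra hc
    push Not at hc
    have := one_lt_pow₀ hc hN.ne'
    rw [h1] at this
    exact absurd (norm_p_lt_one p) (not_lt.2 this.le)
  refine ⟨⟨z, (mem_OC_iff p z).mpr h2⟩, ?_, h1⟩
  apply Subtype.ext
  push_cast
  exact hz

lemma norm_main (x y z : ℂ_[p]) (c : ℝ) (hx : ‖x‖ ≤ c) (hz : ‖z - (x + y)‖ ≤ c) (hy : c < ‖y‖) :
    ‖z‖ = ‖y‖ := by
  have h1 : ‖z - y‖ ≤ c := by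
    have : z - y = (z - (x + y)) + x := by ring
    rw [this]
    exact (IsUltrametricDist.norm_add_le_max _ _).trans (max_le hz hx)
  have h2 : z = (z - y) + y := by ring
  rw [h2]
  have h3 : ‖z - y‖ < ‖y‖ := h1.trans_lt hy
  rw [IsUltrametricDist.norm_add_eq_max_of_norm_ne_norm h3.ne, max_eq_right h3.le]

omit hp in
lemma arith (hp3 : 3 ≤ p) : p + 1 < p ^ 2 - 1 ∧ p < p ^ 2 - 1 ∧ 2 * (p ^ 2 - 1) ≤ p ^ 3 ∧
    p ^ 2 - 1 + p < 2 * (p ^ 2 - 1) ∧ p ^ 2 - 1 ≤ 2 * p ^ 2 ∧ p ^ 2 - 1 + 1 = p ^ 2 := by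
  have h1 : 3 * p ≤ p ^ 2 := by nlinarith
  have h2 : p ^ 3 = p * p ^ 2 := by ring
  have h3 : 3 * p ^ 2 ≤ p ^ 3 := by
    rw [h2]
    exact Nat.mul_le_mul_right _ hp3
  refine ⟨by omega, by omega, by omega, by omega, by omega, by omega⟩

end LT0_

open LT0_

theorem p_LT0 (p : ℕ) [Fact p.Prime] (hUNT : T_UNT p) (hAX2 : T_AX2 p) (hSE2 : T_SE2 p) :
    T_LT0 p := by
  intro hp3
  obtain ⟨a1, a2, a3, a4, a5, a6⟩ := arith p hp3
  obtain ⟨hU1, -, hU3, -⟩ := hUNT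
  obtain ⟨A', _, κ, hκ, hAX⟩ := hAX2
  obtain ⟨W, hW1, hW2⟩ := exists_root p (p ^ 2 - 1) (by omega)
  obtain ⟨w, hw⟩ := hU1 W
  have hP0 : 0 < np p := norm_p_pos p
  have hP1 : np p < 1 := norm_p_lt_one p
  have hWn : 0 ≤ nO p W := norm_nonneg _
  have hW0 : 0 < nO p W := by
    rcases hWn.lt_or_eq with h | h
    · exact h
    · exfalso
      rw [← h, zero_pow (by omega)] at hW2
      exact hP0.ne hW2
  have hWl : nO p W < 1 := by
    by_contra hc
    push Not at hc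
    have := one_le_pow₀ hc (n := p ^ 2 - 1)
    rw [hW2] at this
    exact absurd hP1 (not_lt.2 this)
  have hpow : ∀ {m n : ℕ}, m ≤ n → nO p W ^ n ≤ nO p W ^ m := fun h =>
    pow_le_pow_of_le_one hWn hWl.le h
  have hpow' : ∀ {m n : ℕ}, m < n → nO p W ^ n < nO p W ^ m := fun h =>
    pow_lt_pow_right_of_lt_one₀ hW0 hWl h
  obtain ⟨t, ht, hth⟩ := hSE2 hp3 A' κ hκ w (by
    rw [hw, ← hW2]
    exact hpow a5)
  obtain ⟨hG, -, h3, ⟨r, h4⟩, ⟨r', h5⟩⟩ := ht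
  have hsum : W ^ p ^ 2 + (p : OC p) * W = 0 := by
    rw [← a6, pow_succ, hW1]
    ring
  refine ⟨t, W, hG, ?_, hW1, ?_, ?_⟩
  · rw [hth, hw, hsum]
  · rw [hw] at h3
    have h6 : ‖(((p : OC p) * W ^ p : OC p) : ℂ_[p])‖ = np p * nO p W ^ p := by
      have := nO_mul p (p : OC p) (W ^ p)
      rw [nO_pow] at this
      exact this
    rw [← h6]
    refine norm_main p ((W ^ p ^ 3 : OC p) : ℂ_[p]) _ _ (np p ^ 2) ?_ ?_ ?_
    · have := nO_pow p W (p ^ 3)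
      refine (le_of_eq this).trans ?_
      rw [← hW2, ← pow_mul, mul_comm (p ^ 2 - 1) 2]
      exact hpow a3
    · exact h3
    · rw [h6, ← hW2, ← pow_mul, ← pow_add, mul_comm (p ^ 2 - 1) 2]
      exact hpow' a4
  · rintro ⟨a, ha⟩
    obtain ⟨ϖ, hϖ⟩ := hU1 (p : OC p)
    obtain ⟨hκ1, hκ2⟩ := hκ
    obtain ⟨X, hX⟩ := hκ2 ϖ (by
      rw [hϖ]
      exact le_rfl)
    obtain ⟨e, he⟩ := hU3 (w ^ (p ^ 2 - 1)) ϖ (by
      rw [hϖ, sh_pow, hw, nO_pow, hW2]
      exact le_rfl)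
    refine hAX ϖ w e X hϖ hX ?_ ?_
    · rw [hw, ← hW2]
      exact hpow' a1
    · have e1 : w ^ p ^ 2 = w * (ϖ * e) := by
        rw [← a6, pow_succ, he]
        ring
      have e2 : w ^ p ^ 3 = w ^ p * (ϖ * e) ^ p := by
        rw [show p ^ 3 = p ^ 2 * p from by ring, pow_mul, e1, mul_pow]
      have k1 : κ t = (p : A') * (κ (tm p w) * (1 + X * κ (tm p e)) + p * r) := by
        rw [h4, e1, tm_mul, tm_mul, map_mul, map_mul, hX]
        ring
      obtain ⟨m, hm⟩ : ∃ m, p = m + 2 := ⟨p - 2, by omega⟩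
      have k2 : ∃ s : A', κ (phiA p t) = (p : A') * (κ (tm p (w ^ p)) + p * s) := by
        refine ⟨κ (tm p (w ^ p)) * ((p : A') ^ m * X ^ p * κ (tm p e) ^ p) + r', ?_⟩
        rw [h5, e2, tm_mul, tm_pow p (ϖ * e), tm_mul, map_mul, map_pow, map_mul, hX]
        have : (p : A') ^ p = (p : A') ^ m * (p : A') ^ 2 := by
          rw [← pow_add]
          exact congrArg (fun n => (p : A') ^ n) hm
        rw [mul_pow, mul_pow, this]
        ring
      obtain ⟨s, hs⟩ := k2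
      have k3 := congrArg κ ha
      rw [map_mul, map_mul, map_pow, map_natCast, k1, hs] at k3
      have k4 : (κ (tm p w) * (1 + X * κ (tm p e)) + p * r) * (κ (tm p (w ^ p)) + p * s) -
          p * κ a = 0 := by
        apply hκ1
        apply hκ1
        linear_combination k3
      refine ⟨κ a - r * (κ (tm p (w ^ p)) + p * s) -
        s * (κ (tm p w) * (1 + X * κ (tm p e))), ?_⟩
      rw [pow_succ', tm_mul, map_mul]
      linear_combination k4

end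

end TWT
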