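import Pool.Agent.TWT.Targets

/-!
# TWT, target NL1: the first projection is not of nilpotent type
-/

namespace TWT

open WittVector Matrix

noncomputable section

variable (p : ℕ) [hp : Fact p.Prime]

namespace NL1_

/-- the line of the nilpotent is stable under the Galois group -/
theorem line (hSTA : T_STA p) (H : ClSub p) (n : Matrix (Fin 2) (Fin 2) (PadicAlgCl p))
    (hnn : n * n = 0)
    (hg : ∀ g ∈ P1 p H, ∃ c : PadicAlgCl p,
      (g : Matrix (Fin 2) (Fin 2) (PadicAlgCl p)) * n = c • (n * g))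
    (hu : ∀ n' : Matrix (Fin 2) (Fin 2) (PadicAlgCl p), n' * n' = 0 →
      (∀ g ∈ P1 p H, ∃ c : PadicAlgCl p,
        (g : Matrix (Fin 2) (Fin 2) (PadicAlgCl p)) * n' = c • (n' * g)) →
      ∃ c : PadicAlgCl p, n' = c • n)
    (σ : PadicAlgCl p ≃ₐ[ℚ_[p]] PadicAlgCl p) :
    ∃ c : PadicAlgCl p, ∀ i j, σ (n i j) = c * n i j := by
  obtain ⟨c, hc⟩ := hu ((σ : PadicAlgCl p →+* PadicAlgCl p).mapMatrix n)
    (by rw [← map_mul, hnn, map_zero]) (fun g hgP => by
      obtain ⟨h, hh, rfl⟩ := hgP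
      obtain ⟨c, hc⟩ := hg _ (Subgroup.mem_map_of_mem _ (hSTA H σ.symm h hh))
      have hc' : (σ.symm : PadicAlgCl p →+* PadicAlgCl p).mapMatrix (h : AA p (PadicAlgCl p)).1 *
          n = c • (n * (σ.symm : PadicAlgCl p →+* PadicAlgCl p).mapMatrix
            (h : AA p (PadicAlgCl p)).1) := hc
      refine ⟨σ c, ?_⟩
      have h1 : (σ : PadicAlgCl p →+* PadicAlgCl p).mapMatrix
          ((σ.symm : PadicAlgCl p →+* PadicAlgCl p).mapMatrix (h : AA p (PadicAlgCl p)).1) =
          (h : AA p (PadicAlgCl p)).1 := by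
        ext i j
        exact σ.apply_symm_apply _
      have h2 := congrArg (σ : PadicAlgCl p →+* PadicAlgCl p).mapMatrix hc'
      rw [map_mul] at h2
      have h3 : ∀ (m : Matrix (Fin 2) (Fin 2) (PadicAlgCl p)),
          (σ : PadicAlgCl p →+* PadicAlgCl p).mapMatrix (c • m) =
          σ c • (σ : PadicAlgCl p →+* PadicAlgCl p).mapMatrix m := by
        intro m
        ext i j
        exact map_mul σ _ _
      rw [h3, map_mul, h1] at h2
      exact h2)
  exact ⟨c, fun i j => congrFun (congrFun hc i) j⟩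

/-- the equation of the stabiliser of the line spanned by `v` -/
def eqn (v : Fin 2 → ℚ_[p]) : MvPolynomial (Fin 8) ℚ_[p] :=
  (MvPolynomial.X 0 * MvPolynomial.C (v 0) + MvPolynomial.X 1 * MvPolynomial.C (v 1)) *
      MvPolynomial.C (v 1) -
    (MvPolynomial.X 2 * MvPolynomial.C (v 0) + MvPolynomial.X 3 * MvPolynomial.C (v 1)) *
      MvPolynomial.C (v 0)

theorem aeval_eqn (v : Fin 2 → ℚ_[p]) {R : Type} [CommRing R] [Algebra ℚ_[p] R] (m : AA p R) :
    MvPolynomial.aeval (coord p m) (eqn p v) =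
      (m.1 0 0 * algebraMap ℚ_[p] R (v 0) + m.1 0 1 * algebraMap ℚ_[p] R (v 1)) *
        algebraMap ℚ_[p] R (v 1) -
      (m.1 1 0 * algebraMap ℚ_[p] R (v 0) + m.1 1 1 * algebraMap ℚ_[p] R (v 1)) *
        algebraMap ℚ_[p] R (v 0) := by
  unfold eqn
  simp only [map_sub, map_mul, map_add, MvPolynomial.aeval_X, MvPolynomial.aeval_C]
  rfl

/-- a matrix normalising a nilpotent stabilises the line of its columns -/
theorem stab {k : Type} [Field k] {g n : Matrix (Fin 2) (Fin 2) k} (hnn : n * n = 0) {c : k}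
    (h : g * n = c • (n * g)) (j : Fin 2) :
    (g 0 0 * n 0 j + g 0 1 * n 1 j) * n 1 j - (g 1 0 * n 0 j + g 1 1 * n 1 j) * n 0 j = 0 := by
  have hdet : n 0 0 * n 1 1 - n 0 1 * n 1 0 = 0 := by
    have h1 := congrArg Matrix.det hnn
    rw [Matrix.det_mul, Matrix.det_zero, mul_self_eq_zero, Matrix.det_fin_two] at h1
    exact h1
  have e : ∀ i, g i 0 * n 0 j + g i 1 * n 1 j = c * (n i 0 * g 0 j + n i 1 * g 1 j) := by
    intro i
    have h2 := congrFun (congrFun h i) j
    rw [Matrix.smul_apply, Matrix.mul_apply, Matrix.mul_apply, Fin.sum_univ_two,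
      Fin.sum_univ_two, smul_eq_mul] at h2
    exact h2
  rw [e 0, e 1]
  fin_cases j
  · change c * (n 0 0 * g 0 0 + n 0 1 * g 1 0) * n 1 0 -
      c * (n 1 0 * g 0 0 + n 1 1 * g 1 0) * n 0 0 = 0
    linear_combination (-c * g 1 0) * hdet
  · change c * (n 0 0 * g 0 1 + n 0 1 * g 1 1) * n 1 1 -
      c * (n 1 0 * g 0 1 + n 1 1 * g 1 1) * n 0 1 = 0
    linear_combination (c * g 0 1) * hdet

/-- a vector whose cross product with `v` is zero is a multiple of `v` -/
theorem prop {k : Type} [Field k] {w v : Fin 2 → k} (hv : v ≠ 0) (h : w 0 * v 1 - w 1 * v 0 = 0) :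
    ∃ l : k, w = l • v := by
  by_cases h0 : v 0 = 0
  · have h1 : v 1 ≠ 0 := by
      intro h1
      apply hv
      funext i
      fin_cases i
      · exact h0
      · exact h1
    refine ⟨w 1 / v 1, ?_⟩
    funext i
    fin_cases i
    · change w 0 = w 1 / v 1 * v 0
      rw [h0, mul_zero, sub_zero, mul_eq_zero] at h
      rw [h0, mul_zero]
      exact h.resolve_right h1
    · change w 1 = w 1 / v 1 * v 1
      field_simp
  · refine ⟨w 0 / v 0, ?_⟩
    funext i
    fin_cases i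
    · change w 0 = w 0 / v 0 * v 0
      field_simp
    · change w 1 = w 0 / v 0 * v 1
      field_simp
      linear_combination -h

end NL1_

open NL1_ in
theorem p_NL1 (hSTA : T_STA p) (hDES : T_DES p) (hSPE : T_SPE p) (hISO : T_ISO p) : T_NL1 p := by
  intro H hN g βH hβ hgβ
  obtain ⟨n, hn0, hnn, hg, hu⟩ := hN
  -- a rational multiple
  obtain ⟨c, y, hc, hy⟩ := hDES (Fin 2 × Fin 2) (fun t => n t.1 t.2)
    (fun h => hn0 (by
      ext i j
      exact congrFun h (i, j)))
    (fun σ => by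
      obtain ⟨c, hc⟩ := line p hSTA H n hnn hg hu σ
      exact ⟨c, fun t => hc t.1 t.2⟩)
  -- a nonzero column
  obtain ⟨i0, j0, hij⟩ : ∃ i0 j0, n i0 j0 ≠ 0 := by
    by_contra hcon
    push Not at hcon
    exact hn0 (by
      ext i j
      exact hcon i j)
  have hv : (fun i => y (i, j0)) ≠ 0 := by
    intro h
    have h1 := hy (i0, j0)
    rw [show y (i0, j0) = 0 from congrFun h i0, map_zero] at h1
    exact mul_ne_zero hc hij h1
  -- the equation on the points over the closure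
  have h1 : ∀ h ∈ H.pts (PadicAlgCl p),
      MvPolynomial.aeval (coord p (h : AA p (PadicAlgCl p))) (eqn p fun i => y (i, j0)) = 0 := by
    intro h hh
    rw [aeval_eqn]
    obtain ⟨c', hc'⟩ := hg _ (Subgroup.mem_map_of_mem _ hh)
    have h2 := stab (g := (h : AA p (PadicAlgCl p)).1) hnn hc' j0
    have e0 := hy (0, j0)
    have e1 := hy (1, j0)
    simp only at e0 e1
    rw [← e0, ← e1]
    linear_combination c ^ 2 * h2
  -- the equation for `βH`
  have h2 : MvPolynomial.aeval (coord p (βH : AA p (Breve p))) (eqn p fun i => y (i, j0)) = 0 := by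
    by_contra hcon
    obtain ⟨h', hh', hne⟩ := hSPE H (Breve p) βH hβ _ hcon
    exact hne (h1 h' hh')
  rw [aeval_eqn] at h2
  have hv' : (fun i => algebraMap ℚ_[p] (Breve p) (y (i, j0))) ≠ 0 := by
    intro h
    apply hv
    funext i
    have h3 : algebraMap ℚ_[p] (Breve p) (y (i, j0)) = 0 := congrFun h i
    exact (map_eq_zero_iff _ (algebraMap ℚ_[p] (Breve p)).injective).1 h3
  obtain ⟨l, hl⟩ := prop (w := (βH : AA p (Breve p)).1 *ᵥ
    fun i => algebraMap ℚ_[p] (Breve p) (y (i, j0))) hv' (by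
      simp only [Matrix.mulVec, dotProduct, Fin.sum_univ_two]
      exact h2)
  have hU : ∀ x : (AA p (Breve p))ˣ, ∃ u : (Matrix (Fin 2) (Fin 2) (Breve p))ˣ,
      (u : Matrix (Fin 2) (Fin 2) (Breve p)) = (x : AA p (Breve p)).1 := fun x =>
    ⟨Units.map (RingHom.fst (Matrix (Fin 2) (Fin 2) (Breve p)) (Quat p (Breve p))).toMonoidHom x,
      rfl⟩
  obtain ⟨ug, hug⟩ := hU g
  obtain ⟨ub, hub⟩ := hU βH
  refine hISO ug ub (fun i => y (i, j0)) hv ⟨l, ?_⟩ ?_
  · rw [hub]
    exact hl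
  · rw [hub, hug]
    exact congrArg Prod.fst hgβ

end

end TWT
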