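import Pool.Agent.TWT.Targets

/-!
# TWT: the second projection is not of nilpotent type
-/

set_option autoImplicit false

namespace TWT

open WittVector Matrix

noncomputable section

variable (p : ℕ) [hp : Fact p.Prime]

namespace NL2_

variable {R S : Type} [CommRing R] [CommRing S]

omit hp in
lemma quatMap_smul (f : R →+* S) (c : R) (x : Quat p R) :
    quatMap p f (c • x) = f c • quatMap p f x := by
  ext <;> simp [quatMap]

omit hp in
lemma quatMap_injective (f : R →+* S) (hf : Function.Injective f) :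
    Function.Injective (quatMap p f) := by
  intro x y h
  have h1 := congrArg QuaternionAlgebra.re h
  have h2 := congrArg QuaternionAlgebra.imI h
  have h3 := congrArg QuaternionAlgebra.imJ h
  have h4 := congrArg QuaternionAlgebra.imK h
  exact QuaternionAlgebra.ext (hf h1) (hf h2) (hf h3) (hf h4)

omit hp in
lemma quatMap_comp {T : Type} [CommRing T] (f : R →+* S) (g : S →+* T) (x : Quat p R) :
    quatMap p g (quatMap p f x) = quatMap p (g.comp f) x := rfl

/-- coordinates of a quaternion -/
def co (x : Quat p R) : Fin 4 → R := ![x.re, x.imI, x.imJ, x.imK]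

/-- the quaternion with given coordinates -/
def mk (y : Fin 4 → R) : Quat p R := ⟨y 0, y 1, y 2, y 3⟩

end NL2_

open NL2_

theorem p_NL2 (hSTA : T_STA p) (hDES : T_DES p) (hDV : T_DV p) : T_NL2 p := by
  intro h3 H hN
  obtain ⟨n, hn0, hnn, hst, huniq⟩ := hN
  -- the line of `n` is stable under the Galois group
  have hgal : ∀ σ : PadicAlgCl p ≃ₐ[ℚ_[p]] PadicAlgCl p, ∃ c : PadicAlgCl p,
      quatMap p (σ : PadicAlgCl p →+* PadicAlgCl p) n = c • n := by
    intro σ
    refine huniq _ ?_ ?_
    · rw [← map_mul, hnn, map_zero]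
    · rintro g ⟨u, hu, rfl⟩
      have hu' := hSTA H σ.symm u hu
      obtain ⟨c, hc⟩ := hst _ ⟨_, hu', rfl⟩
      refine ⟨σ c, ?_⟩
      have h1 := congrArg (quatMap p (σ : PadicAlgCl p →+* PadicAlgCl p)) hc
      rw [map_mul, quatMap_smul, map_mul] at h1
      have h2 : quatMap p (σ : PadicAlgCl p →+* PadicAlgCl p)
          (quatMap p ((σ.symm : PadicAlgCl p ≃ₐ[ℚ_[p]] PadicAlgCl p) :
              PadicAlgCl p →+* PadicAlgCl p) (u : AA p (PadicAlgCl p)).2) =
          (u : AA p (PadicAlgCl p)).2 := by
        rw [quatMap_comp]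
        refine QuaternionAlgebra.ext ?_ ?_ ?_ ?_
        · exact σ.apply_symm_apply _
        · exact σ.apply_symm_apply _
        · exact σ.apply_symm_apply _
        · exact σ.apply_symm_apply _
      change quatMap p (σ : PadicAlgCl p →+* PadicAlgCl p)
          (quatMap p ((σ.symm : PadicAlgCl p ≃ₐ[ℚ_[p]] PadicAlgCl p) :
              PadicAlgCl p →+* PadicAlgCl p) (u : AA p (PadicAlgCl p)).2) * _ =
          σ c • (_ * quatMap p (σ : PadicAlgCl p →+* PadicAlgCl p)
          (quatMap p ((σ.symm : PadicAlgCl p ≃ₐ[ℚ_[p]] PadicAlgCl p) :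
              PadicAlgCl p →+* PadicAlgCl p) (u : AA p (PadicAlgCl p)).2)) at h1
      rw [h2] at h1
      exact h1
  have hx0 : co p n ≠ 0 := by
    intro h
    apply hn0
    refine QuaternionAlgebra.ext ?_ ?_ ?_ ?_
    · exact congrFun h 0
    · exact congrFun h 1
    · exact congrFun h 2
    · exact congrFun h 3
  obtain ⟨c, y, hc0, hy⟩ := hDES (Fin 4) (co p n) hx0 (by
    intro σ
    obtain ⟨c, hc⟩ := hgal σ
    refine ⟨c, fun i => ?_⟩
    have h1 := congrArg QuaternionAlgebra.re hc
    have h2 := congrArg QuaternionAlgebra.imI hc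
    have h3 := congrArg QuaternionAlgebra.imJ hc
    have h4 := congrArg QuaternionAlgebra.imK hc
    fin_cases i
    · exact h1
    · exact h2
    · exact h3
    · exact h4)
  have hn : quatMap p (algebraMap ℚ_[p] (PadicAlgCl p)) (mk p y) = c • n := by
    refine QuaternionAlgebra.ext ?_ ?_ ?_ ?_
    · exact (hy 0).symm
    · exact (hy 1).symm
    · exact (hy 2).symm
    · exact (hy 3).symm
  have hinj : Function.Injective (quatMap p (algebraMap ℚ_[p] (PadicAlgCl p))) :=
    quatMap_injective p _ (algebraMap ℚ_[p] (PadicAlgCl p)).injective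
  have h0 : mk p y * mk p y = 0 := by
    apply hinj
    rw [map_mul, map_zero, hn, smul_mul_smul_comm, hnn, smul_zero]
  have h1 := hDV h3 _ h0
  rw [h1, map_zero] at hn
  rcases smul_eq_zero.mp hn.symm with h | h
  · exact hc0 h
  · exact hn0 h

end

end TWT
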