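import Pool.Agent.TWT.Targets

set_option autoImplicit false

/-!
# TWT: NQ (`y` is not quadratic over `ℚ_p`), by helper58
-/

namespace TWT

open WittVector Matrix

noncomputable section

namespace NQ_

variable (p : ℕ) [hp : Fact p.Prime]

lemma norm_one_add_sq (h3 : p % 4 = 3) (t : ℚ_[p]) (ht : ‖t‖ ≤ 1) : ‖1 + t ^ 2‖ = 1 := by
  let z : ℤ_[p] := ⟨t, ht⟩
  have h1 : ‖1 + z ^ 2‖ ≤ 1 := PadicInt.norm_le_one _
  have h2 : ‖1 + z ^ 2‖ = ‖1 + t ^ 2‖ := by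
    rw [PadicInt.norm_def]
    rfl
  rw [← h2]
  refine le_antisymm h1 (not_lt.1 fun h4 => ?_)
  have h5 : PadicInt.toZMod (1 + z ^ 2) = 0 := by
    rw [← RingHom.mem_ker, PadicInt.ker_toZMod]
    exact PadicInt.mem_nonunits.2 h4
  rw [map_add, map_one, map_pow] at h5
  have h6 : IsSquare (-1 : ZMod p) := ⟨PadicInt.toZMod z, by linear_combination -h5⟩
  exact (ZMod.exists_sq_eq_neg_one_iff (p := p)).1 h6 h3

lemma norm_alg (x : ℚ_[p]) : ‖algebraMap ℚ_[p] ℂ_[p] x‖ = ‖x‖ := norm_algebraMap' _ _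

lemma norm_one_add_mul (h3 : p % 4 = 3) {I : ℂ_[p]} (hI : I ^ 2 = -1) (t : ℚ_[p])
    (ht : ‖t‖ ≤ 1) : ‖1 + algebraMap ℚ_[p] ℂ_[p] t * I‖ = 1 := by
  have hI1 : ‖I‖ = 1 := by
    have h1 : ‖I‖ ^ 2 = 1 := by rw [← norm_pow, hI, norm_neg, norm_one]
    have h2 := norm_nonneg I
    nlinarith
  have h1 : (1 + algebraMap ℚ_[p] ℂ_[p] t * I) * (1 - algebraMap ℚ_[p] ℂ_[p] t * I) =
      algebraMap ℚ_[p] ℂ_[p] (1 + t ^ 2) := by
    rw [map_add, map_one, map_pow]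
    linear_combination -(algebraMap ℚ_[p] ℂ_[p] t) ^ 2 * hI
  have h2 : ‖1 + algebraMap ℚ_[p] ℂ_[p] t * I‖ * ‖1 - algebraMap ℚ_[p] ℂ_[p] t * I‖ = 1 := by
    rw [← norm_mul, h1, norm_alg, norm_one_add_sq p h3 t ht]
  have h4 : ‖algebraMap ℚ_[p] ℂ_[p] t * I‖ ≤ 1 := by
    rw [norm_mul, norm_alg, hI1, mul_one]; exact ht
  have h5 : ‖1 + algebraMap ℚ_[p] ℂ_[p] t * I‖ ≤ 1 :=
    (IsUltrametricDist.norm_add_le_max _ _).trans (max_le (by rw [norm_one]) h4)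
  have h6 : ‖1 - algebraMap ℚ_[p] ℂ_[p] t * I‖ ≤ 1 := by
    rw [sub_eq_add_neg]
    exact (IsUltrametricDist.norm_add_le_max _ _).trans
      (max_le (by rw [norm_one]) (by rw [norm_neg]; exact h4))
  have h8 := norm_nonneg (1 + algebraMap ℚ_[p] ℂ_[p] t * I)
  refine le_antisymm h5 ?_
  calc (1 : ℝ) = ‖1 + algebraMap ℚ_[p] ℂ_[p] t * I‖ * ‖1 - algebraMap ℚ_[p] ℂ_[p] t * I‖ :=
        h2.symm
    _ ≤ ‖1 + algebraMap ℚ_[p] ℂ_[p] t * I‖ * 1 := mul_le_mul_of_nonneg_left h6 h8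
    _ = _ := mul_one _

lemma norm_I {I : ℂ_[p]} (hI : I ^ 2 = -1) : ‖I‖ = 1 := by
  have h1 : ‖I‖ ^ 2 = 1 := by rw [← norm_pow, hI, norm_neg, norm_one]
  have h2 := norm_nonneg I
  nlinarith

lemma norm_add_mul (h3 : p % 4 = 3) {I : ℂ_[p]} (hI : I ^ 2 = -1) (x x' : ℚ_[p]) :
    ‖algebraMap ℚ_[p] ℂ_[p] x + algebraMap ℚ_[p] ℂ_[p] x' * I‖ = max ‖x‖ ‖x'‖ := by
  have hI1 := norm_I p hI
  rcases le_total ‖x'‖ ‖x‖ with h | h
  · rw [max_eq_left h]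
    by_cases h0 : x = 0
    · subst h0
      rw [norm_zero, norm_le_zero_iff] at h
      rw [h]
      simp
    · have h1 : algebraMap ℚ_[p] ℂ_[p] x + algebraMap ℚ_[p] ℂ_[p] x' * I =
          algebraMap ℚ_[p] ℂ_[p] x * (1 + algebraMap ℚ_[p] ℂ_[p] (x' / x) * I) := by
        rw [map_div₀]
        have : algebraMap ℚ_[p] ℂ_[p] x ≠ 0 := by simpa using h0
        field_simp
      rw [h1, norm_mul, norm_alg, norm_one_add_mul p h3 hI, mul_one]
      rw [norm_div]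
      exact div_le_one_of_le₀ h (norm_nonneg _)
  · rw [max_eq_right h]
    by_cases h0 : x' = 0
    · subst h0
      rw [norm_zero, norm_le_zero_iff] at h
      rw [h]
      simp
    · have h1 : algebraMap ℚ_[p] ℂ_[p] x + algebraMap ℚ_[p] ℂ_[p] x' * I =
          algebraMap ℚ_[p] ℂ_[p] x' * I * (1 + algebraMap ℚ_[p] ℂ_[p] (-(x / x')) * I) := by
        rw [map_neg, map_div₀]
        have : algebraMap ℚ_[p] ℂ_[p] x' ≠ 0 := by simpa using h0
        field_simp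
        linear_combination (algebraMap ℚ_[p] ℂ_[p] x) * hI
      rw [h1, norm_mul, norm_mul, norm_alg, norm_one_add_mul p h3 hI, mul_one, hI1, mul_one]
      rw [norm_neg, norm_div]
      exact div_le_one_of_le₀ h (norm_nonneg _)

lemma np_zpow (x : ℚ_[p]) (hx : x ≠ 0) : ∃ m : ℤ, ‖x‖ = np p ^ m := by
  refine ⟨x.valuation, ?_⟩
  rw [Padic.norm_eq_zpow_neg_valuation hx]
  change _ = ‖(p : ℂ_[p])‖ ^ _
  rw [norm_p, _root_.inv_zpow, _root_.zpow_neg]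

end NQ_

open NQ_ in
theorem p_NQ (p : ℕ) [hp : Fact p.Prime] : T_NQ p := by
  intro h3 I y hI hyI hlt hne a b c habc
  set A := algebraMap ℚ_[p] ℂ_[p] a
  set B := algebraMap ℚ_[p] ℂ_[p] b
  set C := algebraMap ℚ_[p] ℂ_[p] c
  set h := y - I with hh
  have hpos : 0 < ‖h‖ := norm_pos_iff.2 (sub_ne_zero.2 hyI)
  have h2a : ‖2 * a‖ = ‖a‖ := by
    have h1 := norm_one_add_sq p h3 1 (by simp)
    norm_num at h1
    rw [norm_mul, h1, one_mul]
  have hM : ‖B + algebraMap ℚ_[p] ℂ_[p] (2 * a) * I‖ = max ‖b‖ ‖a‖ := by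
    rw [norm_add_mul p h3 hI, h2a]
  have hN : ‖algebraMap ℚ_[p] ℂ_[p] (c - a) + B * I‖ = max ‖c - a‖ ‖b‖ :=
    norm_add_mul p h3 hI _ _
  have hsum : (B + algebraMap ℚ_[p] ℂ_[p] (2 * a) * I) * h + A * h ^ 2 =
      -(algebraMap ℚ_[p] ℂ_[p] (c - a) + B * I) := by
    have hy : y = I + h := by rw [hh]; ring
    rw [hy] at habc
    rw [map_mul, map_sub, map_ofNat]
    change (B + 2 * A * I) * h + A * h ^ 2 = -(C - A + B * I)
    linear_combination habc - A * hI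
  by_cases h0 : max ‖b‖ ‖a‖ = 0
  · have hb : b = 0 := by
      have := le_max_left ‖b‖ ‖a‖
      rw [h0] at this
      exact norm_le_zero_iff.1 this
    have ha : a = 0 := by
      have := le_max_right ‖b‖ ‖a‖
      rw [h0] at this
      exact norm_le_zero_iff.1 this
    refine ⟨ha, hb, ?_⟩
    have h1 : C = 0 := by
      have : A = 0 := by simp [A, ha]
      have : B = 0 := by simp [B, hb]
      simp_all
    simpa [C] using h1
  · exfalso
    have hMpos : 0 < max ‖b‖ ‖a‖ :=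
      lt_of_le_of_ne (le_max_of_le_left (norm_nonneg _)) (Ne.symm h0)
    have hnA : ‖A‖ = ‖a‖ := norm_alg p a
    have h1 : ‖A * h ^ 2‖ < ‖(B + algebraMap ℚ_[p] ℂ_[p] (2 * a) * I) * h‖ := by
      rw [norm_mul, norm_mul, norm_pow, hnA, hM]
      have h4 : ‖a‖ ≤ max ‖b‖ ‖a‖ := le_max_right _ _
      calc ‖a‖ * ‖h‖ ^ 2 ≤ max ‖b‖ ‖a‖ * ‖h‖ ^ 2 := by gcongr
        _ = max ‖b‖ ‖a‖ * ‖h‖ * ‖h‖ := by ring
        _ < max ‖b‖ ‖a‖ * ‖h‖ * 1 := by
          apply mul_lt_mul_of_pos_left hlt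
          positivity
        _ = _ := mul_one _
    have h2 : ‖(B + algebraMap ℚ_[p] ℂ_[p] (2 * a) * I) * h + A * h ^ 2‖ =
        max ‖b‖ ‖a‖ * ‖h‖ := by
      rw [IsUltrametricDist.norm_add_eq_max_of_norm_ne_norm h1.ne', max_eq_left h1.le,
        norm_mul, hM]
    rw [hsum, norm_neg, hN] at h2
    -- both maxima are powers of `|p|`
    have h5 : ∃ m : ℤ, max ‖b‖ ‖a‖ = np p ^ m := by
      rcases le_total ‖b‖ ‖a‖ with h6 | h6
      · rw [max_eq_right h6] at hMpos ⊢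
        exact np_zpow p a (norm_pos_iff.1 hMpos)
      · rw [max_eq_left h6] at hMpos ⊢
        exact np_zpow p b (norm_pos_iff.1 hMpos)
    have hNpos : 0 < max ‖c - a‖ ‖b‖ := by rw [h2]; positivity
    have h6 : ∃ m : ℤ, max ‖c - a‖ ‖b‖ = np p ^ m := by
      rcases le_total ‖c - a‖ ‖b‖ with h7 | h7
      · rw [max_eq_right h7] at hNpos ⊢
        exact np_zpow p b (norm_pos_iff.1 hNpos)
      · rw [max_eq_left h7] at hNpos ⊢
        exact np_zpow p (c - a) (norm_pos_iff.1 hNpos)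
    obtain ⟨m, hm⟩ := h5
    obtain ⟨m', hm'⟩ := h6
    rw [hm, hm'] at h2
    apply hne (m' - m)
    have hnp : np p ≠ 0 := (norm_p_pos p).ne'
    rw [zpow_sub₀ hnp, h2, mul_div_cancel_left₀ _ (zpow_ne_zero _ hnp)]

end

end TWT
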