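import Pool.Agent.TWT.Targets

/-!
# TWT: NX, the line of `η` is fixed by no quaternion of trace zero
-/

namespace TWT

open WittVector Matrix

noncomputable section

namespace NX_

variable {p : ℕ} [hp : Fact p.Prime]

/-- no square root of `-1` in `ℚ_p` -/
lemma no_sqrt (hp4 : p % 4 = 3) (x : ℚ_[p]) : x ^ 2 ≠ -1 := by
  intro h
  have h1 : ‖x‖ ^ 2 = 1 := by
    rw [← norm_pow, h, norm_neg, norm_one]
  have h2 : ‖x‖ ≤ 1 := by
    nlinarith [norm_nonneg x]
  let y : ℤ_[p] := ⟨x, h2⟩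
  have h3 : y ^ 2 = -1 := by
    apply Subtype.ext
    push_cast
    exact h
  have h4 : (PadicInt.toZMod y) ^ 2 = -1 := by
    rw [← map_pow, h3, map_neg, map_one]
  exact ZMod.mod_four_ne_three_of_sq_eq_neg_one h4 hp4

/-- parity of valuations -/
lemma parity (B A e : ℚ_[p]) (he : e = 1 ∨ e = -1) (h : B ^ 2 = e * (p : ℚ_[p]) ^ 5 * A ^ 2) :
    B = 0 ∧ A = 0 := by
  have hp0 : (p : ℚ_[p]) ≠ 0 := by
    exact_mod_cast hp.out.ne_zero
  have he0 : e ≠ 0 := by
    rcases he with rfl | rfl <;> norm_num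
  have hev : e.valuation = 0 := by
    have h1 : e ^ 2 = 1 := by
      rcases he with rfl | rfl <;> norm_num
    have h2 := congrArg Padic.valuation h1
    rw [Padic.valuation_pow, Padic.valuation_one] at h2
    push_cast at h2
    omega
  by_cases hA : A = 0
  · rw [hA] at h
    refine ⟨?_, hA⟩
    have : B ^ 2 = 0 := by rw [h]; ring
    exact pow_eq_zero_iff (two_ne_zero) |>.1 this
  · exfalso
    have h2 := congrArg Padic.valuation h
    rw [Padic.valuation_mul (mul_ne_zero he0 (pow_ne_zero _ hp0)) (pow_ne_zero _ hA),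
      Padic.valuation_mul he0 (pow_ne_zero _ hp0), Padic.valuation_pow, Padic.valuation_pow,
      Padic.valuation_pow, Padic.valuation_p, hev] at h2
    push_cast at h2
    omega

end NX_

theorem p_NX (p : ℕ) [Fact p.Prime] : T_NX p := by
  intro hp4 I η hI hη N hN hmem
  set f := algebraMap ℚ_[p] ℂ_[p] with hf
  have hfi : Function.Injective f := f.injective
  obtain ⟨r, hr⟩ := Submodule.mem_span_singleton.1 hmem
  have e0 := congrFun hr 0
  have e1 := congrFun hr 1
  have hre : f N.re = 0 := by rw [hN, map_zero]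
  simp [spl, quatMap, Matrix.mulVec, dotProduct, Fin.sum_univ_two, hN] at e0 e1
  -- the relation
  have key : 2 * f N.imI * I * η =
      f N.imJ * (1 - (p : ℂ_[p]) ^ 6) + f N.imK * I * (1 + (p : ℂ_[p]) ^ 6) := by
    rw [e1] at e0
    have h6 : (p : ℂ_[p]) ^ 6 = p * η ^ 2 := by rw [hη]; ring
    rw [h6]
    linear_combination e0
  set B : ℚ_[p] := N.imJ * (1 - (p : ℚ_[p]) ^ 6) with hB
  set C : ℚ_[p] := N.imK * (1 + (p : ℚ_[p]) ^ 6) with hC
  have hfp : f (p : ℚ_[p]) = (p : ℂ_[p]) := map_natCast f p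
  have fB : f B = f N.imJ * (1 - (p : ℂ_[p]) ^ 6) := by
    rw [hB, map_mul, map_sub, map_one, map_pow, hfp]
  have fC : f C = f N.imK * (1 + (p : ℂ_[p]) ^ 6) := by
    rw [hC, map_mul, map_add, map_one, map_pow, hfp]
  have key2 : 2 * f N.imI * I * η = f B + f C * I := by
    rw [fB, fC, key]
    ring
  have key3 : f (B ^ 2 - C ^ 2 + 4 * N.imI ^ 2 * (p : ℚ_[p]) ^ 5) + f (2 * B * C) * I = 0 := by
    simp only [map_add, map_sub, map_mul, map_pow, hfp, map_ofNat]
    have h1 : (2 * f N.imI * I * η) ^ 2 = (f B + f C * I) ^ 2 := by rw [key2]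
    have h2 : (2 * f N.imI * I * η) ^ 2 = 4 * (f N.imI) ^ 2 * I ^ 2 * η ^ 2 := by ring
    rw [h2, hI, hη] at h1
    linear_combination -h1 - (f C) ^ 2 * hI
  have hBC : 2 * B * C = 0 := by
    by_contra hne
    have hne' : f (2 * B * C) ≠ 0 := by
      rw [Ne, map_eq_zero_iff f hfi]
      exact hne
    have hIeq : I = f (-(B ^ 2 - C ^ 2 + 4 * N.imI ^ 2 * (p : ℚ_[p]) ^ 5) / (2 * B * C)) := by
      rw [map_div₀, map_neg, eq_div_iff hne']
      linear_combination key3
    apply NX_.no_sqrt hp4 (-(B ^ 2 - C ^ 2 + 4 * N.imI ^ 2 * (p : ℚ_[p]) ^ 5) / (2 * B * C))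
    apply hfi
    rw [map_pow, ← hIeq, hI, map_neg, map_one]
  have hzero : B ^ 2 - C ^ 2 + 4 * N.imI ^ 2 * (p : ℚ_[p]) ^ 5 = 0 := by
    apply hfi
    rw [map_zero]
    rw [hBC, map_zero, zero_mul, add_zero] at key3
    exact key3
  have h2 : (2 : ℚ_[p]) ≠ 0 := two_ne_zero
  have hBC' : B = 0 ∨ C = 0 := by
    have h3 : B * C = 0 := by
      have : (2 : ℚ_[p]) * (B * C) = 0 := by linear_combination hBC
      exact (mul_eq_zero.1 this).resolve_left h2
    exact mul_eq_zero.1 h3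
  have hall : B = 0 ∧ C = 0 ∧ 2 * N.imI = 0 := by
    rcases hBC' with h | h
    · have h4 := NX_.parity C (2 * N.imI) 1 (Or.inl rfl) (by
        rw [h] at hzero
        linear_combination -hzero)
      exact ⟨h, h4.1, h4.2⟩
    · have h4 := NX_.parity B (2 * N.imI) (-1) (Or.inr rfl) (by
        rw [h] at hzero
        linear_combination hzero)
      exact ⟨h4.1, h, h4.2⟩
  have hp6 : ∀ e : ℚ_[p], (e = 1 ∨ e = -1) → 1 + e * (p : ℚ_[p]) ^ 6 ≠ 0 := by
    intro e he h0
    have h5 : e * (p : ℚ_[p]) ^ 6 = -1 := by linear_combination h0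
    have h6 := congrArg norm h5
    have he1 : ‖e‖ = 1 := by
      rcases he with rfl | rfl <;> simp
    rw [norm_mul, norm_pow, he1, norm_neg, norm_one, one_mul] at h6
    have h7 : ‖(p : ℚ_[p])‖ < 1 := Padic.norm_p_lt_one
    have h8 : ‖(p : ℚ_[p])‖ ^ 6 < 1 := pow_lt_one₀ (norm_nonneg _) h7 (by norm_num)
    exact h8.ne h6
  have hJ : N.imJ = 0 := by
    have h9 : 1 - (p : ℚ_[p]) ^ 6 ≠ 0 := by
      have := hp6 (-1) (Or.inr rfl)
      intro h0
      apply this
      linear_combination h0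
    exact (mul_eq_zero.1 hall.1).resolve_right h9
  have hK : N.imK = 0 := by
    have h9 : 1 + (p : ℚ_[p]) ^ 6 ≠ 0 := by
      have := hp6 1 (Or.inl rfl)
      intro h0
      apply this
      linear_combination h0
    exact (mul_eq_zero.1 hall.2.1).resolve_right h9
  have hI0 : N.imI = 0 := (mul_eq_zero.1 hall.2.2).resolve_left h2
  ext
  · exact hN
  · exact hI0
  · exact hJ
  · exact hK

end

end TWT
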