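import Pool.Agent.TWT.Targets

/-!
# TWT: the point (target `T_PT`)
-/

namespace TWT

open Matrix

namespace PT_

variable (p : ℕ) [hp : Fact p.Prime]

/-! ### The algebra over the period ring -/

lemma spl_J {R : Type} [CommRing R] (o : R) :
    spl p o (⟨0, 0, 1, 0⟩ : Quat p R) = (beta p R).1 := by
  ext i j
  fin_cases i <;> fin_cases j <;> simp [spl, beta]

lemma map_spl {R S : Type} [CommRing R] [CommRing S] (f : R →+* S) (o : R) (x : Quat p R) :
    f.mapMatrix (spl p o x) = spl p (f o) (quatMap p f x) := by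
  ext i j
  fin_cases i <;> fin_cases j <;> simp [spl, quatMap]

lemma ring_part (hS : T_SPL p) (B : Type) [CommRing B] (φ : B →+* B) (o T1 T2 F1 F2 : B)
    (ho : o ^ 2 = -1) (hφo : φ o = -o) (h1 : φ T1 = F1) (h2 : φ T2 = F2)
    (h3 : φ F1 = p * T1) (h4 : φ F2 = p * T2) (u2 : IsUnit (2 : B)) (up : IsUnit (p : B)) :
    ∃ z z' : AA p B, z.1 = !![T1, T2; F1, F2] ∧
      spl p o z.2 = !![o * F2, -(o * T2); -(o * F1), o * T1] ∧
      aaMap p φ z = beta p B * z ∧
      z * z' = (o * (T1 * F2 - T2 * F1)) • (1 : AA p B) ∧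
      z' * z = (o * (T1 * F2 - T2 * F1)) • (1 : AA p B) := by
  have ho2 : o * o = -1 := by rw [← pow_two]; exact ho
  obtain ⟨s1, s2, s3, s4, s5, s6, s7⟩ := hS B o ho
  obtain ⟨hinj, hsur⟩ := s7 u2 up
  obtain ⟨q, hq⟩ := hsur !![o * F2, -(o * T2); -(o * F1), o * T1]
  obtain ⟨q', hq'⟩ := hsur !![T1, T2; F1, F2]
  have hcancel : ∀ M M' : Matrix (Fin 2) (Fin 2) B,
      (beta p B).1 * M = (beta p B).1 * M' → M = M' := by
    intro M M' h
    have hb : (beta p B).1 * (beta p B).1 = (p : B) • (1 : Matrix (Fin 2) (Fin 2) B) := by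
      ext i j
      fin_cases i <;> fin_cases j <;> simp [beta, Matrix.mul_apply, Fin.sum_univ_two]
    have h' : (p : B) • M = (p : B) • M' := by
      have e1 : (beta p B).1 * ((beta p B).1 * M) = (beta p B).1 * ((beta p B).1 * M') := by
        rw [h]
      rw [← mul_assoc, ← mul_assoc, hb] at e1
      simpa using e1
    obtain ⟨v, hv⟩ := up
    have hv1 : ((v⁻¹ : Bˣ) : B) * (p : B) = 1 := by rw [← hv]; exact Units.inv_mul v
    calc M = (((v⁻¹ : Bˣ) : B) * (p : B)) • M := by rw [hv1, one_smul]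
      _ = ((v⁻¹ : Bˣ) : B) • ((p : B) • M) := by rw [mul_smul]
      _ = ((v⁻¹ : Bˣ) : B) • ((p : B) • M') := by rw [h']
      _ = (((v⁻¹ : Bˣ) : B) * (p : B)) • M' := by rw [mul_smul]
      _ = M' := by rw [hv1, one_smul]
  have hfrob : quatMap p φ q = (⟨0, 0, 1, 0⟩ : Quat p B) * q := by
    apply hinj
    apply hcancel
    change (beta p B).1 * spl p o (quatMap p φ q) = (beta p B).1 * spl p o (⟨0, 0, 1, 0⟩ * q)
    rw [s6, s2, spl_J, hq]
    have e1 : spl p (-o) (quatMap p φ q) = φ.mapMatrix (spl p o q) := by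
      rw [map_spl, hφo]
    rw [e1, hq]
    ext i j
    fin_cases i <;> fin_cases j <;>
      simp [beta, Matrix.mul_apply, Fin.sum_univ_two, hφo, h1, h2, h3, h4] <;> ring
  have hm1 : (!![T1, T2; F1, F2] : Matrix (Fin 2) (Fin 2) B) *
      !![o * F2, -(o * T2); -(o * F1), o * T1] = (o * (T1 * F2 - T2 * F1)) • 1 := by
    ext i j
    fin_cases i <;> fin_cases j <;> simp [Matrix.mul_apply, Fin.sum_univ_two] <;> ring
  have hm2 : (!![o * F2, -(o * T2); -(o * F1), o * T1] : Matrix (Fin 2) (Fin 2) B) *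
      !![T1, T2; F1, F2] = (o * (T1 * F2 - T2 * F1)) • 1 := by
    ext i j
    fin_cases i <;> fin_cases j <;> simp [Matrix.mul_apply, Fin.sum_univ_two] <;> ring
  refine ⟨(!![T1, T2; F1, F2], q), (!![o * F2, -(o * T2); -(o * F1), o * T1], q'), rfl, hq,
    ?_, ?_, ?_⟩
  · refine Prod.ext ?_ ?_
    · change φ.mapMatrix !![T1, T2; F1, F2] = (beta p B).1 * !![T1, T2; F1, F2]
      ext i j
      fin_cases i <;> fin_cases j <;>
        simp [beta, Matrix.mul_apply, Fin.sum_univ_two, h1, h2, h3, h4]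
    · exact hfrob
  · refine Prod.ext ?_ ?_
    · exact hm1
    · apply hinj
      change spl p o (q * q') = spl p o ((o * (T1 * F2 - T2 * F1)) • (1 : Quat p B))
      rw [s2, s4, s1, hq, hq', hm2]
  · refine Prod.ext ?_ ?_
    · exact hm2
    · apply hinj
      change spl p o (q' * q) = spl p o ((o * (T1 * F2 - T2 * F1)) • (1 : Quat p B))
      rw [s2, s4, s1, hq, hq', hm1]

/-! ### Flags over a field -/

section field

variable {F : Type} [Field F]

lemma mem_line (a b : F) (v : Fin 2 → F) :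
    v ∈ Submodule.span F {![a, b]} ↔ ∃ c : F, v 0 = c * a ∧ v 1 = c * b := by
  rw [Submodule.mem_span_singleton]
  constructor
  · rintro ⟨c, rfl⟩
    exact ⟨c, by simp, by simp⟩
  · rintro ⟨c, h0, h1⟩
    refine ⟨c, ?_⟩
    ext i
    fin_cases i
    · simpa using h0.symm
    · simpa using h1.symm

/-- matrices all of whose values lie in a line -/
lemma mulVec_line (a b : F) (M : Matrix (Fin 2) (Fin 2) F) :
    (∀ v, M *ᵥ v ∈ Submodule.span F {![a, b]}) ↔
      ∃ c d : F, M = !![a * c, a * d; b * c, b * d] := by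
  constructor
  · intro h
    obtain ⟨c, hc0, hc1⟩ := (mem_line a b _).mp (h ![1, 0])
    obtain ⟨d, hd0, hd1⟩ := (mem_line a b _).mp (h ![0, 1])
    refine ⟨c, d, ?_⟩
    simp [Matrix.mulVec, dotProduct, Fin.sum_univ_two] at hc0 hc1 hd0 hd1
    ext i j
    fin_cases i <;> fin_cases j <;> simp [hc0, hc1, hd0, hd1, mul_comm]
  · rintro ⟨c, d, rfl⟩ v
    rw [mem_line]
    refine ⟨c * v 0 + d * v 1, ?_, ?_⟩ <;>
      simp [Matrix.mulVec, dotProduct, Fin.sum_univ_two] <;> ring

end field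

/-- the splitting as a linear equivalence -/
noncomputable def splE (hS : T_SPL p) {F : Type} [Field F] (I : F) (hI : I ^ 2 = -1)
    (h2 : IsUnit (2 : F)) (hp' : IsUnit (p : F)) : Quat p F ≃ₗ[F] Matrix (Fin 2) (Fin 2) F :=
  LinearEquiv.ofBijective
    { toFun := spl p I
      map_add' := (hS F I hI).2.2.1
      map_smul' := (hS F I hI).2.2.2.1 }
    ((hS F I hI).2.2.2.2.2.2 h2 hp')

lemma splE_apply (hS : T_SPL p) {F : Type} [Field F] (I : F) (hI : I ^ 2 = -1)
    (h2 : IsUnit (2 : F)) (hp' : IsUnit (p : F)) (x : Quat p F) :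
    splE p hS I hI h2 hp' x = spl p I x := rfl

lemma finrank_ideal (hS : T_SPL p) {F : Type} [Field F] (I : F) (hI : I ^ 2 = -1)
    (h2 : IsUnit (2 : F)) (hp' : IsUnit (p : F)) (a b : F) (hb : b ≠ 0) :
    Module.finrank F (idealOf p I (Submodule.span F {![a, b]})) = 2 := by
  let L0 : (Fin 2 → F) →ₗ[F] Matrix (Fin 2) (Fin 2) F :=
    { toFun := fun w => !![a * w 0, a * w 1; b * w 0, b * w 1]
      map_add' := by
        intro x y
        ext i j
        fin_cases i <;> fin_cases j <;> simp <;> ring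
      map_smul' := by
        intro c x
        ext i j
        fin_cases i <;> fin_cases j <;> simp <;> ring }
  have hL0 : ∀ w, L0 w = !![a * w 0, a * w 1; b * w 0, b * w 1] := fun w => rfl
  let L : (Fin 2 → F) →ₗ[F] Quat p F := (splE p hS I hI h2 hp').symm.toLinearMap ∘ₗ L0
  have hL : ∀ w, spl p I (L w) = !![a * w 0, a * w 1; b * w 0, b * w 1] := by
    intro w
    rw [← splE_apply p hS I hI h2 hp', ← hL0]
    exact (splE p hS I hI h2 hp').apply_symm_apply _
  have hinj : Function.Injective L := by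
    intro w w' h
    have e := hL w
    rw [h, hL w'] at e
    have e0 := congrFun (congrFun e 1) 0
    have e1 := congrFun (congrFun e 1) 1
    simp at e0 e1
    ext i
    fin_cases i
    · simpa using (e0.resolve_right hb).symm
    · simpa using (e1.resolve_right hb).symm
  have hran : LinearMap.range L = idealOf p I (Submodule.span F {![a, b]}) := by
    ext x
    constructor
    · rintro ⟨w, rfl⟩
      change ∀ v, spl p I (L w) *ᵥ v ∈ _
      rw [mulVec_line]
      exact ⟨w 0, w 1, hL w⟩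
    · intro hx
      have hx' : ∀ v, spl p I x *ᵥ v ∈ Submodule.span F {![a, b]} := hx
      rw [mulVec_line] at hx'
      obtain ⟨c, d, hcd⟩ := hx'
      refine ⟨![c, d], ?_⟩
      apply (splE p hS I hI h2 hp').injective
      rw [splE_apply, splE_apply, hL, hcd]
      simp
  rw [← hran, LinearMap.finrank_range_of_inj hinj]
  simp

lemma ker_one {F : Type} [Field F] (η u1 u2 : F) (hu : u1 ≠ 0) :
    LinearMap.ker (Matrix.toLin' !![-η * u1, -η * u2; u1, u2]) =
      Submodule.span F {![-u2 / u1, 1]} := by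
  ext v
  rw [mem_line, LinearMap.mem_ker, Matrix.toLin'_apply]
  constructor
  · intro h
    have h1 := congrFun h 1
    simp [Matrix.mulVec, dotProduct, Fin.sum_univ_two] at h1
    refine ⟨v 1, ?_, by ring⟩
    field_simp
    linear_combination h1
  · rintro ⟨c, h0, h1⟩
    have h1' : v 1 = c := by rw [h1, mul_one]
    have h0' : u1 * v 0 + u2 * v 1 = 0 := by
      rw [h0, h1']
      field_simp
      ring
    ext i
    fin_cases i
    · simp [Matrix.mulVec, dotProduct, Fin.sum_univ_two]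
      linear_combination (-η) * h0'
    · simp [Matrix.mulVec, dotProduct, Fin.sum_univ_two]
      exact h0'

lemma ran_one {F : Type} [Field F] (η u1 u2 : F) (hu : u1 ≠ 0) :
    LinearMap.range (Matrix.toLin' !![-η * u1, -η * u2; u1, u2]) = lineOf η := by
  ext v
  unfold lineOf
  rw [mem_line, LinearMap.mem_range]
  constructor
  · rintro ⟨w, rfl⟩
    refine ⟨u1 * w 0 + u2 * w 1, ?_, ?_⟩ <;>
      simp [Matrix.mulVec, dotProduct, Fin.sum_univ_two] <;> ring
  · rintro ⟨c, h0, h1⟩
    refine ⟨![c / u1, 0], ?_⟩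
    rw [Matrix.toLin'_apply]
    ext i
    fin_cases i
    · simp [Matrix.mulVec, dotProduct, Fin.sum_univ_two, h0]
      field_simp
    · simp [Matrix.mulVec, dotProduct, Fin.sum_univ_two, h1]
      field_simp

lemma ker_two (hS : T_SPL p) {F : Type} [Field F] (I : F) (hI : I ^ 2 = -1)
    (h2 : IsUnit (2 : F)) (hp' : IsUnit (p : F)) (η u1 u2 : F) (hu : u1 ≠ 0) (θq : Quat p F)
    (hθ : spl p I θq = !![I * u2, -(I * (-η * u2)); -(I * u1), I * (-η * u1)]) :
    LinearMap.ker (LinearMap.mulLeft F θq) = idealOf p I (lineOf η) := by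
  have hI0 : I ≠ 0 := by
    rintro rfl
    norm_num at hI
  have hA : ∀ w : Fin 2 → F, spl p I θq *ᵥ w = 0 ↔ w ∈ lineOf η := by
    intro w
    unfold lineOf
    rw [mem_line, hθ]
    constructor
    · intro h
      have h1 := congrFun h 1
      simp [Matrix.mulVec, dotProduct, Fin.sum_univ_two] at h1
      have h1' : (I * u1) * (w 0 + η * w 1) = 0 := by linear_combination -h1
      have h1'' := (mul_eq_zero.mp h1').resolve_left (mul_ne_zero hI0 hu)
      refine ⟨w 1, ?_, by ring⟩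
      linear_combination h1''
    · rintro ⟨c, h0, h1⟩
      ext i
      fin_cases i <;> simp [Matrix.mulVec, dotProduct, Fin.sum_univ_two, h0, h1] <;> ring
  ext x
  rw [LinearMap.mem_ker, LinearMap.mulLeft_apply]
  constructor
  · intro h v
    rw [← hA, Matrix.mulVec_mulVec, ← (hS F I hI).2.1, h]
    have : spl p I (0 : Quat p F) = 0 := (splE p hS I hI h2 hp').map_zero
    rw [this, Matrix.zero_mulVec]
  · intro h
    have h' : ∀ v, spl p I x *ᵥ v ∈ lineOf η := h
    apply (splE p hS I hI h2 hp').injective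
    rw [map_zero, splE_apply, (hS F I hI).2.1]
    have h'' : ∀ v, (spl p I θq * spl p I x) *ᵥ v = 0 := by
      intro v
      rw [← Matrix.mulVec_mulVec]
      exact (hA _).mpr (h' v)
    ext i j
    have := congrFun (h'' (Pi.single j 1)) i
    simpa using this

lemma ran_two (hS : T_SPL p) {F : Type} [Field F] (I : F) (hI : I ^ 2 = -1)
    (h2 : IsUnit (2 : F)) (hp' : IsUnit (p : F)) (η u1 u2 : F) (hu : u1 ≠ 0) (θq : Quat p F)
    (hθ : spl p I θq = !![I * u2, -(I * (-η * u2)); -(I * u1), I * (-η * u1)]) :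
    LinearMap.range (LinearMap.mulLeft F θq) =
      idealOf p I (Submodule.span F {![-u2 / u1, 1]}) := by
  have hI0 : I ≠ 0 := by
    rintro rfl
    norm_num at hI
  ext x
  constructor
  · rintro ⟨w, rfl⟩ v
    rw [LinearMap.mulLeft_apply, (hS F I hI).2.1, ← Matrix.mulVec_mulVec, hθ, mem_line]
    generalize spl p I w *ᵥ v = z
    refine ⟨-(I * u1) * (z 0 + η * z 1), ?_, ?_⟩
    · simp [Matrix.mulVec, dotProduct, Fin.sum_univ_two]
      field_simp
    · simp [Matrix.mulVec, dotProduct, Fin.sum_univ_two]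
      ring
  · intro h
    have h' : ∀ v, spl p I x *ᵥ v ∈ Submodule.span F {![-u2 / u1, 1]} := h
    rw [mulVec_line] at h'
    obtain ⟨c, d, hcd⟩ := h'
    refine ⟨(splE p hS I hI h2 hp').symm !![-(I * u1)⁻¹ * c, -(I * u1)⁻¹ * d; 0, 0], ?_⟩
    rw [LinearMap.mulLeft_apply]
    apply (splE p hS I hI h2 hp').injective
    rw [splE_apply, splE_apply, (hS F I hI).2.1, ← splE_apply p hS I hI h2 hp'
      ((splE p hS I hI h2 hp').symm _), LinearEquiv.apply_symm_apply, hθ, hcd]
    ext i j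
    fin_cases i <;> fin_cases j <;> simp [Matrix.mul_apply, Fin.sum_univ_two] <;> field_simp

/-! ### The period ring -/

lemma phiB_alg (a : Acris p) :
    phiB p (algebraMap (Acris p) (Bcris p) a) = algebraMap (Acris p) (Bcris p) (phiA p a) :=
  IsLocalization.Away.lift_eq _ _ _

lemma thetaB_alg (a : Acris p) :
    thetaB p (algebraMap (Acris p) (Bcris p) a) = ((thetaA p a : OC p) : ℂ_[p]) :=
  IsLocalization.Away.lift_eq _ _ _

lemma unit_p : IsUnit (p : Bcris p) := by
  have := IsLocalization.Away.algebraMap_isUnit (S := Bcris p) (p : Acris p)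
  rwa [map_natCast] at this

lemma unit_two (h : p % 4 = 3) : IsUnit (2 : Bcris p) := by
  have h1 : IsUnit ((2 : ℕ) : Ainf p) := by
    apply isUnit_nat
    intro hd
    have := (Nat.prime_dvd_prime_iff_eq hp.out Nat.prime_two).mp hd
    omega
  have h2 := (h1.map (jj p)).map (algebraMap (Acris p) (Bcris p))
  rw [map_natCast, map_natCast] at h2
  exact_mod_cast h2

lemma alg_inj (hA : T_ATF p) : Function.Injective (algebraMap (Acris p) (Bcris p)) := by
  apply IsLocalization.injective (M := Submonoid.powers (p : Acris p)) (Bcris p)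
  have h1 : (p : Acris p) ∈ nonZeroDivisors (Acris p) := by
    rw [mem_nonZeroDivisors_iff_right]
    intro x hx
    exact hA.1 x (by rw [mul_comm]; exact hx)
  exact Submonoid.powers_le.mpr h1

end PT_

open PT_ in
/-- target `T_PT` -/
theorem p_PT (p : ℕ) [hp : Fact p.Prime] (hIO : T_IOT p) (hA : T_ATF p) (hE : T_EX p)
    (hS : T_SPL p) : T_PT p := by
  intro hp3
  obtain ⟨ω, hω, hfω⟩ := hIO hp3
  -- the square root of `-1`
  set IC : ℂ_[p] := ((theta p ω : OC p) : ℂ_[p]) with hICdef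
  have hIC : IC ^ 2 = -1 := by
    have h1 : theta p ω * theta p ω = -1 := by rw [← map_mul, hω, map_neg, map_one]
    have h2 := congrArg (fun x : OC p => (x : ℂ_[p])) h1
    rw [pow_two]
    simpa using h2
  obtain ⟨I, hI, hII⟩ : ∃ I : PadicAlgCl p, I ^ 2 = -1 ∧
      algebraMap (PadicAlgCl p) ℂ_[p] I = IC := by
    obtain ⟨I0, hI0⟩ := IsAlgClosed.exists_pow_nat_eq (-1 : PadicAlgCl p) (n := 2) (by norm_num)
    have h1 : (algebraMap (PadicAlgCl p) ℂ_[p] I0) ^ 2 = IC ^ 2 := by
      rw [hIC, ← map_pow, hI0, map_neg, map_one]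
    rcases sq_eq_sq_iff_eq_or_eq_neg.mp h1 with h | h
    · exact ⟨I0, hI0, h⟩
    · refine ⟨-I0, by rw [neg_sq, hI0], ?_⟩
      rw [map_neg, h, neg_neg]
  obtain ⟨η, hη⟩ := IsAlgClosed.exists_pow_nat_eq ((p : PadicAlgCl p) ^ 5) (n := 2) (by norm_num)
  set ηC : ℂ_[p] := algebraMap (PadicAlgCl p) ℂ_[p] η with hηCdef
  have hηC : ηC ^ 2 = (p : ℂ_[p]) ^ 5 := by
    rw [hηCdef, ← map_pow, hη, map_pow, map_natCast]
  have hηle : ‖ηC‖ ≤ 1 := by
    have h1 : ‖ηC‖ ^ 2 ≤ 1 := by
      rw [← norm_pow, hηC, norm_pow]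
      exact pow_le_one₀ (norm_nonneg _) (norm_p_lt_one p).le
    by_contra h
    push Not at h
    nlinarith [norm_nonneg ηC]
  let ηO : OC p := ⟨ηC, (mem_OC_iff p _).mpr hηle⟩
  have hηO : ηO ^ 2 = (p : OC p) ^ 5 := by
    apply Subtype.ext
    have : ((ηO ^ 2 : OC p) : ℂ_[p]) = ηC ^ 2 := rfl
    rw [this, hηC]
    norm_cast
  obtain ⟨t₁, t₂, hg1, hg2, he1, he2, hu1, hu12, hlt, hval, hdet⟩ := hE hp3 ω hω hfω ηO hηO
  -- elements of `B`
  set al := algebraMap (Acris p) (Bcris p) with hal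
  set o : Bcris p := al (jj p ω) with hodef
  have ho : o ^ 2 = -1 := by
    rw [pow_two, hodef, ← map_mul, ← map_mul, hω, map_neg, map_neg, map_one, map_one]
  have hφo : phiB p o = -o := by
    rw [hodef, hal, phiB_alg, phiA_jj, hfω, map_neg, map_neg]
  have hθo : thetaB p o = IC := by
    rw [hodef, hal, thetaB_alg, thetaA_jj]
  have h3 : phiB p (al (phiA p t₁)) = p * al t₁ := by
    rw [hal, phiB_alg, hg1, map_mul, map_natCast]
  have h4 : phiB p (al (phiA p t₂)) = p * al t₂ := by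
    rw [hal, phiB_alg, hg2, map_mul, map_natCast]
  obtain ⟨z, z', hz1, hz2, hfr, hzz, hzz'⟩ := ring_part p hS (Bcris p) (phiB p) o (al t₁) (al t₂)
    (al (phiA p t₁)) (al (phiA p t₂)) ho hφo (phiB_alg p t₁) (phiB_alg p t₂) h3 h4
    (unit_two p hp3) (unit_p p)
  set t : Bcris p := o * (al t₁ * al (phiA p t₂) - al t₂ * al (phiA p t₁)) with htdef
  -- values of theta
  set u1 : ℂ_[p] := ((thetaA p (phiA p t₁) : OC p) : ℂ_[p]) with hu1def
  set u2 : ℂ_[p] := ((thetaA p (phiA p t₂) : OC p) : ℂ_[p]) with hu2def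
  have hθ3 : thetaB p (al (phiA p t₁)) = u1 := thetaB_alg p _
  have hθ4 : thetaB p (al (phiA p t₂)) = u2 := thetaB_alg p _
  have hθ1 : thetaB p (al t₁) = -ηC * u1 := by
    rw [hal, thetaB_alg]
    have h1 := congrArg (fun x : OC p => (x : ℂ_[p])) he1
    have h2 : ((thetaA p t₁ : OC p) : ℂ_[p]) + ηC * u1 = 0 := by simpa using h1
    linear_combination h2
  have hθ2 : thetaB p (al t₂) = -ηC * u2 := by
    rw [hal, thetaB_alg]
    have h1 := congrArg (fun x : OC p => (x : ℂ_[p])) he2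
    have h2 : ((thetaA p t₂ : OC p) : ℂ_[p]) + ηC * u2 = 0 := by simpa using h1
    linear_combination h2
  have hu1' : u1 ≠ 0 := by
    intro h
    exact hu1 (Subtype.ext h)
  have ht : t ∈ TT p := by
    refine ⟨?_, ?_, ?_⟩
    · rw [htdef, map_mul, map_sub, map_mul, map_mul, hφo, h3, h4, phiB_alg, phiB_alg]
      ring
    · rw [htdef, map_mul, map_sub, map_mul, map_mul, hθ1, hθ2, hθ3, hθ4]
      ring
    · intro h0
      have h1 : al t₁ * al (phiA p t₂) - al t₂ * al (phiA p t₁) = 0 := by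
        have h2 : o * t = -(al t₁ * al (phiA p t₂) - al t₂ * al (phiA p t₁)) := by
          rw [htdef]
          linear_combination (al t₁ * al (phiA p t₂) - al t₂ * al (phiA p t₁)) * ho
        rw [h0, mul_zero] at h2
        linear_combination h2
      apply hdet
      apply alg_inj p hA
      rw [map_sub, map_mul, map_mul, map_zero]
      exact h1
  -- flags
  have hp' : IsUnit (p : ℂ_[p]) := isUnit_iff_ne_zero.mpr (p_ne_zero p)
  have h2' : IsUnit (2 : ℂ_[p]) := by
    have h := (unit_two p hp3).map (thetaB p)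
    simpa using h
  have hθz1 : (thetaAA p z).1 = !![-ηC * u1, -ηC * u2; u1, u2] := by
    change (thetaB p).mapMatrix z.1 = _
    rw [hz1]
    ext i j
    fin_cases i <;> fin_cases j <;> simp [hθ1, hθ2, hθ3, hθ4]
  have hθz2 : spl p IC (thetaAA p z).2 =
      !![IC * u2, -(IC * (-ηC * u2)); -(IC * u1), IC * (-ηC * u1)] := by
    change spl p IC (quatMap p (thetaB p) z.2) = _
    rw [← hθo, ← map_spl, hz2]
    ext i j
    fin_cases i <;> fin_cases j <;> simp [hθ1, hθ2, hθ3, hθ4, hθo]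
  have hHT : HT p z = (Submodule.span ℂ_[p] {![-u2 / u1, 1]}, idealOf p IC (lineOf ηC)) := by
    refine Prod.ext ?_ ?_
    · change LinearMap.ker (Matrix.toLin' (thetaAA p z).1) = _
      rw [hθz1]
      exact ker_one ηC u1 u2 hu1'
    · exact ker_two p hS IC hIC h2' hp' ηC u1 u2 hu1' _ hθz2
  have hHdg : Hdg p z = (lineOf ηC, idealOf p IC (Submodule.span ℂ_[p] {![-u2 / u1, 1]})) := by
    refine Prod.ext ?_ ?_
    · change LinearMap.range (Matrix.toLin' (thetaAA p z).1) = _
      rw [hθz1]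
      exact ran_one ηC u1 u2 hu1'
    · exact ran_two p hS IC hIC h2' hp' ηC u1 u2 hu1' _ hθz2
  have hdiff : -u2 / u1 - IC = -(u2 + IC * u1) / u1 := by
    field_simp
    ring
  have hcast : ((thetaA p (phiA p t₂) + theta p ω * thetaA p (phiA p t₁) : OC p) : ℂ_[p]) =
      u2 + IC * u1 := by
    rfl
  have hn : ‖-u2 / u1 - IC‖ = ‖u2 + IC * u1‖ / ‖u1‖ := by
    rw [hdiff, norm_div, norm_neg]
  have hn1 : 0 < ‖u1‖ := norm_pos_iff.mpr hu1'
  refine ⟨I, η, hI, hη, z, -u2 / u1, ⟨hfr, ⟨z', t, ht, hzz, hzz'⟩, ?_, ?_⟩, ?_, ?_, ?_, ?_, ?_⟩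
  · rw [hHT]
    have hne : (![-u2 / u1, 1] : Fin 2 → ℂ_[p]) ≠ 0 := by
      intro h
      have := congrFun h 1
      simp at this
    exact finrank_span_singleton hne
  · rw [hHT]
    exact finrank_ideal p hS IC hIC h2' hp' (-ηC) 1 one_ne_zero
  · rw [hII]
    exact hHdg
  · rw [hII]
    exact hHT
  · rw [hII]
    intro h
    apply hu12
    apply Subtype.ext
    rw [hcast]
    have h1 : -u2 / u1 - IC = 0 := by rw [h, sub_self]
    rw [hdiff, div_eq_zero_iff] at h1
    have h2 := h1.resolve_right hu1'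
    change u2 + IC * u1 = 0
    linear_combination -h2
  · rw [hII, hn, div_lt_one hn1]
    have := hlt
    unfold nO at this
    rw [hcast] at this
    exact this
  · intro m hm
    rw [hII, hn] at hm
    apply hval m
    unfold nO
    rw [hcast]
    rw [div_eq_iff hn1.ne'] at hm
    exact hm

end TWT
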