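import Pool.Agent.TWT.Targets

/-!
# TWT: target T_ROOT (roots of `W^(p^2) + p W = c`)
-/

namespace TWT

open WittVector Matrix

noncomputable section

variable (p : ℕ) [hp : Fact p.Prime]

open Polynomial in
lemma ROOT_.exists_root (c : ℂ_[p]) : ∃ W : ℂ_[p], W ^ p ^ 2 + (p : ℂ_[p]) * W = c := by
  have hp2 : 2 ≤ p ^ 2 := by
    have := hp.out.two_le
    nlinarith
  have hdeg : (X ^ p ^ 2 + (C (p : ℂ_[p]) * X - C c) : ℂ_[p][X]).natDegree = p ^ 2 := by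
    rw [natDegree_add_eq_left_of_natDegree_lt]
    · exact natDegree_X_pow _
    · rw [natDegree_X_pow]
      refine lt_of_le_of_lt ?_ (show 1 < p ^ 2 by omega)
      refine (natDegree_sub_le _ _).trans (max_le ?_ ?_)
      · exact (natDegree_C_mul_le _ _).trans natDegree_X_le
      · rw [natDegree_C]
        exact Nat.zero_le 1
  obtain ⟨W, hW⟩ := IsAlgClosed.exists_root
    (X ^ p ^ 2 + (C (p : ℂ_[p]) * X - C c) : ℂ_[p][X]) (by
      intro h
      have h1 := natDegree_eq_zero_iff_degree_le_zero.2 h.le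
      rw [hdeg] at h1
      omega)
  refine ⟨W, ?_⟩
  simp only [IsRoot.def, eval_add, eval_sub, eval_mul, eval_pow, eval_X, eval_C] at hW
  linear_combination hW

lemma ROOT_.real {x c q : ℝ} (hx0 : 0 ≤ x) (hx : x ≤ 1) (hq0 : 0 < q) (hq : q < 1) (n : ℕ)
    (hn : 2 ≤ n) (hcq : c ^ 2 ≤ q) (h : x ^ (n - 1) ≤ q ∨ x ^ n = c) :
    x ^ (2 * n) ≤ q ∧ (c ≤ q → x ^ n ≤ q) := by
  rcases h with h | h
  · have h1 : x ^ n ≤ q := by
      have h2 : x ^ n = x ^ (n - 1) * x := by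
        rw [← pow_succ]
        congr 1
        omega
      rw [h2]
      calc x ^ (n - 1) * x ≤ q * 1 := mul_le_mul h hx hx0 hq0.le
        _ = q := mul_one q
    refine ⟨?_, fun _ => h1⟩
    have h0 : 0 ≤ x ^ n := pow_nonneg hx0 n
    rw [mul_comm, pow_mul]
    nlinarith
  · refine ⟨?_, fun hc => h.le.trans hc⟩
    rw [mul_comm, pow_mul, h]
    exact hcq

theorem p_ROOT (hUNT : T_UNT p) : T_ROOT p := by
  intro _ c hc
  have hp2 : 2 ≤ p ^ 2 := by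
    have := hp.out.two_le
    nlinarith
  have hq0 := norm_p_pos p
  have hq1 := norm_p_lt_one p
  obtain ⟨W, hW⟩ := ROOT_.exists_root p (c : ℂ_[p])
  have hc1 : ‖(c : ℂ_[p])‖ ≤ 1 := norm_OC_le p c
  have hW1 : ‖W‖ ≤ 1 := by
    by_contra hlt
    rw [not_le] at hlt
    have h1 : W ^ p ^ 2 = (c : ℂ_[p]) + -((p : ℂ_[p]) * W) := by
      linear_combination hW
    have h2 : ‖W‖ ^ p ^ 2 ≤ max ‖(c : ℂ_[p])‖ (‖(p : ℂ_[p])‖ * ‖W‖) := by
      rw [← norm_pow, h1, ← norm_mul, ← norm_neg ((p : ℂ_[p]) * W)]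
      exact IsUltrametricDist.norm_add_le_max _ _
    have h3 : max ‖(c : ℂ_[p])‖ (‖(p : ℂ_[p])‖ * ‖W‖) ≤ ‖W‖ := by
      refine max_le (hc1.trans hlt.le) ?_
      nlinarith
    have h4 : ‖W‖ < ‖W‖ ^ p ^ 2 := by
      calc ‖W‖ = ‖W‖ ^ 1 := (pow_one _).symm
        _ < ‖W‖ ^ p ^ 2 := pow_lt_pow_right₀ hlt (by omega)
    exact absurd (h2.trans h3) (not_le.2 h4)
  obtain ⟨w, hw⟩ := hUNT.1 ⟨W, (mem_OC_iff p W).2 hW1⟩
  have hwW : nO p (sh p w) = ‖W‖ := by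
    rw [hw]
  have key : ‖W‖ ^ (p ^ 2 - 1) ≤ ‖(p : ℂ_[p])‖ ∨ ‖W‖ ^ p ^ 2 = ‖(c : ℂ_[p])‖ := by
    rcases le_or_gt (‖W‖ ^ (p ^ 2 - 1)) ‖(p : ℂ_[p])‖ with h | h
    · exact Or.inl h
    · right
      have hW0 : 0 < ‖W‖ := by
        rcases (norm_nonneg W).eq_or_lt with h0 | h0
        · rw [← h0, zero_pow (by omega)] at h
          exact absurd h (not_lt.2 hq0.le)
        · exact h0
      have h1 : ‖(p : ℂ_[p]) * W‖ < ‖W ^ p ^ 2‖ := by
        rw [norm_mul, norm_pow]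
        have h2 : ‖W‖ ^ p ^ 2 = ‖W‖ ^ (p ^ 2 - 1) * ‖W‖ := by
          rw [← pow_succ]
          congr 1
          omega
        rw [h2]
        exact mul_lt_mul_of_pos_right h hW0
      rw [← hW, IsUltrametricDist.norm_add_eq_max_of_norm_ne_norm h1.ne', max_eq_left h1.le,
        norm_pow]
  obtain ⟨h1, h2⟩ := ROOT_.real (norm_nonneg W) hW1 hq0 hq1 (p ^ 2) hp2 hc key
  refine ⟨w, ?_, ?_, ?_⟩
  · apply Subtype.ext
    rw [hw]
    exact hW
  · rw [hwW]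
    exact h1
  · intro hcc
    rw [hwW]
    exact h2 hcc

end

end TWT
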