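import Pool.Agent.TWT.Targets

/-!
# TWT: precise sections
-/

namespace TWT

open WittVector Matrix

noncomputable section

namespace SE2_

variable (p : ℕ) [hp : Fact p.Prime]

lemma mem_iff (x : OC p) (n : ℕ) :
    nO p x ≤ np p ^ n ↔ x ∈ (Ideal.span {(p : OC p)}) ^ n := (mem_pow_iff p x n).symm

lemma np_le_one : np p ≤ 1 := (norm_p_lt_one p).le

end SE2_

open SE2_ in
/-- **SE2** -/
theorem p_SE2 (p : ℕ) [hp : Fact p.Prime] (hAP0 : T_AP0 p) (hSEC : T_SEC p) : T_SE2 p := by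
  intro h3 A' _ κ hκ w hw
  obtain ⟨τ, hg, h1, h2, ⟨r, hr⟩, ⟨r', hr'⟩⟩ := hAP0 h3 A' κ hκ w hw
  set c : OC p := sh p w ^ p ^ 2 + (p : OC p) * sh p w with hc
  -- the remainder
  have hm : c - thetaA p τ ∈ (Ideal.span {(p : OC p)}) ^ 2 := by
    rw [← mem_iff] at *
    have e : nO p (c - thetaA p τ) = nO p (thetaA p τ - c) := by
      have e0 : ((c - thetaA p τ : OC p) : ℂ_[p]) = -((thetaA p τ - c : OC p) : ℂ_[p]) := by
        push_cast
        ring
      change ‖((c - thetaA p τ : OC p) : ℂ_[p])‖ = _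
      rw [e0, norm_neg]
    rw [e]
    exact h1
  rw [Ideal.span_singleton_pow, Ideal.mem_span_singleton] at hm
  obtain ⟨d, hd⟩ := hm
  have hc1 : nO p ((p : OC p) * d) ≤ np p ^ 1 := by
    rw [mem_iff, Ideal.span_singleton_pow, Ideal.mem_span_singleton, pow_one]
    exact dvd_mul_right _ _
  rw [pow_one] at hc1
  have hc2 : nO p ((p : OC p) * d) ^ 2 ≤ np p := by
    calc nO p ((p : OC p) * d) ^ 2 ≤ np p ^ 2 := pow_le_pow_left₀ (norm_nonneg _) hc1 2
      _ ≤ np p ^ 1 := pow_le_pow_of_le_one (norm_nonneg _) (np_le_one p) (by norm_num)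
      _ = np p := pow_one _
  obtain ⟨s', hg', ht', hp', hk'⟩ := hSEC h3 A' κ hκ ((p : OC p) * d) hc2
  obtain ⟨⟨x, hx⟩, ⟨x', hx'⟩⟩ := hk' hc1
  have hΘ : thetaA p (τ + (p : Acris p) * s') = c := by
    rw [map_add, map_mul, map_natCast, ht']
    linear_combination -hd
  have hΦ : phiA p (τ + (p : Acris p) * s') = phiA p τ + (p : Acris p) * phiA p s' := by
    rw [map_add, map_mul, map_natCast]
  refine ⟨τ + (p : Acris p) * s', ⟨?_, ?_, ?_, ?_, ?_⟩, hΘ⟩
  · unfold Good at hg hg' ⊢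
    rw [hΦ, map_add, map_mul, map_natCast, hg, hg']
    ring
  · rw [hΘ]
    have e : ‖((c - c : OC p) : ℂ_[p])‖ = 0 := by
      rw [sub_self]
      simp
    change ‖((c - c : OC p) : ℂ_[p])‖ ≤ _
    rw [e]
    positivity
  · rw [hΦ, map_add, map_mul, map_natCast]
    have e1 : (p : OC p) * thetaA p (phiA p s') ∈ (Ideal.span {(p : OC p)}) ^ 2 := by
      have e2 : thetaA p (phiA p s') ∈ (Ideal.span {(p : OC p)}) ^ 1 := by
        rw [← mem_iff, pow_one]
        exact hp'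
      rw [Ideal.span_singleton_pow, Ideal.mem_span_singleton, pow_one] at e2
      obtain ⟨y, hy⟩ := e2
      rw [hy, Ideal.span_singleton_pow, Ideal.mem_span_singleton]
      exact ⟨y, by ring⟩
    rw [mem_iff] at h2 ⊢
    have e3 := Ideal.add_mem _ h2 e1
    have e4 : thetaA p (phiA p τ) + (p : OC p) * thetaA p (phiA p s') -
        (sh p w ^ p ^ 3 + (p : OC p) * sh p w ^ p) =
        thetaA p (phiA p τ) - (sh p w ^ p ^ 3 + (p : OC p) * sh p w ^ p) +
          (p : OC p) * thetaA p (phiA p s') := by ring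
    rw [e4]
    exact e3
  · refine ⟨r + x, ?_⟩
    rw [map_add, map_mul, map_natCast, hr, hx]
    ring
  · refine ⟨r' + x', ?_⟩
    rw [hΦ, map_add, map_mul, map_natCast, hr', hx']
    ring

end

end TWT
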