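import Pool.Agent.TWT.Targets

namespace TWT

open WittVector Matrix

noncomputable section

namespace SEC_

variable (p : ℕ) [hp : Fact p.Prime]

lemma dvd_of_le {x : OC p} {n : ℕ} (h : nO p x ≤ np p ^ n) : ∃ d : OC p, x = (p : OC p) ^ n * d := by
  have h1 := (mem_pow_iff p x n).mpr h
  rw [Ideal.span_singleton_pow, Ideal.mem_span_singleton] at h1
  exact h1

lemma le_of_dvd {x : OC p} {n : ℕ} (h : ∃ d : OC p, x = (p : OC p) ^ n * d) :
    nO p x ≤ np p ^ n := by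
  refine (mem_pow_iff p x n).mp ?_
  rw [Ideal.span_singleton_pow, Ideal.mem_span_singleton]
  exact h

lemma nO_pow (x : OC p) (n : ℕ) : nO p (x ^ n) = nO p x ^ n := by
  have : ((x ^ n : OC p) : ℂ_[p]) = (x : ℂ_[p]) ^ n := by norm_cast
  rw [nO, this, norm_pow]

/-- one step of the recursion -/
lemma step (hAP : T_AP0 p) (hR : T_ROOT p) (h3 : 3 ≤ p) (A' : Type) [CommRing A']
    (κ : Acris p →+* A') (hκ : KapOK p A' κ) (c : {c : OC p // nO p c ^ 2 ≤ np p}) :
    ∃ (w : Tl p) (τ : Acris p) (c' : {c : OC p // nO p c ^ 2 ≤ np p}),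
      nO p (sh p w) ^ (2 * p ^ 2) ≤ np p ∧ (nO p c.1 ≤ np p → nO p (sh p w) ^ p ^ 2 ≤ np p) ∧
      Appr p κ w τ ∧ c.1 = thetaA p τ + (p : OC p) * c'.1 := by
  obtain ⟨w, hw1, hw2, hw3⟩ := hR h3 c.1 c.2
  obtain ⟨τ, hτ⟩ := hAP h3 A' κ hκ w hw2
  have h1 := hτ.2.1
  rw [hw1] at h1
  obtain ⟨d, hd⟩ := dvd_of_le p h1
  have h2 : nO p ((p : OC p) * (-d)) ≤ np p := by
    have := le_of_dvd p (x := (p : OC p) * (-d)) (n := 1) ⟨-d, by rw [pow_one]⟩
    rwa [pow_one] at this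
  refine ⟨w, τ, ⟨(p : OC p) * (-d), ?_⟩, hw2, hw3, hτ, ?_⟩
  · calc nO p ((p : OC p) * (-d)) ^ 2 ≤ nO p ((p : OC p) * (-d)) * 1 := by
          rw [pow_two]
          exact mul_le_mul_of_nonneg_left (norm_OC_le p _) (norm_nonneg _)
      _ ≤ np p := by rw [mul_one]; exact h2
  · linear_combination -hd

end SEC_

open SEC_ in
theorem p_SEC (p : ℕ) [Fact p.Prime] (hATF : T_ATF p) (hAP : T_AP0 p) (hR : T_ROOT p) :
    T_SEC p := by
  intro h3 A' _ κ hκ c hc
  choose W T C hs1 hs2 hs3 hs4 using SEC_.step p hAP hR h3 A' κ hκ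
  set cs : ℕ → {c : OC p // nO p c ^ 2 ≤ np p} := fun n => C^[n] ⟨c, hc⟩ with hcs
  have hcs0 : (cs 0).1 = c := rfl
  have hcsS : ∀ n, cs (n + 1) = C (cs n) := fun n => Function.iterate_succ_apply' C n _
  obtain ⟨s, hs⟩ := hATF.2.2 fun n => T (cs n)
  have hexp : ∀ n : ℕ, c = ∑ i ∈ Finset.range n, (p : OC p) ^ i * thetaA p (T (cs i)) +
      (p : OC p) ^ n * (cs n).1 := by
    intro n
    induction n with
    | zero => simp [hcs0]
    | succ n ih =>
      rw [Finset.sum_range_succ, hcsS]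
      have h := hs4 (cs n)
      rw [h] at ih
      rw [ih]
      conv_lhs => rw [← ih]
      rw [ih]
      ring
  have hmapr : ∀ (R : Type) [CommRing R] (f : Acris p →+* R) (n : ℕ), ∃ r : Acris p,
      f s = ∑ i ∈ Finset.range n, (p : R) ^ i * f (T (cs i)) + (p : R) ^ n * f r := by
    intro R _ f n
    obtain ⟨r, hr⟩ := hs n
    refine ⟨r, ?_⟩
    conv_lhs => rw [hr]
    rw [map_add, map_sum, map_mul, map_pow, map_natCast]
    congr 1
    refine Finset.sum_congr rfl fun i _ => ?_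
    rw [map_mul, map_pow, map_natCast]
  have hgoodT : ∀ n, Good p (T (cs n)) := fun n => (hs3 (cs n)).1
  have h3' : p ^ 2 ≤ p ^ 3 := Nat.pow_le_pow_right (by omega) (by norm_num)
  have h3'' : 2 * p ^ 2 ≤ p ^ 3 := by nlinarith [h3, Nat.zero_le (p ^ 2)]
  refine ⟨s, ?_, ?_, ?_, ?_⟩
  · -- Frobenius eigenspace
    have : phiA p (phiA p s) - p * s = 0 := by
      refine hATF.2.1 _ fun n => ?_
      obtain ⟨r, hr⟩ := hs n
      refine ⟨phiA p (phiA p r) - p * r, ?_⟩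
      have h1 : phiA p (phiA p s) = ∑ i ∈ Finset.range n, (p : Acris p) ^ i *
          phiA p (phiA p (T (cs i))) + (p : Acris p) ^ n * phiA p (phiA p r) := by
        conv_lhs => rw [hr]
        rw [map_add, map_add, map_sum, map_sum]
        simp only [map_mul, map_pow, map_natCast]
      have h2 : ∑ i ∈ Finset.range n, (p : Acris p) ^ i * phiA p (phiA p (T (cs i))) =
          p * ∑ i ∈ Finset.range n, (p : Acris p) ^ i * T (cs i) := by
        rw [Finset.mul_sum]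
        refine Finset.sum_congr rfl fun i _ => ?_
        rw [hgoodT i]
        ring
      rw [h1, h2]
      conv_lhs => rw [hr]
      ring
    exact sub_eq_zero.mp this
  · have h1 : ∀ n : ℕ, nO p (thetaA p s - c) ≤ np p ^ n := by
      intro n
      refine le_of_dvd p ?_
      obtain ⟨r, hr⟩ := hmapr (OC p) (thetaA p) n
      refine ⟨thetaA p r - (cs n).1, ?_⟩
      rw [hr]
      conv_lhs => rw [hexp n]
      ring
    have h2 : nO p (thetaA p s - c) ≤ 0 :=
      ge_of_tendsto' (tendsto_pow_atTop_nhds_zero_of_lt_one (norm_nonneg _)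
        (norm_p_lt_one p)) h1
    have h4 : thetaA p s - c = 0 := Subtype.ext (norm_le_zero_iff.mp h2)
    exact sub_eq_zero.mp h4
  · -- theta of Frobenius
    have h1 : nO p (thetaA p (phiA p s)) ≤ np p ^ 1 := by
      refine le_of_dvd p ?_
      obtain ⟨r, hr⟩ := hmapr (OC p) ((thetaA p).comp (phiA p)) 1
      rw [Finset.sum_range_one, pow_zero, one_mul, pow_one] at hr
      simp only [RingHom.comp_apply] at hr
      obtain ⟨d, hd⟩ := dvd_of_le p (hs3 (cs 0)).2.2.1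
      have h5 : nO p (sh p (W (cs 0)) ^ p ^ 3) ≤ np p ^ 1 := by
        rw [nO_pow, pow_one]
        exact (pow_le_pow_of_le_one (norm_nonneg _) (norm_OC_le p _) h3'').trans (hs1 (cs 0))
      obtain ⟨e, he⟩ := dvd_of_le p h5
      refine ⟨e + sh p (W (cs 0)) ^ p + p * d + thetaA p (phiA p r), ?_⟩
      rw [hr, pow_one]
      rw [pow_one] at he
      linear_combination hd + he
    rwa [pow_one] at h1
  · intro hcp
    have h6 : nO p (sh p (W (cs 0))) ^ p ^ 2 ≤ np p := hs2 (cs 0) hcp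
    have h7 : nO p (sh p (W (cs 0))) ^ p ^ 3 ≤ np p :=
      (pow_le_pow_of_le_one (norm_nonneg _) (norm_OC_le p _) h3').trans h6
    have hshp : ∀ n : ℕ, sh p (W (cs 0) ^ n) = sh p (W (cs 0)) ^ n := fun n => map_pow _ _ _
    obtain ⟨x2, hx2⟩ := hκ.2 (W (cs 0) ^ p ^ 2) (by rw [hshp, nO_pow]; exact h6)
    obtain ⟨x3, hx3⟩ := hκ.2 (W (cs 0) ^ p ^ 3) (by rw [hshp, nO_pow]; exact h7)
    obtain ⟨r4, hr4⟩ := (hs3 (cs 0)).2.2.2.1
    obtain ⟨r5, hr5⟩ := (hs3 (cs 0)).2.2.2.2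
    constructor
    · obtain ⟨r, hr⟩ := hmapr A' κ 1
      rw [Finset.sum_range_one, pow_zero, one_mul, pow_one] at hr
      refine ⟨x2 + κ (tm p (W (cs 0))) + p * r4 + κ r, ?_⟩
      rw [hr, hr4, hx2]
      ring
    · obtain ⟨r, hr⟩ := hmapr A' (κ.comp (phiA p)) 1
      rw [Finset.sum_range_one, pow_zero, one_mul, pow_one] at hr
      simp only [RingHom.comp_apply] at hr
      refine ⟨x3 + κ (tm p (W (cs 0) ^ p)) + p * r5 + κ (phiA p r), ?_⟩
      rw [hr, hr5, hx3]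
      ring

end

end TWT
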