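import Pool.Agent.TWT.Targets

/-!
# TWT: the two-sided series of Teichmüller elements (target T_SER)
-/

namespace TWT

open WittVector Matrix

namespace SER_

variable (p : ℕ) [hp : Fact p.Prime]

lemma tm_mul (x y : Tl p) : tm p (x * y) = tm p x * tm p y := by
  unfold tm
  rw [map_mul, map_mul]

lemma tm_pow (x : Tl p) (n : ℕ) : tm p (x ^ n) = tm p x ^ n := by
  unfold tm
  rw [map_pow, map_pow]

lemma phi_tm (x : Tl p) : phiA p (tm p x) = tm p (x ^ p) := by
  unfold tm
  rw [phiA_jj]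
  congr 1
  refine WittVector.ext fun n => ?_
  rw [WittVector.coeff_frobenius_charP]
  rcases n with - | n
  · rw [WittVector.teichmuller_coeff_zero, WittVector.teichmuller_coeff_zero]
  · rw [WittVector.teichmuller_coeff_pos p x (n + 1) n.succ_pos,
      WittVector.teichmuller_coeff_pos p (x ^ p) (n + 1) n.succ_pos,
      zero_pow hp.out.ne_zero]

lemma phi2_tm (x : Tl p) : phiA p (phiA p (tm p x)) = tm p (x ^ p ^ 2) := by
  rw [phi_tm, phi_tm, ← pow_mul, sq]

lemma root (x : Tl p) : ∃ y : Tl p, y ^ p ^ 2 = x := by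
  have h : ∀ z : Tl p, ∃ y : Tl p, y ^ p = z := by
    intro z
    obtain ⟨y, hy⟩ := (bijective_frobenius (Tl p) p).surjective z
    exact ⟨y, hy⟩
  obtain ⟨y, hy⟩ := h x
  obtain ⟨z, hz⟩ := h y
  exact ⟨z, by rw [sq, pow_mul, hz, hy]⟩

lemma sh_pow (x : Tl p) (n : ℕ) : sh p (x ^ n) = sh p x ^ n := map_pow _ x n

lemma nO_pow (x : OC p) (n : ℕ) : nO p (x ^ n) = nO p x ^ n := by
  have h : ((x ^ n : OC p) : ℂ_[p]) = (x : ℂ_[p]) ^ n := rfl
  unfold nO
  rw [h, norm_pow]

lemma two_mul_le (h3 : 3 ≤ p) (k : ℕ) : 2 * k ≤ p ^ k := by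
  induction k with
  | zero => simp
  | succ k ih =>
    have h1 : 1 ≤ p ^ k := Nat.one_le_pow _ _ hp.out.pos
    calc 2 * (k + 1) = 2 * k + 2 * 1 := by ring
      _ ≤ p ^ k + 2 * p ^ k := Nat.add_le_add ih (Nat.mul_le_mul_left 2 h1)
      _ = 3 * p ^ k := by ring
      _ ≤ p * p ^ k := Nat.mul_le_mul_right _ h3
      _ = p ^ (k + 1) := by ring

lemma cancel (hATF : T_ATF p) {n : ℕ} {x y : Acris p}
    (h : (p : Acris p) ^ n * x = (p : Acris p) ^ n * y) : x = y := by
  induction n with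
  | zero => simpa using h
  | succ n ih =>
    apply ih
    have h1 : (p : Acris p) * ((p : Acris p) ^ n * x - (p : Acris p) ^ n * y) = 0 := by
      linear_combination h
    exact sub_eq_zero.mp (hATF.1 _ h1)

/-- divisibility of the Teichmüller elements with high exponent -/
lemma exists_e (hAPD : T_APD p) (h3 : 3 ≤ p) (w : Tl p)
    (hw : nO p (sh p w) ^ (2 * p ^ 2) ≤ np p) :
    ∃ e : ℕ → Acris p, ∀ j, tm p (w ^ p ^ (2 * j + 4)) = (p : Acris p) ^ (2 * j + 1) * e j := by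
  have h1 : nO p (sh p (w ^ (2 * p ^ 3))) ≤ np p ^ p := by
    rw [sh_pow, nO_pow]
    have h2 : 2 * p ^ 3 = 2 * p ^ 2 * p := by ring
    rw [h2, pow_mul]
    exact pow_le_pow_left₀ (pow_nonneg (norm_nonneg _) _) hw p
  obtain ⟨d, hd⟩ := hAPD _ h1
  refine ⟨fun j => d ^ (2 * j + 1) *
    tm p (w ^ (p ^ (2 * j + 4) - 2 * p ^ 3 * (2 * j + 1))), fun j => ?_⟩
  have h4 : 2 * p ^ 3 * (2 * j + 1) ≤ p ^ (2 * j + 4) := by
    calc 2 * p ^ 3 * (2 * j + 1) = p ^ 3 * (2 * (2 * j + 1)) := by ring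
      _ ≤ p ^ 3 * p ^ (2 * j + 1) := Nat.mul_le_mul_left _ (two_mul_le p h3 _)
      _ = p ^ (2 * j + 4) := by ring
  have h5 : w ^ p ^ (2 * j + 4) = (w ^ (2 * p ^ 3)) ^ (2 * j + 1) *
      w ^ (p ^ (2 * j + 4) - 2 * p ^ 3 * (2 * j + 1)) := by
    rw [← pow_mul, ← pow_add, Nat.add_sub_cancel' h4]
  rw [h5, tm_mul, tm_pow, hd, mul_pow, mul_assoc]

end SER_

open SER_ in
theorem p_SER (p : ℕ) [hp : Fact p.Prime] (hATF : T_ATF p) (hAPD : T_APD p) : T_SER p := by
  intro h3 w hw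
  obtain ⟨e, he⟩ := exists_e p hAPD h3 w hw
  choose ρ hρ using root p
  -- the sequence of roots
  let c : ℕ → Tl p := fun n => Nat.rec (w ^ p ^ 2) (fun n x => Nat.rec w (fun _ _ => ρ x) n) n
  have hc0 : c 0 = w ^ p ^ 2 := rfl
  have hc1 : c 1 = w := rfl
  have hcs : ∀ n, c (n + 1) ^ p ^ 2 = c n := by
    intro n
    rcases n with - | n
    · rfl
    · exact hρ (c (n + 1))
  have hP : ∀ n, phiA p (phiA p (tm p (c (n + 1)))) = tm p (c n) := by
    intro n
    rw [phi2_tm, hcs]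
  have hP0 : phiA p (phiA p (tm p (c 0))) = p * e 0 := by
    rw [phi2_tm, hc0, ← pow_mul, ← pow_add]
    have := he 0
    rw [mul_zero, zero_add, zero_add, pow_one] at this
    exact this
  have hE : ∀ j, phiA p (phiA p (e j)) = (p : Acris p) ^ 2 * e (j + 1) := by
    intro j
    apply cancel p hATF (n := 2 * j + 1)
    have h4 := congrArg (fun x => phiA p (phiA p x)) (he j)
    simp only [map_mul, map_pow, map_natCast] at h4
    rw [← h4, phi2_tm, ← pow_mul, ← pow_add]
    have h5 := he (j + 1)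
    have h6 : 2 * (j + 1) + 4 = 2 * j + 4 + 2 := by ring
    rw [h6] at h5
    rw [h5]
    ring
  obtain ⟨A, hA⟩ := hATF.2.2 fun n => tm p (c n)
  obtain ⟨S, hS⟩ := hATF.2.2 e
  obtain ⟨rA, hrA⟩ := hA 2
  obtain ⟨rS, hrS⟩ := hS 2
  refine ⟨A + S, rA + rS, ?_, ?_⟩
  · -- the functional equation
    refine sub_eq_zero.mp (hATF.2.1 _ fun n => ?_)
    obtain ⟨r1, h1⟩ := hA (n + 1)
    obtain ⟨r2, h2⟩ := hA n
    obtain ⟨r3, h4⟩ := hS n
    obtain ⟨r5, h5⟩ := hS (n + 1)
    have h6 : phiA p (phiA p A) = p * e 0 + p * (A - (p : Acris p) ^ n * r2) +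
        (p : Acris p) ^ (n + 1) * phiA p (phiA p r1) := by
      conv_lhs => rw [h1]
      rw [Finset.sum_range_succ']
      simp only [map_add, map_sum, map_mul, map_pow, map_natCast, hP, hP0]
      have h7 : A - (p : Acris p) ^ n * r2 =
          ∑ i ∈ Finset.range n, (p : Acris p) ^ i * tm p (c i) := by
        linear_combination h2
      rw [h7, Finset.mul_sum]
      have h8 : ∑ i ∈ Finset.range n, (p : Acris p) ^ (i + 1) * tm p (c i) =
          ∑ i ∈ Finset.range n, (p : Acris p) * ((p : Acris p) ^ i * tm p (c i)) :=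
        Finset.sum_congr rfl fun i _ => by ring
      rw [h8]
      ring
    have h9 : phiA p (phiA p S) = p * (S - (p : Acris p) ^ (n + 1) * r5 - e 0) +
        (p : Acris p) ^ n * phiA p (phiA p r3) := by
      conv_lhs => rw [h4]
      simp only [map_add, map_sum, map_mul, map_pow, map_natCast, hE]
      have h7 : S - (p : Acris p) ^ (n + 1) * r5 - e 0 =
          ∑ i ∈ Finset.range n, (p : Acris p) ^ (i + 1) * e (i + 1) := by
        rw [Finset.sum_range_succ'] at h5
        linear_combination h5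
      rw [h7, Finset.mul_sum]
      congr 1
      exact Finset.sum_congr rfl fun i _ => by ring
    refine ⟨-(p * r2) + p * phiA p (phiA p r1) - (p : Acris p) ^ 2 * r5 +
      phiA p (phiA p r3), ?_⟩
    rw [map_add, map_add, h6, h9]
    ring
  · -- the approximation
    have h0 := he 0
    have h1 := he 1
    simp only [Finset.sum_range_succ, Finset.sum_range_zero, pow_zero, pow_one, hc0, hc1]
      at hrA hrS
    norm_num at h0 h1
    rw [h0, h1]
    linear_combination (p : Acris p) ^ 2 * hrA + (p : Acris p) ^ 2 * hrS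

end TWT
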