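import Pool.Agent.TWT.Targets

/-!
# TWT: subgroups of `GL₂(k)` normalised by `SL₂(k)` (helper97)
-/

namespace TWT

open Matrix

section SIM

variable {k : Type} [Field k]

/-- `g` has determinant one and lies in `N` -/
def SIM_Q (N : Subgroup (Matrix (Fin 2) (Fin 2) k)ˣ) (g : Matrix (Fin 2) (Fin 2) k) : Prop :=
  g.det = 1 ∧ ∃ h ∈ N, (h : Matrix (Fin 2) (Fin 2) k) = g

theorem SIM_mul {N : Subgroup (Matrix (Fin 2) (Fin 2) k)ˣ} {a b : Matrix (Fin 2) (Fin 2) k}
    (ha : SIM_Q N a) (hb : SIM_Q N b) : SIM_Q N (a * b) := by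
  obtain ⟨da, x, hx, rfl⟩ := ha
  obtain ⟨db, y, hy, rfl⟩ := hb
  refine ⟨by rw [det_mul, da, db, one_mul], x * y, N.mul_mem hx hy, rfl⟩

theorem SIM_inv_eq (x : (Matrix (Fin 2) (Fin 2) k)ˣ)
    (h : (x : Matrix (Fin 2) (Fin 2) k).det = 1) :
    ((x⁻¹ : (Matrix (Fin 2) (Fin 2) k)ˣ) : Matrix (Fin 2) (Fin 2) k) =
      (x : Matrix (Fin 2) (Fin 2) k).adjugate := by
  have h1 : (x : Matrix (Fin 2) (Fin 2) k) * (x : Matrix (Fin 2) (Fin 2) k).adjugate = 1 := by
    rw [mul_adjugate, h, one_smul]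
  calc ((x⁻¹ : (Matrix (Fin 2) (Fin 2) k)ˣ) : Matrix (Fin 2) (Fin 2) k)
      = ((x⁻¹ : (Matrix (Fin 2) (Fin 2) k)ˣ) : Matrix (Fin 2) (Fin 2) k) *
        ((x : Matrix (Fin 2) (Fin 2) k) * (x : Matrix (Fin 2) (Fin 2) k).adjugate) := by
        rw [h1, mul_one]
    _ = _ := by rw [← mul_assoc, Units.inv_mul, one_mul]

theorem SIM_adj {N : Subgroup (Matrix (Fin 2) (Fin 2) k)ˣ} {a : Matrix (Fin 2) (Fin 2) k}
    (ha : SIM_Q N a) : SIM_Q N a.adjugate := by
  obtain ⟨da, x, hx, rfl⟩ := ha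
  refine ⟨by rw [det_adjugate, da, one_pow], x⁻¹, N.inv_mem hx, SIM_inv_eq x da⟩

theorem SIM_conj {N : Subgroup (Matrix (Fin 2) (Fin 2) k)ˣ}
    (hN : ∀ g : (Matrix (Fin 2) (Fin 2) k)ˣ, (g : Matrix (Fin 2) (Fin 2) k).det = 1 →
      ∀ n ∈ N, g * n * g⁻¹ ∈ N) {a : Matrix (Fin 2) (Fin 2) k}
    (ha : SIM_Q N a) (d : Matrix (Fin 2) (Fin 2) k) (hd : d.det = 1) :
    SIM_Q N (d * a * d.adjugate) := by
  obtain ⟨da, x, hx, rfl⟩ := ha
  let u : (Matrix (Fin 2) (Fin 2) k)ˣ :=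
    ⟨d, d.adjugate, by rw [mul_adjugate, hd, one_smul], by rw [adjugate_mul, hd, one_smul]⟩
  refine ⟨?_, u * x * u⁻¹, hN u hd x hx, rfl⟩
  rw [det_mul, det_mul, hd, da, det_adjugate, hd]
  simp

/-- lower unipotents suffice -/
theorem SIM_gen {N : Subgroup (Matrix (Fin 2) (Fin 2) k)ˣ}
    (hN : ∀ g : (Matrix (Fin 2) (Fin 2) k)ˣ, (g : Matrix (Fin 2) (Fin 2) k).det = 1 →
      ∀ n ∈ N, g * n * g⁻¹ ∈ N) (hL : ∀ y : k, SIM_Q N !![1, 0; y, 1])
    (g : Matrix (Fin 2) (Fin 2) k) (hg : g.det = 1) : SIM_Q N g := by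
  have hU : ∀ y : k, SIM_Q N !![1, y; 0, 1] := by
    intro y
    have h1 := SIM_conj hN (hL (-y)) !![0, 1; -1, 0] (by simp [det_fin_two])
    have e : (!![0, 1; -1, 0] : Matrix (Fin 2) (Fin 2) k) * !![1, 0; -y, 1] *
        (!![0, 1; -1, 0] : Matrix (Fin 2) (Fin 2) k).adjugate = !![1, y; 0, 1] := by
      ext i j
      fin_cases i <;> fin_cases j <;> simp [adjugate_fin_two]
    rwa [e] at h1
  have main : ∀ g : Matrix (Fin 2) (Fin 2) k, g.det = 1 → g 1 0 ≠ 0 → SIM_Q N g := by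
    intro g hg hc
    have h1 := SIM_mul (SIM_mul (hU ((g 0 0 - 1) / g 1 0)) (hL (g 1 0)))
      (hU ((g 1 1 - 1) / g 1 0))
    have e : (!![1, (g 0 0 - 1) / g 1 0; 0, 1] : Matrix (Fin 2) (Fin 2) k) * !![1, 0; g 1 0, 1] *
        !![1, (g 1 1 - 1) / g 1 0; 0, 1] = g := by
      rw [det_fin_two] at hg
      ext i j
      fin_cases i <;> fin_cases j
      · simp
        field_simp
        ring
      · simp
        field_simp
        linear_combination hg
      · simp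
      · simp
        field_simp
        ring
    rwa [e] at h1
  by_cases hc : g 1 0 = 0
  · have ha : g 0 0 ≠ 0 := by
      intro h0
      rw [det_fin_two, hc, h0] at hg
      simp at hg
    have h1 : SIM_Q N (!![1, 0; 1, 1] * g) := by
      apply main
      · rw [det_mul, hg]
        simp [det_fin_two]
      · simpa [Matrix.mul_apply, Fin.sum_univ_two, hc] using ha
    have h2 := SIM_mul (hL (-1)) h1
    have e : (!![1, 0; -1, 1] : Matrix (Fin 2) (Fin 2) k) * (!![1, 0; 1, 1] * g) = g := by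
      rw [← mul_assoc]
      have : (!![1, 0; -1, 1] : Matrix (Fin 2) (Fin 2) k) * !![1, 0; 1, 1] = 1 := by
        ext i j
        fin_cases i <;> fin_cases j <;> simp
      rw [this, one_mul]
    rwa [e] at h2
  · exact main g hg hc

end SIM

theorem p_SIM : T_SIM := by
  intro k _ _ _ N hN ⟨n, hn, hdet, h1, h2⟩
  obtain ⟨M, hM⟩ : ∃ M : Matrix (Fin 2) (Fin 2) k, M = (n : Matrix (Fin 2) (Fin 2) k) := ⟨_, rfl⟩
  have hQ : SIM_Q N M := ⟨by rw [hM, hdet], n, hn, hM.symm⟩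
  rw [← hM] at hdet h1 h2
  have hdet' := hdet
  rw [det_fin_two] at hdet'
  -- a vector with nonzero quadratic form
  obtain ⟨v₁, v₂, hv⟩ : ∃ v₁ v₂ : k,
      v₁ * (M 1 0 * v₁ + M 1 1 * v₂) - v₂ * (M 0 0 * v₁ + M 0 1 * v₂) ≠ 0 := by
    by_contra hcon
    push Not at hcon
    have c1 := hcon 1 0
    have c2 := hcon 0 1
    have c3 := hcon 1 1
    have d1 : M 1 0 = 0 := by simpa using c1
    have d2 : M 0 1 = 0 := by simpa using c2
    have d3 : M 1 1 = M 0 0 := by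
      rw [d1, d2] at c3
      linear_combination c3
    have d4 : (M 0 0 - 1) * (M 0 0 + 1) = 0 := by
      rw [d3, d2] at hdet'
      linear_combination hdet'
    rcases mul_eq_zero.1 d4 with h | h
    · apply h1
      have h5 : M 0 0 = 1 := by linear_combination h
      ext i j
      fin_cases i <;> fin_cases j <;> simp [d1, d2, d3, h5]
    · apply h2
      have h5 : M 0 0 = -1 := by linear_combination h
      ext i j
      fin_cases i <;> fin_cases j <;> simp [d1, d2, d3, h5]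
  obtain ⟨x, hx⟩ := IsAlgClosed.exists_pow_nat_eq
    ((v₁ * (M 1 0 * v₁ + M 1 1 * v₂) - v₂ * (M 0 0 * v₁ + M 0 1 * v₂))⁻¹) (n := 2) (by norm_num)
  obtain ⟨a, b, hab⟩ : ∃ a b : k,
      a * (M 1 0 * a + M 1 1 * b) - b * (M 0 0 * a + M 0 1 * b) = 1 := by
    refine ⟨x * v₁, x * v₂, ?_⟩
    have h3 := mul_inv_cancel₀ hv
    rw [← hx] at h3
    linear_combination h3
  -- conjugation to the companion matrix
  let P : Matrix (Fin 2) (Fin 2) k := !![a, M 0 0 * a + M 0 1 * b; b, M 1 0 * a + M 1 1 * b]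
  have hP : P.det = 1 := by
    rw [det_fin_two]
    simp only [P, of_apply, cons_val', cons_val_zero, cons_val_one, cons_val_fin_one]
    linear_combination hab
  obtain ⟨t, ht⟩ : ∃ t : k, t = M 0 0 + M 1 1 := ⟨_, rfl⟩
  have hMP : M * P = P * !![0, -1; 1, t] := by
    rw [ht]
    ext i j
    fin_cases i <;> fin_cases j
    · simp [P, Matrix.mul_apply, Fin.sum_univ_two]
    · simp [P, Matrix.mul_apply, Fin.sum_univ_two]
      linear_combination (-a) * hdet'
    · simp [P, Matrix.mul_apply, Fin.sum_univ_two]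
    · simp [P, Matrix.mul_apply, Fin.sum_univ_two]
      linear_combination (-b) * hdet'
  have hC : SIM_Q N !![0, -1; 1, t] := by
    have h3 := SIM_conj hN hQ P.adjugate (by rw [det_adjugate, hP, one_pow])
    have e : P.adjugate * M * P.adjugate.adjugate = !![0, -1; 1, t] := by
      have e1 : P.adjugate.adjugate = P := by
        rw [adjugate_adjugate _ (by simp)]
        simp [hP]
      rw [e1, mul_assoc, hMP, ← mul_assoc, adjugate_mul, hP, one_smul, one_mul]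
    rwa [e] at h3
  have two : (2 : k) ≠ 0 := by norm_num
  have hm : SIM_Q N !![4, 0; -(3 * t / 4), 1 / 4] := by
    have h3 := SIM_mul (SIM_conj hN hC !![2, 0; 0, 1 / 2] (by
      simp [det_fin_two])) (SIM_adj hC)
    have e : (!![2, 0; 0, 1 / 2] : Matrix (Fin 2) (Fin 2) k) * !![0, -1; 1, t] *
        (!![2, 0; 0, 1 / 2] : Matrix (Fin 2) (Fin 2) k).adjugate *
        (!![0, -1; 1, t] : Matrix (Fin 2) (Fin 2) k).adjugate = !![4, 0; -(3 * t / 4), 1 / 4] := by
      ext i j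
      fin_cases i <;> fin_cases j <;>
        simp [adjugate_fin_two, Matrix.mul_apply, Fin.sum_univ_two] <;> ring
    rwa [e] at h3
  have hL : ∀ y : k, SIM_Q N !![1, 0; y, 1] := by
    intro y
    have h3 := SIM_mul (SIM_conj hN hm !![1, 0; 16 * y / 15, 1] (by
      simp [det_fin_two])) (SIM_adj hm)
    have e : (!![1, 0; 16 * y / 15, 1] : Matrix (Fin 2) (Fin 2) k) * !![4, 0; -(3 * t / 4), 1 / 4] *
        (!![1, 0; 16 * y / 15, 1] : Matrix (Fin 2) (Fin 2) k).adjugate *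
        (!![4, 0; -(3 * t / 4), 1 / 4] : Matrix (Fin 2) (Fin 2) k).adjugate =
          !![1, 0; y, 1] := by
      ext i j
      fin_cases i <;> fin_cases j <;>
        simp [adjugate_fin_two, Matrix.mul_apply, Fin.sum_univ_two] <;> ring
    rwa [e] at h3
  intro g hg
  exact (SIM_gen hN hL g hg).2

end TWT
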