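import Pool.Agent.TWT.Targets

/-!
# TWT: normal subgroups of the norm one group of the quaternions, by transport
-/

namespace TWT

open Matrix

theorem p_SIQ (p : ℕ) [Fact p.Prime] (hSIM : T_SIM) (hSPL : T_SPL p) : T_SIQ p := by
  intro k _ _ _ N hN hex
  obtain ⟨I, hI⟩ := IsAlgClosed.exists_pow_nat_eq (-1 : k) (n := 2) two_pos
  obtain ⟨h1, hmul, hadd, hsmul, hdet, -, hbij⟩ := hSPL k I hI
  have hp0 : IsUnit (p : k) :=
    isUnit_iff_ne_zero.2 (Nat.cast_ne_zero.2 (Fact.out : p.Prime).ne_zero)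
  have h20 : IsUnit (2 : k) := isUnit_iff_ne_zero.2 two_ne_zero
  have hb := hbij h20 hp0
  have h0 : spl p I (0 : Quat p k) = 0 := by
    have := hsmul 0 0
    rwa [zero_smul, zero_smul] at this
  let Φ : Quat p k →+* Matrix (Fin 2) (Fin 2) k := ⟨⟨⟨spl p I, h1⟩, hmul⟩, h0, hadd⟩
  have hb' : Function.Bijective Φ := hb
  have hinj : Function.Injective Φ := hb.1
  have hΦd : ∀ x : Quat p k, (Φ x).det = nrd p x := hdet
  let E : Quat p k ≃* Matrix (Fin 2) (Fin 2) k :=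
    MulEquiv.ofBijective (Φ : Quat p k →* Matrix (Fin 2) (Fin 2) k) hb'
  let U : (Quat p k)ˣ ≃* (Matrix (Fin 2) (Fin 2) k)ˣ := Units.mapEquiv E
  have hval : ∀ g : (Quat p k)ˣ, ((U g : (Matrix (Fin 2) (Fin 2) k)ˣ) :
      Matrix (Fin 2) (Fin 2) k) = Φ g := fun _ => rfl
  have hbig : BigM (N.map (U : (Quat p k)ˣ →* (Matrix (Fin 2) (Fin 2) k)ˣ)) := by
    refine hSIM k _ ?_ ?_
    · rintro g hg n' ⟨n, hn, rfl⟩
      obtain ⟨g, rfl⟩ := U.surjective g
      refine ⟨g * n * g⁻¹, hN g ?_ n hn, ?_⟩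
      · rw [← hΦd, ← hval]
        exact hg
      · change U (g * n * g⁻¹) = U g * U n * (U g)⁻¹
        rw [map_mul, map_mul, map_inv]
    · obtain ⟨n, hn, hn1, hn2, hn3⟩ := hex
      refine ⟨U n, ⟨n, hn, rfl⟩, ?_, ?_, ?_⟩
      · rw [hval, hΦd, hn1]
      · rw [hval]
        intro h
        exact hn2 (hinj (by rw [h, map_one]))
      · rw [hval]
        intro h
        exact hn3 (hinj (by rw [h, map_neg, map_one]))
  intro g hg
  obtain ⟨h', ⟨n, hn, rfl⟩, hh⟩ := hbig (Φ g) (by rw [hΦd, hg])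
  exact ⟨n, hn, hinj hh⟩

end TWT
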