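import Pool.Agent.TWT.Targets

/-!
# TWT: specialization of points of closed subgroups
-/

namespace TWT

open WittVector Matrix

noncomputable section

variable (p : ℕ) [hp : Fact p.Prime]

namespace SPE_

/-- the element with given coordinates -/
def mk8 {R : Type} [CommRing R] (c : Fin 8 → R) : AA p R :=
  (!![c 0, c 1; c 2, c 3], ⟨c 4, c 5, c 6, c 7⟩)

omit hp in
theorem coord_mk8 {R : Type} [CommRing R] (c : Fin 8 → R) : coord p (mk8 p c) = c := by
  funext i
  fin_cases i <;> rfl

omit hp in
theorem coord_map {R S : Type} [CommRing R] [CommRing S] (f : R →+* S) (m : AA p R) :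
    coord p (aaMap p f m) = fun i => f (coord p m i) := by
  funext i
  fin_cases i <;> rfl

omit hp in
theorem coord_inj {R : Type} [CommRing R] {m m' : AA p R} (h : coord p m = coord p m') :
    m = m' := by
  have h0 := congrFun h 0
  have h1 := congrFun h 1
  have h2 := congrFun h 2
  have h3 := congrFun h 3
  have h4 := congrFun h 4
  have h5 := congrFun h 5
  have h6 := congrFun h 6
  have h7 := congrFun h 7
  refine Prod.ext ?_ ?_
  · ext i j
    fin_cases i <;> fin_cases j
    · exact h0
    · exact h1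
    · exact h2
    · exact h3
  · exact QuaternionAlgebra.ext h4 h5 h6 h7

omit hp in
theorem map_inj {R S : Type} [CommRing R] [CommRing S] {f : R →+* S}
    (hf : Function.Injective f) : Function.Injective (aaMap p f) := by
  intro m m' h
  apply coord_inj
  have h1 := congrArg (coord p) h
  rw [coord_map, coord_map] at h1
  funext i
  exact hf (congrFun h1 i)

/-- a homomorphism from a finitely generated algebra to the algebraic closure -/
theorem exists_hom {K : Type} [Field K] [Algebra ℚ_[p] K] (A : Subalgebra ℚ_[p] K) (hA : A.FG) :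
    Nonempty (A →ₐ[ℚ_[p]] PadicAlgCl p) := by
  have hft : Algebra.FiniteType ℚ_[p] A := A.fg_iff_finiteType.1 hA
  obtain ⟨M, hM⟩ := Ideal.exists_maximal A
  let _ : Field (A ⧸ M) := Ideal.Quotient.field M
  have h1 : Algebra.FiniteType ℚ_[p] (A ⧸ M) := inferInstance
  have h2 : Module.Finite ℚ_[p] (A ⧸ M) := finite_of_finite_type_of_isJacobsonRing _ _
  have h3 : Algebra.IsAlgebraic ℚ_[p] (A ⧸ M) := inferInstance
  exact ⟨(IsAlgClosed.lift : (A ⧸ M) →ₐ[ℚ_[p]] PadicAlgCl p).comp (Ideal.Quotient.mkₐ ℚ_[p] M)⟩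

end SPE_

open SPE_ in
/-- Target SPE. -/
theorem p_SPE : T_SPE p := by
  intro H K _ _ h hh f hf
  set x : Fin 8 → K := coord p (h : AA p K) with hx
  set y : Fin 8 → K := coord p ((h⁻¹ : (AA p K)ˣ) : AA p K) with hy
  set c : K := (MvPolynomial.aeval x f)⁻¹ with hc
  classical
  let s : Finset K := Finset.univ.image x ∪ Finset.univ.image y ∪ {c}
  let A : Subalgebra ℚ_[p] K := Algebra.adjoin ℚ_[p] (s : Set K)
  have hxA : ∀ i, x i ∈ A := fun i => Algebra.subset_adjoin (by simp [s])
  have hyA : ∀ i, y i ∈ A := fun i => Algebra.subset_adjoin (by simp [s])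
  have hcA : c ∈ A := Algebra.subset_adjoin (by simp [s])
  obtain ⟨φ⟩ := exists_hom p A (Subalgebra.fg_adjoin_finset s)
  let x' : Fin 8 → A := fun i => ⟨x i, hxA i⟩
  let y' : Fin 8 → A := fun i => ⟨y i, hyA i⟩
  let ι : A →+* K := A.val.toRingHom
  have hι : Function.Injective ι := Subtype.val_injective
  have hx1 : aaMap p ι (mk8 p x') = (h : AA p K) := by
    apply coord_inj
    rw [coord_map, coord_mk8]
    rfl
  have hy1 : aaMap p ι (mk8 p y') = ((h⁻¹ : (AA p K)ˣ) : AA p K) := by
    apply coord_inj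
    rw [coord_map, coord_mk8]
    rfl
  have hxy : mk8 p x' * mk8 p y' = 1 := by
    apply map_inj p hι
    rw [map_mul, map_one, hx1, hy1, ← Units.val_mul, mul_inv_cancel, Units.val_one]
  have hyx : mk8 p y' * mk8 p x' = 1 := by
    apply map_inj p hι
    rw [map_mul, map_one, hx1, hy1, ← Units.val_mul, inv_mul_cancel, Units.val_one]
  let hA : (AA p A)ˣ := ⟨mk8 p x', mk8 p y', hxy, hyx⟩
  have haev : ∀ g : MvPolynomial (Fin 8) ℚ_[p],
      ((MvPolynomial.aeval x' g : A) : K) = MvPolynomial.aeval x g := fun g =>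
    (MvPolynomial.comp_aeval_apply x' A.val g)
  have haev' : ∀ g : MvPolynomial (Fin 8) ℚ_[p],
      φ (MvPolynomial.aeval x' g) = MvPolynomial.aeval (fun i => φ (x' i)) g := fun g =>
    (MvPolynomial.comp_aeval_apply x' φ g)
  have hco : coord p (((Units.map (aaMap p φ.toRingHom : _ →* _) hA :
      (AA p (PadicAlgCl p))ˣ)) : AA p (PadicAlgCl p)) = fun i => φ (x' i) := by
    change coord p (aaMap p φ.toRingHom (mk8 p x')) = _
    rw [coord_map, coord_mk8]
    rfl
  refine ⟨Units.map (aaMap p φ.toRingHom : _ →* _) hA, ?_, ?_⟩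
  · rw [H.mem_pts] at hh ⊢
    intro g hg
    rw [hco, ← haev']
    have h1 : MvPolynomial.aeval x' g = 0 := by
      apply Subtype.val_injective
      rw [haev]
      exact hh g hg
    rw [h1, map_zero]
  · rw [hco, ← haev']
    intro h0
    have h1 : MvPolynomial.aeval x' f * ⟨c, hcA⟩ = 1 := by
      apply Subtype.val_injective
      change ((MvPolynomial.aeval x' f : A) : K) * c = 1
      rw [haev, hc]
      exact mul_inv_cancel₀ hf
    have h2 := congrArg φ h1
    rw [map_mul, h0, zero_mul, map_one] at h2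
    exact zero_ne_one h2

end

end TWT
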