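import Pool.Agent.TWT.Targets

/-!
# TWT: the splitting of the quaternion algebra
-/

namespace TWT

open Matrix

theorem p_SPL (p : ℕ) [hp : Fact p.Prime] : T_SPL p := by
  intro R _ I hI
  have hI2 : I * I = -1 := by rw [← pow_two]; exact hI
  refine ⟨?_, ?_, ?_, ?_, ?_, ?_, ?_⟩
  · ext i j
    fin_cases i <;> fin_cases j <;> simp [spl]
  · intro x y
    ext i j
    fin_cases i <;> fin_cases j <;>
      simp [spl, Matrix.mul_apply, Fin.sum_univ_two]
    · linear_combination (-(x.imI * y.imI) + (p : R) * (x.imK * y.imK)) * hI2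
    · linear_combination (x.imK * y.imI - x.imI * y.imK) * hI2
    · linear_combination ((p : R) * (x.imK * y.imI) - (p : R) * (x.imI * y.imK)) * hI2
    · linear_combination (-(x.imI * y.imI) + (p : R) * (x.imK * y.imK)) * hI2
  · intro x y
    ext i j
    fin_cases i <;> fin_cases j <;> simp [spl] <;> ring
  · intro c x
    ext i j
    fin_cases i <;> fin_cases j <;> simp [spl] <;> ring
  · intro x
    simp only [spl, nrd, Matrix.det_fin_two_of]
    linear_combination (-(x.imI ^ 2) + (p : R) * x.imK ^ 2) * hI2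
  · intro x
    ext i j
    fin_cases i <;> fin_cases j <;>
      simp [spl, beta, Matrix.mul_apply, Fin.sum_univ_two] <;> ring
  · rintro ⟨u, hu⟩ ⟨v, hv⟩
    have hu1 : (2 : R) * (u⁻¹ : Rˣ) = 1 := by rw [← hu]; exact Units.mul_inv u
    have hv1 : (p : R) * (v⁻¹ : Rˣ) = 1 := by rw [← hv]; exact Units.mul_inv v
    have hz : ∀ a : R, a + a = 0 → a = 0 := by
      intro a ha
      have : (2 : R) * a = 0 := by rw [two_mul]; exact ha
      calc a = (2 * (u⁻¹ : Rˣ)) * a := by rw [hu1, one_mul]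
        _ = (u⁻¹ : Rˣ) * (2 * a) := by ring
        _ = 0 := by rw [this, mul_zero]
    have hp0 : ∀ a : R, (p : R) * a = 0 → a = 0 := by
      intro a ha
      calc a = ((p : R) * (v⁻¹ : Rˣ)) * a := by rw [hv1, one_mul]
        _ = (v⁻¹ : Rˣ) * ((p : R) * a) := by ring
        _ = 0 := by rw [ha, mul_zero]
    have hIz : ∀ a : R, a * I = 0 → a = 0 := by
      intro a ha
      calc a = -(a * I * I) := by rw [mul_assoc, hI2]; ring
        _ = 0 := by rw [ha]; ring
    constructor
    · intro x y hxy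
      have h00 := congrFun (congrFun hxy 0) 0
      have h01 := congrFun (congrFun hxy 0) 1
      have h10 := congrFun (congrFun hxy 1) 0
      have h11 := congrFun (congrFun hxy 1) 1
      simp only [spl, Matrix.of_apply, Matrix.cons_val', Matrix.cons_val_zero,
        Matrix.cons_val_one, Matrix.cons_val_fin_one] at h00 h01 h10 h11
      have h10' : x.imJ - x.imK * I - (y.imJ - y.imK * I) = 0 := by
        refine hp0 _ ?_
        linear_combination h10
      have a1 : x.re - y.re = 0 := hz _ (by linear_combination h00 + h11)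
      have a2 : x.imI - y.imI = 0 := hIz _ (hz _ (by linear_combination h00 - h11))
      have a3 : x.imJ - y.imJ = 0 := hz _ (by linear_combination h01 + h10')
      have a4 : x.imK - y.imK = 0 := hIz _ (hz _ (by linear_combination h01 - h10'))
      exact QuaternionAlgebra.ext (sub_eq_zero.mp a1) (sub_eq_zero.mp a2) (sub_eq_zero.mp a3)
        (sub_eq_zero.mp a4)
    · intro m
      refine ⟨⟨(u⁻¹ : Rˣ) * (m 0 0 + m 1 1), -((u⁻¹ : Rˣ) * (m 0 0 - m 1 1) * I),
        (u⁻¹ : Rˣ) * (m 0 1 + (v⁻¹ : Rˣ) * m 1 0),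
        -((u⁻¹ : Rˣ) * (m 0 1 - (v⁻¹ : Rˣ) * m 1 0) * I)⟩, ?_⟩
      ext i j
      fin_cases i <;> fin_cases j <;> simp [spl]
      · linear_combination (-((u⁻¹ : Rˣ) * (m 0 0 - m 1 1))) * hI2 + m 0 0 * hu1
      · linear_combination (-((u⁻¹ : Rˣ) * (m 0 1 - (v⁻¹ : Rˣ) * m 1 0))) * hI2 + m 0 1 * hu1
      · linear_combination ((p : R) * ((u⁻¹ : Rˣ) * (m 0 1 - (v⁻¹ : Rˣ) * m 1 0))) * hI2 +
          ((p : R) * (v⁻¹ : Rˣ) * m 1 0) * hu1 + m 1 0 * hv1
      · linear_combination ((u⁻¹ : Rˣ) * (m 0 0 - m 1 1)) * hI2 + m 1 1 * hu1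

end TWT
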