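import Pool.Agent.TWT.Targets

/-!
# TWT: the Galois group acts on the points of a closed subgroup
-/

namespace TWT

open WittVector Matrix

noncomputable section

variable (p : ℕ) [hp : Fact p.Prime]

omit hp in
theorem STA_coord {R S : Type} [CommRing R] [CommRing S] (f : R →+* S) (m : AA p R) :
    coord p (aaMap p f m) = fun i => f (coord p m i) := by
  funext i
  fin_cases i <;> rfl

/-- Target STA. -/
theorem p_STA : T_STA p := by
  intro H σ g hg
  rw [H.mem_pts] at hg ⊢
  intro f hf
  have h1 : ((Units.map (aaMap p (σ : PadicAlgCl p →+* PadicAlgCl p) : _ →* _) g :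
      (AA p (PadicAlgCl p))ˣ) : AA p (PadicAlgCl p)) =
      aaMap p (σ : PadicAlgCl p →+* PadicAlgCl p) (g : AA p (PadicAlgCl p)) := rfl
  rw [h1, STA_coord]
  have h2 := MvPolynomial.comp_aeval_apply (coord p (g : AA p (PadicAlgCl p)))
    (σ : PadicAlgCl p →ₐ[ℚ_[p]] PadicAlgCl p) f
  rw [hg f hf, map_zero] at h2
  exact h2.symm

end

end TWT
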