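import Pool.Agent.TWT.Targets

/-!
# TWT: torus type, first factor
-/

namespace TWT

open WittVector Matrix

noncomputable section

namespace TO1_

section field

variable {k : Type} [Field k]

abbrev M2 (k : Type) : Type := Matrix (Fin 2) (Fin 2) k

lemma trdet (e : M2 k) (h : e * e = e) (h0 : e ≠ 0) (h1 : e ≠ 1) : e.trace = 1 ∧ e.det = 0 := by
  have a00 := congrFun (congrFun h 0) 0
  have a01 := congrFun (congrFun h 0) 1
  have a10 := congrFun (congrFun h 1) 0
  have a11 := congrFun (congrFun h 1) 1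
  simp only [Matrix.mul_apply, Fin.sum_univ_two] at a00 a01 a10 a11
  have ht : e 0 0 + e 1 1 = 1 := by
    by_contra hne
    have hne' : e 0 0 + e 1 1 - 1 ≠ 0 := sub_ne_zero.mpr hne
    have hb : e 0 1 = 0 := by
      have : (e 0 0 + e 1 1 - 1) * e 0 1 = 0 := by linear_combination a01
      exact (mul_eq_zero.mp this).resolve_left hne'
    have hc : e 1 0 = 0 := by
      have : (e 0 0 + e 1 1 - 1) * e 1 0 = 0 := by linear_combination a10
      exact (mul_eq_zero.mp this).resolve_left hne'
    have ha : e 0 0 * (e 0 0 - 1) = 0 := by rw [hb] at a00; linear_combination a00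
    have hd : e 1 1 * (e 1 1 - 1) = 0 := by rw [hc] at a11; linear_combination a11
    rcases mul_eq_zero.mp ha with ha | ha <;> rcases mul_eq_zero.mp hd with hd | hd
    · apply h0
      ext i j
      fin_cases i <;> fin_cases j <;> simp [ha, hb, hc, hd]
    · apply hne
      linear_combination ha + hd
    · apply hne
      linear_combination ha + hd
    · apply h1
      ext i j
      fin_cases i <;> fin_cases j <;> simp [hb, hc, sub_eq_zero.mp ha, sub_eq_zero.mp hd]
  refine ⟨by rw [Matrix.trace_fin_two]; exact ht, ?_⟩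
  rw [Matrix.det_fin_two]
  linear_combination e 0 0 * ht - a00

lemma rank1 (e x : M2 k) (h : e.det = 0) : e * x * e = (e * x).trace • e := by
  rw [Matrix.det_fin_two] at h
  ext i j
  fin_cases i <;> fin_cases j <;>
    simp only [Matrix.mul_apply, Fin.sum_univ_two, Matrix.trace_fin_two, Matrix.smul_apply,
      smul_eq_mul, Fin.mk_zero, Fin.mk_one, Fin.zero_eta, Fin.isValue]
  · linear_combination (-x 1 1) * h
  · linear_combination (x 0 1) * h
  · linear_combination (x 1 0) * h
  · linear_combination (-x 0 0) * h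

lemma comm_eq (e x : M2 k) (h : e * e = e) (h0 : e ≠ 0) (h1 : e ≠ 1) (hx : e * x = x * e)
    (ht : x.trace = 0) : x = (e * x).trace • ((2 : k) • e - 1) := by
  obtain ⟨te, de⟩ := trdet e h h0 h1
  have de' : (1 - e).det = 0 := by
    rw [Matrix.det_fin_two] at de ⊢
    rw [Matrix.trace_fin_two] at te
    simp only [Matrix.sub_apply, Matrix.one_apply_eq, Matrix.one_apply_ne (zero_ne_one),
      Matrix.one_apply_ne (one_ne_zero)]
    simp
    linear_combination de - te
  have e1 : e * x = (e * x).trace • e := by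
    rw [← rank1 e x de, hx, Matrix.mul_assoc, h]
  have e2 : (1 - e) * x = ((1 - e) * x).trace • (1 - e) := by
    rw [← rank1 (1 - e) x de']
    have h3 : (1 - e) * x = x * (1 - e) := by rw [sub_mul, mul_sub, hx, one_mul, mul_one]
    have h4 : (1 - e) * (1 - e) = 1 - e := by
      rw [sub_mul, mul_sub, mul_sub, h]; simp
    rw [h3, Matrix.mul_assoc, h4]
  have e3 : ((1 - e) * x).trace = -(e * x).trace := by
    rw [sub_mul, one_mul, Matrix.trace_sub, ht, zero_sub]
  calc x = e * x + (1 - e) * x := by rw [sub_mul, one_mul]; abel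
    _ = (e * x).trace • e + (-(e * x).trace) • (1 - e) := by
        rw [← e3, ← e2, ← e1]
    _ = (e * x).trace • ((2 : k) • e - 1) := by
        rw [neg_smul, smul_sub, smul_sub, smul_smul, mul_comm, mul_smul, two_smul]
        abel

/-- a conjugate of `2e - 1` which commutes or anticommutes with `1 + e` -/
lemma conj_eq [CharZero k] (e x : M2 k) (h : e * e = e) (h0 : e ≠ 0) (h1 : e ≠ 1)
    (ht : x.trace = 0) (hx2 : x * x = 1)
    (hc : (1 + e) * x = x * (1 + e) ∨ (1 + e) * x = -(x * (1 + e))) :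
    ∃ c : k, x = c • ((2 : k) • e - 1) := by
  rcases hc with hc | hc
  · refine ⟨_, comm_eq e x h h0 h1 ?_ ht⟩
    have := hc
    rw [add_mul, mul_add, one_mul, mul_one] at this
    exact add_left_cancel this
  · exfalso
    have a1 : (2 : k) • x + e * x + x * e = 0 := by
      have : (1 + e) * x + x * (1 + e) = 0 := by rw [hc]; abel
      rw [add_mul, mul_add, one_mul, mul_one] at this
      rw [two_smul, ← this]
      abel
    have a2 : (4 : k) • (e * x * e) = 0 := by
      have h2 : e * ((2 : k) • x + e * x + x * e) * e = 0 := by rw [a1]; simp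
      have h3 : e * ((2 : k) • x + e * x + x * e) * e = (4 : k) • (e * x * e) := by
        have e1 : e * (e * x) = e * x := by rw [← Matrix.mul_assoc, h]
        have e2 : e * (x * e) * e = e * x * e := by
          rw [← Matrix.mul_assoc, Matrix.mul_assoc, h]
        rw [mul_add, mul_add, add_mul, add_mul, e1, e2, mul_smul_comm, smul_mul_assoc]
        have : (4 : k) = 2 + 1 + 1 := by norm_num
        rw [this, add_smul, add_smul, one_smul]
      rw [← h3, h2]
    have a3 : e * x * e = 0 := by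
      have h4 : (4 : k) ≠ 0 := by norm_num
      exact (smul_eq_zero.mp a2).resolve_left h4
    have a4 : (3 : k) • (e * x) = 0 := by
      have h2 : e * ((2 : k) • x + e * x + x * e) = 0 := by rw [a1]; simp
      have h3 : e * ((2 : k) • x + e * x + x * e) = (3 : k) • (e * x) := by
        have e1 : e * (e * x) = e * x := by rw [← Matrix.mul_assoc, h]
        have e2 : e * (x * e) = 0 := by rw [← Matrix.mul_assoc, a3]
        rw [mul_add, mul_add, e1, e2, mul_smul_comm, add_zero]
        have : (3 : k) = 2 + 1 := by norm_num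
        rw [this, add_smul, one_smul]
      rw [← h3, h2]
    have a5 : (3 : k) • (x * e) = 0 := by
      have h2 : ((2 : k) • x + e * x + x * e) * e = 0 := by rw [a1]; simp
      have h3 : ((2 : k) • x + e * x + x * e) * e = (3 : k) • (x * e) := by
        have e1 : x * e * e = x * e := by rw [Matrix.mul_assoc, h]
        rw [add_mul, add_mul, a3, e1, smul_mul_assoc, add_zero]
        have : (3 : k) = 2 + 1 := by norm_num
        rw [this, add_smul, one_smul]
      rw [← h3, h2]
    have h3' : (3 : k) ≠ 0 := by norm_num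
    have a6 : e * x = 0 := (smul_eq_zero.mp a4).resolve_left h3'
    have a7 : x * e = 0 := (smul_eq_zero.mp a5).resolve_left h3'
    rw [a6, a7, add_zero, add_zero] at a1
    have a8 : x = 0 := (smul_eq_zero.mp a1).resolve_left two_ne_zero
    rw [a8] at hx2
    simp at hx2

/-- `2e - 1` -/
def eps (e : M2 k) : M2 k := (2 : k) • e - 1

lemma eps_sq (e : M2 k) (h : e * e = e) : eps e * eps e = 1 := by
  unfold eps
  rw [sub_mul, mul_sub, mul_sub, smul_mul_smul, h, one_mul, mul_one, mul_one]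
  have : ((2 : k) * 2) • e = (2 : k) • e + (2 : k) • e := by
    rw [← add_smul]; norm_num
  rw [this]
  abel

lemma eps_tr (e : M2 k) (h : e * e = e) (h0 : e ≠ 0) (h1 : e ≠ 1) : (eps e).trace = 0 := by
  have := (trdet e h h0 h1).1
  unfold eps
  rw [Matrix.trace_sub, Matrix.trace_smul, this]
  simp

lemma eps_comm (e g : M2 k) (h : g * e = e * g ∨ g * e = (1 - e) * g) :
    g * eps e = eps e * g ∨ g * eps e = -(eps e * g) := by
  unfold eps
  rcases h with h | h
  · left
    rw [mul_sub, sub_mul, mul_smul_comm, smul_mul_assoc, h, mul_one, one_mul]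
  · right
    rw [mul_sub, sub_mul, mul_smul_comm, smul_mul_assoc, h, mul_one, one_mul, sub_mul, one_mul,
      smul_sub, two_smul]
    abel

end field

section poly

variable (p : ℕ) [hp : Fact p.Prime]

/-- generic first component -/
def XX : Matrix (Fin 2) (Fin 2) (MvPolynomial (Fin 8) ℚ_[p]) :=
  !![MvPolynomial.X 0, MvPolynomial.X 1; MvPolynomial.X 2, MvPolynomial.X 3]

/-- scalar matrix -/
def NN (N : Matrix (Fin 2) (Fin 2) ℚ_[p]) :
    Matrix (Fin 2) (Fin 2) (MvPolynomial (Fin 8) ℚ_[p]) :=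
  Matrix.of fun i j => MvPolynomial.C (N i j)

variable (R : Type) [CommRing R] [Algebra ℚ_[p] R]

/-- scalar extension of a matrix -/
def NR (N : Matrix (Fin 2) (Fin 2) ℚ_[p]) : Matrix (Fin 2) (Fin 2) R :=
  Matrix.of fun i j => algebraMap ℚ_[p] R (N i j)

lemma aeval_XX (m : AA p R) (i j : Fin 2) :
    MvPolynomial.aeval (coord p m) (XX p i j) = m.1 i j := by
  fin_cases i <;> fin_cases j <;> simp [XX, coord]

lemma aeval_NN (m : AA p R) (N : Matrix (Fin 2) (Fin 2) ℚ_[p]) (i j : Fin 2) :
    MvPolynomial.aeval (coord p m) (NN p N i j) = NR p R N i j := by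
  simp [NN, NR]

lemma aeval_sub' (m : AA p R) (N : Matrix (Fin 2) (Fin 2) ℚ_[p]) (i j : Fin 2) :
    MvPolynomial.aeval (coord p m) ((XX p * NN p N - NN p N * XX p) i j) =
      (m.1 * NR p R N - NR p R N * m.1) i j := by
  rw [Matrix.sub_apply, Matrix.sub_apply]
  simp only [Matrix.mul_apply, Fin.sum_univ_two, map_sub, map_add, map_mul, aeval_XX, aeval_NN]

lemma aeval_add' (m : AA p R) (N : Matrix (Fin 2) (Fin 2) ℚ_[p]) (i j : Fin 2) :
    MvPolynomial.aeval (coord p m) ((XX p * NN p N + NN p N * XX p) i j) =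
      (m.1 * NR p R N + NR p R N * m.1) i j := by
  rw [Matrix.add_apply, Matrix.add_apply]
  simp only [Matrix.mul_apply, Fin.sum_univ_two, map_add, map_mul, aeval_XX, aeval_NN]

end poly

end TO1_

open TO1_ in
theorem p_TO1 (p : ℕ) [Fact p.Prime] (hSTA : T_STA p) (hDES : T_DES p) (hSPE : T_SPE p) :
    T_TO1 p := by
  intro H e hC hT h hh y hy
  obtain ⟨⟨he, he0, he1, -, -⟩, htor⟩ := hC
  have hE : e.1 * e.1 = e.1 := congrArg Prod.fst he
  have hTor : ∀ g ∈ H.pts (PadicAlgCl p), (g : AA p (PadicAlgCl p)).1 * eps e.1 =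
      eps e.1 * (g : AA p (PadicAlgCl p)).1 ∨ (g : AA p (PadicAlgCl p)).1 * eps e.1 =
      -(eps e.1 * (g : AA p (PadicAlgCl p)).1) := by
    intro g hg
    exact eps_comm _ _ (hT _ ⟨g, hg, rfl⟩)
  have hsq := eps_sq e.1 hE
  have htr := eps_tr e.1 hE he0 he1
  -- Galois conjugates
  have hgal : ∀ σ : PadicAlgCl p ≃ₐ[ℚ_[p]] PadicAlgCl p, ∃ c : PadicAlgCl p,
      ∀ i j, σ (eps e.1 i j) = c * eps e.1 i j := by
    intro σ
    let f : PadicAlgCl p →+* PadicAlgCl p := σ
    have hx2 : f.mapMatrix (eps e.1) * f.mapMatrix (eps e.1) = 1 := by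
      rw [← map_mul, hsq, map_one]
    have hxt : (f.mapMatrix (eps e.1)).trace = 0 := by
      rw [Matrix.trace_fin_two] at htr ⊢
      rw [RingHom.mapMatrix_apply, Matrix.map_apply, Matrix.map_apply, ← map_add, htr, map_zero]
    obtain ⟨g, hg, hgE⟩ := htor 2 two_ne_zero
    have hg1 : (g : AA p (PadicAlgCl p)).1 = 1 + e.1 := by
      rw [hgE]
      change (2 : PadicAlgCl p) • e.1 + (1 - e.1) = 1 + e.1
      rw [two_smul]
      abel
    have hg' := hSTA H σ.symm g hg
    have h3 := hTor _ hg'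
    have h4 : ((Units.map (aaMap p (σ.symm : PadicAlgCl p →+* PadicAlgCl p) : _ →* _) g :
        (AA p (PadicAlgCl p))ˣ) : AA p (PadicAlgCl p)).1 =
        (σ.symm : PadicAlgCl p →+* PadicAlgCl p).mapMatrix (1 + e.1) := by
      rw [← hg1]; rfl
    have h5 : f.mapMatrix ((σ.symm : PadicAlgCl p →+* PadicAlgCl p).mapMatrix (1 + e.1)) =
        1 + e.1 := by
      ext i j
      change σ (σ.symm _) = _
      rw [AlgEquiv.apply_symm_apply]
    rw [h4] at h3
    have h6 : (1 + e.1) * f.mapMatrix (eps e.1) = f.mapMatrix (eps e.1) * (1 + e.1) ∨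
        (1 + e.1) * f.mapMatrix (eps e.1) = -(f.mapMatrix (eps e.1) * (1 + e.1)) := by
      rcases h3 with h3 | h3
      · left
        have := congrArg f.mapMatrix h3
        rwa [map_mul, map_mul, h5] at this
      · right
        have := congrArg f.mapMatrix h3
        rwa [map_mul, map_neg, map_mul, h5] at this
    obtain ⟨c, hc⟩ := conj_eq e.1 (f.mapMatrix (eps e.1)) hE he0 he1 hxt hx2 h6
    refine ⟨c, fun i j => ?_⟩
    have := congrFun (congrFun hc i) j
    exact this
  obtain ⟨c, y', hc, hcy⟩ := hDES (Fin 2 × Fin 2) (fun q => eps e.1 q.1 q.2) (by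
    intro h0
    have : eps e.1 = 0 := by
      ext i j
      exact congrFun h0 (i, j)
    rw [this] at hsq
    simp at hsq) (fun σ => by
      obtain ⟨c, hc⟩ := hgal σ
      exact ⟨c, fun q => hc q.1 q.2⟩)
  let N : Matrix (Fin 2) (Fin 2) ℚ_[p] := Matrix.of fun i j => y' (i, j)
  have hNK : NR p (PadicAlgCl p) N = c • eps e.1 := by
    ext i j
    exact (hcy (i, j)).symm
  have hK : ∀ g ∈ H.pts (PadicAlgCl p),
      (g : AA p (PadicAlgCl p)).1 * NR p (PadicAlgCl p) N -
        NR p (PadicAlgCl p) N * (g : AA p (PadicAlgCl p)).1 = 0 ∨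
      (g : AA p (PadicAlgCl p)).1 * NR p (PadicAlgCl p) N +
        NR p (PadicAlgCl p) N * (g : AA p (PadicAlgCl p)).1 = 0 := by
    intro g hg
    rw [hNK, mul_smul_comm, smul_mul_assoc]
    rcases hTor g hg with h1 | h1
    · left; rw [h1, sub_self]
    · right; rw [h1, smul_neg, neg_add_cancel]
  have hCC : (h : AA p ℂ_[p]).1 * NR p ℂ_[p] N - NR p ℂ_[p] N * (h : AA p ℂ_[p]).1 = 0 ∨
      (h : AA p ℂ_[p]).1 * NR p ℂ_[p] N + NR p ℂ_[p] N * (h : AA p ℂ_[p]).1 = 0 := by
    by_contra hne
    push Not at hne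
    obtain ⟨hn1, hn2⟩ := hne
    have : ∃ i j, ((h : AA p ℂ_[p]).1 * NR p ℂ_[p] N -
        NR p ℂ_[p] N * (h : AA p ℂ_[p]).1) i j ≠ 0 := by
      by_contra hh
      push Not at hh
      exact hn1 (by ext i j; exact hh i j)
    obtain ⟨i, j, hij⟩ := this
    have : ∃ i j, ((h : AA p ℂ_[p]).1 * NR p ℂ_[p] N +
        NR p ℂ_[p] N * (h : AA p ℂ_[p]).1) i j ≠ 0 := by
      by_contra hh
      push Not at hh
      exact hn2 (by ext i j; exact hh i j)
    obtain ⟨k, l, hkl⟩ := this
    obtain ⟨h', hh', hne'⟩ := hSPE H ℂ_[p] h hh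
      ((XX p * NN p N - NN p N * XX p) i j * (XX p * NN p N + NN p N * XX p) k l) (by
        rw [map_mul, aeval_sub', aeval_add']
        exact mul_ne_zero hij hkl)
    apply hne'
    rw [map_mul, aeval_sub', aeval_add']
    rcases hK h' hh' with h1 | h1
    · rw [h1]; simp
    · rw [h1]; simp
  -- the eigenvector
  let ι : PadicAlgCl p →+* ℂ_[p] := algebraMap (PadicAlgCl p) ℂ_[p]
  have hNC : NR p ℂ_[p] N = ι c • ι.mapMatrix (eps e.1) := by
    ext i j
    have h1 := congrFun (congrFun hNK i) j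
    have h2 : algebraMap ℚ_[p] ℂ_[p] (N i j) = ι (algebraMap ℚ_[p] (PadicAlgCl p) (N i j)) :=
      IsScalarTower.algebraMap_apply _ _ _ _
    change algebraMap ℚ_[p] ℂ_[p] (N i j) = ι c * ι (eps e.1 i j)
    rw [h2, ← map_mul]
    exact congrArg ι h1
  have hee : ι.mapMatrix (eps e.1) * ι.mapMatrix e.1 = ι.mapMatrix e.1 := by
    rw [← map_mul]
    congr 1
    unfold eps
    rw [sub_mul, smul_mul_assoc, hE, one_mul, two_smul]
    abel
  have hmem : ![y, 1] ∈ (ranFl p ((h : AA p ℂ_[p]) * aaMap p ι e)).1 := by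
    rw [hy]
    exact Submodule.mem_span_singleton_self _
  obtain ⟨w, hw⟩ := hmem
  have hw' : ((h : AA p ℂ_[p]).1 * ι.mapMatrix e.1) *ᵥ w = ![y, 1] := by
    rw [← hw]
    rfl
  have hev : ∃ lam : ℂ_[p], NR p ℂ_[p] N *ᵥ ![y, 1] = lam • ![y, 1] := by
    have key : ∀ s : ℂ_[p], NR p ℂ_[p] N * (h : AA p ℂ_[p]).1 =
        s • ((h : AA p ℂ_[p]).1 * NR p ℂ_[p] N) →
        NR p ℂ_[p] N *ᵥ ![y, 1] = (s * ι c) • ![y, 1] := by
      intro s hs
      rw [← hw', Matrix.mulVec_mulVec, ← Matrix.mul_assoc, hs, smul_mul_assoc, Matrix.mul_assoc,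
        hNC, smul_mul_assoc, hee, mul_smul_comm, smul_smul, Matrix.smul_mulVec]
    rcases hCC with h1 | h1
    · exact ⟨_, key 1 (by rw [one_smul]; exact (sub_eq_zero.mp h1).symm)⟩
    · exact ⟨_, key (-1) (by
        rw [neg_smul, one_smul]
        exact (neg_eq_of_add_eq_zero_right h1).symm)⟩
  obtain ⟨lam, hlam⟩ := hev
  have r0 := congrFun hlam 0
  have r1 := congrFun hlam 1
  simp only [Matrix.mulVec, dotProduct, Fin.sum_univ_two, Matrix.cons_val_zero,
    Matrix.cons_val_one, Pi.smul_apply, smul_eq_mul, mul_one] at r0 r1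
  refine ⟨N 1 0, N 1 1 - N 0 0, -N 0 1, ?_, ?_⟩
  · rintro ⟨z1, z2, z3⟩
    have e10 := congrFun (congrFun hNK 1) 0
    have e01 := congrFun (congrFun hNK 0) 1
    have e00 := congrFun (congrFun hNK 0) 0
    have e11 := congrFun (congrFun hNK 1) 1
    simp only [NR, Matrix.of_apply, Matrix.smul_apply, smul_eq_mul] at e10 e01 e00 e11
    rw [z1, map_zero] at e10
    rw [neg_eq_zero.mp z3, map_zero] at e01
    rw [sub_eq_zero.mp z2, e00] at e11
    have f10 : eps e.1 1 0 = 0 := (mul_eq_zero.mp e10.symm).resolve_left hc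
    have f01 : eps e.1 0 1 = 0 := (mul_eq_zero.mp e01.symm).resolve_left hc
    have f11 : eps e.1 0 0 = eps e.1 1 1 := mul_left_cancel₀ hc e11
    rw [Matrix.trace_fin_two, f11, ← two_mul] at htr
    have g11 : eps e.1 1 1 = 0 := (mul_eq_zero.mp htr).resolve_left two_ne_zero
    have : eps e.1 = 0 := by
      ext i j
      fin_cases i <;> fin_cases j <;> simp [f10, f01, f11, g11]
    rw [this] at hsq
    simp at hsq
  · rw [map_sub, map_neg]
    simp only [NR, Matrix.of_apply] at r0 r1
    linear_combination y * r1 - r0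

end

end TWT
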