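import Pool.Agent.TWT.Targets

/-!
# TWT: torus type, second factor
-/

namespace TWT

open Matrix

noncomputable section

namespace TO2_

variable {p : ℕ}

lemma re_half {k : Type} [Field k] [CharZero k] (x : Quat p k) (hx : x * x = x) (h0 : x ≠ 0)
    (h1 : x ≠ 1) : 2 * x.re = 1 := by
  have e0 := congrArg QuaternionAlgebra.re hx
  have e1 := congrArg QuaternionAlgebra.imI hx
  have e2 := congrArg QuaternionAlgebra.imJ hx
  have e3 := congrArg QuaternionAlgebra.imK hx
  simp only [QuaternionAlgebra.re_mul, QuaternionAlgebra.imI_mul, QuaternionAlgebra.imJ_mul,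
    QuaternionAlgebra.imK_mul] at e0 e1 e2 e3
  by_contra h
  have h' : 2 * x.re - 1 ≠ 0 := sub_ne_zero.2 h
  have f1 : x.imI = 0 := by
    have : (2 * x.re - 1) * x.imI = 0 := by linear_combination e1
    exact (mul_eq_zero.1 this).resolve_left h'
  have f2 : x.imJ = 0 := by
    have : (2 * x.re - 1) * x.imJ = 0 := by linear_combination e2
    exact (mul_eq_zero.1 this).resolve_left h'
  have f3 : x.imK = 0 := by
    have : (2 * x.re - 1) * x.imK = 0 := by linear_combination e3
    exact (mul_eq_zero.1 this).resolve_left h'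
  rw [f1, f2, f3] at e0
  have f0 : x.re * (x.re - 1) = 0 := by linear_combination e0
  rcases mul_eq_zero.1 f0 with h2 | h2
  · exact h0 (by ext <;> simp [h2, f1, f2, f3])
  · exact h1 (by ext <;> simp [sub_eq_zero.1 h2, f1, f2, f3])

lemma parallel {k : Type} [Field k] [CharZero k] (hp : (p : k) ≠ 0) (x ε : Quat p k)
    (hx : x.re = 0) (hε : ε.re = 0) (hne : ε ≠ 0) (hc : ε * x = x * ε) :
    ∃ c : k, x = c • ε := by
  have e1 := congrArg QuaternionAlgebra.imI hc
  have e2 := congrArg QuaternionAlgebra.imJ hc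
  have e3 := congrArg QuaternionAlgebra.imK hc
  simp only [QuaternionAlgebra.imI_mul, QuaternionAlgebra.imJ_mul,
    QuaternionAlgebra.imK_mul, hx, hε] at e1 e2 e3
  have h2 : (2 : k) ≠ 0 := two_ne_zero
  have f1 : ε.imK * x.imJ = ε.imJ * x.imK := by
    have : (2 * (p : k)) * (ε.imK * x.imJ - ε.imJ * x.imK) = 0 := by linear_combination e1
    exact sub_eq_zero.1 ((mul_eq_zero.1 this).resolve_left (mul_ne_zero h2 hp))
  have f2 : ε.imK * x.imI = ε.imI * x.imK := by
    have : (2 : k) * (ε.imK * x.imI - ε.imI * x.imK) = 0 := by linear_combination e2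
    exact sub_eq_zero.1 ((mul_eq_zero.1 this).resolve_left h2)
  have f3 : ε.imI * x.imJ = ε.imJ * x.imI := by
    have : (2 : k) * (ε.imI * x.imJ - ε.imJ * x.imI) = 0 := by linear_combination e3
    exact sub_eq_zero.1 ((mul_eq_zero.1 this).resolve_left h2)
  by_cases g1 : ε.imI = 0
  · by_cases g2 : ε.imJ = 0
    · by_cases g3 : ε.imK = 0
      · exact absurd (by ext <;> simp [hε, g1, g2, g3]) hne
      · refine ⟨x.imK / ε.imK, ?_⟩
        ext
        · simp [hx, hε]
        · simp only [QuaternionAlgebra.imI_smul, smul_eq_mul]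
          field_simp
          linear_combination f2
        · simp only [QuaternionAlgebra.imJ_smul, smul_eq_mul]
          field_simp
          linear_combination f1
        · simp only [QuaternionAlgebra.imK_smul, smul_eq_mul]
          field_simp
    · refine ⟨x.imJ / ε.imJ, ?_⟩
      ext
      · simp [hx, hε]
      · simp only [QuaternionAlgebra.imI_smul, smul_eq_mul]
        field_simp
        linear_combination -f3
      · simp only [QuaternionAlgebra.imJ_smul, smul_eq_mul]
        field_simp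
      · simp only [QuaternionAlgebra.imK_smul, smul_eq_mul]
        field_simp
        linear_combination -f1
  · refine ⟨x.imI / ε.imI, ?_⟩
    ext
    · simp [hx, hε]
    · simp only [QuaternionAlgebra.imI_smul, smul_eq_mul]
      field_simp
    · simp only [QuaternionAlgebra.imJ_smul, smul_eq_mul]
      field_simp
      linear_combination f3
    · simp only [QuaternionAlgebra.imK_smul, smul_eq_mul]
      field_simp
      linear_combination -f2

/-- ring manipulations with an idempotent -/
lemma comm_of {M : Type} [Ring M] (h3 : ∀ a : M, a + a = 0 → a = 0)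
    (h5 : ∀ a : M, a + a + a = 0 → a = 0) (e x : M) (he : e * e = e) (hx : x * x = 1)
    (h01 : (1 : M) ≠ 0)
    (h : (1 + e) * x = x * (1 + e) ∨ (1 + e) * x = -(x * (1 + e))) : e * x = x * e := by
  rcases h with h | h
  · rw [add_mul, mul_add, one_mul, mul_one] at h
    exact add_left_cancel h
  · exfalso
    have h1 : x + e * x + (x + x * e) = 0 := by
      have : (1 + e) * x + x * (1 + e) = 0 := by rw [h]; abel
      rw [← this]; noncomm_ring
    have h2 : e * x + e * x + e * x + e * x * e = 0 := by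
      have h4 := congrArg (fun y => e * y) h1
      simp only [mul_zero] at h4
      rw [← h4]
      have : e * (x + e * x + (x + x * e)) = e * x + (e * e) * x + (e * x + e * x * e) := by
        noncomm_ring
      rw [this, he]; abel
    have h6 : e * x * e = 0 := by
      have h4 := congrArg (fun y => y * e) h2
      simp only [zero_mul] at h4
      have h7 : (e * x + e * x + e * x + e * x * e) * e =
          e * x * e + e * x * e + e * x * e + e * x * (e * e) := by noncomm_ring
      rw [h7, he] at h4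
      apply h3
      apply h3
      rw [← h4]; abel
    have h8 : e * x = 0 := by
      rw [h6, add_zero] at h2
      exact h5 _ h2
    have h9 : x + x + x * e = 0 := by
      rw [h8, add_zero] at h1
      rw [← h1]; abel
    have h10 : x * e = 0 := by
      have h4 := congrArg (fun y => y * e) h9
      simp only [zero_mul] at h4
      have h7 : (x + x + x * e) * e = x * e + x * e + x * (e * e) := by noncomm_ring
      rw [h7, he] at h4
      exact h5 _ h4
    have h11 : x = 0 := by
      rw [h10, add_zero] at h9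
      exact h3 _ h9
    rw [h11, mul_zero] at hx
    exact h01 hx.symm

lemma quat_cancel {k : Type} [Field k] [CharZero k] (m : ℕ) (hm : m ≠ 0) (a : Quat p k)
    (h : (m : k) • a = 0) : a = 0 :=
  (smul_eq_zero.1 h).resolve_left (by exact_mod_cast hm)

lemma quat2 {k : Type} [Field k] [CharZero k] (a : Quat p k) (h : a + a = 0) : a = 0 := by
  refine quat_cancel 2 two_ne_zero a ?_
  rw [← h]
  ext <;> simp <;> ring

lemma quat3 {k : Type} [Field k] [CharZero k] (a : Quat p k) (h : a + a + a = 0) : a = 0 := by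
  refine quat_cancel 3 three_ne_zero a ?_
  rw [← h]
  ext <;> simp <;> ring

lemma quatMap_smul {R S : Type} [CommRing R] [CommRing S] (f : R →+* S) (c : R) (x : Quat p R) :
    quatMap p f (c • x) = f c • quatMap p f x := by
  ext <;> simp [quatMap]

lemma quatMap_comp {R S U : Type} [CommRing R] [CommRing S] [CommRing U] (f : R →+* S)
    (g : S →+* U) (x : Quat p R) : quatMap p g (quatMap p f x) = quatMap p (g.comp f) x := by
  ext <;> simp [quatMap]

/-- the four coordinates -/
def co {R : Type} [CommRing R] (x : Quat p R) (i : Fin 4) : R := ![x.re, x.imI, x.imJ, x.imK] i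

lemma co_map {R S : Type} [CommRing R] [CommRing S] (f : R →+* S) (x : Quat p R) (i : Fin 4) :
    co (quatMap p f x) i = f (co x i) := by
  fin_cases i <;> rfl

lemma co_zero {R : Type} [CommRing R] (i : Fin 4) : co (0 : Quat p R) i = 0 := by
  fin_cases i <;> rfl

lemma eq_zero_of_co {R : Type} [CommRing R] (x : Quat p R) (h : ∀ i, co x i = 0) : x = 0 := by
  ext
  · exact h 0
  · exact h 1
  · exact h 2
  · exact h 3

/-- evaluation of polynomials -/
def ev [Fact p.Prime] {K : Type} [CommRing K] [Algebra ℚ_[p] K] (m : AA p K) :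
    MvPolynomial (Fin 8) ℚ_[p] →+* K := (MvPolynomial.aeval (R := ℚ_[p]) (coord p m)).toRingHom

end TO2_

open TO2_

theorem p_TO2 (p : ℕ) [hp : Fact p.Prime] (hSTA : T_STA p) (hDES : T_DES p) (hSPE : T_SPE p)
    (hSPL : T_SPL p) : T_TO2 p := by
  intro H e hcoch htor
  have hc0 : CharZero (PadicAlgCl p) := charZero_of_injective_algebraMap
    (algebraMap ℚ_[p] (PadicAlgCl p)).injective
  have hp0 : (p : PadicAlgCl p) ≠ 0 := by exact_mod_cast hp.out.ne_zero
  obtain ⟨⟨hee, -, -, he0, he1⟩, htorus⟩ := hcoch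
  have hee2 : e.2 * e.2 = e.2 := congrArg Prod.snd hee
  have h01 : (1 : Quat p (PadicAlgCl p)) ≠ 0 := by
    intro h
    have := congrArg QuaternionAlgebra.re h
    simp at this
  -- the involution
  set ε : Quat p (PadicAlgCl p) := e.2 + e.2 - 1 with hε
  have hεε : ε * ε = 1 := by
    have : ε * ε = (e.2 * e.2 + e.2 * e.2 + (e.2 * e.2 + e.2 * e.2)) -
        (e.2 + e.2 + (e.2 + e.2)) + 1 := by rw [hε]; noncomm_ring
    rw [this, hee2]; abel
  have hεre : ε.re = 0 := by
    have h1 := re_half e.2 hee2 he0 he1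
    rw [hε]
    simp only [QuaternionAlgebra.re_sub, QuaternionAlgebra.re_add, QuaternionAlgebra.re_one]
    linear_combination h1
  have hεne : ε ≠ 0 := by
    intro h
    rw [h, mul_zero] at hεε
    exact h01 hεε.symm
  -- elements of the group commute or anticommute with the involution
  have hcomm : ∀ h ∈ H.pts (PadicAlgCl p), (h : AA p (PadicAlgCl p)).2 * ε =
      ε * (h : AA p (PadicAlgCl p)).2 ∨ (h : AA p (PadicAlgCl p)).2 * ε =
      -(ε * (h : AA p (PadicAlgCl p)).2) := by
    intro h hh
    have h1 := htor (Units.map (RingHom.snd (Matrix (Fin 2) (Fin 2) (PadicAlgCl p))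
      (Quat p (PadicAlgCl p)) : _ →* _) h) ⟨h, hh, rfl⟩
    have h2 : ((Units.map (RingHom.snd (Matrix (Fin 2) (Fin 2) (PadicAlgCl p))
      (Quat p (PadicAlgCl p)) : _ →* _) h : (Quat p (PadicAlgCl p))ˣ) :
      Quat p (PadicAlgCl p)) = (h : AA p (PadicAlgCl p)).2 := rfl
    rw [h2] at h1
    rcases h1 with h1 | h1
    · left
      rw [hε, mul_sub, mul_add, sub_mul, add_mul, h1, mul_one, one_mul]
    · right
      rw [hε, mul_sub, mul_add, sub_mul, add_mul, h1, mul_one, one_mul, sub_mul, one_mul]
      abel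
  -- the torus element
  obtain ⟨g2, hg2, hg2e⟩ := htorus 2 two_ne_zero
  have hg22 : (g2 : AA p (PadicAlgCl p)).2 = 1 + e.2 := by
    rw [hg2e]
    change (2 : PadicAlgCl p) • e.2 + (1 - e.2) = 1 + e.2
    rw [two_smul]; abel
  -- Galois conjugates of the involution
  have hgal : ∀ σ : PadicAlgCl p ≃ₐ[ℚ_[p]] PadicAlgCl p, ∃ c : PadicAlgCl p,
      quatMap p (σ : PadicAlgCl p →+* PadicAlgCl p) ε = c • ε := by
    intro σ
    set x := quatMap p (σ : PadicAlgCl p →+* PadicAlgCl p) ε with hx
    have hxx : x * x = 1 := by rw [hx, ← map_mul, hεε, map_one]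
    have hxre : x.re = 0 := by
      change σ ε.re = 0
      rw [hεre, map_zero]
    have h1 : (1 + e.2) * x = x * (1 + e.2) ∨ (1 + e.2) * x = -(x * (1 + e.2)) := by
      have h2 := hSTA H σ.symm g2 hg2
      have h3 := hcomm _ h2
      have h4 : ((Units.map (aaMap p (σ.symm : PadicAlgCl p →+* PadicAlgCl p) : _ →* _) g2 :
          (AA p (PadicAlgCl p))ˣ) : AA p (PadicAlgCl p)).2 =
          quatMap p (σ.symm : PadicAlgCl p →+* PadicAlgCl p) (g2 : AA p (PadicAlgCl p)).2 := rfl
      rw [h4, hg22] at h3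
      have h5 : ∀ y : Quat p (PadicAlgCl p), quatMap p (σ : PadicAlgCl p →+* PadicAlgCl p)
          (quatMap p (σ.symm : PadicAlgCl p →+* PadicAlgCl p) y) = y := by
        intro y
        ext <;> simp [quatMap]
      rcases h3 with h3 | h3
      · left
        have h6 := congrArg (quatMap p (σ : PadicAlgCl p →+* PadicAlgCl p)) h3
        rw [map_mul, map_mul, h5] at h6
        exact h6
      · right
        have h6 := congrArg (quatMap p (σ : PadicAlgCl p →+* PadicAlgCl p)) h3
        rw [map_neg, map_mul, map_mul, h5] at h6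
        exact h6
    have h7 : e.2 * x = x * e.2 := comm_of quat2 quat3 e.2 x hee2 hxx h01 h1
    have h8 : ε * x = x * ε := by
      rw [hε, sub_mul, add_mul, mul_sub, mul_add, h7, one_mul, mul_one]
    exact parallel hp0 x ε hxre hεre hεne h8
  -- descent
  obtain ⟨c, y, hc, hy⟩ := hDES (Fin 4) ![ε.re, ε.imI, ε.imJ, ε.imK] (by
    intro h
    apply hεne
    have h1 : ∀ i, (![ε.re, ε.imI, ε.imJ, ε.imK] : Fin 4 → PadicAlgCl p) i = 0 := fun i => by
      rw [h]; rfl
    ext
    · exact h1 0
    · exact h1 1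
    · exact h1 2
    · exact h1 3) (by
    intro σ
    obtain ⟨c, hc⟩ := hgal σ
    refine ⟨c, fun i => ?_⟩
    fin_cases i
    · exact congrArg QuaternionAlgebra.re hc
    · exact congrArg QuaternionAlgebra.imI hc
    · exact congrArg QuaternionAlgebra.imJ hc
    · exact congrArg QuaternionAlgebra.imK hc)
  let N : Quat p ℚ_[p] := ⟨y 0, y 1, y 2, y 3⟩
  have hN : quatMap p (algebraMap ℚ_[p] (PadicAlgCl p)) N = c • ε := by
    ext
    · exact (hy 0).symm
    · exact (hy 1).symm
    · exact (hy 2).symm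
    · exact (hy 3).symm
  have hNne : N ≠ 0 := by
    intro h
    rw [h, map_zero] at hN
    rcases smul_eq_zero.1 hN.symm with h1 | h1
    · exact hc h1
    · exact hεne h1
  have hNre : N.re = 0 := by
    have h1 := congrArg QuaternionAlgebra.re hN
    rw [QuaternionAlgebra.re_smul, hεre, smul_zero] at h1
    exact (map_eq_zero _).1 h1
  -- the generic polynomials
  let X4 : Quat p (MvPolynomial (Fin 8) ℚ_[p]) :=
    ⟨MvPolynomial.X 4, MvPolynomial.X 5, MvPolynomial.X 6, MvPolynomial.X 7⟩
  let NX : Quat p (MvPolynomial (Fin 8) ℚ_[p]) := quatMap p MvPolynomial.C N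
  have hev1 : ∀ (K : Type) [Field K] [Algebra ℚ_[p] K] (m : AA p K),
      quatMap p (ev m) X4 = m.2 := by
    intro K _ _ m
    ext <;> simp [quatMap, X4, coord, ev]
  have hev2 : ∀ (K : Type) [Field K] [Algebra ℚ_[p] K] (m : AA p K),
      quatMap p (ev m) NX = quatMap p (algebraMap ℚ_[p] K) N := by
    intro K _ _ m
    ext <;> simp [quatMap, NX, ev]
  -- the commutation over any field extension
  have hgen : ∀ (K : Type) [Field K] [Algebra ℚ_[p] K] (h : (AA p K)ˣ), h ∈ H.pts K →
      (h : AA p K).2 * quatMap p (algebraMap ℚ_[p] K) N =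
        quatMap p (algebraMap ℚ_[p] K) N * (h : AA p K).2 ∨
      (h : AA p K).2 * quatMap p (algebraMap ℚ_[p] K) N =
        -(quatMap p (algebraMap ℚ_[p] K) N * (h : AA p K).2) := by
    intro K _ _ h hh
    have key : ∀ i j : Fin 4, co ((h : AA p K).2 * quatMap p (algebraMap ℚ_[p] K) N -
          quatMap p (algebraMap ℚ_[p] K) N * (h : AA p K).2) i = 0 ∨
        co ((h : AA p K).2 * quatMap p (algebraMap ℚ_[p] K) N +
          quatMap p (algebraMap ℚ_[p] K) N * (h : AA p K).2) j = 0 := by
      intro i j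
      by_contra hcon
      push Not at hcon
      obtain ⟨h1, h2⟩ := hcon
      obtain ⟨h', hh', hne⟩ := hSPE H K h hh
        (co (X4 * NX - NX * X4) i * co (X4 * NX + NX * X4) j) (by
        change ev (h : AA p K) _ ≠ 0
        rw [map_mul, ← co_map, ← co_map, map_sub, map_add, map_mul, map_mul, hev1, hev2]
        exact mul_ne_zero h1 h2)
      apply hne
      change ev (h' : AA p (PadicAlgCl p)) _ = 0
      rw [map_mul, ← co_map, ← co_map, map_sub, map_add, map_mul, map_mul, hev1, hev2, hN]
      rcases hcomm h' hh' with h3 | h3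
      · rw [mul_smul_comm, smul_mul_assoc, h3, sub_self, co_zero, zero_mul]
      · rw [mul_smul_comm, smul_mul_assoc, h3, smul_neg, neg_add_cancel, co_zero, mul_zero]
    by_cases h1 : ∀ i : Fin 4, co ((h : AA p K).2 * quatMap p (algebraMap ℚ_[p] K) N -
          quatMap p (algebraMap ℚ_[p] K) N * (h : AA p K).2) i = 0
    · left
      exact sub_eq_zero.1 (eq_zero_of_co _ h1)
    · right
      push Not at h1
      obtain ⟨i, hi⟩ := h1
      exact eq_neg_of_add_eq_zero_left
        (eq_zero_of_co _ fun j => (key i j).resolve_left hi)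
  -- the conclusion
  intro h hh I ℓ hI hran
  refine ⟨N, hNne, hNre, fun v hv => ?_⟩
  obtain ⟨-, hmul, -, -, -, -, hbij⟩ := hSPL ℂ_[p] I hI
  have hpC : (p : ℂ_[p]) ≠ 0 := p_ne_zero p
  have hcC : CharZero ℂ_[p] := charZero_of_injective_algebraMap
    (algebraMap ℚ_[p] ℂ_[p]).injective
  have hbij' := hbij (IsUnit.mk0 _ two_ne_zero) (IsUnit.mk0 _ hpC)
  obtain ⟨x, hx⟩ := hbij'.2 !![v 0, 0; v 1, 0]
  have hxm : x ∈ idealOf p I ℓ := by
    intro w
    rw [hx]
    have h1 : !![v 0, 0; v 1, 0] *ᵥ w = w 0 • v := by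
      ext i
      fin_cases i <;> simp [Matrix.mulVec, dotProduct, Fin.sum_univ_two, mul_comm]
    rw [h1]
    exact ℓ.smul_mem _ hv
  have hcom : (algebraMap (PadicAlgCl p) ℂ_[p]).comp (algebraMap ℚ_[p] (PadicAlgCl p)) =
      algebraMap ℚ_[p] ℂ_[p] := (IsScalarTower.algebraMap_eq _ _ _).symm
  set e' := quatMap p (algebraMap (PadicAlgCl p) ℂ_[p]) e.2 with he'
  have hee' : e' * e' = e' := by rw [he', ← map_mul, hee2]
  have hNC : quatMap p (algebraMap ℚ_[p] ℂ_[p]) N =
      (algebraMap (PadicAlgCl p) ℂ_[p] c) • (e' + e' - 1) := by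
    rw [← hcom, ← quatMap_comp, hN, quatMap_smul, hε, map_sub, map_add, map_one]
  have hNe : quatMap p (algebraMap ℚ_[p] ℂ_[p]) N * e' =
      (algebraMap (PadicAlgCl p) ℂ_[p] c) • e' := by
    rw [hNC, smul_mul_assoc, sub_mul, add_mul, hee', one_mul, add_sub_cancel_right]
  have hran' : idealOf p I ℓ =
      LinearMap.range (LinearMap.mulLeft ℂ_[p] ((h : AA p ℂ_[p]).2 * e')) := hran.symm
  have hNx : quatMap p (algebraMap ℚ_[p] ℂ_[p]) N * x ∈ idealOf p I ℓ := by
    rw [hran'] at hxm ⊢
    obtain ⟨z, hz⟩ := hxm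
    rw [LinearMap.mulLeft_apply] at hz
    rcases hgen ℂ_[p] h hh with h3 | h3
    · refine ⟨(algebraMap (PadicAlgCl p) ℂ_[p] c) • z, ?_⟩
      rw [LinearMap.mulLeft_apply, ← hz]
      calc (h : AA p ℂ_[p]).2 * e' * ((algebraMap (PadicAlgCl p) ℂ_[p] c) • z)
          = (h : AA p ℂ_[p]).2 * ((algebraMap (PadicAlgCl p) ℂ_[p] c) • e') * z := by
            rw [mul_smul_comm, mul_smul_comm, smul_mul_assoc]
        _ = (h : AA p ℂ_[p]).2 * quatMap p (algebraMap ℚ_[p] ℂ_[p]) N * e' * z := by
            rw [← hNe]; simp only [mul_assoc]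
        _ = _ := by rw [h3]; simp only [mul_assoc]
    · refine ⟨-((algebraMap (PadicAlgCl p) ℂ_[p] c) • z), ?_⟩
      rw [LinearMap.mulLeft_apply, ← hz]
      calc (h : AA p ℂ_[p]).2 * e' * (-((algebraMap (PadicAlgCl p) ℂ_[p] c) • z))
          = -((h : AA p ℂ_[p]).2 * ((algebraMap (PadicAlgCl p) ℂ_[p] c) • e') * z) := by
            rw [mul_neg, mul_smul_comm, mul_smul_comm, smul_mul_assoc]
        _ = -((h : AA p ℂ_[p]).2 * quatMap p (algebraMap ℚ_[p] ℂ_[p]) N * e' * z) := by
            rw [← hNe]; simp only [mul_assoc]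
        _ = _ := by rw [h3]; simp only [mul_assoc, neg_mul, neg_neg]
  have hfin := hNx ![1, 0]
  rw [hmul, ← Matrix.mulVec_mulVec, hx] at hfin
  have h1 : !![v 0, 0; v 1, 0] *ᵥ ![(1 : ℂ_[p]), 0] = v := by
    ext i
    fin_cases i <;> simp [Matrix.mulVec, dotProduct, Fin.sum_univ_two]
  rwa [h1] at hfin

end

end TWT
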