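import Pool.Agent.TWT.Targets

/-!
# TWT: target TRI (trichotomy for subgroups of `GL₂` containing a torus)
-/

namespace TWT

open Matrix

namespace TRI_

variable {k : Type}

theorem ext2 {a b c d a' b' c' d' : k} (h1 : a = a') (h2 : b = b') (h3 : c = c')
    (h4 : d = d') : !![a, b; c, d] = !![a', b'; c', d'] := by
  rw [h1, h2, h3, h4]

theorem tr2 (a b c d : k) : (!![a, b; c, d] : Matrix (Fin 2) (Fin 2) k)ᵀ = !![a, c; b, d] := by
  ext i j
  fin_cases i <;> fin_cases j <;> rfl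

variable {S : Set (Matrix (Fin 2) (Fin 2) k)}

theorem conv {M N : Matrix (Fin 2) (Fin 2) k} (hM : M ∈ S) (e : M = N) : N ∈ S := e ▸ hM

variable [Field k]

/-- sets of matrices closed under products and inverses, containing the torus -/
structure Gp (S : Set (Matrix (Fin 2) (Fin 2) k)) : Prop where
  mul : ∀ M ∈ S, ∀ N ∈ S, M * N ∈ S
  inv : ∀ M ∈ S, M⁻¹ ∈ S
  det : ∀ M ∈ S, M.det ≠ 0
  tor : ∀ s : k, s ≠ 0 → !![s, 0; 0, 1] ∈ S

theorem Gp.tr (h : Gp S) : Gp {M | Mᵀ ∈ S} where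
  mul M hM N hN := by
    change (M * N)ᵀ ∈ S
    rw [Matrix.transpose_mul]
    exact h.mul _ hN _ hM
  inv M hM := by
    change (M⁻¹)ᵀ ∈ S
    rw [Matrix.transpose_nonsing_inv]
    exact h.inv _ hM
  det M hM := by
    rw [← Matrix.det_transpose]
    exact h.det _ hM
  tor s hs := by
    change (!![s, 0; 0, 1])ᵀ ∈ S
    rw [tr2]
    exact h.tor s hs

theorem Gp.dt (h : Gp S) {a b c d Δ : k} (hM : !![a, b; c, d] ∈ S) (hΔ : a * d - b * c = Δ) :
    Δ ≠ 0 := by
  have := h.det _ hM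
  rwa [Matrix.det_fin_two_of, hΔ] at this

theorem Gp.iv (h : Gp S) {a b c d Δ : k} (hM : !![a, b; c, d] ∈ S)
    (hΔ : a * d - b * c = Δ) : !![d / Δ, -b / Δ; -c / Δ, a / Δ] ∈ S := by
  have h1 := h.dt hM hΔ
  have h2 := h.inv _ hM
  have h3 : (!![a, b; c, d])⁻¹ = !![d / Δ, -b / Δ; -c / Δ, a / Δ] := by
    refine Matrix.inv_eq_right_inv ?_
    rw [Matrix.mul_fin_two, Matrix.one_fin_two]
    refine ext2 ?_ ?_ ?_ ?_
    · field_simp
      linear_combination hΔ
    · field_simp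
      ring
    · field_simp
      ring
    · field_simp
      linear_combination hΔ
  rwa [h3] at h2

theorem Gp.ml (h : Gp S) {a b c d a' b' c' d' : k} (hM : !![a, b; c, d] ∈ S)
    (hN : !![a', b'; c', d'] ∈ S) :
    !![a * a' + b * c', a * b' + b * d'; c * a' + d * c', c * b' + d * d'] ∈ S := by
  have := h.mul _ hM _ hN
  rwa [Matrix.mul_fin_two] at this

/-- conjugates of the torus -/
theorem Gp.cj (h : Gp S) {a b c d Δ : k} (hM : !![a, b; c, d] ∈ S) (hΔ : a * d - b * c = Δ)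
    (x : k) (hx : x ≠ 0) :
    !![(x * (a * d) - b * c) / Δ, (1 - x) * (a * b) / Δ;
      (x - 1) * (c * d) / Δ, (a * d - x * (b * c)) / Δ] ∈ S := by
  refine conv (h.ml (h.ml hM (h.tor x hx)) (h.iv hM hΔ)) (ext2 ?_ ?_ ?_ ?_) <;> ring

/-- all upper unipotents -/
theorem Gp.up [CharZero k] (h : Gp S) {a b d : k} (hM : !![a, b; 0, d] ∈ S) (hb : b ≠ 0)
    (x : k) : !![1, x; 0, 1] ∈ S := by
  have h1 := h.dt (Δ := a * d) hM (by ring)
  have ha : a ≠ 0 := left_ne_zero_of_mul h1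
  have hd : d ≠ 0 := right_ne_zero_of_mul h1
  have key0 : ∀ w : k, w ≠ 0 → !![1, (w - b) / d; 0, 1] ∈ S := by
    intro w hw
    refine conv (h.ml (h.ml (h.ml (h.tor (w / b) (div_ne_zero hw hb)) hM)
      (h.tor (b / w) (div_ne_zero hb hw))) (h.iv (Δ := a * d) hM (by ring)))
      (ext2 ?_ ?_ ?_ ?_)
    · field_simp
      ring
    · field_simp
      ring
    · field_simp
      ring
    · field_simp
      ring
  have key : ∀ x : k, b + x * d ≠ 0 → !![1, x; 0, 1] ∈ S := by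
    intro x hx
    refine conv (key0 _ hx) (ext2 rfl ?_ rfl rfl)
    field_simp
    ring
  by_cases hx : b + x * d = 0
  · have h2 : b + x / 2 * d ≠ 0 := by
      intro h3
      apply hb
      linear_combination 2 * h3 - hx
    refine conv (h.ml (key _ h2) (key _ h2)) (ext2 ?_ ?_ ?_ ?_) <;> ring
  · exact key x hx

/-- a group containing a nondiagonal upper triangular element and an element that is not upper
triangular contains `SL₂` -/
theorem Gp.big [CharZero k] (h : Gp S) {a b d : k} (hM : !![a, b; 0, d] ∈ S) (hb : b ≠ 0)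
    {g : Matrix (Fin 2) (Fin 2) k} (hg : g ∈ S) (hγ : g 1 0 ≠ 0) (M : Matrix (Fin 2) (Fin 2) k)
    (hdet : M.det = 1) : M ∈ S := by
  have hu := h.up hM hb
  rw [Matrix.eta_fin_two g] at hg
  generalize g 0 0 = α at *
  generalize g 0 1 = β at *
  generalize g 1 0 = γ at *
  generalize g 1 1 = δ at *
  obtain ⟨Δ, hΔ⟩ : ∃ Δ, α * δ - β * γ = Δ := ⟨_, rfl⟩
  have h1 := h.dt hg hΔ
  have hg' : !![0, -Δ / γ; γ, 0] ∈ S := by
    refine conv (h.ml (h.ml (hu (-α / γ)) hg) (hu (-δ / γ))) (ext2 ?_ ?_ ?_ ?_)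
    · field_simp
      ring
    · field_simp
      linear_combination (-1 : k) * hΔ
    · field_simp
      ring
    · field_simp
      ring
  have hl : ∀ y : k, !![1, 0; y, 1] ∈ S := by
    intro y
    refine conv (h.ml (h.ml hg' (hu (-(y * Δ) / γ ^ 2))) (h.iv (Δ := Δ) hg' ?_))
      (ext2 ?_ ?_ ?_ ?_)
    · field_simp
      ring
    · field_simp
      ring
    · field_simp
      ring
    · field_simp
      ring
    · field_simp
      ring
  have key : ∀ a b c d : k, a * d - b * c = 1 → c ≠ 0 → !![a, b; c, d] ∈ S := by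
    intro a b c d h2 hc
    refine conv (h.ml (h.ml (hu ((a - 1) / c)) (hl c)) (hu ((d - 1) / c))) (ext2 ?_ ?_ ?_ ?_)
    · field_simp
      ring
    · field_simp
      linear_combination h2
    · field_simp
      ring
    · field_simp
      ring
  rw [Matrix.det_fin_two] at hdet
  rw [Matrix.eta_fin_two M]
  generalize M 0 0 = a at *
  generalize M 0 1 = b at *
  generalize M 1 0 = c at *
  generalize M 1 1 = d at *
  by_cases hc : c = 0
  · subst hc
    have ha : a ≠ 0 := by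
      rintro rfl
      simp at hdet
    refine conv (h.ml (hl (-1)) (key a b a (b + d) ?_ ha)) (ext2 ?_ ?_ ?_ ?_)
    · linear_combination hdet
    · ring
    · ring
    · ring
    · ring
  · exact key a b c d hdet hc

/-- a triangular element that is not diagonal -/
theorem Gp.tri [CharZero k] (h : Gp S) {a b c d : k} (hg : !![a, b; c, d] ∈ S)
    (h1 : ¬ (b = 0 ∧ c = 0)) (h2 : ¬ (a = 0 ∧ d = 0)) :
    (∃ a b d : k, b ≠ 0 ∧ !![a, b; 0, d] ∈ S) ∨ ∃ a c d : k, c ≠ 0 ∧ !![a, 0; c, d] ∈ S := by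
  obtain ⟨Δ, hΔ⟩ : ∃ Δ, a * d - b * c = Δ := ⟨_, rfl⟩
  have hD := h.dt hg hΔ
  by_cases hb : b = 0
  · subst hb
    exact Or.inr ⟨a, c, d, fun hc => h1 ⟨rfl, hc⟩, hg⟩
  by_cases hc : c = 0
  · subst hc
    exact Or.inl ⟨a, b, d, hb, hg⟩
  by_cases ha : a = 0
  · subst ha
    have hd : d ≠ 0 := fun hd => h2 ⟨rfl, hd⟩
    right
    refine ⟨1, (2 - 1) * (c * d) / Δ, 2,
      div_ne_zero (mul_ne_zero (by norm_num) (mul_ne_zero hc hd)) hD, ?_⟩
    refine conv (h.cj hg hΔ 2 two_ne_zero) (ext2 ?_ ?_ ?_ ?_)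
    · field_simp
      linear_combination hΔ
    · field_simp
      ring
    · rfl
    · field_simp
      linear_combination 2 * hΔ
  by_cases hd : d = 0
  · subst hd
    left
    refine ⟨1, (1 - 2) * (a * b) / Δ, 2,
      div_ne_zero (mul_ne_zero (by norm_num) (mul_ne_zero ha hb)) hD, ?_⟩
    refine conv (h.cj hg hΔ 2 two_ne_zero) (ext2 ?_ ?_ ?_ ?_)
    · field_simp
      linear_combination hΔ
    · rfl
    · field_simp
      ring
    · field_simp
      linear_combination 2 * hΔ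
  left
  obtain ⟨A, hA⟩ : ∃ A, a * d = A := ⟨_, rfl⟩
  obtain ⟨B, hB⟩ : ∃ B, b * c = B := ⟨_, rfl⟩
  have hA0 : A ≠ 0 := by
    rw [← hA]
    exact mul_ne_zero ha hd
  have hB0 : B ≠ 0 := by
    rw [← hB]
    exact mul_ne_zero hb hc
  have hAB' : A - B = Δ := by rw [← hA, ← hB, hΔ]
  by_cases hAB : A + B = 0
  · have hBA : B = -A := by linear_combination hAB
    have hD2 : Δ = 2 * A := by rw [← hAB', hBA]; ring
    have h3 := h.ml (h.ml (h.cj hg hΔ 3 three_ne_zero) (h.tor 3 three_ne_zero))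
      (h.cj hg hΔ (-1 / 5) (by norm_num))
    rw [hA, hB, hD2, hBA] at h3
    refine ⟨_, 16 / 5 * (a * b / A), _, ?_, conv h3 (ext2 rfl ?_ ?_ rfl)⟩
    · exact mul_ne_zero (by norm_num) (div_ne_zero (mul_ne_zero ha hb) hA0)
    · field_simp
      ring
    · field_simp
      ring
  · have hs : B / A ≠ 0 := div_ne_zero hB0 hA0
    have hs1 : Δ / A ≠ 0 := div_ne_zero hD hA0
    have h3 := h.ml (h.ml (h.cj hg hΔ 2 two_ne_zero) (h.tor _ hs)) (h.cj hg hΔ _ hs1)
    rw [hA, hB] at h3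
    have hBA : A = B + Δ := by linear_combination hAB'
    refine ⟨_, -(a * b) * (A + B) / A ^ 2, _, ?_, conv h3 (ext2 rfl ?_ ?_ rfl)⟩
    · exact div_ne_zero (mul_ne_zero (neg_ne_zero.2 (mul_ne_zero ha hb)) hAB)
        (pow_ne_zero 2 hA0)
    · field_simp
      rw [hBA]
      ring
    · field_simp
      rw [hBA]
      ring

/-- nilpotents normalised by the torus -/
theorem nil2 [CharZero k] (n : Matrix (Fin 2) (Fin 2) k) (hn : n * n = 0)
    (hc : ∃ c : k, !![(2 : k), 0; 0, 1] * n = c • (n * !![(2 : k), 0; 0, 1])) :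
    n 0 0 = 0 ∧ n 1 1 = 0 ∧ (n 0 1 = 0 ∨ n 1 0 = 0) := by
  obtain ⟨c, hc⟩ := hc
  rw [Matrix.eta_fin_two n] at hn hc
  generalize n 0 0 = x at *
  generalize n 0 1 = y at *
  generalize n 1 0 = z at *
  generalize n 1 1 = w at *
  rw [Matrix.mul_fin_two] at hn
  rw [Matrix.mul_fin_two, Matrix.mul_fin_two] at hc
  have a1 := congrFun (congrFun hn 0) 0
  have a4 := congrFun (congrFun hn 1) 1
  have b1 := congrFun (congrFun hc 0) 0
  have b2 := congrFun (congrFun hc 0) 1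
  simp at a1 a4 b1 b2
  have hx : x = 0 := by
    by_contra hx
    have hc1 : c = 1 := by
      have h1 : (2 * x) * (c - 1) = 0 := by linear_combination -b1
      rcases mul_eq_zero.1 h1 with h2 | h2
      · exact absurd ((mul_eq_zero.1 h2).resolve_left two_ne_zero) hx
      · exact sub_eq_zero.1 h2
    have hy : y = 0 := by
      rw [hc1] at b2
      exact b2.resolve_left (by norm_num)
    rw [hy] at a1
    simp at a1
    exact hx a1
  subst hx
  have hyz : y * z = 0 := by linear_combination a1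
  have hw : w * w = 0 := by linear_combination a4 - hyz
  exact ⟨rfl, mul_self_eq_zero.1 hw, mul_eq_zero.1 hyz⟩

/-- the upper triangular case -/
theorem Gp.nilU [CharZero k] (h : Gp S) (hup : ∀ M ∈ S, M 1 0 = 0) (hne : ∃ M ∈ S, M 0 1 ≠ 0) :
    (∀ g ∈ S, ∃ c : k, g * !![0, 1; 0, 0] = c • (!![0, 1; 0, 0] * g)) ∧
    ∀ n : Matrix (Fin 2) (Fin 2) k, n * n = 0 →
      (∀ g ∈ S, ∃ c : k, g * n = c • (n * g)) → ∃ c : k, n = c • !![0, 1; 0, 0] := by
  constructor
  · intro g hg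
    have h1 := hup g hg
    have h2 := h.det g hg
    rw [Matrix.det_fin_two] at h2
    rw [Matrix.eta_fin_two g]
    generalize g 0 0 = a at *
    generalize g 0 1 = b at *
    generalize g 1 0 = c at *
    generalize g 1 1 = d at *
    subst h1
    have hd : d ≠ 0 := by
      rintro rfl
      simp at h2
    refine ⟨a / d, ?_⟩
    ext i j
    fin_cases i <;> fin_cases j <;> simp [hd]
  · intro n hn hg
    obtain ⟨h1, h2, h3⟩ := nil2 n hn (hg _ (h.tor 2 two_ne_zero))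
    obtain ⟨M, hM, hM1⟩ := hne
    obtain ⟨c, hc⟩ := hg M hM
    have hM0 := hup M hM
    have h4 : n 1 0 = 0 := by
      rcases h3 with h3 | h3
      · have h5 := congrFun (congrFun hc 0) 0
        simp [Matrix.mul_apply, Fin.sum_univ_two, h1, h3] at h5
        exact h5.resolve_left hM1
      · exact h3
    refine ⟨n 0 1, ?_⟩
    ext i j
    fin_cases i <;> fin_cases j <;> simp [h1, h2, h4]

/-- the lower triangular case -/
theorem Gp.nilL [CharZero k] (h : Gp S) (hup : ∀ M ∈ S, M 0 1 = 0) (hne : ∃ M ∈ S, M 1 0 ≠ 0) :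
    (∀ g ∈ S, ∃ c : k, g * !![0, 0; 1, 0] = c • (!![0, 0; 1, 0] * g)) ∧
    ∀ n : Matrix (Fin 2) (Fin 2) k, n * n = 0 →
      (∀ g ∈ S, ∃ c : k, g * n = c • (n * g)) → ∃ c : k, n = c • !![0, 0; 1, 0] := by
  constructor
  · intro g hg
    have h1 := hup g hg
    have h2 := h.det g hg
    rw [Matrix.det_fin_two] at h2
    rw [Matrix.eta_fin_two g]
    generalize g 0 0 = a at *
    generalize g 0 1 = b at *
    generalize g 1 0 = c at *
    generalize g 1 1 = d at *
    subst h1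
    have ha : a ≠ 0 := by
      rintro rfl
      simp at h2
    refine ⟨d / a, ?_⟩
    ext i j
    fin_cases i <;> fin_cases j <;> simp [ha]
  · intro n hn hg
    obtain ⟨h1, h2, h3⟩ := nil2 n hn (hg _ (h.tor 2 two_ne_zero))
    obtain ⟨M, hM, hM1⟩ := hne
    obtain ⟨c, hc⟩ := hg M hM
    have hM0 := hup M hM
    have h4 : n 0 1 = 0 := by
      rcases h3 with h3 | h3
      · exact h3
      · have h5 := congrFun (congrFun hc 1) 1
        simp [Matrix.mul_apply, Fin.sum_univ_two, h2, h3] at h5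
        exact h5.resolve_left hM1
    refine ⟨n 1 0, ?_⟩
    ext i j
    fin_cases i <;> fin_cases j <;> simp [h1, h2, h4]

/-- the set of matrices of a group -/
theorem gp_of (P : Subgroup (Matrix (Fin 2) (Fin 2) k)ˣ)
    (hT : ∀ s : k, s ≠ 0 → ∃ g ∈ P, (g : Matrix (Fin 2) (Fin 2) k) = !![s, 0; 0, 1]) :
    Gp {M : Matrix (Fin 2) (Fin 2) k | ∃ g ∈ P, (g : Matrix (Fin 2) (Fin 2) k) = M} where
  mul := by
    rintro M ⟨g, hg, rfl⟩ N ⟨g', hg', rfl⟩
    exact ⟨g * g', P.mul_mem hg hg', rfl⟩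
  inv := by
    rintro M ⟨g, hg, rfl⟩
    exact ⟨g⁻¹, P.inv_mem hg, Matrix.coe_units_inv g⟩
  det := by
    rintro M ⟨g, hg, rfl⟩
    exact (Matrix.isUnits_det_units g).ne_zero
  tor := hT

/-- the trichotomy for the standard torus -/
theorem core [CharZero k] (P : Subgroup (Matrix (Fin 2) (Fin 2) k)ˣ)
    (hT : ∀ s : k, s ≠ 0 → ∃ g ∈ P, (g : Matrix (Fin 2) (Fin 2) k) = !![s, 0; 0, 1]) :
    NilC (k := k) P ∨ TorC P (!![1, 0; 0, 0] : Matrix (Fin 2) (Fin 2) k) ∨ BigM P := by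
  have hG := gp_of P hT
  by_cases hTor : TorC P (!![1, 0; 0, 0] : Matrix (Fin 2) (Fin 2) k)
  · exact Or.inr (Or.inl hTor)
  unfold TorC at hTor
  push Not at hTor
  obtain ⟨g, hg, h1, h2⟩ := hTor
  have hgS : (g : Matrix (Fin 2) (Fin 2) k) ∈
      {M : Matrix (Fin 2) (Fin 2) k | ∃ g ∈ P, (g : Matrix (Fin 2) (Fin 2) k) = M} :=
    ⟨g, hg, rfl⟩
  have hbc : ¬ ((g : Matrix (Fin 2) (Fin 2) k) 0 1 = 0 ∧
      (g : Matrix (Fin 2) (Fin 2) k) 1 0 = 0) := by
    rintro ⟨hb, hc⟩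
    apply h1
    ext i j
    fin_cases i <;> fin_cases j <;> simp [Matrix.mul_apply, Fin.sum_univ_two, hb, hc]
  have had : ¬ ((g : Matrix (Fin 2) (Fin 2) k) 0 0 = 0 ∧
      (g : Matrix (Fin 2) (Fin 2) k) 1 1 = 0) := by
    rintro ⟨ha, hd⟩
    apply h2
    ext i j
    fin_cases i <;> fin_cases j <;>
      simp [Matrix.mul_apply, Fin.sum_univ_two, Matrix.sub_apply, Matrix.one_apply, ha, hd]
  by_cases hU : ∀ M ∈ {M : Matrix (Fin 2) (Fin 2) k | ∃ g ∈ P,
      (g : Matrix (Fin 2) (Fin 2) k) = M}, M 1 0 = 0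
  · left
    obtain ⟨h3, h4⟩ := hG.nilU hU ⟨_, hgS, fun hb => hbc ⟨hb, hU _ hgS⟩⟩
    refine ⟨!![0, 1; 0, 0], ?_, ?_, fun g hg => h3 _ ⟨g, hg, rfl⟩, fun n hn hn' =>
      h4 n hn ?_⟩
    · intro h5
      have := congrFun (congrFun h5 0) 1
      simp at this
    · ext i j
      fin_cases i <;> fin_cases j <;> simp
    · rintro M ⟨g, hg, rfl⟩
      exact hn' g hg
  by_cases hL : ∀ M ∈ {M : Matrix (Fin 2) (Fin 2) k | ∃ g ∈ P,
      (g : Matrix (Fin 2) (Fin 2) k) = M}, M 0 1 = 0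
  · left
    obtain ⟨h3, h4⟩ := hG.nilL hL ⟨_, hgS, fun hc => hbc ⟨hL _ hgS, hc⟩⟩
    refine ⟨!![0, 0; 1, 0], ?_, ?_, fun g hg => h3 _ ⟨g, hg, rfl⟩, fun n hn hn' =>
      h4 n hn ?_⟩
    · intro h5
      have := congrFun (congrFun h5 1) 0
      simp at this
    · ext i j
      fin_cases i <;> fin_cases j <;> simp
    · rintro M ⟨g, hg, rfl⟩
      exact hn' g hg
  right
  right
  push Not at hU hL
  obtain ⟨MU, hMU, hMU'⟩ := hU
  obtain ⟨ML, hML, hML'⟩ := hL
  intro M hM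
  have hgS' := hgS
  rw [Matrix.eta_fin_two (g : Matrix (Fin 2) (Fin 2) k)] at hgS'
  rcases hG.tri hgS' hbc had with ⟨a, b, d, hb, hm⟩ | ⟨a, c, d, hc, hm⟩
  · exact hG.big hm hb hMU hMU' M hM
  · have h5 : Mᵀ ∈ {M | Mᵀ ∈ {M : Matrix (Fin 2) (Fin 2) k | ∃ g ∈ P,
        (g : Matrix (Fin 2) (Fin 2) k) = M}} := by
      refine hG.tr.big (a := a) (b := c) (d := d) (g := MLᵀ) ?_ hc ?_ ?_ Mᵀ ?_
      · rw [Set.mem_ofPred_eq, tr2]
        exact hm
      · rw [Set.mem_ofPred_eq, Matrix.transpose_transpose]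
        exact hML
      · rw [Matrix.transpose_apply]
        exact hML'
      · rw [Matrix.det_transpose, hM]
    rw [Set.mem_ofPred_eq, Matrix.transpose_transpose] at h5
    exact h5

/-- a basis adapted to an idempotent -/
theorem idem (e : Matrix (Fin 2) (Fin 2) k) (he : e * e = e) (h0 : e ≠ 0) (h1 : e ≠ 1) :
    ∃ u : (Matrix (Fin 2) (Fin 2) k)ˣ, e * (u : Matrix (Fin 2) (Fin 2) k) =
      (u : Matrix (Fin 2) (Fin 2) k) * !![1, 0; 0, 0] := by
  have hv : ∃ v0 v1 : k, e 0 0 * v0 + e 0 1 * v1 = v0 ∧ e 1 0 * v0 + e 1 1 * v1 = v1 ∧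
      ¬ (v0 = 0 ∧ v1 = 0) := by
    have h2 : ∃ j, ¬ (e 0 j = 0 ∧ e 1 j = 0) := by
      by_contra h3
      push Not at h3
      apply h0
      ext i j
      fin_cases i
      · exact (h3 j).1
      · exact (h3 j).2
    obtain ⟨j, hj⟩ := h2
    refine ⟨e 0 j, e 1 j, ?_, ?_, hj⟩
    · have := congrFun (congrFun he 0) j
      rwa [Matrix.mul_apply, Fin.sum_univ_two] at this
    · have := congrFun (congrFun he 1) j
      rwa [Matrix.mul_apply, Fin.sum_univ_two] at this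
  have hw : ∃ w0 w1 : k, e 0 0 * w0 + e 0 1 * w1 = 0 ∧ e 1 0 * w0 + e 1 1 * w1 = 0 ∧
      ¬ (w0 = 0 ∧ w1 = 0) := by
    have h2 : ∃ j, ¬ ((1 - e) 0 j = 0 ∧ (1 - e) 1 j = 0) := by
      by_contra h3
      push Not at h3
      apply h1
      have h4 : 1 - e = 0 := by
        ext i j
        fin_cases i
        · exact (h3 j).1
        · exact (h3 j).2
      exact (sub_eq_zero.1 h4).symm
    obtain ⟨j, hj⟩ := h2
    have he' : e * (1 - e) = 0 := by rw [mul_sub, mul_one, he, sub_self]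
    refine ⟨(1 - e) 0 j, (1 - e) 1 j, ?_, ?_, hj⟩
    · have := congrFun (congrFun he' 0) j
      rwa [Matrix.mul_apply, Fin.sum_univ_two] at this
    · have := congrFun (congrFun he' 1) j
      rwa [Matrix.mul_apply, Fin.sum_univ_two] at this
  obtain ⟨v0, v1, hv1, hv2, hv3⟩ := hv
  obtain ⟨w0, w1, hw1, hw2, hw3⟩ := hw
  have hdet : v0 * w1 - w0 * v1 ≠ 0 := by
    intro hd
    have e1 : v0 * w0 = 0 := by
      linear_combination v0 * hw1 - w0 * hv1 - e 0 1 * hd
    have e2 : v0 * w1 = 0 := by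
      linear_combination v1 * hw1 - w1 * hv1 + e 0 0 * hd
    have e3 : v1 * w0 = 0 := by
      linear_combination v0 * hw2 - w0 * hv2 - e 1 1 * hd
    have e4 : v1 * w1 = 0 := by
      linear_combination v1 * hw2 - w1 * hv2 + e 1 0 * hd
    by_cases hv0 : v0 = 0
    · have hv1' : v1 ≠ 0 := fun h => hv3 ⟨hv0, h⟩
      exact hw3 ⟨(mul_eq_zero.1 e3).resolve_left hv1', (mul_eq_zero.1 e4).resolve_left hv1'⟩
    · exact hw3 ⟨(mul_eq_zero.1 e1).resolve_left hv0, (mul_eq_zero.1 e2).resolve_left hv0⟩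
  have hU : IsUnit (!![v0, w0; v1, w1] : Matrix (Fin 2) (Fin 2) k) := by
    rw [Matrix.isUnit_iff_isUnit_det, Matrix.det_fin_two_of]
    exact isUnit_iff_ne_zero.2 hdet
  obtain ⟨u, hu⟩ := hU
  refine ⟨u, ?_⟩
  rw [hu]
  ext i j
  fin_cases i <;> fin_cases j <;>
    simp [Matrix.mul_apply, Fin.sum_univ_two, hv1, hv2, hw1, hw2]

end TRI_

/-- the trichotomy -/
theorem p_TRI : T_TRI := by
  intro k _ _ _ P e he h0 h1 hT
  obtain ⟨u, hu⟩ := TRI_.idem e he h0 h1
  obtain ⟨U, hU⟩ : ∃ U : Matrix (Fin 2) (Fin 2) k, (u : Matrix (Fin 2) (Fin 2) k) = U := ⟨_, rfl⟩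
  obtain ⟨V, hV⟩ : ∃ V : Matrix (Fin 2) (Fin 2) k,
    ((u⁻¹ : (Matrix (Fin 2) (Fin 2) k)ˣ) : Matrix (Fin 2) (Fin 2) k) = V := ⟨_, rfl⟩
  have hUV : U * V = 1 := by rw [← hU, ← hV]; exact u.mul_inv
  have hVU : V * U = 1 := by rw [← hU, ← hV]; exact u.inv_mul
  have cUV : ∀ x : Matrix (Fin 2) (Fin 2) k, U * (V * x) = x := fun x => by
    rw [← mul_assoc, hUV, one_mul]
  have cVU : ∀ x : Matrix (Fin 2) (Fin 2) k, V * (U * x) = x := fun x => by
    rw [← mul_assoc, hVU, one_mul]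
  rw [hU] at hu
  obtain ⟨P', hP'⟩ : ∃ P' : Subgroup (Matrix (Fin 2) (Fin 2) k)ˣ,
      ∀ x, x ∈ P' ↔ u * x * u⁻¹ ∈ P := ⟨P.comap (MulAut.conj u).toMonoidHom, fun x => Iff.rfl⟩
  have hPP : ∀ g ∈ P, u⁻¹ * g * u ∈ P' := by
    intro g hg
    rw [hP']
    have : u * (u⁻¹ * g * u) * u⁻¹ = g := by group
    rwa [this]
  have hco : ∀ g : (Matrix (Fin 2) (Fin 2) k)ˣ, ((u⁻¹ * g * u : (Matrix (Fin 2) (Fin 2) k)ˣ) :
      Matrix (Fin 2) (Fin 2) k) = V * g * U := by
    intro g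
    rw [Units.val_mul, Units.val_mul, hU, hV]
  have hco' : ∀ g : (Matrix (Fin 2) (Fin 2) k)ˣ, ((u * g * u⁻¹ : (Matrix (Fin 2) (Fin 2) k)ˣ) :
      Matrix (Fin 2) (Fin 2) k) = U * g * V := by
    intro g
    rw [Units.val_mul, Units.val_mul, hU, hV]
  have hT' : ∀ s : k, s ≠ 0 → ∃ g ∈ P', (g : Matrix (Fin 2) (Fin 2) k) = !![s, 0; 0, 1] := by
    intro s hs
    obtain ⟨g, hg, hge⟩ := hT s hs
    refine ⟨u⁻¹ * g * u, hPP g hg, ?_⟩
    have h2 : V * e * U = !![1, 0; 0, 0] := by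
      rw [mul_assoc, hu, cVU]
    have h3 : V * (s • e + (1 - e)) * U = s • (V * e * U) + (1 - V * e * U) := by
      rw [mul_add, mul_sub, mul_one, add_mul, sub_mul, hVU, mul_smul_comm, smul_mul_assoc]
    rw [hco, hge, h3, h2]
    ext i j
    fin_cases i <;> fin_cases j <;> simp
  rcases TRI_.core P' hT' with h | h | h
  · left
    obtain ⟨n, hn0, hnn, hn, hun⟩ := h
    refine ⟨U * n * V, ?_, ?_, ?_, ?_⟩
    · intro h2
      apply hn0
      have h3 : V * (U * n * V) * U = n := by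
        simp only [mul_assoc, cVU, hVU, mul_one]
      rw [← h3, h2]
      simp
    · have h3 : U * n * V * (U * n * V) = U * (n * n) * V := by
        simp only [mul_assoc, cVU]
      rw [h3, hnn]
      simp
    · intro g hg
      obtain ⟨c, hc⟩ := hn _ (hPP g hg)
      refine ⟨c, ?_⟩
      rw [hco] at hc
      have h3 : (g : Matrix (Fin 2) (Fin 2) k) * (U * n * V) = U * (V * g * U * n) * V := by
        simp only [mul_assoc, cUV]
      have h4 : U * (n * (V * g * U)) * V = U * n * V * g := by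
        simp only [mul_assoc, hUV, mul_one]
      rw [h3, hc, mul_smul_comm, smul_mul_assoc, h4]
    · intro n' hn' hg
      have h2 : V * n' * U * (V * n' * U) = 0 := by
        have h3 : V * n' * U * (V * n' * U) = V * (n' * n') * U := by
          simp only [mul_assoc, cUV]
        rw [h3, hn']
        simp
      obtain ⟨c, hc⟩ := hun (V * n' * U) h2 (by
        intro x hx
        obtain ⟨c, hc⟩ := hg _ ((hP' x).1 hx)
        refine ⟨c, ?_⟩
        rw [hco'] at hc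
        have h3 : (x : Matrix (Fin 2) (Fin 2) k) * (V * n' * U) = V * (U * x * V * n') * U := by
          simp only [mul_assoc, cVU]
        have h4 : V * (n' * (U * x * V)) * U = V * n' * U * x := by
          simp only [mul_assoc, hVU, mul_one]
        rw [h3, hc, mul_smul_comm, smul_mul_assoc, h4])
      refine ⟨c, ?_⟩
      have h3 : n' = U * (V * n' * U) * V := by
        simp only [mul_assoc, cUV, hUV, mul_one]
      rw [h3, hc, mul_smul_comm, smul_mul_assoc]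
  · right
    left
    generalize (!![1, 0; 0, 0] : Matrix (Fin 2) (Fin 2) k) = E at *
    have h2 : e = U * E * V := by
      rw [← hu, mul_assoc, hUV, mul_one]
    intro g hg
    rcases h _ (hPP g hg) with h3 | h3
    · left
      rw [hco] at h3
      have h4 : (g : Matrix (Fin 2) (Fin 2) k) * (U * E * V) =
          U * (V * (g : Matrix (Fin 2) (Fin 2) k) * U * E) * V := by
        simp only [mul_assoc, cUV]
      have h5 : U * (E * (V * (g : Matrix (Fin 2) (Fin 2) k) * U)) * V =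
          U * E * V * (g : Matrix (Fin 2) (Fin 2) k) := by
        simp only [mul_assoc, hUV, mul_one]
      rw [h2, h4, h3, h5]
    · right
      rw [hco] at h3
      have h4 : (g : Matrix (Fin 2) (Fin 2) k) * (U * E * V) =
          U * (V * (g : Matrix (Fin 2) (Fin 2) k) * U * E) * V := by
        simp only [mul_assoc, cUV]
      have h5 : U * ((1 - E) * (V * (g : Matrix (Fin 2) (Fin 2) k) * U)) * V =
          (1 - U * E * V) * (g : Matrix (Fin 2) (Fin 2) k) := by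
        simp only [sub_mul, mul_sub, one_mul, mul_assoc, hUV, mul_one, cUV]
      rw [h2, h4, h3, h5]
  · right
    right
    intro g hg
    obtain ⟨x, hx, hxe⟩ := h (V * g * U) (by
      rw [Matrix.det_mul, Matrix.det_mul, hg, mul_one, ← Matrix.det_mul, hVU, Matrix.det_one])
    refine ⟨u * x * u⁻¹, (hP' x).1 hx, ?_⟩
    rw [hco', hxe]
    simp only [mul_assoc, cUV, hUV, mul_one]

end TWT
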