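import Pool.Agent.TWT.Targets

/-!
# TWT: trichotomy for quaternions, by transport
-/

namespace TWT

open Matrix

theorem p_TRQ (p : ℕ) [Fact p.Prime] (hTRI : T_TRI) (hSPL : T_SPL p) : T_TRQ p := by
  intro k _ _ _ P e he he0 he1 hs
  obtain ⟨I, hI⟩ := IsAlgClosed.exists_pow_nat_eq (-1 : k) (n := 2) two_pos
  obtain ⟨h1, hmul, hadd, hsmul, hdet, -, hbij⟩ := hSPL k I hI
  have hp0 : IsUnit (p : k) :=
    isUnit_iff_ne_zero.2 (Nat.cast_ne_zero.2 (Fact.out : p.Prime).ne_zero)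
  have h20 : IsUnit (2 : k) := isUnit_iff_ne_zero.2 two_ne_zero
  have hb := hbij h20 hp0
  have h0 : spl p I (0 : Quat p k) = 0 := by
    have := hsmul 0 0
    rwa [zero_smul, zero_smul] at this
  let Φ : Quat p k →+* Matrix (Fin 2) (Fin 2) k := ⟨⟨⟨spl p I, h1⟩, hmul⟩, h0, hadd⟩
  have hinj : Function.Injective Φ := hb.1
  have hsur : Function.Surjective Φ := hb.2
  have hΦs : ∀ (c : k) (x : Quat p k), Φ (c • x) = c • Φ x := hsmul
  have hΦd : ∀ x : Quat p k, (Φ x).det = nrd p x := hdet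
  let P' : Subgroup (Matrix (Fin 2) (Fin 2) k)ˣ :=
    P.map (Units.map (Φ : Quat p k →* Matrix (Fin 2) (Fin 2) k))
  have hmem : ∀ g ∈ P, Units.map (Φ : Quat p k →* Matrix (Fin 2) (Fin 2) k) g ∈ P' :=
    fun g hg => Subgroup.mem_map_of_mem _ hg
  have hval : ∀ g : (Quat p k)ˣ,
      ((Units.map (Φ : Quat p k →* Matrix (Fin 2) (Fin 2) k) g :
        (Matrix (Fin 2) (Fin 2) k)ˣ) : Matrix (Fin 2) (Fin 2) k) = Φ g := fun _ => rfl
  have hex : ∀ g' ∈ P', ∃ g ∈ P, Φ (g : Quat p k) = (g' : Matrix (Fin 2) (Fin 2) k) := by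
    rintro g' ⟨g, hg, rfl⟩
    exact ⟨g, hg, rfl⟩
  have a1 : Φ e * Φ e = Φ e := by rw [← map_mul, he]
  have a2 : Φ e ≠ 0 := fun h => he0 (hinj (by rw [h, map_zero]))
  have a3 : Φ e ≠ 1 := fun h => he1 (hinj (by rw [h, map_one]))
  have a4 : ∀ s : k, s ≠ 0 →
      ∃ g ∈ P', (g : Matrix (Fin 2) (Fin 2) k) = s • Φ e + (1 - Φ e) := by
    intro s hs0
    obtain ⟨g, hg, hge⟩ := hs s hs0
    refine ⟨_, hmem g hg, ?_⟩
    rw [hval, hge, map_add, map_sub, map_one, hΦs]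
  rcases hTRI k P' (Φ e) a1 a2 a3 a4 with h | h | h
  · left
    obtain ⟨n, hn0, hnn, hnP, hnu⟩ := h
    obtain ⟨m, rfl⟩ := hsur n
    refine ⟨m, fun h => hn0 (by rw [h, map_zero]), ?_, ?_, ?_⟩
    · apply hinj
      rw [map_mul, hnn, map_zero]
    · intro g hg
      obtain ⟨c, hc⟩ := hnP _ (hmem g hg)
      refine ⟨c, hinj ?_⟩
      rw [hΦs, map_mul, map_mul]
      exact hc
    · intro m' hm' hm'P
      have b1 : Φ m' * Φ m' = 0 := by rw [← map_mul, hm', map_zero]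
      have b2 : ∀ g ∈ P', ∃ c : k,
          (g : Matrix (Fin 2) (Fin 2) k) * Φ m' = c • (Φ m' * g) := by
        intro g' hg'
        obtain ⟨g, hg, hgg⟩ := hex g' hg'
        obtain ⟨c, hc⟩ := hm'P g hg
        refine ⟨c, ?_⟩
        rw [← hgg, ← map_mul, hc, hΦs, map_mul]
      obtain ⟨c, hc⟩ := hnu (Φ m') b1 b2
      exact ⟨c, hinj (by rw [hc, hΦs])⟩
  · right
    left
    intro g hg
    rcases h _ (hmem g hg) with h' | h'
    · left
      apply hinj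
      rw [map_mul, map_mul]
      exact h'
    · right
      apply hinj
      rw [map_mul, map_mul, map_sub, map_one]
      exact h'
  · right
    right
    intro g hg
    obtain ⟨h', hh', hhe⟩ := h (Φ g) (by rw [hΦd, hg])
    obtain ⟨g₀, hg₀, hgg⟩ := hex h' hh'
    exact ⟨g₀, hg₀, hinj (by rw [hgg, hhe])⟩

end TWT
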