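import Pool.Agent.TWT.Targets

/-!
# TWT: target T_UNT (the untilt)
-/

namespace TWT

open WittVector Matrix

noncomputable section

variable (p : ℕ) [hp : Fact p.Prime]

/-- the multiplicative identification of the tilt with the compatible systems of roots -/
def UNT_.f (s : Perfection (OC p) p) : Tl p :=
  Perfection.quotientMulEquiv p (Ideal.span {(p : OC p)}) s

lemma UNT_.f_surj (u : Tl p) : ∃ s, UNT_.f p s = u :=
  (Perfection.quotientMulEquiv p (Ideal.span {(p : OC p)})).surjective u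

lemma UNT_.f_mul (s t : Perfection (OC p) p) : UNT_.f p (s * t) = UNT_.f p s * UNT_.f p t :=
  map_mul (Perfection.quotientMulEquiv p (Ideal.span {(p : OC p)})) s t

/-- the sequence of roots -/
def UNT_.c (s : Perfection (OC p) p) (n : ℕ) : OC p := Perfection.coeffMonoidHom (OC p) p n s

lemma UNT_.c_mul (s t : Perfection (OC p) p) (n : ℕ) :
    UNT_.c p (s * t) n = UNT_.c p s n * UNT_.c p t n :=
  map_mul (Perfection.coeffMonoidHom (OC p) p n) s t

lemma UNT_.ext {s t : Perfection (OC p) p} (h : ∀ n, UNT_.c p s n = UNT_.c p t n) : s = t :=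
  Perfection.extMonoid h

lemma UNT_.c_pow (s : Perfection (OC p) p) (n : ℕ) : UNT_.c p s n ^ p ^ n = UNT_.c p s 0 :=
  Perfection.coeffMonoidHom_pow_p_pow_self s n

lemma UNT_.sh_f (s : Perfection (OC p) p) : sh p (UNT_.f p s) = UNT_.c p s 0 := by
  have h := Perfection.coeff_zero_symm_quotientMulEquiv (p := p)
    (I := Ideal.span {(p : OC p)})
    (Perfection.quotientMulEquiv p (Ideal.span {(p : OC p)}) s)
  rw [MulEquiv.symm_apply_apply] at h
  exact h.symm

lemma UNT_.f_zero (s : Perfection (OC p) p) (h : ∀ n, UNT_.c p s n = 0) : UNT_.f p s = 0 := by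
  refine Perfection.ext (R := ModP (OC p) p) (p := p) fun n => ?_
  have h1 : Perfection.coeff (ModP (OC p) p) p n (UNT_.f p s) =
      Ideal.Quotient.mk (Ideal.span {(p : OC p)}) (UNT_.c p s n) := rfl
  rw [h1, h n, map_zero]
  exact (map_zero (Perfection.coeff (ModP (OC p) p) p n)).symm

lemma UNT_.sh_zero : sh p 0 = 0 :=
  Perfection.teichmuller_zero (p := p) (I := Ideal.span {(p : OC p)})

lemma UNT_.onto (x : OC p) : ∃ u : Tl p, sh p u = x := by
  have hroot : ∀ y : OC p, ∃ z : OC p, z ^ p = y := by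
    intro y
    obtain ⟨z, hz⟩ := IsAlgClosed.exists_pow_nat_eq (y : ℂ_[p]) hp.out.pos
    have hz1 : ‖z‖ ≤ 1 := by
      have h1 : ‖z‖ ^ p ≤ 1 := by
        rw [← norm_pow, hz]
        exact norm_OC_le p y
      exact (pow_le_one_iff_of_nonneg (norm_nonneg z) hp.out.ne_zero).1 h1
    exact ⟨⟨z, (mem_OC_iff p z).2 hz1⟩, Subtype.ext hz⟩
  choose r hr using hroot
  let s : Perfection (OC p) p := ⟨fun n => r^[n] x, fun n => by
    change (r^[n + 1] x) ^ p = r^[n] x
    rw [Function.iterate_succ_apply', hr]⟩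
  exact ⟨UNT_.f p s, UNT_.sh_f p s⟩

lemma UNT_.zero_iff (u : Tl p) : sh p u = 0 ↔ u = 0 := by
  constructor
  · intro h
    obtain ⟨s, rfl⟩ := UNT_.f_surj p u
    rw [UNT_.sh_f] at h
    refine UNT_.f_zero p s fun n => ?_
    have h1 := UNT_.c_pow p s n
    rw [h] at h1
    exact pow_eq_zero_iff (pow_ne_zero n hp.out.ne_zero) |>.1 h1
  · rintro rfl
    exact UNT_.sh_zero p

lemma UNT_.nO_pow (x : OC p) (n : ℕ) : nO p (x ^ n) = nO p x ^ n := by
  have h : ((x ^ n : OC p) : ℂ_[p]) = (x : ℂ_[p]) ^ n := rfl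
  unfold nO
  rw [h, norm_pow]

lemma UNT_.dvd (u v : Tl p) (h : nO p (sh p u) ≤ nO p (sh p v)) : ∃ w, u = v * w := by
  by_cases hv : sh p v = 0
  · have hu : sh p u = 0 := by
      rw [hv] at h
      have h1 : nO p (sh p u) ≤ 0 := by simpa [nO] using h
      exact Subtype.ext (norm_le_zero_iff.1 h1)
    refine ⟨0, ?_⟩
    rw [(UNT_.zero_iff p u).1 hu, mul_zero]
  · obtain ⟨s, rfl⟩ := UNT_.f_surj p u
    obtain ⟨t, rfl⟩ := UNT_.f_surj p v
    rw [UNT_.sh_f, UNT_.sh_f] at h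
    rw [UNT_.sh_f] at hv
    have ht : ∀ n, (UNT_.c p t n : ℂ_[p]) ≠ 0 := by
      intro n h0
      apply hv
      have h1 : UNT_.c p t n = 0 := Subtype.ext h0
      rw [← UNT_.c_pow p t n, h1, zero_pow (pow_ne_zero n hp.out.ne_zero)]
    have hle : ∀ n, ‖(UNT_.c p s n : ℂ_[p])‖ ≤ ‖(UNT_.c p t n : ℂ_[p])‖ := by
      intro n
      rw [← UNT_.c_pow p s n, ← UNT_.c_pow p t n, UNT_.nO_pow, UNT_.nO_pow] at h
      exact (pow_le_pow_iff_left₀ (norm_nonneg _) (norm_nonneg _)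
        (pow_ne_zero n hp.out.ne_zero)).1 h
    have hq : ∀ n, (UNT_.c p s n : ℂ_[p]) / (UNT_.c p t n : ℂ_[p]) ∈ PadicComplexInt p := by
      intro n
      rw [mem_OC_iff, norm_div, div_le_one (norm_pos_iff.2 (ht n))]
      exact hle n
    have hpw : ∀ (x : Perfection (OC p) p) (n : ℕ),
        (UNT_.c p x (n + 1) : ℂ_[p]) ^ p = (UNT_.c p x n : ℂ_[p]) := fun x n =>
      congrArg (Subtype.val) (Perfection.coeffMonoidHom_pow_p' x n)
    let w : Perfection (OC p) p := ⟨fun n => ⟨_, hq n⟩, fun n => by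
      apply Subtype.ext
      change ((UNT_.c p s (n + 1) : ℂ_[p]) / (UNT_.c p t (n + 1) : ℂ_[p])) ^ p =
        (UNT_.c p s n : ℂ_[p]) / (UNT_.c p t n : ℂ_[p])
      rw [div_pow, hpw, hpw]⟩
    refine ⟨UNT_.f p w, ?_⟩
    rw [← UNT_.f_mul]
    congr 1
    refine UNT_.ext p fun n => ?_
    rw [UNT_.c_mul]
    apply Subtype.ext
    change (UNT_.c p s n : ℂ_[p]) = (UNT_.c p t n : ℂ_[p]) *
      ((UNT_.c p s n : ℂ_[p]) / (UNT_.c p t n : ℂ_[p]))
    rw [mul_div_cancel₀ _ (ht n)]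

theorem p_UNT : T_UNT p := by
  refine ⟨UNT_.onto p, UNT_.zero_iff p, UNT_.dvd p, fun u v h => ?_⟩
  have h1 : sh p (u * v) = sh p u * sh p v := map_mul _ u v
  rw [h, UNT_.sh_zero] at h1
  rcases mul_eq_zero.1 h1.symm with h2 | h2
  · exact Or.inl ((UNT_.zero_iff p u).1 h2)
  · exact Or.inr ((UNT_.zero_iff p v).1 h2)

end

end TWT
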