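import Pool.Agent.TWT.P_AP0
import Pool.Agent.TWT.P_APD
import Pool.Agent.TWT.P_ATF
import Pool.Agent.TWT.P_AX2
import Pool.Agent.TWT.P_DES
import Pool.Agent.TWT.P_DV
import Pool.Agent.TWT.P_EX
import Pool.Agent.TWT.P_FIN
import Pool.Agent.TWT.P_GOU
import Pool.Agent.TWT.P_IOT
import Pool.Agent.TWT.P_ISO
import Pool.Agent.TWT.P_KER
import Pool.Agent.TWT.P_LT0
import Pool.Agent.TWT.P_NL1
import Pool.Agent.TWT.P_NL2
import Pool.Agent.TWT.P_NQ
import Pool.Agent.TWT.P_NX
import Pool.Agent.TWT.P_PER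
import Pool.Agent.TWT.P_PT
import Pool.Agent.TWT.P_ROOT
import Pool.Agent.TWT.P_SE2
import Pool.Agent.TWT.P_SEC
import Pool.Agent.TWT.P_SER
import Pool.Agent.TWT.P_SIM
import Pool.Agent.TWT.P_SIQ
import Pool.Agent.TWT.P_SPE
import Pool.Agent.TWT.P_SPL
import Pool.Agent.TWT.P_STA
import Pool.Agent.TWT.P_TO1
import Pool.Agent.TWT.P_TO2
import Pool.Agent.TWT.P_TRI
import Pool.Agent.TWT.P_TRQ
import Pool.Agent.TWT.P_UNT

/-!
# TWT: composition
-/

namespace TWT

theorem main_v1 (p : ℕ) [Fact p.Prime] (h : p % 4 = 3) : Main p := by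
  have unt : T_UNT p := p_UNT p
  have iot : T_IOT p := p_IOT p
  have ker : T_KER p := p_KER p unt
  have atf : T_ATF p := p_ATF p
  have apd : T_APD p := p_APD p unt
  have ax2 : T_AX2 p := p_AX2 p unt ker
  have ser : T_SER p := p_SER p atf apd
  have ap0 : T_AP0 p := p_AP0 p ser
  have root : T_ROOT p := p_ROOT p unt
  have sec : T_SEC p := p_SEC p atf ap0 root
  have se2 : T_SE2 p := p_SE2 p ap0 sec
  have per : T_PER p := p_PER p atf ax2 sec se2
  have lt0 : T_LT0 p := p_LT0 p unt ax2 se2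
  have ex : T_EX p := p_EX p root per lt0
  have spl : T_SPL p := p_SPL p
  have pt : T_PT p := p_PT p iot atf ex spl
  have nq : T_NQ p := p_NQ p
  have nx : T_NX p := p_NX p
  have dv : T_DV p := p_DV p
  have tri : T_TRI := p_TRI
  have trq : T_TRQ p := p_TRQ p tri spl
  have sim : T_SIM := p_SIM
  have siq : T_SIQ p := p_SIQ p sim spl
  have des : T_DES p := p_DES p
  have sta : T_STA p := p_STA p
  have spe : T_SPE p := p_SPE p
  have iso : T_ISO p := p_ISO p
  have nl1 : T_NL1 p := p_NL1 p sta des spe iso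
  have nl2 : T_NL2 p := p_NL2 p sta des dv
  have to1 : T_TO1 p := p_TO1 p sta des spe
  have to2 : T_TO2 p := p_TO2 p sta des spe spl
  have gou : T_GOU p := p_GOU p sta sim siq dv spl
  exact p_FIN p pt nq nx tri trq nl1 nl2 to1 to2 gou h

end TWT
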