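import Mathlib

/-!
# TWT: the ring `B_cris⁺` of `ℂ_p`

`A_inf = W(O♭)`, Fontaine's map `θ` (from Mathlib), the divided power envelope of its kernel
inside `A_inf[1/p]`, its `p`-adic completion `A_cris`, Frobenius and `θ` on it, and
`B_cris⁺ = A_cris[1/p]`.
-/

namespace TWT

open WittVector

noncomputable section

variable (p : ℕ) [hp : Fact p.Prime]

/-- The ring of integers of `ℂ_p`. -/
abbrev OC : Type := ↥(PadicComplexInt p)

open MonoidWithZeroHom.ValueGroup₀ Valuation in
lemma norm_eq_v (x : ℂ_[p]) : ‖x‖ = ((PadicComplex.valued p).v x : ℝ) := by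
  rw [PadicComplex.norm_eq_norm]
  simp only [Valued.v.norm_def, PadicComplex.RankOne.hom_eq_embedding]
  rw [embedding_restrict (PadicComplex.valued p).v x]

lemma mem_OC_iff (x : ℂ_[p]) : x ∈ PadicComplexInt p ↔ ‖x‖ ≤ 1 := by
  rw [norm_eq_v]
  change (PadicComplex.valued p).v x ≤ 1 ↔ _
  exact_mod_cast Iff.rfl

lemma norm_p : ‖(p : ℂ_[p])‖ = (p : ℝ)⁻¹ := by
  rw [norm_eq_v, PadicComplex.valuation_p]
  simp

instance notUnit : Fact (¬ IsUnit (p : OC p)) := by
  refine ⟨fun h => ?_⟩
  obtain ⟨u, hu⟩ := h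
  have h1 : ‖((p : OC p) : ℂ_[p])‖ * ‖((u⁻¹ : (OC p)ˣ) : OC p).1‖ = 1 := by
    rw [← norm_mul, ← hu]
    have : ((u : OC p) : ℂ_[p]) * (((u⁻¹ : (OC p)ˣ) : OC p) : ℂ_[p]) = 1 := by
      exact congrArg (Subtype.val) (u.mul_inv)
    rw [this, norm_one]
  have h2 : ‖((u⁻¹ : (OC p)ˣ) : OC p).1‖ ≤ 1 := (mem_OC_iff p _).mp ((u⁻¹ : (OC p)ˣ) : OC p).2
  have h3 : ‖((p : OC p) : ℂ_[p])‖ = (p : ℝ)⁻¹ := by
    rw [← norm_p]
    norm_cast
  rw [h3] at h1
  have h4 : (1 : ℝ) < p := by exact_mod_cast hp.out.one_lt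
  have h5 : (p : ℝ)⁻¹ < 1 := inv_lt_one_of_one_lt₀ h4
  have h6 : (0 : ℝ) ≤ (p : ℝ)⁻¹ := by positivity
  nlinarith [norm_nonneg ((u⁻¹ : (OC p)ˣ) : OC p).1]


lemma norm_p_pos : 0 < ‖(p : ℂ_[p])‖ := by
  rw [norm_p]
  exact inv_pos.mpr (by exact_mod_cast hp.out.pos)

lemma norm_p_lt_one : ‖(p : ℂ_[p])‖ < 1 := by
  rw [norm_p]
  exact inv_lt_one_of_one_lt₀ (by exact_mod_cast hp.out.one_lt)

lemma p_ne_zero : (p : ℂ_[p]) ≠ 0 := norm_pos_iff.mp (norm_p_pos p)

lemma norm_OC_le (x : OC p) : ‖(x : ℂ_[p])‖ ≤ 1 := (mem_OC_iff p _).mp x.2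

/-- Membership in the powers of `p` is a bound for the norm. -/
lemma mem_pow_iff (x : OC p) (n : ℕ) :
    x ∈ (Ideal.span {(p : OC p)}) ^ n ↔ ‖(x : ℂ_[p])‖ ≤ ‖(p : ℂ_[p])‖ ^ n := by
  rw [Ideal.span_singleton_pow, Ideal.mem_span_singleton]
  constructor
  · rintro ⟨c, rfl⟩
    have : (((p : OC p) ^ n * c : OC p) : ℂ_[p]) = (p : ℂ_[p]) ^ n * (c : ℂ_[p]) := by
      norm_cast
    rw [this, norm_mul, norm_pow]
    exact mul_le_of_le_one_right (by positivity) (norm_OC_le p c)
  · intro h
    have hp0 := norm_p_pos p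
    refine ⟨⟨(x : ℂ_[p]) / (p : ℂ_[p]) ^ n, (mem_OC_iff p _).mpr ?_⟩, ?_⟩
    · rw [norm_div, norm_pow, div_le_one (by positivity)]
      exact h
    · apply Subtype.ext
      have : (((p : OC p) ^ n * ⟨(x : ℂ_[p]) / (p : ℂ_[p]) ^ n, (mem_OC_iff p _).mpr (by
          rw [norm_div, norm_pow, div_le_one (by positivity)]
          exact h)⟩ : OC p) : ℂ_[p]) = (p : ℂ_[p]) ^ n * ((x : ℂ_[p]) / (p : ℂ_[p]) ^ n) := by
        norm_cast
      rw [this, mul_div_cancel₀ _ (pow_ne_zero n (p_ne_zero p))]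

lemma smodEq_iff (x y : OC p) (n : ℕ) :
    x ≡ y [SMOD ((Ideal.span {(p : OC p)}) ^ n • ⊤ : Submodule (OC p) (OC p))] ↔
      ‖(x : ℂ_[p]) - y‖ ≤ ‖(p : ℂ_[p])‖ ^ n := by
  rw [SModEq.sub_mem, smul_eq_mul, Ideal.mul_top, mem_pow_iff]
  rfl

instance completeOC : IsAdicComplete (Ideal.span {(p : OC p)}) (OC p) where
  haus' := by
    intro x hx
    have h1 : ∀ n : ℕ, ‖(x : ℂ_[p])‖ ≤ ‖(p : ℂ_[p])‖ ^ n := by
      intro n
      have := (smodEq_iff p x 0 n).mp (hx n)
      simpa using this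
    have h2 : ‖(x : ℂ_[p])‖ ≤ 0 :=
      ge_of_tendsto' (tendsto_pow_atTop_nhds_zero_of_lt_one (norm_nonneg _)
        (norm_p_lt_one p)) h1
    exact Subtype.ext (norm_le_zero_iff.mp h2)
  prec' := by
    intro f hf
    have h1 : ∀ m n : ℕ, m ≤ n → ‖(f m : ℂ_[p]) - f n‖ ≤ ‖(p : ℂ_[p])‖ ^ m :=
      fun m n h => (smodEq_iff p _ _ m).mp (hf h)
    have hc : CauchySeq fun n => (f n : ℂ_[p]) := by
      refine cauchySeq_of_le_tendsto_0 (fun n => ‖(p : ℂ_[p])‖ ^ n + ‖(p : ℂ_[p])‖ ^ n) ?_ ?_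
      · intro n m N hn hm
        have a := h1 N n hn
        have b := h1 N m hm
        rw [dist_eq_norm]
        calc ‖(f n : ℂ_[p]) - f m‖ = ‖((f N : ℂ_[p]) - f m) - ((f N : ℂ_[p]) - f n)‖ := by
              congr 1
              ring
          _ ≤ ‖(f N : ℂ_[p]) - f m‖ + ‖(f N : ℂ_[p]) - f n‖ := norm_sub_le _ _
          _ ≤ _ := add_le_add b a
      · have := tendsto_pow_atTop_nhds_zero_of_lt_one (norm_nonneg _) (norm_p_lt_one p)
        simpa using this.add this
    obtain ⟨L, hL⟩ := cauchySeq_tendsto_of_complete hc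
    have hL1 : ‖L‖ ≤ 1 := le_of_tendsto' hL.norm (fun n => norm_OC_le p (f n))
    refine ⟨⟨L, (mem_OC_iff p L).mpr hL1⟩, fun n => (smodEq_iff p _ _ n).mpr ?_⟩
    have h3 : Filter.Tendsto (fun m => ‖(f n : ℂ_[p]) - f m‖) Filter.atTop
        (nhds ‖(f n : ℂ_[p]) - L‖) := (tendsto_const_nhds.sub hL).norm
    refine le_of_tendsto h3 ?_
    filter_upwards [Filter.eventually_ge_atTop n] with m hm using h1 n m hm

/-- The tilt of the ring of integers. -/
abbrev Tl : Type := PreTilt (OC p) p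

/-- `A_inf = W(O♭)`. -/
abbrev Ainf : Type := WittVector p (Tl p)

/-- Fontaine's map `θ : A_inf → O`. -/
def theta : Ainf p →+* OC p := fontaineTheta (OC p) p

/-- `A_inf[1/p]`. -/
abbrev AinfP : Type := Localization.Away (p : Ainf p)

/-- The divided power envelope: the subring of `A_inf[1/p]` generated by `A_inf` and the elements
`a ^ n / n!` with `θ a = 0`. -/
def Acris0 : Subring (AinfP p) :=
  Subring.closure (Set.range (algebraMap (Ainf p) (AinfP p)) ∪
    {x | ∃ (a : Ainf p) (n : ℕ), theta p a = 0 ∧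
      (n.factorial : AinfP p) * x = algebraMap (Ainf p) (AinfP p) a ^ n})


lemma isUnit_pP : IsUnit (algebraMap (Ainf p) (AinfP p) (p : Ainf p)) :=
  IsLocalization.Away.algebraMap_isUnit (p : Ainf p)

lemma isUnit_nat {u : ℕ} (hu : ¬ p ∣ u) : IsUnit (u : Ainf p) := by
  have hc : IsCoprime (u : ℤ) (p : ℤ) := by
    rw [Nat.isCoprime_iff_coprime]
    exact ((Nat.Prime.coprime_iff_not_dvd hp.out).mpr hu).symm
  obtain ⟨a, b, hab⟩ := hc
  have h1 : ((a : ℤ) : Ainf p) * (u : Ainf p) + ((b : ℤ) : Ainf p) * (p : Ainf p) = 1 := by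
    exact_mod_cast congrArg (fun z : ℤ => (z : Ainf p)) hab
  have h2 : IsUnit (1 + (-((b : ℤ) : Ainf p)) * (p : Ainf p)) := by
    have hj : (-((b : ℤ) : Ainf p)) * (p : Ainf p) ∈ Ideal.jacobson (⊥ : Ideal (Ainf p)) :=
      IsAdicComplete.le_jacobson_bot (Ideal.span {(p : Ainf p)})
        (Ideal.mul_mem_left _ _ (Ideal.mem_span_singleton_self _))
    have := Ideal.mem_jacobson_bot.mp hj 1
    rwa [mul_one, add_comm] at this
  have h3 : ((a : ℤ) : Ainf p) * (u : Ainf p) = 1 + (-((b : ℤ) : Ainf p)) * (p : Ainf p) := by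
    linear_combination h1
  rw [← h3] at h2
  exact isUnit_of_mul_isUnit_right h2

/-- `j!` divides `p ^ j` in `A_inf`. -/
lemma factorial_dvd (j : ℕ) : ∃ m : Ainf p, (j.factorial : Ainf p) * m = (p : Ainf p) ^ j := by
  obtain ⟨v, u, hu, hv⟩ := Nat.exists_eq_pow_mul_and_not_dvd (Nat.factorial_ne_zero j) p
    hp.out.ne_one
  have hvj : v ≤ j := by
    have h1 : padicValNat p j.factorial = v := by
      rw [hv]
      have hu0 : u ≠ 0 := by
        rintro rfl
        exact hu (dvd_zero p)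
      rw [padicValNat.mul (pow_ne_zero _ hp.out.ne_zero) hu0, padicValNat.prime_pow,
        padicValNat.eq_zero_of_not_dvd hu, add_zero]
    have h2 := sub_one_mul_padicValNat_factorial (p := p) j
    rw [h1] at h2
    have h3 : 1 ≤ p - 1 := by
      have := hp.out.two_le
      omega
    calc v = 1 * v := (one_mul v).symm
      _ ≤ (p - 1) * v := Nat.mul_le_mul_right v h3
      _ = j - (p.digits j).sum := h2
      _ ≤ j := Nat.sub_le _ _
  obtain ⟨w, hw⟩ := isUnit_nat p hu
  refine ⟨(p : Ainf p) ^ (j - v) * ((w⁻¹ : (Ainf p)ˣ) : Ainf p), ?_⟩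
  have h4 : (j.factorial : Ainf p) = (p : Ainf p) ^ v * (w : Ainf p) := by
    rw [hv, hw]
    push_cast
    rfl
  rw [h4]
  calc (p : Ainf p) ^ v * (w : Ainf p) * ((p : Ainf p) ^ (j - v) * ((w⁻¹ : (Ainf p)ˣ) : Ainf p))
      = (p : Ainf p) ^ v * (p : Ainf p) ^ (j - v) *
        ((w : Ainf p) * ((w⁻¹ : (Ainf p)ˣ) : Ainf p)) := by
        ring
    _ = (p : Ainf p) ^ j := by
        rw [Units.mul_inv, mul_one, ← pow_add, Nat.add_sub_cancel' hvj]

lemma isUnit_factorial (j : ℕ) : IsUnit (j.factorial : AinfP p) := by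
  obtain ⟨m, hm⟩ := factorial_dvd p j
  have h1 : (j.factorial : AinfP p) * algebraMap (Ainf p) (AinfP p) m =
      algebraMap (Ainf p) (AinfP p) (p : Ainf p) ^ j := by
    rw [← map_pow, ← hm, map_mul, map_natCast]
  exact isUnit_of_mul_isUnit_left (h1 ▸ (isUnit_pP p).pow j)

/-- Frobenius on `A_inf[1/p]`. -/
def phiP : AinfP p →+* AinfP p :=
  IsLocalization.Away.lift (p : Ainf p)
    (g := (algebraMap (Ainf p) (AinfP p)).comp WittVector.frobenius)
    (by simpa using isUnit_pP p)

lemma phiP_algebraMap (a : Ainf p) :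
    phiP p (algebraMap (Ainf p) (AinfP p) a) = algebraMap _ _ (WittVector.frobenius a) :=
  IsLocalization.Away.lift_eq _ _ _

lemma frob_eq (a : Ainf p) : ∃ c : Ainf p, WittVector.frobenius a = a ^ p + p * c := by
  have h : WittVector.frobenius a - a ^ p ∈ Ideal.span {(p : Ainf p)} := by
    rw [WittVector.mem_span_p_iff_coeff_zero_eq_zero]
    have h1 : WittVector.constantCoeff (WittVector.frobenius a - a ^ p) = 0 := by
      rw [map_sub, map_pow]
      simp [WittVector.constantCoeff_apply, WittVector.coeff_frobenius_charP]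
    simpa [WittVector.constantCoeff_apply] using h1
  obtain ⟨c, hc⟩ := Ideal.mem_span_singleton.mp h
  exact ⟨c, by linear_combination hc⟩

/-- divided powers of elements of the kernel -/
lemma dp_mem {a : Ainf p} (ha : theta p a = 0) {n : ℕ} {x : AinfP p}
    (hx : (n.factorial : AinfP p) * x = algebraMap (Ainf p) (AinfP p) a ^ n) : x ∈ Acris0 p :=
  Subring.subset_closure (Or.inr ⟨a, n, ha, hx⟩)

lemma alg_mem (a : Ainf p) : algebraMap (Ainf p) (AinfP p) a ∈ Acris0 p :=
  Subring.subset_closure (Or.inl ⟨a, rfl⟩)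

lemma phiP_mem (x : AinfP p) (hx : x ∈ Acris0 p) : phiP p x ∈ Acris0 p := by
  have hle : Acris0 p ≤ (Acris0 p).comap (phiP p) := by
    refine Subring.closure_le.mpr ?_
    rintro y (⟨a, rfl⟩ | ⟨a, n, ha, hy⟩)
    · change phiP p (algebraMap _ _ a) ∈ Acris0 p
      rw [phiP_algebraMap]
      exact alg_mem p _
    · change phiP p y ∈ Acris0 p
      obtain ⟨c, hc⟩ := frob_eq p a
      have h1 : (n.factorial : AinfP p) * phiP p y =
          (algebraMap (Ainf p) (AinfP p) a ^ p + algebraMap (Ainf p) (AinfP p) (p * c)) ^ n := by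
        have := congrArg (phiP p) hy
        rw [map_mul, map_pow, phiP_algebraMap, hc, map_natCast, map_add, map_pow] at this
        exact this
      have h2 : ∀ i : ℕ, ∃ α ∈ Acris0 p, (i.factorial : AinfP p) * α =
          (algebraMap (Ainf p) (AinfP p) a ^ p) ^ i := by
        intro i
        obtain ⟨u, hu⟩ := isUnit_factorial p (p * i)
        obtain ⟨d, hd⟩ : i.factorial ∣ (p * i).factorial :=
          Nat.factorial_dvd_factorial (Nat.le_mul_of_pos_left i hp.out.pos)
        have h3 : ((p * i).factorial : AinfP p) *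
            (((u⁻¹ : (AinfP p)ˣ) : AinfP p) * algebraMap (Ainf p) (AinfP p) a ^ (p * i)) =
            algebraMap (Ainf p) (AinfP p) a ^ (p * i) := by
          rw [← hu, ← mul_assoc, Units.mul_inv, one_mul]
        refine ⟨(d : AinfP p) * (((u⁻¹ : (AinfP p)ˣ) : AinfP p) *
          algebraMap (Ainf p) (AinfP p) a ^ (p * i)), ?_, ?_⟩
        · exact Subring.mul_mem _ (natCast_mem _ d) (dp_mem p ha h3)
        · rw [← mul_assoc]
          have : (i.factorial : AinfP p) * (d : AinfP p) = ((p * i).factorial : AinfP p) := by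
            rw [hd]
            push_cast
            rfl
          rw [this, h3, pow_mul]
      have h4 : ∀ j : ℕ, ∃ β ∈ Acris0 p, (j.factorial : AinfP p) * β =
          (algebraMap (Ainf p) (AinfP p) (p * c)) ^ j := by
        intro j
        obtain ⟨m, hm⟩ := factorial_dvd p j
        refine ⟨algebraMap _ _ (m * c ^ j), alg_mem p _, ?_⟩
        rw [← map_natCast (algebraMap (Ainf p) (AinfP p)), ← map_mul, ← map_pow, mul_pow, ← hm]
        congr 1
        ring
      choose α hα hα2 using h2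
      choose β hβ hβ2 using h4
      have h5 : phiP p y = ∑ m ∈ Finset.range (n + 1), α m * β (n - m) := by
        refine (isUnit_factorial p n).mul_left_cancel ?_
        rw [h1, add_pow, Finset.mul_sum]
        refine Finset.sum_congr rfl fun m hm => ?_
        rw [← hα2, ← hβ2]
        have : (n.factorial : AinfP p) =
            (n.choose m : AinfP p) * (m.factorial : AinfP p) * ((n - m).factorial : AinfP p) := by
          rw [← Nat.choose_mul_factorial_mul_factorial
            (Nat.lt_succ_iff.mp (Finset.mem_range.mp hm))]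
          push_cast
          rfl
        rw [this]
        ring
      rw [h5]
      exact Subring.sum_mem _ fun m _ => Subring.mul_mem _ (hα m) (hβ _)
  exact hle hx

/-- Frobenius on the divided power envelope. -/
def phi0 : Acris0 p →+* Acris0 p :=
  ((phiP p).comp (Acris0 p).subtype).codRestrict (Acris0 p) fun x => phiP_mem p x x.2


section lift

variable {S₀ S : Type} [CommRing S₀] [CommRing S]

omit hp in
lemma pow_le_comap (f : S₀ →+* S) (n : ℕ) :
    (Ideal.span {(p : S₀)}) ^ n ≤ Ideal.comap f ((Ideal.span {(p : S)}) ^ n) := by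
  rw [Ideal.span_singleton_pow, Ideal.span_singleton_pow, Ideal.span_le,
    Set.singleton_subset_iff]
  change f ((p : S₀) ^ n) ∈ Ideal.span {(p : S) ^ n}
  rw [map_pow, map_natCast]
  exact Ideal.mem_span_singleton_self _

/-- step `n` of the lift -/
def stepMap (f : S₀ →+* S) (n : ℕ) :
    AdicCompletion (Ideal.span {(p : S₀)}) S₀ →+* S ⧸ (Ideal.span {(p : S)}) ^ n :=
  (Ideal.quotientMap ((Ideal.span {(p : S)}) ^ n) f (pow_le_comap p f n)).comp
    (AdicCompletion.evalₐ (Ideal.span {(p : S₀)}) n :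
      AdicCompletion (Ideal.span {(p : S₀)}) S₀ →+* S₀ ⧸ (Ideal.span {(p : S₀)}) ^ n)

lemma stepMap_mk (f : S₀ →+* S) (n : ℕ)
    (y : AdicCompletion.AdicCauchySequence (Ideal.span {(p : S₀)}) S₀) :
    stepMap p f n (AdicCompletion.mk _ _ y) = Ideal.Quotient.mk _ (f (y.val n)) := by
  unfold stepMap
  rw [RingHom.comp_apply, RingHom.coe_coe, AdicCompletion.evalₐ_mk, Ideal.quotientMap_mk]

lemma stepMap_of (f : S₀ →+* S) (n : ℕ) (y : S₀) :
    stepMap p f n (AdicCompletion.of _ _ y) = Ideal.Quotient.mk _ (f y) := by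
  unfold stepMap
  rw [RingHom.comp_apply, RingHom.coe_coe, AdicCompletion.evalₐ_of, Ideal.quotientMap_mk]

lemma stepMap_compat (f : S₀ →+* S) {m n : ℕ} (hle : m ≤ n) :
    (Ideal.Quotient.factorPow (Ideal.span {(p : S)}) hle).comp (stepMap p f n) =
      stepMap p f m := by
  ext x
  obtain ⟨y, rfl⟩ := AdicCompletion.mk_surjective _ _ x
  rw [RingHom.comp_apply, stepMap_mk, stepMap_mk]
  have h1 : Ideal.Quotient.factorPow (Ideal.span {(p : S)}) hle
      (Ideal.Quotient.mk _ (f (y.val n))) = Ideal.Quotient.mk _ (f (y.val n)) := rfl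
  rw [h1, eq_comm, Ideal.Quotient.eq, ← map_sub]
  have h2 := y.2 hle
  rw [SModEq.sub_mem, smul_eq_mul, Ideal.mul_top] at h2
  exact pow_le_comap p f m h2

variable [IsAdicComplete (Ideal.span {(p : S)}) S]

/-- A ring map into a `p`-adically complete ring extends to the `p`-adic completion. -/
def acLift (f : S₀ →+* S) : AdicCompletion (Ideal.span {(p : S₀)}) S₀ →+* S :=
  IsAdicComplete.liftRingHom (Ideal.span {(p : S)}) (stepMap p f)
    (fun hle => stepMap_compat p f hle)

lemma acLift_of (f : S₀ →+* S) (x : S₀) : acLift p f (AdicCompletion.of _ _ x) = f x := by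
  refine IsHausdorff.eq_iff_smodEq (I := Ideal.span {(p : S)}) |>.mpr fun n => ?_
  rw [SModEq.sub_mem, smul_eq_mul, Ideal.mul_top, ← Ideal.Quotient.eq]
  unfold acLift
  rw [IsAdicComplete.mk_liftRingHom, stepMap_of]

end lift

section complete

variable (S : Type) [CommRing S]

/-- the completion is complete -/
lemma completion_complete :
    IsAdicComplete (Ideal.span {(p : AdicCompletion (Ideal.span {(p : S)}) S)})
      (AdicCompletion (Ideal.span {(p : S)}) S) := by
  have h1 : IsAdicComplete (Ideal.span {(p : S)}) (AdicCompletion (Ideal.span {(p : S)}) S) :=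
    AdicCompletion.isAdicComplete ⟨{(p : S)}, by simp⟩
  have h2 : (Ideal.span {(p : S)}).map
      (algebraMap S (AdicCompletion (Ideal.span {(p : S)}) S)) =
      Ideal.span {(p : AdicCompletion (Ideal.span {(p : S)}) S)} := by
    rw [Ideal.map_span, Set.image_singleton, map_natCast]
  rw [← h2]
  exact (IsAdicComplete.map_algebraMap_iff _ _).mpr h1

end complete

/-- `A_cris`: the `p`-adic completion of the divided power envelope. -/
abbrev Acris : Type := AdicCompletion (Ideal.span {(p : Acris0 p)}) (Acris0 p)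

instance completeAcris : IsAdicComplete (Ideal.span {(p : Acris p)}) (Acris p) :=
  completion_complete p (Acris0 p)

/-- the natural map `A_inf → A_cris` -/
def jj : Ainf p →+* Acris p :=
  (algebraMap (Acris0 p) (Acris p)).comp
    ((algebraMap (Ainf p) (AinfP p)).codRestrict (Acris0 p) fun x => alg_mem p x)

/-- Frobenius on `A_cris` -/
def phiA : Acris p →+* Acris p := acLift p ((algebraMap (Acris0 p) (Acris p)).comp (phi0 p))

lemma thetaP_unit : IsUnit (((PadicComplexInt p).subtype.comp (theta p)) (p : Ainf p)) := by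
  rw [map_natCast]
  exact isUnit_iff_ne_zero.mpr (p_ne_zero p)

/-- `θ` on `A_inf[1/p]` -/
def thetaP : AinfP p →+* ℂ_[p] :=
  IsLocalization.Away.lift (p : Ainf p) (g := (PadicComplexInt p).subtype.comp (theta p))
    (thetaP_unit p)

lemma thetaP_algebraMap (a : Ainf p) :
    thetaP p (algebraMap (Ainf p) (AinfP p) a) = (theta p a : ℂ_[p]) :=
  IsLocalization.Away.lift_eq _ _ _

lemma thetaP_mem (x : AinfP p) (hx : x ∈ Acris0 p) : thetaP p x ∈ PadicComplexInt p := by
  have hle : Acris0 p ≤ (PadicComplexInt p).toSubring.comap (thetaP p) := by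
    refine Subring.closure_le.mpr ?_
    rintro y (⟨a, rfl⟩ | ⟨a, n, ha, hy⟩)
    · change thetaP p (algebraMap _ _ a) ∈ PadicComplexInt p
      rw [thetaP_algebraMap]
      exact (theta p a).2
    · change thetaP p y ∈ PadicComplexInt p
      have h1 := congrArg (thetaP p) hy
      rw [map_mul, map_pow, thetaP_algebraMap, ha, map_natCast] at h1
      rcases n with - | n
      · have : thetaP p y = 1 := by simpa using h1
        rw [this]
        exact one_mem _
      · have h2 : thetaP p y = 0 := by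
          have h3 : ((n + 1).factorial : ℂ_[p]) ≠ 0 := by
            exact_mod_cast Nat.factorial_ne_zero _
          have h4 : ((n + 1).factorial : ℂ_[p]) * thetaP p y = 0 := by
            rw [h1]
            simp
          exact (mul_eq_zero.mp h4).resolve_left h3
        rw [h2]
        exact zero_mem _
  exact hle hx

/-- `θ` on the divided power envelope -/
def theta0 : Acris0 p →+* OC p :=
  ((thetaP p).comp (Acris0 p).subtype).codRestrict (PadicComplexInt p)
    fun x => thetaP_mem p x x.2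

/-- `θ` on `A_cris` -/
def thetaA : Acris p →+* OC p := acLift p (theta0 p)

lemma jj_apply (x : Ainf p) : jj p x =
    AdicCompletion.of _ _ ⟨algebraMap (Ainf p) (AinfP p) x, alg_mem p x⟩ := rfl

lemma phiA_jj (x : Ainf p) : phiA p (jj p x) = jj p (WittVector.frobenius x) := by
  rw [jj_apply, phiA, acLift_of, jj_apply]
  change AdicCompletion.of _ _ (phi0 p _) = _
  congr 1
  exact Subtype.ext (phiP_algebraMap p x)

lemma thetaA_jj (x : Ainf p) : thetaA p (jj p x) = theta p x := by
  rw [jj_apply, thetaA, acLift_of]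
  exact Subtype.ext (thetaP_algebraMap p x)

/-- `B_cris⁺` -/
abbrev Bcris : Type := Localization.Away (p : Acris p)

/-- Frobenius on `B_cris⁺` -/
def phiB : Bcris p →+* Bcris p :=
  IsLocalization.Away.lift (p : Acris p) (g := (algebraMap (Acris p) (Bcris p)).comp (phiA p))
    (by
      rw [map_natCast]
      have := IsLocalization.Away.algebraMap_isUnit (S := Bcris p) (p : Acris p)
      rwa [map_natCast] at this)

/-- `θ` on `B_cris⁺` -/
def thetaB : Bcris p →+* ℂ_[p] :=
  IsLocalization.Away.lift (p : Acris p) (g := (PadicComplexInt p).subtype.comp (thetaA p))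
    (by
      rw [map_natCast]
      exact isUnit_iff_ne_zero.mpr (p_ne_zero p))

end
end TWT
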