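import Pool.Agent.TWT.KZ

/-!
# The period rings

`ℂ_p`, its ring of integers `O`, the tilt `T` of `O`, `A_inf = W(T)` with Fontaine's map `θ` and
Frobenius `φ`, the divided power envelope `A0` of `ker θ` inside `A_inf[1/p]`, its `p`-adic completion
`A_cris`, and `B_cris⁺ = A_cris[1/p]`, with the extensions of `φ` and `θ`; the field
`Breve = W(𝔽̄_p)[1/p]` with its Frobenius `σ` and its map to `B_cris⁺`.
-/

set_option warn.classDefReducibility false

namespace Crys

open WittVector

noncomputable section

variable (p : ℕ) [hp : Fact p.Prime]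

/-! ### Fields -/

/-- `ℚ̄_p`. -/
def Qb : Type := PadicAlgCl p

def fieldQb : Field (Qb p) := (inferInstance : Field (PadicAlgCl p))

attribute [instance] fieldQb

def algQb : Algebra ℚ_[p] (Qb p) := (inferInstance : Algebra ℚ_[p] (PadicAlgCl p))

attribute [instance] algQb

/-- `ℂ_p`. -/
def Cp : Type := ℂ_[p]

def fieldCp : Field (Cp p) := (inferInstance : Field ℂ_[p])

attribute [instance] fieldCp

def algCp : Algebra ℚ_[p] (Cp p) := (inferInstance : Algebra ℚ_[p] ℂ_[p])

attribute [instance] algCp

/-- `ℚ̄_p → ℂ_p`. -/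
def toCp : Qb p →+* Cp p := algebraMap (PadicAlgCl p) ℂ_[p]

/-! ### The rings `O`, `T`, `A_inf` -/

/-- The ring of integers of `ℂ_p`. -/
def O : Type := ↥(PadicComplexInt p)

def ringO : CommRing (O p) := (inferInstance : CommRing ↥(PadicComplexInt p))

attribute [instance] ringO

theorem notUnitO : Fact (¬ IsUnit (p : O p)) := TWT.notUnit p

attribute [instance] notUnitO

theorem completeO : IsAdicComplete (Ideal.span {(p : O p)}) (O p) := TWT.completeOC p

attribute [instance] completeO

/-- `O → ℂ_p`. -/
def inclO : O p →+* Cp p := (PadicComplexInt p).subtype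

/-- The tilt of `O`: compatible systems of `p`-power roots in `O / p`. -/
def T : Type := PreTilt (O p) p

def ringT : CommRing (T p) := (inferInstance : CommRing (PreTilt (O p) p))

attribute [instance] ringT

/-- `A_inf = W(T)`. -/
def Ainf : Type := WittVector p (T p)

def ringAinf : CommRing (Ainf p) := (inferInstance : CommRing (WittVector p (T p)))

attribute [instance] ringAinf

/-- Fontaine's map `θ : A_inf → O`. -/
def theta : Ainf p →+* O p := WittVector.fontaineTheta (O p) p

/-- The Witt vector Frobenius of `A_inf`. -/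
def frob : Ainf p →+* Ainf p := WittVector.frobenius (p := p) (R := T p)

/-- `A_inf[1/p]`. -/
def AinfP : Type := Localization.Away (p : Ainf p)

def ringAinfP : CommRing (AinfP p) := (inferInstance : CommRing (Localization.Away (p : Ainf p)))

attribute [instance] ringAinfP

def algAinfP : Algebra (Ainf p) (AinfP p) :=
  (inferInstance : Algebra (Ainf p) (Localization.Away (p : Ainf p)))

attribute [instance] algAinfP

theorem locAinfP : IsLocalization.Away (p : Ainf p) (AinfP p) :=
  (inferInstance : IsLocalization.Away (p : Ainf p) (Localization.Away (p : Ainf p)))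

attribute [instance] locAinfP

/-! ### The divided power envelope and `A_cris` -/

/-- The divided power envelope: the subring of `A_inf[1/p]` generated by `A_inf` and the elements
`x` with `n! x = a ^ n` for some `a` with `θ a = 0`. -/
def A0s : Subring (AinfP p) :=
  Subring.closure (Set.range (algebraMap (Ainf p) (AinfP p)) ∪
    {x | ∃ (a : Ainf p) (n : ℕ), theta p a = 0 ∧
      (n.factorial : AinfP p) * x = algebraMap (Ainf p) (AinfP p) a ^ n})

/-- The divided power envelope as a type. -/
def A0 : Type := ↥(A0s p)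

def ringA0 : CommRing (A0 p) := (inferInstance : CommRing ↥(A0s p))

attribute [instance] ringA0

/-- `A0 → A_inf[1/p]`. -/
def inclA0 : A0 p →+* AinfP p := (A0s p).subtype

/-- `A_cris`, the `p`-adic completion of `A0`. -/
def Acris : Type := AdicCompletion (Ideal.span {(p : A0 p)}) (A0 p)

def ringAcris : CommRing (Acris p) :=
  (inferInstance : CommRing (AdicCompletion (Ideal.span {(p : A0 p)}) (A0 p)))

attribute [instance] ringAcris

def algAcris : Algebra (A0 p) (Acris p) :=
  (inferInstance : Algebra (A0 p) (AdicCompletion (Ideal.span {(p : A0 p)}) (A0 p)))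

attribute [instance] algAcris

theorem completeAcris : IsAdicComplete (Ideal.span {(p : Acris p)}) (Acris p) :=
  TWT.completion_complete p (A0 p)

attribute [instance] completeAcris

/-! ### Extension of maps to the completion -/

section lift

variable {A B : Type} [CommRing A] [CommRing B]

omit hp in
theorem pow_le_comap (f : A →+* B) (n : ℕ) :
    (Ideal.span {(p : A)}) ^ n ≤ Ideal.comap f ((Ideal.span {(p : B)}) ^ n) :=
  TWT.pow_le_comap p f n

/-- The map modulo `p ^ n`. -/
def stepMap (f : A →+* B) (n : ℕ) :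
    AdicCompletion (Ideal.span {(p : A)}) A →+* B ⧸ (Ideal.span {(p : B)}) ^ n :=
  (Ideal.quotientMap ((Ideal.span {(p : B)}) ^ n) f (pow_le_comap p f n)).comp
    (AdicCompletion.evalₐ (Ideal.span {(p : A)}) n :
      AdicCompletion (Ideal.span {(p : A)}) A →+* A ⧸ (Ideal.span {(p : A)}) ^ n)

theorem stepMap_compat (f : A →+* B) {m n : ℕ} (hle : m ≤ n) :
    (Ideal.Quotient.factorPow (Ideal.span {(p : B)}) hle).comp (stepMap p f n) =
      stepMap p f m :=
  TWT.stepMap_compat p f hle

/-- A ring map into a `p`-adically complete ring extends to the `p`-adic completion. -/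
def acLift [IsAdicComplete (Ideal.span {(p : B)}) B] (f : A →+* B) :
    AdicCompletion (Ideal.span {(p : A)}) A →+* B :=
  IsAdicComplete.liftRingHom (Ideal.span {(p : B)}) (stepMap p f)
    (fun hle => stepMap_compat p f hle)

end lift

theorem algMem (x : Ainf p) : algebraMap (Ainf p) (AinfP p) x ∈ A0s p := TWT.alg_mem p x

/-- The natural map `A_inf → A_cris`. -/
def toAcris : Ainf p →+* Acris p :=
  (algebraMap (A0 p) (Acris p)).comp
    ((algebraMap (Ainf p) (AinfP p)).codRestrict (A0s p) (algMem p))

/-! ### Frobenius -/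

theorem unitP : IsUnit (((algebraMap (Ainf p) (AinfP p)).comp (frob p)) (p : Ainf p)) := by
  rw [RingHom.comp_apply, map_natCast]
  exact TWT.isUnit_pP p

/-- Frobenius on `A_inf[1/p]`. -/
def phiP : AinfP p →+* AinfP p :=
  IsLocalization.Away.lift (p : Ainf p) (g := (algebraMap (Ainf p) (AinfP p)).comp (frob p))
    (unitP p)

theorem phiMem (x : A0 p) : ((phiP p).comp (inclA0 p)) x ∈ A0s p := TWT.phiP_mem p x.1 x.2

/-- Frobenius on the divided power envelope. -/
def phi0 : A0 p →+* A0 p := ((phiP p).comp (inclA0 p)).codRestrict (A0s p) (phiMem p)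

/-- Frobenius on `A_cris`. -/
def phiA : Acris p →+* Acris p := acLift p ((algebraMap (A0 p) (Acris p)).comp (phi0 p))

/-! ### The map `θ` -/

theorem unitTheta : IsUnit (((inclO p).comp (theta p)) (p : Ainf p)) := TWT.thetaP_unit p

/-- `θ` on `A_inf[1/p]`. -/
def thetaP : AinfP p →+* Cp p :=
  IsLocalization.Away.lift (p : Ainf p) (g := (inclO p).comp (theta p)) (unitTheta p)

theorem thetaMem (x : A0 p) : ((thetaP p).comp (inclA0 p)) x ∈ PadicComplexInt p :=
  TWT.thetaP_mem p x.1 x.2

/-- `θ` on the divided power envelope. -/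
def theta0 : A0 p →+* O p :=
  ((thetaP p).comp (inclA0 p)).codRestrict (PadicComplexInt p) (thetaMem p)

/-- `θ` on `A_cris`. -/
def thetaA : Acris p →+* O p := acLift p (theta0 p)

/-! ### `B_cris⁺` -/

/-- `B_cris⁺ = A_cris[1/p]`. -/
def Bcris : Type := Localization.Away (p : Acris p)

def ringBcris : CommRing (Bcris p) := (inferInstance : CommRing (Localization.Away (p : Acris p)))

attribute [instance] ringBcris

def algBcris' : Algebra (Acris p) (Bcris p) :=
  (inferInstance : Algebra (Acris p) (Localization.Away (p : Acris p)))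

attribute [instance] algBcris'

theorem locBcris : IsLocalization.Away (p : Acris p) (Bcris p) :=
  (inferInstance : IsLocalization.Away (p : Acris p) (Localization.Away (p : Acris p)))

attribute [instance] locBcris

theorem unitB : IsUnit (((algebraMap (Acris p) (Bcris p)).comp (phiA p)) (p : Acris p)) := by
  rw [map_natCast]
  have := IsLocalization.Away.algebraMap_isUnit (S := Bcris p) (p : Acris p)
  rwa [map_natCast] at this

theorem unitC : IsUnit (((inclO p).comp (thetaA p)) (p : Acris p)) := by
  rw [map_natCast]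
  exact isUnit_iff_ne_zero.mpr (TWT.p_ne_zero p)

/-- Frobenius on `B_cris⁺`. -/
def phiB : Bcris p →+* Bcris p :=
  IsLocalization.Away.lift (p : Acris p) (g := (algebraMap (Acris p) (Bcris p)).comp (phiA p))
    (unitB p)

/-- `θ` on `B_cris⁺`. -/
def thetaB : Bcris p →+* Cp p :=
  IsLocalization.Away.lift (p : Acris p) (g := (inclO p).comp (thetaA p)) (unitC p)

/-! ### The field `Breve` -/

/-- `x` is algebraic over `𝔽_p`: `x ^ (p ^ n) = x` for some `n > 0`. -/
def IsRoot (x : T p) : Prop := ∃ n : ℕ, 0 < n ∧ x ^ p ^ n = x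

theorem root_one : (1 : T p) ∈ {x | IsRoot p x} := (TWT.k0 p).one_mem'

theorem root_zero : (0 : T p) ∈ {x | IsRoot p x} := (TWT.k0 p).zero_mem'

theorem root_mul {x y : T p} (hx : x ∈ {x | IsRoot p x}) (hy : y ∈ {x | IsRoot p x}) :
    x * y ∈ {x | IsRoot p x} := (TWT.k0 p).mul_mem' hx hy

theorem root_add {x y : T p} (hx : x ∈ {x | IsRoot p x}) (hy : y ∈ {x | IsRoot p x}) :
    x + y ∈ {x | IsRoot p x} := (TWT.k0 p).add_mem' hx hy

theorem root_neg {x : T p} (hx : x ∈ {x | IsRoot p x}) : -x ∈ {x | IsRoot p x} :=
  (TWT.k0 p).neg_mem' hx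

/-- The algebraic closure of `𝔽_p` in the tilt. -/
def k0 : Subring (T p) where
  carrier := {x | IsRoot p x}
  one_mem' := root_one p
  zero_mem' := root_zero p
  mul_mem' := root_mul p
  add_mem' := root_add p
  neg_mem' := root_neg p

/-- `𝔽̄_p`, as a type. -/
def K0 : Type := ↥(k0 p)

theorem isField : IsField ↥(k0 p) := TWT.k0_isField p

def fieldK0 : Field (K0 p) := IsField.toField (R := ↥(k0 p)) (isField p)

attribute [instance] fieldK0

/-- The inclusion of `𝔽̄_p` into the tilt. -/
def inclK0 : K0 p →+* T p := (k0 p).subtype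

/-- `W(𝔽̄_p)`. -/
def W : Type := WittVector p (K0 p)

def ringW : CommRing (W p) := (inferInstance : CommRing (WittVector p (K0 p)))

attribute [instance] ringW

theorem domW : IsDomain (W p) := (inferInstance : IsDomain (WittVector p (TWT.K0 p)))

attribute [instance] domW

/-- `Breve = W(𝔽̄_p)[1/p]`, the completion of the maximal unramified extension of `ℚ_p`. -/
def Breve : Type := FractionRing (W p)

def fieldBreve : Field (Breve p) := (inferInstance : Field (FractionRing (W p)))

attribute [instance] fieldBreve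

def algWBreve : Algebra (W p) (Breve p) := (inferInstance : Algebra (W p) (FractionRing (W p)))

attribute [instance] algWBreve

theorem fracBreve : IsFractionRing (W p) (Breve p) :=
  (inferInstance : IsFractionRing (W p) (FractionRing (W p)))

attribute [instance] fracBreve

theorem charK0 : CharP (K0 p) p := TWT.charK0 p

attribute [instance] charK0

theorem perfectK0 : PerfectRing (K0 p) p := TWT.perfectK0 p

attribute [instance] perfectK0

/-- The Frobenius automorphism of `Breve`. -/
def sigma : Breve p →+* Breve p := WittVector.FractionRing.frobeniusRingHom p (K0 p)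

/-- `ℤ_p = W(𝔽_p) → W(𝔽̄_p)`. -/
def zpHom : ℤ_[p] →+* W p :=
  (WittVector.map (ZMod.castHom (dvd_refl p) (K0 p))).comp
    ((WittVector.equiv p).symm : ℤ_[p] →+* WittVector p (ZMod p))

theorem zpInj : Function.Injective ((algebraMap (W p) (Breve p)).comp (zpHom p)) :=
  (IsFractionRing.injective (W p) (Breve p)).comp (TWT.zpHom_injective p)

/-- `ℚ_p → Breve`. -/
def algBreve : Algebra ℚ_[p] (Breve p) :=
  (IsFractionRing.lift (A := ℤ_[p]) (K := ℚ_[p])
    (g := (algebraMap (W p) (Breve p)).comp (zpHom p)) (zpInj p)).toAlgebra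

attribute [instance] algBreve

/-- `W(𝔽̄_p) → A_inf → A_cris → B_cris⁺`. -/
def wB : W p →+* Bcris p :=
  (algebraMap (Acris p) (Bcris p)).comp ((toAcris p).comp (WittVector.map (inclK0 p)))

theorem wBUnit (x : nonZeroDivisors (W p)) : IsUnit (wB p x) := TWT.wB_isUnit p x

/-- `Breve → B_cris⁺`. -/
def brB : Breve p →+* Bcris p :=
  IsLocalization.lift (M := nonZeroDivisors (W p)) (g := wB p) (wBUnit p)

/-- `ℚ_p → B_cris⁺`. -/
def algBcris : Algebra ℚ_[p] (Bcris p) :=
  ((brB p).comp (algebraMap ℚ_[p] (Breve p))).toAlgebra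

attribute [instance] algBcris

/-- The periods `t` in `B_cris⁺`: `φ t = p t`, `θ t = 0`, `t ≠ 0` (the nonzero `ℚ_p`-multiples of
Fontaine's `t`). -/
def tSet : Set (Bcris p) := {t | phiB p t = p * t ∧ thetaB p t = 0 ∧ t ≠ 0}

end

end Crys
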