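import Pool.Agent.TWT.KZ

/-!
# TWT: the local Shimura datum `GL₂ × D^×`, its `ℂ_p`-points at infinite level, special subdata

`G = GL₂ × D^×` over `ℚ_p`, `p ≡ 3 mod 4`, where `D` is the quaternion algebra with `i² = -1`,
`j² = p`. For a commutative ring `R` the group `G(R)` is the unit group of
`AA R = M₂(R) × D(R)`. The basic element is `b = β⁻¹` with `β = ((0 1; p 0), j)`, the cocharacter
`μ` is of type `(1,0)` in both factors.
-/

namespace TWT

open WittVector Matrix

noncomputable section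

variable (p : ℕ) [hp : Fact p.Prime]

/-! ### The group -/

/-- `D(R)`: quaternions with `i² = -1`, `j² = p`, `k = ij`. -/
abbrev Quat (R : Type) [CommRing R] : Type := QuaternionAlgebra R (-1) 0 (p : R)

/-- The algebra `M₂(R) × D(R)`; its unit group is `G(R)`. -/
abbrev AA (R : Type) [CommRing R] : Type := Matrix (Fin 2) (Fin 2) R × Quat p R

/-- `D(f) : D(R) → D(S)`, coordinatewise. -/
def quatMap {R S : Type} [CommRing R] [CommRing S] (f : R →+* S) : Quat p R →+* Quat p S where
  toFun x := ⟨f x.re, f x.imI, f x.imJ, f x.imK⟩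
  map_one' := by ext <;> simp
  map_zero' := by ext <;> simp
  map_add' x y := by ext <;> simp
  map_mul' x y := by ext <;> simp

/-- `M₂(R) × D(R) → M₂(S) × D(S)`, coordinatewise. -/
def aaMap {R S : Type} [CommRing R] [CommRing S] (f : R →+* S) : AA p R →+* AA p S :=
  RingHom.prodMap f.mapMatrix (quatMap p f)

/-- `β = ((0 1; p 0), j)`; the basic element is `b = β⁻¹`. -/
def beta (R : Type) [CommRing R] : AA p R := (!![0, 1; (p : R), 0], ⟨0, 0, 1, 0⟩)

/-! ### Flags -/

/-- A subspace of `F²` and a subspace of `D(F)`. The points of the flag variety of `G` of type `μ`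
are the pairs of a line and a two-dimensional right ideal. -/
abbrev Fl (F : Type) [Field F] : Type := Submodule F (Fin 2 → F) × Submodule F (Quat p F)

/-- The pair of kernels (of left multiplication). -/
def kerFl {F : Type} [Field F] (m : AA p F) : Fl p F :=
  (LinearMap.ker (Matrix.toLin' m.1), LinearMap.ker (LinearMap.mulLeft F m.2))

/-- The pair of images (of left multiplication). -/
def ranFl {F : Type} [Field F] (m : AA p F) : Fl p F :=
  (LinearMap.range (Matrix.toLin' m.1), LinearMap.range (LinearMap.mulLeft F m.2))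

/-! ### Points at infinite level -/

/-- The elements `t` of `B_cris⁺` with `φ t = p t`, `θ t = 0`, `t ≠ 0` (the nonzero
`ℚ_p`-multiples of Fontaine's `t`). -/
def TT : Set (Bcris p) := {t | phiB p t = p * t ∧ thetaB p t = 0 ∧ t ≠ 0}

/-- `θ z`. -/
def thetaAA (z : AA p (Bcris p)) : AA p ℂ_[p] := aaMap p (thetaB p) z

/-- The Hodge-Tate period of `z`: the kernel of `θ z`. -/
def HT (z : AA p (Bcris p)) : Fl p ℂ_[p] := kerFl p (thetaAA p z)

/-- The Hodge period of `z`: the image of `θ z`. -/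
def Hdg (z : AA p (Bcris p)) : Fl p ℂ_[p] := ranFl p (thetaAA p z)

/-- The `ℂ_p`-points of the infinite level local Shimura variety of `(G, b, μ)`: modifications
`z : E₁ ⇢ E_b` of type `μ` at `∞`, that is, elements `z` of `G(B_cris)` with `b φ(z) = z`, such
that `z` and `t z⁻¹` have entries in `B_cris⁺` and `θ z` has rank one in both factors. -/
structure IsPt (z : AA p (Bcris p)) : Prop where
  frob : aaMap p (phiB p) z = beta p (Bcris p) * z
  inv : ∃ z' : AA p (Bcris p), ∃ t ∈ TT p, z * z' = t • 1 ∧ z' * z = t • 1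
  rank₁ : Module.finrank ℂ_[p] (HT p z).1 = 1
  rank₂ : Module.finrank ℂ_[p] (HT p z).2 = 2

/-! ### The subvariety `S` -/

/-- The splitting `D(F) → M₂(F)` given by a square root `I` of `-1`. -/
def spl {F : Type} [CommRing F] (I : F) (x : Quat p F) : Matrix (Fin 2) (Fin 2) F :=
  !![x.re + x.imI * I, x.imJ + x.imK * I; (p : F) * (x.imJ - x.imK * I), x.re - x.imI * I]

/-- The right ideal of `D(F)` of a line (more generally a subspace) `ℓ` of `F²`. -/
def idealOf {F : Type} [Field F] (I : F) (ℓ : Submodule F (Fin 2 → F)) :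
    Submodule F (Quat p F) where
  carrier := {x | ∀ v, (spl p I x) *ᵥ v ∈ ℓ}
  zero_mem' := by
    intro v
    have : spl p I (0 : Quat p F) = 0 := by
      ext i j
      fin_cases i <;> fin_cases j <;> simp [spl]
    rw [this, Matrix.zero_mulVec]
    exact ℓ.zero_mem
  add_mem' := by
    intro x y hx hy v
    have : spl p I (x + y) = spl p I x + spl p I y := by
      ext i j
      fin_cases i <;> fin_cases j <;> simp [spl] <;> ring
    rw [this, Matrix.add_mulVec]
    exact ℓ.add_mem (hx v) (hy v)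
  smul_mem' := by
    intro c x hx v
    have : spl p I (c • x) = c • spl p I x := by
      ext i j
      fin_cases i <;> fin_cases j <;> simp [spl] <;> ring
    rw [this, Matrix.smul_mulVec]
    exact ℓ.smul_mem c (hx v)

/-- The line spanned by `(-η, 1)`. -/
def lineOf {F : Type} [Field F] (η : F) : Submodule F (Fin 2 → F) :=
  Submodule.span F {![-η, 1]}

/-- The points of the curve `S ≅ ℙ¹` in `Fl × Fl` (Hodge side, Hodge-Tate side):
`S = {((x, y), (y, x)) : y ∈ ℙ¹}` with the fixed line `x = [-η : 1]`. -/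
def SS {F : Type} [Field F] (I η : F) : Set (Fl p F × Fl p F) :=
  {q | ∃ ℓ : Submodule F (Fin 2 → F), Module.finrank F ℓ = 1 ∧
    q = ((lineOf η, idealOf p I ℓ), (ℓ, idealOf p I (lineOf η)))}

/-! ### Closed subgroups and special subdata -/

/-- The eight coordinates of an element of `M₂(R) × D(R)`. -/
def coord {R : Type} [CommRing R] (m : AA p R) : Fin 8 → R :=
  ![m.1 0 0, m.1 0 1, m.1 1 0, m.1 1 1, m.2.re, m.2.imI, m.2.imJ, m.2.imK]

/-- A closed subgroup of `G` over `ℚ_p`: polynomial equations with coefficients in `ℚ_p` whose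
solutions form a subgroup of `G(R)` for every commutative `ℚ_p`-algebra `R`. -/
structure ClSub where
  eqs : Set (MvPolynomial (Fin 8) ℚ_[p])
  pts : ∀ (R : Type) [CommRing R] [Algebra ℚ_[p] R], Subgroup (AA p R)ˣ
  mem_pts : ∀ (R : Type) [CommRing R] [Algebra ℚ_[p] R] (g : (AA p R)ˣ),
    g ∈ pts R ↔ ∀ f ∈ eqs, MvPolynomial.aeval (coord p (g : AA p R)) f = 0

/-- `H^der ≠ G^der`: the commutator subgroups of the groups of `ℚ̄_p`-points are different. -/
def Strict (H : ClSub p) : Prop :=
  ⁅H.pts (PadicAlgCl p), H.pts (PadicAlgCl p)⁆ ≠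
    ⁅(⊤ : Subgroup (AA p (PadicAlgCl p))ˣ), (⊤ : Subgroup (AA p (PadicAlgCl p))ˣ)⁆

/-- The flag `q` lies in the special subvariety of the Hodge-Tate flag variety attached to a
special subdatum `(H, b_H, [μ_H])` of `(G, b, [μ])`: a cocharacter `μ_e(s) = s e + (1 - e)` of `H`
over `ℚ̄_p` in the class `[μ]` (so `e` is an idempotent, not `0` or `1` in either factor), an
element `b_H = β_H⁻¹` of `H(Breve)` with `b = g b_H σ(g)⁻¹` for some `g` in `G(Breve)`, and `q` is
an `H(ℂ_p)`-translate of the flag of `μ_e`. -/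
def Special (H : ClSub p) (q : Fl p ℂ_[p]) : Prop :=
  ∃ (e : AA p (PadicAlgCl p)) (g βH : (AA p (Breve p))ˣ),
    (e * e = e ∧ e.1 ≠ 0 ∧ e.1 ≠ 1 ∧ e.2 ≠ 0 ∧ e.2 ≠ 1) ∧
    (∀ s : PadicAlgCl p, s ≠ 0 → ∃ h ∈ H.pts (PadicAlgCl p),
      (h : AA p (PadicAlgCl p)) = s • e + (1 - e)) ∧
    βH ∈ H.pts (Breve p) ∧
    beta p (Breve p) * (g : AA p (Breve p)) = aaMap p (sigma p) g * βH ∧
    ∃ h ∈ H.pts ℂ_[p],
      q = ranFl p ((h : AA p ℂ_[p]) * aaMap p (algebraMap (PadicAlgCl p) ℂ_[p]) e)

/-- The statement: some `ℂ_p`-point `z` of the infinite level local Shimura variety has its periods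
on the curve `S` and lies in no strictly special subvariety. -/
def Main : Prop := ∃ I η : PadicAlgCl p, I ^ 2 = -1 ∧ η ^ 2 = (p : PadicAlgCl p) ^ 5 ∧
  ∃ z : AA p (Bcris p), IsPt p z ∧
    (Hdg p z, HT p z) ∈ SS p (algebraMap (PadicAlgCl p) ℂ_[p] I)
      (algebraMap (PadicAlgCl p) ℂ_[p] η) ∧
    ∀ H : ClSub p, Strict p H → ¬ Special p H (HT p z)

end

end TWT
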