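import Pool.Agent.TWT.Gen

/-!
# TWT: the degree of `E_S`

Let `R = B_dR⁺` of a geometric point, `t` a uniformizer, `F` the residue field, `z` the germ at `∞`
of the modification `E₁ ⇢ E_b`. The lattices at `∞` of `𝔤° ⊗ O`, `E(𝔤°_b)`, `E_max`, `E_S` are
`𝔤°(R)`, `z⁻¹ 𝔤°(R) z`, their sum, and the part of the sum over the tangent space of `S`.
-/

namespace TWT

open WittVector Matrix

noncomputable section

variable (p : ℕ) [hp : Fact p.Prime]

/-- The Lie algebra `𝔤°(R)` of `G^der = SL₂ × SL₁(D)`: the pairs of trace zero. -/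
def lieDer (R : Type) [CommRing R] : Submodule R (AA p R) where
  carrier := {x | x.1.trace = 0 ∧ x.2.re = 0}
  zero_mem' := ⟨by simp, by simp⟩
  add_mem' := fun hx hy => ⟨by simp [hx.1, hy.1], by simp [hx.2, hy.2]⟩
  smul_mem' := fun c x hx => ⟨by simp [hx.1], by simp [hx.2]⟩

section lattices

variable {R : Type} [CommRing R]

/-- `(n, m) ↦ t (z⁻¹ n z + m)`, where `z' = t z⁻¹`. -/
def germ (t : R) (z z' : AA p R) : (AA p R × AA p R) →ₗ[R] AA p R where
  toFun q := z' * q.1 * z + t • q.2
  map_add' := by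
    intro x y
    simp only [Prod.fst_add, Prod.snd_add, mul_add, add_mul, smul_add]
    abel
  map_smul' := by
    intro c x
    simp only [Prod.smul_fst, Prod.smul_snd, RingHom.id_apply, mul_smul_comm, smul_mul_assoc,
      smul_add]
    rw [smul_comm]

/-- `t` times the lattice of `E_max`: the image of all `(n, m)` in `𝔤° × 𝔤°`. -/
def LatMax (t : R) (z z' : AA p R) : Submodule R (AA p R) :=
  ((lieDer p R).prod (lieDer p R)).map (germ p t z z')

/-- `t` times the lattice of the trivial bundle `𝔤° ⊗ O`: the image of all `(0, m)`. -/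
def LatTriv (t : R) (z z' : AA p R) : Submodule R (AA p R) :=
  (Submodule.prod ⊥ (lieDer p R)).map (germ p t z z')

/-- The pairs `(n, m)` with `n, m ∈ M₂(F) × D(F)` tangent to `S` at `s = ((x, J(ℓ)), (ℓ, J(x)))`.
Here `(n, m)` acts on the two flags of `s` by `1 + ε n` and `1 + ε m`; so this says that `n` fixes
the line `x` in the first factor, `m` fixes the ideal `J(x)` in the second factor, and the line `ℓ`
is moved in the same way by `n` (second factor) and by `m` (first factor). -/
def TangentS {F : Type} [Field F] (I η : F) (ℓ : Submodule F (Fin 2 → F)) :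
    Submodule F (AA p F × AA p F) where
  carrier := {q | (∀ v ∈ lineOf η, q.1.1 *ᵥ v ∈ lineOf η) ∧
    (∀ v ∈ lineOf η, spl p I q.2.2 *ᵥ v ∈ lineOf η) ∧
    ∀ v ∈ ℓ, (spl p I q.1.2 - q.2.1) *ᵥ v ∈ ℓ}
  zero_mem' := by
    have h0 : spl p I (0 : Quat p F) = 0 := by
      ext i j
      fin_cases i <;> fin_cases j <;> simp [spl]
    refine ⟨fun v _ => ?_, fun v _ => ?_, fun v _ => ?_⟩
    · simp
    · simp [h0]
    · simp [h0]
  add_mem' := by
    rintro x y ⟨x1, x2, x3⟩ ⟨y1, y2, y3⟩
    have hadd : ∀ a b : Quat p F, spl p I (a + b) = spl p I a + spl p I b := by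
      intro a b
      ext i j
      fin_cases i <;> fin_cases j <;> simp [spl] <;> ring
    refine ⟨fun v hv => ?_, fun v hv => ?_, fun v hv => ?_⟩
    · have := Submodule.add_mem _ (x1 v hv) (y1 v hv)
      rwa [← Matrix.add_mulVec] at this
    · have := Submodule.add_mem _ (x2 v hv) (y2 v hv)
      rwa [← Matrix.add_mulVec, ← hadd] at this
    · have := Submodule.add_mem _ (x3 v hv) (y3 v hv)
      rw [← Matrix.add_mulVec] at this
      convert this using 2
      rw [Prod.fst_add, Prod.snd_add, Prod.snd_add, Prod.fst_add, hadd]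
      abel
  smul_mem' := by
    rintro c x ⟨x1, x2, x3⟩
    have hsm : ∀ a : Quat p F, spl p I (c • a) = c • spl p I a := by
      intro a
      ext i j
      fin_cases i <;> fin_cases j <;> simp [spl] <;> ring
    refine ⟨fun v hv => ?_, fun v hv => ?_, fun v hv => ?_⟩
    · have := Submodule.smul_mem _ c (x1 v hv)
      rwa [← Matrix.smul_mulVec] at this
    · have := Submodule.smul_mem _ c (x2 v hv)
      rwa [← Matrix.smul_mulVec, ← hsm] at this
    · have := Submodule.smul_mem _ c (x3 v hv)
      rw [← Matrix.smul_mulVec] at this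
      convert this using 2
      rw [Prod.smul_fst, Prod.smul_snd, Prod.smul_snd, Prod.smul_fst, hsm, smul_sub]

/-- The pairs `(n, m)` in `𝔤°(R) × 𝔤°(R)` such that the reduction of `(n, c m)` lies in `T`. -/
def tangentPairs {F : Type} [Field F] (θ : R →+* F) (T : Submodule F (AA p F × AA p F)) (c : ℤˣ) :
    Submodule R (AA p R × AA p R) where
  carrier := {q | q.1 ∈ lieDer p R ∧ q.2 ∈ lieDer p R ∧
    (aaMap p θ q.1, (c : ℤ) • aaMap p θ q.2) ∈ T}
  zero_mem' := by
    refine ⟨Submodule.zero_mem _, Submodule.zero_mem _, ?_⟩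
    simp only [Prod.fst_zero, Prod.snd_zero, map_zero, smul_zero]
    exact Submodule.zero_mem _
  add_mem' := by
    rintro x y ⟨x1, x2, x3⟩ ⟨y1, y2, y3⟩
    refine ⟨Submodule.add_mem _ x1 y1, Submodule.add_mem _ x2 y2, ?_⟩
    have := Submodule.add_mem _ x3 y3
    simp only [Prod.fst_add, Prod.snd_add, map_add, smul_add]
    exact this
  smul_mem' := by
    rintro r x ⟨x1, x2, x3⟩
    refine ⟨Submodule.smul_mem _ _ x1, Submodule.smul_mem _ _ x2, ?_⟩
    have h := Submodule.smul_mem _ (θ r) x3
    have hm : ∀ a : AA p R, aaMap p θ (r • a) = θ r • aaMap p θ a := by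
      intro a
      refine Prod.ext ?_ ?_
      · ext i j
        simp [aaMap]
      · ext <;> simp [aaMap, quatMap]
    simp only [Prod.smul_fst, Prod.smul_snd, hm]
    rw [smul_comm (c : ℤ) (θ r)]
    exact h

/-- `t` times the lattice of `E_S`: the image of the `(n, m)` in `𝔤° × 𝔤°` whose reductions are
tangent to `S`. The deformation `(1 + ε n) z (1 + ε m)` of `z` moves the Hodge period by `1 + ε n`
and the Hodge-Tate period by `1 - ε m`, so `c = -1` gives the derivative of the period map; the
other sign of the second component of `T_D` is covered by `c = 1`. -/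
def LatS {F : Type} [Field F] (θ : R →+* F) (I η : F) (ℓ : Submodule F (Fin 2 → F)) (c : ℤˣ) (t : R)
    (z z' : AA p R) : Submodule R (AA p R) :=
  (tangentPairs p θ (TangentS p I η ℓ) c).map (germ p t z z')

end lattices

/-- The degree of `E_S` at every geometric point of the local Shimura variety with periods in `S`:
`E_max / (𝔤° ⊗ O)` has length `2` and `E_max / E_S` has length `3`, so `E_S` has degree
`2 - 3 = -1`. -/
def DegreeCount (I η : PadicAlgCl p) : Prop :=
  ∀ (R : Type) [CommRing R] [IsDomain R] [IsDiscreteValuationRing R] [Algebra (PadicAlgCl p) R]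
    (t : R) (z z' : AA p R)
    (ℓ : Submodule (IsLocalRing.ResidueField R) (Fin 2 → IsLocalRing.ResidueField R))
    (I₁ η₁ : IsLocalRing.ResidueField R) (c : ℤˣ),
    I₁ = IsLocalRing.residue R (algebraMap (PadicAlgCl p) R I) →
    η₁ = IsLocalRing.residue R (algebraMap (PadicAlgCl p) R η) →
    Irreducible t → z * z' = t • 1 → z' * z = t • 1 →
    Module.finrank (IsLocalRing.ResidueField R) ℓ = 1 →
    ranFl p (aaMap p (IsLocalRing.residue R) z) = (lineOf η₁, idealOf p I₁ ℓ) →
    kerFl p (aaMap p (IsLocalRing.residue R) z) = (ℓ, idealOf p I₁ (lineOf η₁)) →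
    LatTriv p t z z' ≤ LatMax p t z z' ∧
    LatS p (IsLocalRing.residue R) I₁ η₁ ℓ c t z z' ≤ LatMax p t z z' ∧
    Module.length R (LatMax p t z z' ⧸ (LatTriv p t z z').submoduleOf (LatMax p t z z')) = 2 ∧
    Module.length R (LatMax p t z z' ⧸
      (LatS p (IsLocalRing.residue R) I₁ η₁ ℓ c t z z').submoduleOf (LatMax p t z z')) = 3

end

end TWT
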