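import Pool.Agent.TWT.Gen
import Pool.Agent.TWT.P_SPL

/-!
# TWT: from the concrete statement to the general statement
-/

namespace TWT

open WittVector Matrix

noncomputable section

variable (p : ℕ) [hp : Fact p.Prime]

namespace Tr

section ring

variable {R S : Type} [CommRing R] [CommRing S]

omit hp in
lemma blk_apply (x : AA p R) : blk p x = Matrix.fromBlocks x.1 0 0 (lm p x.2) := rfl

omit hp in
lemma blk_injective : Function.Injective (blk p (R := R)) := by
  intro x y h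
  rw [blk_apply, blk_apply, Matrix.fromBlocks_inj] at h
  exact Prod.ext h.1 (lm_injective p h.2.2.2)

omit hp in
lemma lm_smul (c : R) (x : Quat p R) : lm p (c • x) = c • lm p x := by
  ext i j
  fin_cases i <;> fin_cases j <;> simp [lm] <;> ring

omit hp in
lemma blk_smul (c : R) (x : AA p R) : blk p (c • x) = c • blk p x := by
  rw [blk_apply, blk_apply, Prod.smul_fst, Prod.smul_snd, lm_smul, Matrix.fromBlocks_smul,
    smul_zero, smul_zero]

omit hp in
lemma lm_map (f : R →+* S) (x : Quat p R) : (lm p x).map f = lm p (quatMap p f x) := by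
  ext i j
  fin_cases i <;> fin_cases j <;> simp [lm, quatMap]

omit hp in
lemma map_blk (f : R →+* S) (x : AA p R) : f.mapMatrix (blk p x) = blk p (aaMap p f x) := by
  rw [blk_apply, blk_apply, RingHom.mapMatrix_apply, Matrix.fromBlocks_map, lm_map]
  have h0 : (0 : Matrix (Fin 2) (Fin 4) R).map f = 0 := Matrix.map_zero _ (map_zero f)
  have h1 : (0 : Matrix (Fin 4) (Fin 2) R).map f = 0 := Matrix.map_zero _ (map_zero f)
  rw [h0, h1]
  rfl

lemma twinEqs_blk {A : Type} [CommRing A] [Algebra ℚ_[p] A] (x : AA p A) :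
    ∀ f ∈ twinEqs p, MvPolynomial.aeval (ent (blk p x)) f = 0 := by
  have key : ∀ (v : Fin 4 → MvPolynomial (Six × Six) ℚ_[p]) (a b : Fin 4),
      MvPolynomial.aeval (ent (blk p x)) (lm p (quatOf p v) a b) =
      lm p (quatOf p fun c => MvPolynomial.aeval (ent (blk p x)) (v c)) a b := by
    intro v a b
    fin_cases a <;> fin_cases b <;> simp [lm, quatOf]
  intro f hf
  rcases hf with (⟨i, j, rfl⟩ | ⟨i, j, rfl⟩) | ⟨a, b, rfl⟩
  · simp [ent, blk]
  · simp [ent, blk]
  · rw [map_sub, key]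
    simp only [MvPolynomial.aeval_X, ent]
    have h1 : ∀ a b : Fin 4, (blk p x) (Sum.inr a) (Sum.inr b) = lm p x.2 a b := fun a b => rfl
    simp only [h1]
    rw [quatOf_lm, sub_self]

/-- The generic element of `M₂ × D`. -/
def gen : AA p (MvPolynomial (Fin 8) ℚ_[p]) :=
  (!![MvPolynomial.X 0, MvPolynomial.X 1; MvPolynomial.X 2, MvPolynomial.X 3],
    ⟨MvPolynomial.X 4, MvPolynomial.X 5, MvPolynomial.X 6, MvPolynomial.X 7⟩)

lemma aeval_gen {A : Type} [CommRing A] [Algebra ℚ_[p] A] (x : AA p A)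
    (f : MvPolynomial (Six × Six) ℚ_[p]) :
    MvPolynomial.aeval (coord p x) (MvPolynomial.aeval (ent (blk p (gen p))) f) =
      MvPolynomial.aeval (ent (blk p x)) f := by
  have h1 : aaMap p (MvPolynomial.aeval (coord p x) : MvPolynomial (Fin 8) ℚ_[p] →ₐ[ℚ_[p]] A)
      (gen p) = x := by
    refine Prod.ext ?_ ?_
    · ext i j
      fin_cases i <;> fin_cases j <;> simp [aaMap, gen, coord]
    · ext <;> simp [aaMap, gen, coord, quatMap]
  have h2 : ∀ ij : Six × Six,
      (MvPolynomial.aeval (coord p x) : MvPolynomial (Fin 8) ℚ_[p] →ₐ[ℚ_[p]] A)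
      (ent (blk p (gen p)) ij) = ent (blk p x) ij := by
    intro ij
    have h3 := map_blk p ((MvPolynomial.aeval (coord p x) :
      MvPolynomial (Fin 8) ℚ_[p] →ₐ[ℚ_[p]] A) : MvPolynomial (Fin 8) ℚ_[p] →+* A) (gen p)
    rw [h1] at h3
    have := congrFun (congrFun h3 ij.1) ij.2
    exact this
  have h4 : ((MvPolynomial.aeval (coord p x) : MvPolynomial (Fin 8) ℚ_[p] →ₐ[ℚ_[p]] A).comp
      (MvPolynomial.aeval (ent (blk p (gen p))))) = MvPolynomial.aeval (ent (blk p x)) := by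
    apply MvPolynomial.algHom_ext
    intro ij
    rw [AlgHom.comp_apply, MvPolynomial.aeval_X, MvPolynomial.aeval_X, h2]
  rw [← h4]
  rfl

/-- The pullback of a closed subgroup of `GL₆` to `GL₂ × D^×`. -/
def pull (G : ClGrp p Six) : ClSub p where
  eqs := {f' | ∃ f ∈ G.eqs, f' = MvPolynomial.aeval (ent (blk p (gen p))) f}
  pts R _ _ := (G.pts R).comap (blkU p)
  mem_pts R _ _ g := by
    rw [Subgroup.mem_comap, G.mem_pts]
    constructor
    · rintro h f' ⟨f, hf, rfl⟩
      rw [aeval_gen]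
      exact h f hf
    · intro h f hf
      have := h _ ⟨f, hf, rfl⟩
      rwa [aeval_gen] at this

end ring

section field

variable {F : Type} [Field F]

omit hp in
lemma mem_sumSub {ℓ : Submodule F (Fin 2 → F)} {J : Submodule F (Quat p F)} {v : Six → F} :
    v ∈ sumSub p ℓ J ↔ (fun i => v (Sum.inl i)) ∈ ℓ ∧ quatOf p (fun i => v (Sum.inr i)) ∈ J :=
  Iff.rfl

omit hp in
lemma sumSub_inj {ℓ ℓ' : Submodule F (Fin 2 → F)} {J J' : Submodule F (Quat p F)}
    (h : sumSub p ℓ J = sumSub p ℓ' J') : ℓ = ℓ' ∧ J = J' := by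
  constructor
  · ext v
    have := congrArg (fun K : Submodule F (Six → F) => Sum.elim v 0 ∈ K) h
    simp only [mem_sumSub, Sum.elim_inl, Sum.elim_inr, eq_iff_iff] at this
    have hz : quatOf p (fun i => (0 : Fin 4 → F) i) = 0 := by
      ext <;> simp [quatOf]
    rw [hz] at this
    simpa using this
  · ext x
    have := congrArg (fun K : Submodule F (Six → F) =>
      Sum.elim (0 : Fin 2 → F) (fun c => lm p x c 0) ∈ K) h
    simp only [mem_sumSub, Sum.elim_inl, Sum.elim_inr, eq_iff_iff] at this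
    rw [quatOf_lm] at this
    have h1 : (fun i => (0 : Fin 2 → F) i) ∈ ℓ := ℓ.zero_mem
    have h2 : (fun i => (0 : Fin 2 → F) i) ∈ ℓ' := ℓ'.zero_mem
    exact ⟨fun hx => (this.mp ⟨h1, hx⟩).2, fun hx => (this.mpr ⟨h2, hx⟩).2⟩

omit hp in
lemma blk_mulVec_inl (x : AA p F) (v : Six → F) :
    (fun i => (blk p x *ᵥ v) (Sum.inl i)) = x.1 *ᵥ (fun i => v (Sum.inl i)) := by
  funext i
  simp [blk_apply, Matrix.mulVec, dotProduct, Fintype.sum_sum_type]

omit hp in
lemma blk_mulVec_inr (x : AA p F) (v : Six → F) :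
    (fun i => (blk p x *ᵥ v) (Sum.inr i)) = lm p x.2 *ᵥ (fun i => v (Sum.inr i)) := by
  funext i
  simp [blk_apply, Matrix.mulVec, dotProduct, Fintype.sum_sum_type]

omit hp in
lemma quat_mulVec (x : AA p F) (v : Six → F) :
    quatOf p (fun i => (blk p x *ᵥ v) (Sum.inr i)) = x.2 * quatOf p (fun i => v (Sum.inr i)) := by
  rw [blk_mulVec_inr, ← mulVec_quat]

omit hp in
lemma ker_blk (x : AA p F) : LinearMap.ker (Matrix.toLin' (blk p x)) =
    sumSub p (kerFl p x).1 (kerFl p x).2 := by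
  ext v
  simp only [LinearMap.mem_ker, Matrix.toLin'_apply, mem_sumSub, kerFl, LinearMap.mulLeft_apply]
  rw [← blk_mulVec_inl, ← quat_mulVec]
  constructor
  · intro h
    rw [h]
    refine ⟨rfl, ?_⟩
    ext <;> simp [quatOf]
  · rintro ⟨h1, h2⟩
    funext i
    rcases i with i | i
    · exact congrFun h1 i
    · have a0 := congrArg QuaternionAlgebra.re h2
      have a1 := congrArg QuaternionAlgebra.imI h2
      have a2 := congrArg QuaternionAlgebra.imJ h2
      have a3 := congrArg QuaternionAlgebra.imK h2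
      simp only [quatOf, QuaternionAlgebra.re_zero, QuaternionAlgebra.imI_zero,
        QuaternionAlgebra.imJ_zero, QuaternionAlgebra.imK_zero] at a0 a1 a2 a3
      fin_cases i
      · exact a0
      · exact a1
      · exact a2
      · exact a3

omit hp in
lemma ran_blk (x : AA p F) : LinearMap.range (Matrix.toLin' (blk p x)) =
    sumSub p (ranFl p x).1 (ranFl p x).2 := by
  ext v
  simp only [LinearMap.mem_range, Matrix.toLin'_apply, mem_sumSub, ranFl, LinearMap.mulLeft_apply]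
  constructor
  · rintro ⟨w, rfl⟩
    refine ⟨⟨fun i => w (Sum.inl i), ?_⟩, ⟨quatOf p (fun i => w (Sum.inr i)), ?_⟩⟩
    · rw [blk_mulVec_inl]
    · rw [quat_mulVec]
  · rintro ⟨⟨a, ha⟩, ⟨y, hy⟩⟩
    refine ⟨Sum.elim a (fun c => lm p y c 0), ?_⟩
    funext i
    rcases i with i | i
    · have := congrFun (blk_mulVec_inl p x (Sum.elim a (fun c => lm p y c 0))) i
      rw [this]
      exact congrFun ha i
    · have h2 := quat_mulVec p x (Sum.elim a (fun c => lm p y c 0))
      simp only [Sum.elim_inr] at h2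
      rw [quatOf_lm, hy] at h2
      have a0 := congrArg QuaternionAlgebra.re h2
      have a1 := congrArg QuaternionAlgebra.imI h2
      have a2 := congrArg QuaternionAlgebra.imJ h2
      have a3 := congrArg QuaternionAlgebra.imK h2
      simp only [quatOf] at a0 a1 a2 a3
      fin_cases i
      · exact a0
      · exact a1
      · exact a2
      · exact a3

omit hp in
lemma line_span {ℓ : Submodule F (Fin 2 → F)} (h : Module.finrank F ℓ = 1) :
    ∃ v : Fin 2 → F, v ≠ 0 ∧ ℓ = Submodule.span F {v} := by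
  obtain ⟨v, hv, hs⟩ := finrank_eq_one_iff'.mp h
  refine ⟨v, fun h0 => hv (Subtype.ext h0), ?_⟩
  apply le_antisymm
  · intro w hw
    obtain ⟨c, hc⟩ := hs ⟨w, hw⟩
    rw [Submodule.mem_span_singleton]
    exact ⟨c, congrArg Subtype.val hc⟩
  · rw [Submodule.span_singleton_le_iff_mem]
    exact v.2

/-- every line is a translate of the line of a diagonal idempotent -/
lemma line_unit {ℓ : Submodule F (Fin 2 → F)} (h : Module.finrank F ℓ = 1)
    (E : Matrix (Fin 2) (Fin 2) F) (hE : E = !![1, 0; 0, 0] ∨ E = !![0, 0; 0, 1]) :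
    ∃ k : (Matrix (Fin 2) (Fin 2) F)ˣ,
      LinearMap.range (Matrix.toLin' ((k : Matrix (Fin 2) (Fin 2) F) * E)) = ℓ := by
  obtain ⟨v, hv, rfl⟩ := line_span h
  have hr : ∀ M : Matrix (Fin 2) (Fin 2) F, (M = !![v 0, 0; v 1, 0] ∨ M = !![0, v 0; 0, v 1]) →
      LinearMap.range (Matrix.toLin' M) = Submodule.span F {v} := by
    intro M hM
    ext w
    rw [LinearMap.mem_range, Submodule.mem_span_singleton]
    rcases hM with rfl | rfl
    · constructor
      · rintro ⟨u, rfl⟩
        refine ⟨u 0, ?_⟩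
        ext i
        fin_cases i <;> simp [Matrix.mulVec, dotProduct, Fin.sum_univ_two, mul_comm]
      · rintro ⟨c, rfl⟩
        refine ⟨![c, 0], ?_⟩
        ext i
        fin_cases i <;> simp [Matrix.mulVec, dotProduct, Fin.sum_univ_two, mul_comm]
    · constructor
      · rintro ⟨u, rfl⟩
        refine ⟨u 1, ?_⟩
        ext i
        fin_cases i <;> simp [Matrix.mulVec, dotProduct, Fin.sum_univ_two, mul_comm (u 1)]
      · rintro ⟨c, rfl⟩
        refine ⟨![0, c], ?_⟩
        ext i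
        fin_cases i <;> simp [Matrix.mulVec, dotProduct, Fin.sum_univ_two, mul_comm]
  have hu : ∀ M : Matrix (Fin 2) (Fin 2) F, M.det ≠ 0 →
      ∃ k : (Matrix (Fin 2) (Fin 2) F)ˣ, (k : Matrix (Fin 2) (Fin 2) F) = M := by
    intro M hM
    have : IsUnit M := (Matrix.isUnit_iff_isUnit_det M).mpr (isUnit_iff_ne_zero.mpr hM)
    exact this
  have hv' : v 0 ≠ 0 ∨ v 1 ≠ 0 := by
    by_contra hcon
    push Not at hcon
    apply hv
    ext i
    fin_cases i
    · exact hcon.1
    · exact hcon.2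
  rcases hE with rfl | rfl
  · rcases hv' with h0 | h1
    · obtain ⟨k, hk⟩ := hu !![v 0, 0; v 1, 1] (by simpa [Matrix.det_fin_two_of] using h0)
      refine ⟨k, hr _ (Or.inl ?_)⟩
      rw [hk]
      ext i j
      fin_cases i <;> fin_cases j <;> simp [Matrix.mul_apply, Fin.sum_univ_two]
    · obtain ⟨k, hk⟩ := hu !![v 0, 1; v 1, 0] (by simpa [Matrix.det_fin_two_of] using h1)
      refine ⟨k, hr _ (Or.inl ?_)⟩
      rw [hk]
      ext i j
      fin_cases i <;> fin_cases j <;> simp [Matrix.mul_apply, Fin.sum_univ_two]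
  · rcases hv' with h0 | h1
    · obtain ⟨k, hk⟩ := hu !![0, v 0; 1, v 1] (by simpa [Matrix.det_fin_two_of] using h0)
      refine ⟨k, hr _ (Or.inr ?_)⟩
      rw [hk]
      ext i j
      fin_cases i <;> fin_cases j <;> simp [Matrix.mul_apply, Fin.sum_univ_two]
    · obtain ⟨k, hk⟩ := hu !![1, v 0; 0, v 1] (by simpa [Matrix.det_fin_two_of] using h1)
      refine ⟨k, hr _ (Or.inr ?_)⟩
      rw [hk]
      ext i j
      fin_cases i <;> fin_cases j <;> simp [Matrix.mul_apply, Fin.sum_univ_two]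

/-- the right ideal of a line is a translate of the ideal of an idempotent -/
lemma ideal_unit (I : F) (hI : I ^ 2 = -1) (h2 : IsUnit (2 : F)) (hpu : IsUnit (p : F))
    {ℓ : Submodule F (Fin 2 → F)} (h : Module.finrank F ℓ = 1) (e : Quat p F)
    (hE : spl p I e = !![1, 0; 0, 0] ∨ spl p I e = !![0, 0; 0, 1]) :
    ∃ k : (Quat p F)ˣ,
      LinearMap.range (LinearMap.mulLeft F ((k : Quat p F) * e)) = idealOf p I ℓ := by
  obtain ⟨h1, hmul, -, -, -, -, hb⟩ := p_SPL p F I hI
  obtain ⟨hinj, hsur⟩ := hb h2 hpu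
  obtain ⟨K, hK⟩ := line_unit h (spl p I e) hE
  obtain ⟨k, hk⟩ := hsur (K : Matrix (Fin 2) (Fin 2) F)
  obtain ⟨k', hk'⟩ := hsur ((K⁻¹ : (Matrix (Fin 2) (Fin 2) F)ˣ) : Matrix (Fin 2) (Fin 2) F)
  have hkk : k * k' = 1 := by
    apply hinj
    rw [hmul, hk, hk', h1, Units.mul_inv]
  have hkk' : k' * k = 1 := by
    apply hinj
    rw [hmul, hk, hk', h1, Units.inv_mul]
  refine ⟨⟨k, k', hkk, hkk'⟩, ?_⟩
  have hee : e * e = e := by
    apply hinj
    rw [hmul]
    rcases hE with hE | hE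
    · rw [hE]
      ext i j
      fin_cases i <;> fin_cases j <;> simp [Matrix.mul_apply, Fin.sum_univ_two]
    · rw [hE]
      ext i j
      fin_cases i <;> fin_cases j <;> simp [Matrix.mul_apply, Fin.sum_univ_two]
  ext y
  constructor
  · rintro ⟨x, rfl⟩ v
    change spl p I (k * e * x) *ᵥ v ∈ ℓ
    rw [hmul, hmul, hk, ← hK, ← Matrix.mulVec_mulVec]
    exact ⟨spl p I x *ᵥ v, rfl⟩
  · intro hy
    have hy' : ∀ v, spl p I y *ᵥ v ∈ ℓ := hy
    refine ⟨e * (k' * y), ?_⟩
    change k * e * (e * (k' * y)) = y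
    have e1 : k * e * (e * (k' * y)) = k * e * k' * y := by
      rw [mul_assoc k e, ← mul_assoc e e, hee]
      simp only [mul_assoc]
    rw [e1]
    apply hinj
    have e2 : ∀ v, (spl p I (k * e * k' * y)) *ᵥ v = spl p I y *ᵥ v := by
      intro v
      have := hy' v
      rw [← hK] at this
      obtain ⟨w, hw⟩ := this
      rw [Matrix.toLin'_apply] at hw
      rw [hmul, ← Matrix.mulVec_mulVec, ← hw, Matrix.mulVec_mulVec, ← hk, ← hmul, ← hmul]
      congr 2
      calc k * e * k' * (k * e) = k * e * (k' * k) * e := by simp only [mul_assoc]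
        _ = k * e := by rw [hkk', mul_one, mul_assoc, hee]
    ext i j
    have := congrFun (e2 (Pi.single j 1)) i
    simpa using this

end field

/-! ### The datum -/

section datum

variable (I : PadicAlgCl p)

instance charZ : CharZero (PadicAlgCl p) :=
  charZero_of_injective_algebraMap (algebraMap ℚ_[p] (PadicAlgCl p)).injective

lemma p_ne : (p : PadicAlgCl p) ≠ 0 := by exact_mod_cast hp.out.ne_zero

omit hp in
lemma spl_e0 {F : Type} [Field F] [CharZero F] (J : F) (hJ : J ^ 2 = -1) :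
    spl p J (⟨1 / 2, -J / 2, 0, 0⟩ : Quat p F) = !![1, 0; 0, 0] ∧
    spl p J (1 - ⟨1 / 2, -J / 2, 0, 0⟩ : Quat p F) = !![0, 0; 0, 1] := by
  have h2 : (2 : F) ≠ 0 := two_ne_zero
  have hJ' : J * J = -1 := by rw [← pow_two]; exact hJ
  constructor
  · ext i j
    fin_cases i <;> fin_cases j <;> simp [spl]
    · field_simp
      linear_combination (-1 : F) * hJ'
    · field_simp
      linear_combination hJ'
  · ext i j
    fin_cases i <;> fin_cases j <;> simp [spl]
    · field_simp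
      linear_combination hJ'
    · field_simp
      linear_combination (-1 : F) * hJ'

lemma e0_idem (hI : I ^ 2 = -1) : eTwin p I * eTwin p I = eTwin p I := by
  have hI' : I * I = -1 := by rw [← pow_two]; exact hI
  refine Prod.ext ?_ ?_
  · ext i j
    fin_cases i <;> fin_cases j <;> simp [eTwin]
  · ext
    · simp [eTwin]
      field_simp
      linear_combination (-1 : PadicAlgCl p) * hI'
    · simp [eTwin]
      field_simp
      ring
    · simp [eTwin]
    · simp [eTwin]

/-- units `s e + (1 - e)` -/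
lemma coch_unit {A : Type} [Ring A] {k : Type} [Field k] [Algebra k A] (e : A) (he : e * e = e)
    (s : k) (hs : s ≠ 0) : ∃ u : Aˣ, (u : A) = s • e + (1 - e) := by
  have key : ∀ a b : k, (a • e + (1 - e)) * (b • e + (1 - e)) = (a * b) • e + (1 - e) := by
    intro a b
    have h1 : e * (1 - e) = 0 := by rw [mul_sub, mul_one, he, sub_self]
    have h2 : (1 - e) * e = 0 := by rw [sub_mul, one_mul, he, sub_self]
    have h3 : (1 - e) * (1 - e) = 1 - e := by rw [mul_sub, mul_one, h2, sub_zero]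
    rw [add_mul, mul_add, mul_add, smul_mul_smul_comm, he, smul_mul_assoc, h1, mul_smul_comm, h2,
      h3, smul_zero, smul_zero, add_zero, zero_add]
  refine ⟨⟨s • e + (1 - e), s⁻¹ • e + (1 - e), ?_, ?_⟩, rfl⟩
  · rw [key, mul_inv_cancel₀ hs, one_smul]
    abel
  · rw [key, inv_mul_cancel₀ hs, one_smul]
    abel

lemma twin_isDatum (hI : I ^ 2 = -1) : (twin p I).IsDatum where
  idem := by
    change blk p (eTwin p I) * blk p (eTwin p I) = blk p (eTwin p I)
    rw [← map_mul, e0_idem p I hI]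
  cochar := by
    intro s hs
    obtain ⟨u, hu⟩ := coch_unit (eTwin p I) (e0_idem p I hI) s hs
    refine ⟨blkU p u, ⟨u, rfl⟩, ?_⟩
    change blk p (u : AA p (PadicAlgCl p)) = s • blk p (eTwin p I) + (1 - blk p (eTwin p I))
    rw [hu, map_add, blk_smul, map_sub, map_one]
  b_mem := ⟨bTwin p, rfl⟩

lemma twin_basic : TwinBasic p := by
  have hc : CharZero (Breve p) := charZero_of_injective_algebraMap
    (algebraMap ℚ_[p] (Breve p)).injective
  have hp0 : (p : Breve p) ≠ 0 := by exact_mod_cast hp.out.ne_zero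
  refine ⟨Prod.ext ?_ ?_, ?_, ?_⟩
  · ext i j
    fin_cases i <;> fin_cases j <;>
      simp [bTwin, aaMap, Matrix.vecMul, dotProduct, Fin.sum_univ_two, map_inv₀]
  · ext <;> simp [bTwin, aaMap, quatMap, map_inv₀, hp0]
  · simp [bTwin]
  · simp [bTwin, rnorm]
    field_simp

/-- the base change of the idempotent -/
lemma map_eTwin (I : PadicAlgCl p) : aaMap p (algebraMap (PadicAlgCl p) ℂ_[p]) (eTwin p I) =
    (!![1, 0; 0, 0], ⟨1 / 2, -(algebraMap (PadicAlgCl p) ℂ_[p] I) / 2, 0, 0⟩) := by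
  have h2 : algebraMap (PadicAlgCl p) ℂ_[p] 2 = 2 := map_ofNat _ 2
  refine Prod.ext ?_ ?_
  · ext i j
    fin_cases i <;> fin_cases j <;> simp [aaMap, eTwin]
  · ext <;> simp [aaMap, quatMap, eTwin, h2]

lemma flag_blk (Y : Datum p Six) (e : AA p (PadicAlgCl p)) (he : Y.e = blk p e)
    (h : AA p ℂ_[p]) : Y.flag (blk p h) =
      sumSub p (ranFl p (h * aaMap p (algebraMap (PadicAlgCl p) ℂ_[p]) e)).1
        (ranFl p (h * aaMap p (algebraMap (PadicAlgCl p) ℂ_[p]) e)).2 := by
  unfold Datum.flag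
  rw [he, map_blk, ← map_mul, ran_blk]

lemma flag_blk' (Y : Datum p Six) (e : AA p (PadicAlgCl p)) (he : Y.e = blk p e)
    (h : AA p ℂ_[p]) : Y.flag' (blk p h) =
      sumSub p (ranFl p (h * aaMap p (algebraMap (PadicAlgCl p) ℂ_[p]) (1 - e))).1
        (ranFl p (h * aaMap p (algebraMap (PadicAlgCl p) ℂ_[p]) (1 - e))).2 := by
  unfold Datum.flag'
  rw [he, ← map_one (blk p), ← map_sub, map_blk, ← map_mul, ran_blk]

lemma two_unit : IsUnit (2 : ℂ_[p]) := isUnit_iff_ne_zero.mpr two_ne_zero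

lemma p_unit : IsUnit (p : ℂ_[p]) := isUnit_iff_ne_zero.mpr (p_ne_zero p)

/-- every pair of a line and the ideal of a line is in the flag variety of `μ` -/
lemma exists_flag (hI : I ^ 2 = -1) {ℓ ℓ' : Submodule ℂ_[p] (Fin 2 → ℂ_[p])}
    (h : Module.finrank ℂ_[p] ℓ = 1) (h' : Module.finrank ℂ_[p] ℓ' = 1) :
    ∃ u ∈ (twin p I).G.pts ℂ_[p],
      sumSub p ℓ (idealOf p (algebraMap (PadicAlgCl p) ℂ_[p] I) ℓ') =
        (twin p I).flag (u : Matrix Six Six ℂ_[p]) := by
  have hI' : (algebraMap (PadicAlgCl p) ℂ_[p] I) ^ 2 = -1 := by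
    rw [← map_pow, hI, map_neg, map_one]
  obtain ⟨k, hk⟩ := line_unit h !![1, 0; 0, 0] (Or.inl rfl)
  obtain ⟨k', hk'⟩ := ideal_unit p _ hI' (two_unit p) (p_unit p) h'
    ⟨1 / 2, -(algebraMap (PadicAlgCl p) ℂ_[p] I) / 2, 0, 0⟩
    (Or.inl (spl_e0 p _ hI').1)
  refine ⟨blkU p (MulEquiv.prodUnits.symm (k, k')), ⟨_, rfl⟩, ?_⟩
  rw [blkU_val, flag_blk p (twin p I) (eTwin p I) rfl, map_eTwin]
  rw [← hk, ← hk']
  rfl

lemma exists_flag' (hI : I ^ 2 = -1) {ℓ ℓ' : Submodule ℂ_[p] (Fin 2 → ℂ_[p])}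
    (h : Module.finrank ℂ_[p] ℓ = 1) (h' : Module.finrank ℂ_[p] ℓ' = 1) :
    ∃ u ∈ (twin p I).G.pts ℂ_[p],
      sumSub p ℓ (idealOf p (algebraMap (PadicAlgCl p) ℂ_[p] I) ℓ') =
        (twin p I).flag' (u : Matrix Six Six ℂ_[p]) := by
  have hI' : (algebraMap (PadicAlgCl p) ℂ_[p] I) ^ 2 = -1 := by
    rw [← map_pow, hI, map_neg, map_one]
  obtain ⟨k, hk⟩ := line_unit h !![0, 0; 0, 1] (Or.inr rfl)
  obtain ⟨k', hk'⟩ := ideal_unit p _ hI' (two_unit p) (p_unit p) h'
    (1 - ⟨1 / 2, -(algebraMap (PadicAlgCl p) ℂ_[p] I) / 2, 0, 0⟩)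
    (Or.inr (spl_e0 p _ hI').2)
  refine ⟨blkU p (MulEquiv.prodUnits.symm (k, k')), ⟨_, rfl⟩, ?_⟩
  have h1 : (1 - !![1, 0; 0, 0] : Matrix (Fin 2) (Fin 2) ℂ_[p]) = !![0, 0; 0, 1] := by
    ext i j
    fin_cases i <;> fin_cases j <;> simp
  rw [blkU_val, flag_blk' p (twin p I) (eTwin p I) rfl, map_sub, map_one, map_eTwin]
  rw [← hk, ← hk', ← h1]
  rfl

lemma finrank_line (η : ℂ_[p]) : Module.finrank ℂ_[p] (lineOf η) = 1 := by
  apply finrank_span_singleton
  intro h
  have := congrFun h 1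
  simp at this

lemma CurveS_sub (hI : I ^ 2 = -1) (η : PadicAlgCl p) : CurveS p I η ⊆ (twin p I).D := by
  rintro q ⟨ℓ, hℓ, rfl⟩
  exact ⟨exists_flag' p I hI (finrank_line p _) hℓ, exists_flag p I hI hℓ (finrank_line p _)⟩

lemma range_eq (Y : Datum p Six) (hle : ∀ (R : Type) [CommRing R] [Algebra ℚ_[p] R],
    Y.G.pts R ≤ (twin p I).G.pts R) (R : Type) [CommRing R] [Algebra ℚ_[p] R] :
    ((pull p Y.G).pts R).map (blkU p) = Y.G.pts R := by
  ext g
  constructor
  · rintro ⟨u, hu, rfl⟩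
    exact hu
  · intro hg
    obtain ⟨u, rfl⟩ := hle R hg
    exact ⟨u, hg, rfl⟩

omit hp in
lemma blkU_injective {R : Type} [CommRing R] : Function.Injective (blkU p (R := R)) := by
  intro u v h
  apply Units.ext
  apply blk_injective p
  exact congrArg Units.val h

lemma strict_pull (Y : Datum p Six) (hle : ∀ (R : Type) [CommRing R] [Algebra ℚ_[p] R],
    Y.G.pts R ≤ (twin p I).G.pts R) (hs : (twin p I).IsStrict Y) : Strict p (pull p Y.G) := by
  intro hcon
  apply hs
  rw [← range_eq p I Y hle (PadicAlgCl p), ← Subgroup.map_commutator, hcon,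
    Subgroup.map_commutator, ← MonoidHom.range_eq_map]
  rfl

lemma HTPeriod_blk (z : AA p (Bcris p)) : HTPeriod (blk p z) = sumSub p (HT p z).1 (HT p z).2 := by
  unfold HTPeriod
  rw [map_blk, ker_blk]
  rfl

lemma HodgePeriod_blk (z : AA p (Bcris p)) :
    HodgePeriod (blk p z) = sumSub p (Hdg p z).1 (Hdg p z).2 := by
  unfold HodgePeriod
  rw [map_blk, ran_blk]
  rfl

/-- conjugates of a proper idempotent are proper -/
lemma conj_ne {A : Type} [Ring A] (a : Aˣ) (x : A) :
    ((a : A) * x * ((a⁻¹ : Aˣ) : A) = 0 → x = 0) ∧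
      ((a : A) * x * ((a⁻¹ : Aˣ) : A) = 1 → x = 1) := by
  constructor
  · intro h
    have h1 := congrArg (fun w => ((a⁻¹ : Aˣ) : A) * w * (a : A)) h
    simpa [mul_assoc] using h1
  · intro h
    have h1 := congrArg (fun w => ((a⁻¹ : Aˣ) : A) * w * (a : A)) h
    simpa [mul_assoc] using h1

lemma special_pull (hI : I ^ 2 = -1) (Y : Datum p Six) (z : AA p (Bcris p))
    (h : (twin p I).InSpecial Y (blk p z)) : Special p (pull p Y.G) (HT p z) := by
  obtain ⟨g, hsub, y, hy, hzy⟩ := h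
  obtain ⟨a, ha, hae⟩ := hsub.conj
  obtain ⟨a0, rfl⟩ := ha
  obtain ⟨g0, rfl⟩ := hsub.g_mem
  have hb := hsub.isDatum.b_mem
  obtain ⟨b0, hb0⟩ := hsub.le _ hb
  obtain ⟨h, hh, hht⟩ := hy.type
  obtain ⟨h0, rfl⟩ := hsub.le _ hh
  set e : AA p (PadicAlgCl p) := (a0 : AA p (PadicAlgCl p)) * eTwin p I *
    ((a0⁻¹ : (AA p (PadicAlgCl p))ˣ) : AA p (PadicAlgCl p)) with he
  have hYe : Y.e = blk p e := by
    rw [hae, he, map_mul, map_mul]
    rfl
  have c1 := conj_ne (MulEquiv.prodUnits a0).1 (eTwin p I).1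
  have c2 := conj_ne (MulEquiv.prodUnits a0).2 (eTwin p I).2
  refine ⟨e, g0, b0⁻¹, ⟨?_, ?_, ?_, ?_, ?_⟩, ?_, ?_, ?_, h0, hh, ?_⟩
  · apply blk_injective p
    rw [map_mul, ← hYe]
    exact hsub.isDatum.idem
  · intro h1
    have := congrFun (congrFun (c1.1 h1) 0) 0
    simp [eTwin] at this
  · intro h1
    have := congrFun (congrFun (c1.2 h1) 1) 1
    simp [eTwin] at this
  · intro h1
    have := congrArg QuaternionAlgebra.re (c2.1 h1)
    simp [eTwin] at this
  · intro h1
    have := congrArg QuaternionAlgebra.re (c2.2 h1)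
    simp [eTwin] at this
  · intro s hs
    obtain ⟨u, hu, hus⟩ := hsub.isDatum.cochar s hs
    obtain ⟨u0, rfl⟩ := hsub.le _ hu
    refine ⟨u0, hu, ?_⟩
    apply blk_injective p
    rw [map_add, map_sub, map_one, blk_smul, ← hYe]
    exact hus
  · change blkU p b0⁻¹ ∈ Y.G.pts (Breve p)
    rw [map_inv, hb0]
    exact inv_mem hb
  · have h1 : (bTwin p : AA p (Breve p)) * aaMap p (sigma p) (g0 : AA p (Breve p)) =
        (g0 : AA p (Breve p)) * (b0 : AA p (Breve p)) := by
      apply blk_injective p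
      rw [map_mul, map_mul, ← map_blk]
      have := hsub.sconj
      rw [← hb0] at this
      exact this
    have h2 : (beta p (Breve p)) * (bTwin p : AA p (Breve p)) = 1 := (bTwin p).inv_val
    calc beta p (Breve p) * (g0 : AA p (Breve p))
        = beta p (Breve p) * ((g0 : AA p (Breve p)) * (b0 : AA p (Breve p))) *
          ((b0⁻¹ : (AA p (Breve p))ˣ) : AA p (Breve p)) := by
          rw [← mul_assoc, mul_assoc _ (b0 : AA p (Breve p)), Units.mul_inv, mul_one]
      _ = _ := by rw [← h1, ← mul_assoc, h2, one_mul]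
  · have h1 : HTPeriod (blk p z) = HTPeriod y := by
      unfold HTPeriod
      rw [hzy, map_mul]
      set A := (thetaB p).mapMatrix ((brB p).mapMatrix ((blkU p g0 : (Matrix Six Six (Breve p))ˣ) :
        Matrix Six Six (Breve p))) with hA
      set A' := (thetaB p).mapMatrix ((brB p).mapMatrix (((blkU p g0)⁻¹ :
        (Matrix Six Six (Breve p))ˣ) : Matrix Six Six (Breve p))) with hA'
      have hAA : A' * A = 1 := by
        rw [hA, hA', ← map_mul, ← map_mul, Units.inv_mul, map_one, map_one]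
      ext v
      rw [LinearMap.mem_ker, LinearMap.mem_ker, Matrix.toLin'_apply, Matrix.toLin'_apply,
        ← Matrix.mulVec_mulVec]
      constructor
      · intro hv
        have := congrArg (fun w => A' *ᵥ w) hv
        simpa [Matrix.mulVec_mulVec, ← mul_assoc, hAA] using this
      · intro hv
        rw [hv, Matrix.mulVec_zero]
    rw [HTPeriod_blk, hht, blkU_val, flag_blk p Y e hYe] at h1
    obtain ⟨h2, h3⟩ := sumSub_inj p h1
    exact Prod.ext h2 h3

/-- the point in the general formulation -/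
lemma point (hI : I ^ 2 = -1) (η : PadicAlgCl p) (z : AA p (Bcris p)) (hz : IsPt p z)
    (hS : (Hdg p z, HT p z) ∈ SS p (algebraMap (PadicAlgCl p) ℂ_[p] I)
      (algebraMap (PadicAlgCl p) ℂ_[p] η)) :
    (twin p I).IsPoint (blk p z) ∧ (HodgePeriod (blk p z), HTPeriod (blk p z)) ∈ CurveS p I η := by
  obtain ⟨ℓ, hℓ, hq⟩ := hS
  obtain ⟨hq1, hq2⟩ := Prod.mk.inj hq
  refine ⟨⟨twinEqs_blk p z, ?_, ?_, ?_⟩, ℓ, hℓ, ?_⟩
  · change (brB p).mapMatrix (blk p (bTwin p : AA p (Breve p))) * (phiB p).mapMatrix (blk p z) =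
      blk p z
    rw [map_blk, map_blk, hz.frob, ← map_mul, ← mul_assoc]
    have h1 : aaMap p (brB p) (bTwin p : AA p (Breve p)) * beta p (Bcris p) = 1 := by
      have h2 : beta p (Bcris p) = aaMap p (brB p) (beta p (Breve p)) := by
        refine Prod.ext ?_ ?_
        · ext i j
          fin_cases i <;> fin_cases j <;> simp [aaMap, beta]
        · ext <;> simp [aaMap, quatMap, beta]
      rw [h2, ← map_mul]
      have h3 : (bTwin p : AA p (Breve p)) * beta p (Breve p) = 1 := (bTwin p).val_inv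
      rw [h3, map_one]
    rw [h1, one_mul]
  · obtain ⟨z', t, ht, h1, h2⟩ := hz.inv
    refine ⟨blk p z', t, ht, ?_, ?_⟩
    · rw [← map_mul, h1, blk_smul, map_one]
    · rw [← map_mul, h2, blk_smul, map_one]
  · rw [HTPeriod_blk, hq2]
    exact exists_flag p I hI hℓ (finrank_line p _)
  · rw [HTPeriod_blk, HodgePeriod_blk, hq1, hq2]

end datum

end Tr

theorem main2_of_main (h : Main p) : ∃ I η : PadicAlgCl p, I ^ 2 = -1 ∧
    η ^ 2 = (p : PadicAlgCl p) ^ 5 ∧ Main2 p I η := by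
  obtain ⟨I, η, hI, hη, z, hz, hS, hH⟩ := h
  obtain ⟨hP, hS'⟩ := Tr.point p I hI η z hz hS
  refine ⟨I, η, hI, hη, Tr.twin_isDatum p I hI, Tr.twin_basic p, Tr.CurveS_sub p I hI η,
    blk p z, hP, hS', ?_, ?_⟩
  · refine ⟨1, ⟨Tr.twin_isDatum p I hI, fun R _ _ => le_rfl, ⟨1, one_mem _, ?_⟩, one_mem _, ?_⟩,
      blk p z, hP, ?_⟩
    · rw [inv_one, Units.val_one, one_mul, mul_one]
    · rw [Units.val_one, map_one, mul_one, one_mul]
    · rw [Units.val_one, map_one, one_mul]
  · intro Y hstr hin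
    have hle := hin.choose_spec.1.le
    exact hH (Tr.pull p Y.G) (Tr.strict_pull p I Y hle hstr) (Tr.special_pull p I hI Y z hin)

end

end TWT
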