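import Pool.Agent.TWT.Deg
import Pool.Agent.TWT.Trans

/-!
# TWT: the degree of `E_S`, proof
-/

namespace TWT

open WittVector Matrix

noncomputable section

namespace Dg

section general

variable {R M N V : Type} [CommRing R] [AddCommGroup M] [Module R M] [AddCommGroup N] [Module R N]
  [AddCommGroup V] [Module R V]

lemma len_aux (ψ : M →ₗ[R] N) (Φ : M →ₗ[R] V) (P Q : Submodule R M)
    (hQ : ∀ a, a ∈ Q ↔ a ∈ P ∧ Φ a = 0) (h0 : ∀ a ∈ P, ψ a = 0 → Φ a = 0)
    (hs : ∀ v, ∃ a ∈ P, Φ a = v) :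
    Module.length R (P.map ψ ⧸ (Q.map ψ).submoduleOf (P.map ψ)) = Module.length R V := by
  let ψP : P →ₗ[R] P.map ψ := ψ.submoduleMap P
  have hψ : Function.Surjective ψP := LinearMap.submoduleMap_surjective ψ P
  let ΦP : P →ₗ[R] V := Φ.comp P.subtype
  have hk : LinearMap.ker ψP ≤ LinearMap.ker ΦP := by
    intro a ha
    rw [LinearMap.mem_ker] at ha ⊢
    exact h0 a.1 a.2 (congrArg Subtype.val ha)
  let g : P.map ψ →ₗ[R] V := ((LinearMap.ker ψP).liftQ ΦP hk).comp
    ((LinearMap.quotKerEquivOfSurjective ψP hψ).symm : P.map ψ →ₗ[R] _)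
  have hg : ∀ a : P, g (ψP a) = Φ a.1 := by
    intro a
    have : (LinearMap.quotKerEquivOfSurjective ψP hψ).symm (ψP a) =
        (LinearMap.ker ψP).mkQ a := by
      rw [LinearEquiv.symm_apply_eq]
      rfl
    change ((LinearMap.ker ψP).liftQ ΦP hk)
      ((LinearMap.quotKerEquivOfSurjective ψP hψ).symm (ψP a)) = _
    rw [this]
    rfl
  have hgs : Function.Surjective g := by
    intro v
    obtain ⟨a, ha, hv⟩ := hs v
    exact ⟨ψP ⟨a, ha⟩, by rw [hg, ← hv]⟩
  have hker : (Q.map ψ).submoduleOf (P.map ψ) = LinearMap.ker g := by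
    ext x
    rw [LinearMap.mem_ker]
    obtain ⟨a, rfl⟩ := hψ x
    rw [hg]
    constructor
    · rintro ⟨b, hb, hab⟩
      obtain ⟨hbP, hb0⟩ := (hQ b).mp hb
      have hab' : ψ b = ψ a.1 := hab
      have h1 : Φ (a.1 - b) = 0 := h0 _ (P.sub_mem a.2 hbP) (by rw [map_sub, hab', sub_self])
      rw [map_sub, hb0, sub_zero] at h1
      exact h1
    · intro h
      exact ⟨a.1, (hQ a.1).mpr ⟨a.2, h⟩, rfl⟩
  rw [hker]
  exact (LinearMap.quotKerEquivOfSurjective g hgs).length_eq

end general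

section field

variable {F : Type} [Field F]

/-- `det (v, A v)` -/
def cf (v : Fin 2 → F) (A : Matrix (Fin 2) (Fin 2) F) : F :=
  v 0 * (A *ᵥ v) 1 - v 1 * (A *ᵥ v) 0

lemma cf_add (v : Fin 2 → F) (A B : Matrix (Fin 2) (Fin 2) F) :
    cf v (A + B) = cf v A + cf v B := by
  simp only [cf, Matrix.add_mulVec, Pi.add_apply]
  ring

lemma cf_sub (v : Fin 2 → F) (A B : Matrix (Fin 2) (Fin 2) F) :
    cf v (A - B) = cf v A - cf v B := by
  simp only [cf, Matrix.sub_mulVec, Pi.sub_apply]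
  ring

lemma cf_smul (v : Fin 2 → F) (c : F) (A : Matrix (Fin 2) (Fin 2) F) :
    cf v (c • A) = c * cf v A := by
  simp only [cf, Matrix.smul_mulVec, Pi.smul_apply, smul_eq_mul]
  ring

lemma cf_neg (v : Fin 2 → F) (A : Matrix (Fin 2) (Fin 2) F) : cf v (-A) = -cf v A := by
  simp only [cf, Matrix.neg_mulVec, Pi.neg_apply]
  ring

lemma cf_eq_zero {v : Fin 2 → F} (hv : v ≠ 0) (A : Matrix (Fin 2) (Fin 2) F) :
    cf v A = 0 ↔ ∀ w ∈ Submodule.span F {v}, A *ᵥ w ∈ Submodule.span F {v} := by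
  constructor
  · intro h w hw
    rw [Submodule.mem_span_singleton] at hw
    obtain ⟨c, rfl⟩ := hw
    rw [Matrix.mulVec_smul]
    apply Submodule.smul_mem
    rw [Submodule.mem_span_singleton]
    unfold cf at h
    by_cases h0 : v 0 = 0
    · have h1 : v 1 ≠ 0 := by
        intro h1
        apply hv
        ext i
        fin_cases i
        · exact h0
        · exact h1
      refine ⟨(A *ᵥ v) 1 / v 1, ?_⟩
      have h2 : (A *ᵥ v) 0 = 0 := by
        rw [h0, zero_mul, zero_sub, neg_eq_zero] at h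
        exact (mul_eq_zero.mp h).resolve_left h1
      ext i
      fin_cases i
      · simp [h0, h2]
      · simp [h1]
    · refine ⟨(A *ᵥ v) 0 / v 0, ?_⟩
      ext i
      fin_cases i
      · simp [h0]
      · change (A *ᵥ v) 0 / v 0 * v 1 = (A *ᵥ v) 1
        field_simp
        linear_combination -h
  · intro h
    obtain ⟨c, hc⟩ := Submodule.mem_span_singleton.mp
      (h v (Submodule.mem_span_singleton_self v))
    unfold cf
    rw [← hc]
    simp
    ring

lemma cf_surj {v : Fin 2 → F} (hv : v ≠ 0) (s : F) :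
    ∃ a b : F, cf v !![0, a; b, 0] = s := by
  by_cases h0 : v 0 = 0
  · have h1 : v 1 ≠ 0 := by
      intro h1
      apply hv
      ext i
      fin_cases i
      · exact h0
      · exact h1
    refine ⟨-s / (v 1) ^ 2, 0, ?_⟩
    simp [cf, Matrix.mulVec, dotProduct, Fin.sum_univ_two]
    field_simp
  · refine ⟨0, s / (v 0) ^ 2, ?_⟩
    simp [cf, Matrix.mulVec, dotProduct, Fin.sum_univ_two]
    field_simp

end field

variable (p : ℕ) [hp : Fact p.Prime]

section ring

variable {R : Type} [CommRing R]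

omit hp in
lemma map_spl {S : Type} [CommRing S] (f : R →+* S) (o : R) (x : Quat p R) :
    (spl p o x).map f = spl p (f o) (quatMap p f x) := by
  ext i j
  fin_cases i <;> fin_cases j <;> simp [spl, quatMap]

omit hp in
lemma aaMap_smul {S : Type} [CommRing S] (f : R →+* S) (r : R) (a : AA p R) :
    aaMap p f (r • a) = f r • aaMap p f a := by
  refine Prod.ext ?_ ?_
  · ext i j
    simp [aaMap]
  · ext <;> simp [aaMap, quatMap]

omit hp in
lemma gz_conj [IsDomain R] {t : R} (ht : t ≠ 0) {z z' n m : AA p R} (h : z * z' = t • 1)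
    (hn : n ∈ lieDer p R) (hm : z' * n * z = t • m) : m ∈ lieDer p R := by
  obtain ⟨h1, h2⟩ := hn
  constructor
  · have e1 : t * m.1.trace = (z'.1 * n.1 * z.1).trace := by
      have := congrArg (fun q : AA p R => q.1.trace) hm
      simp only [Prod.fst_mul, Prod.smul_fst, Matrix.trace_smul, smul_eq_mul] at this
      exact this.symm
    have e2 : (z'.1 * n.1 * z.1).trace = t * n.1.trace := by
      have h' : z.1 * z'.1 = t • 1 := congrArg Prod.fst h
      rw [Matrix.trace_mul_comm, ← mul_assoc, h', smul_mul_assoc, one_mul, Matrix.trace_smul,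
        smul_eq_mul]
    rw [e2, h1, mul_zero] at e1
    exact (mul_eq_zero.mp e1).resolve_left ht
  · have hre : ∀ x y : Quat p R, (x * y).re = (y * x).re := by
      intro x y
      simp
      ring
    have e1 : t * m.2.re = (z'.2 * n.2 * z.2).re := by
      have := congrArg (fun q : AA p R => q.2.re) hm
      simp only [Prod.snd_mul, Prod.smul_snd, QuaternionAlgebra.re_smul, smul_eq_mul] at this
      exact this.symm
    have e2 : (z'.2 * n.2 * z.2).re = t * n.2.re := by
      have h' : z.2 * z'.2 = t • 1 := congrArg Prod.snd h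
      rw [hre, ← mul_assoc, h', smul_mul_assoc, one_mul, QuaternionAlgebra.re_smul, smul_eq_mul]
    rw [e2, h2, mul_zero] at e1
    exact (mul_eq_zero.mp e1).resolve_left ht

omit hp in
lemma tors [IsDomain R] {t : R} (ht : t ≠ 0) {a : AA p R} (h : t • a = 0) : a = 0 := by
  refine Prod.ext ?_ ?_
  · have := congrArg Prod.fst h
    ext i j
    have h1 := congrFun (congrFun this i) j
    simpa [ht] using h1
  · have h2 := congrArg Prod.snd h
    have a0 := congrArg QuaternionAlgebra.re h2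
    have a1 := congrArg QuaternionAlgebra.imI h2
    have a2 := congrArg QuaternionAlgebra.imJ h2
    have a3 := congrArg QuaternionAlgebra.imK h2
    simp [ht] at a0 a1 a2 a3
    exact QuaternionAlgebra.ext a0 a1 a2 a3

end ring

section flags

variable {F : Type} [Field F]

/-- a quaternion with image in `L` -/
lemma colq (I : F) (hI : I ^ 2 = -1) (h2 : IsUnit (2 : F)) (hpu : IsUnit (p : F))
    (L : Submodule F (Fin 2 → F)) (v : Fin 2 → F) (hv : v ∈ L) :
    ∃ q ∈ idealOf p I L, spl p I q *ᵥ ![1, 0] = v := by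
  obtain ⟨q, hq⟩ := (((p_SPL p F I hI).2.2.2.2.2.2) h2 hpu).2 !![v 0, 0; v 1, 0]
  refine ⟨q, ?_, ?_⟩
  · intro u
    rw [hq]
    have : !![v 0, 0; v 1, 0] *ᵥ u = u 0 • v := by
      ext i
      fin_cases i <;> simp [Matrix.mulVec, dotProduct, Fin.sum_univ_two, mul_comm]
    rw [this]
    exact L.smul_mem _ hv
  · rw [hq]
    ext i
    fin_cases i <;> simp [Matrix.mulVec, dotProduct, Fin.sum_univ_two]

lemma ideal_pres (I : F) (hI : I ^ 2 = -1) (h2 : IsUnit (2 : F)) (hpu : IsUnit (p : F))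
    (L : Submodule F (Fin 2 → F)) (N : Quat p F) (h : ∀ q ∈ idealOf p I L, N * q ∈ idealOf p I L) :
    ∀ v ∈ L, spl p I N *ᵥ v ∈ L := by
  intro v hv
  obtain ⟨q, hq, hqv⟩ := colq p I hI h2 hpu L v hv
  have := h q hq ![1, 0]
  rwa [(p_SPL p F I hI).2.1, ← Matrix.mulVec_mulVec, hqv] at this

/-- elements of `M₂ × D` compatible with `Z` preserve the images -/
lemma pres_ran (I : F) (hI : I ^ 2 = -1) (h2 : IsUnit (2 : F)) (hpu : IsUnit (p : F))
    {Z N M : AA p F} {ℓ ℓ' : Submodule F (Fin 2 → F)}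
    (hZ : ranFl p Z = (ℓ', idealOf p I ℓ)) (h : N * Z = Z * M) :
    (∀ v ∈ ℓ', N.1 *ᵥ v ∈ ℓ') ∧ ∀ v ∈ ℓ, spl p I N.2 *ᵥ v ∈ ℓ := by
  obtain ⟨z1, z2⟩ := Prod.mk.inj hZ
  have e1 : N.1 * Z.1 = Z.1 * M.1 := congrArg Prod.fst h
  have e2 : N.2 * Z.2 = Z.2 * M.2 := congrArg Prod.snd h
  constructor
  · intro v hv
    rw [← z1] at hv ⊢
    obtain ⟨u, rfl⟩ := hv
    refine ⟨M.1 *ᵥ u, ?_⟩
    rw [Matrix.toLin'_apply, Matrix.toLin'_apply, Matrix.mulVec_mulVec, Matrix.mulVec_mulVec, e1]
  · apply ideal_pres p I hI h2 hpu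
    intro q hq
    rw [← z2] at hq ⊢
    obtain ⟨u, rfl⟩ := hq
    refine ⟨M.2 * u, ?_⟩
    rw [LinearMap.mulLeft_apply, LinearMap.mulLeft_apply, ← mul_assoc, ← mul_assoc, e2]

/-- elements of `M₂ × D` compatible with `Z` preserve the kernels -/
lemma pres_ker (I : F) (hI : I ^ 2 = -1) (h2 : IsUnit (2 : F)) (hpu : IsUnit (p : F))
    {Z N M : AA p F} {ℓ ℓ' : Submodule F (Fin 2 → F)}
    (hZ : kerFl p Z = (ℓ, idealOf p I ℓ')) (h : N * Z = Z * M) :
    (∀ v ∈ ℓ, M.1 *ᵥ v ∈ ℓ) ∧ ∀ v ∈ ℓ', spl p I M.2 *ᵥ v ∈ ℓ' := by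
  obtain ⟨z1, z2⟩ := Prod.mk.inj hZ
  have e1 : N.1 * Z.1 = Z.1 * M.1 := congrArg Prod.fst h
  have e2 : N.2 * Z.2 = Z.2 * M.2 := congrArg Prod.snd h
  constructor
  · intro v hv
    rw [← z1, LinearMap.mem_ker, Matrix.toLin'_apply] at hv ⊢
    rw [Matrix.mulVec_mulVec, ← e1, ← Matrix.mulVec_mulVec, hv, Matrix.mulVec_zero]
  · apply ideal_pres p I hI h2 hpu
    intro q hq
    rw [← z2, LinearMap.mem_ker, LinearMap.mulLeft_apply] at hq ⊢
    rw [← mul_assoc, ← e2, mul_assoc, hq, mul_zero]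

lemma kill (I : F) (hI : I ^ 2 = -1) {Z Z' N : AA p F} {ℓ ℓ' : Submodule F (Fin 2 → F)}
    (hZ : ranFl p Z = (ℓ', idealOf p I ℓ)) (h : Z' * Z = 0)
    (h1 : ∀ v ∈ ℓ', N.1 *ᵥ v ∈ ℓ') (h2 : ∀ v ∈ ℓ, spl p I N.2 *ᵥ v ∈ ℓ) :
    Z' * N * Z = 0 := by
  obtain ⟨z1, z2⟩ := Prod.mk.inj hZ
  have e1 : Z'.1 * Z.1 = 0 := congrArg Prod.fst h
  have e2 : Z'.2 * Z.2 = 0 := congrArg Prod.snd h
  refine Prod.ext ?_ ?_
  · change Z'.1 * N.1 * Z.1 = 0
    have hv : ∀ v, (Z'.1 * N.1 * Z.1) *ᵥ v = 0 := by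
      intro v
      have ha : Z.1 *ᵥ v ∈ ℓ' := by
        rw [← z1]
        exact ⟨v, rfl⟩
      have hb := h1 _ ha
      rw [← z1] at hb
      obtain ⟨u, hu⟩ := hb
      rw [Matrix.toLin'_apply] at hu
      rw [← Matrix.mulVec_mulVec, ← Matrix.mulVec_mulVec, ← hu, Matrix.mulVec_mulVec, e1,
        Matrix.zero_mulVec]
    ext i j
    have := congrFun (hv (Pi.single j 1)) i
    simpa using this
  · change Z'.2 * N.2 * Z.2 = 0
    have ha : N.2 * Z.2 ∈ idealOf p I ℓ := by
      intro v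
      rw [(p_SPL p F I hI).2.1, ← Matrix.mulVec_mulVec]
      apply h2
      have hb : Z.2 ∈ idealOf p I ℓ := by
        rw [← z2]
        exact ⟨1, by simp⟩
      exact hb v
    rw [← z2] at ha
    obtain ⟨u, hu⟩ := ha
    rw [LinearMap.mulLeft_apply] at hu
    rw [mul_assoc, ← hu, ← mul_assoc, e2, zero_mul]

end flags

section main

variable {R : Type} [CommRing R] {F : Type} [Field F] [Algebra R F]

/-- The functional defining `𝔤° ⊗ O`. -/
def Phi0 (I : F) (x w : Fin 2 → F) : (AA p R × AA p R) →ₗ[R] F × F where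
  toFun q := (cf x (aaMap p (algebraMap R F) q.1).1,
    cf w (spl p I (aaMap p (algebraMap R F) q.1).2))
  map_add' := by
    intro a b
    have hadd : ∀ a b : Quat p F, spl p I (a + b) = spl p I a + spl p I b := by
      intro a b
      ext i j
      fin_cases i <;> fin_cases j <;> simp [spl] <;> ring
    rw [Prod.fst_add, map_add, Prod.fst_add, Prod.snd_add, cf_add, hadd, cf_add]
    rfl
  map_smul' := by
    intro r a
    have hsm : ∀ (c : F) (a : Quat p F), spl p I (c • a) = c • spl p I a := by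
      intro c a
      ext i j
      fin_cases i <;> fin_cases j <;> simp [spl] <;> ring
    rw [Prod.smul_fst, aaMap_smul, Prod.smul_fst, Prod.smul_snd, cf_smul, hsm, cf_smul]
    refine Prod.ext ?_ ?_
    · exact (Algebra.smul_def _ _).symm
    · exact (Algebra.smul_def _ _).symm

/-- The functional defining `E_S`. -/
def PhiS (I : F) (x w : Fin 2 → F) (c : ℤˣ) : (AA p R × AA p R) →ₗ[R] F × F × F where
  toFun q := (cf x (aaMap p (algebraMap R F) q.1).1,
    cf x (spl p I ((c : ℤ) • aaMap p (algebraMap R F) q.2).2),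
    cf w (spl p I (aaMap p (algebraMap R F) q.1).2 - ((c : ℤ) • aaMap p (algebraMap R F) q.2).1))
  map_add' := by
    intro a b
    have hadd : ∀ a b : Quat p F, spl p I (a + b) = spl p I a + spl p I b := by
      intro a b
      ext i j
      fin_cases i <;> fin_cases j <;> simp [spl] <;> ring
    rw [Prod.fst_add, Prod.snd_add, map_add, map_add, smul_add, Prod.fst_add, Prod.snd_add,
      Prod.fst_add, Prod.snd_add, cf_add, hadd, hadd, cf_add, cf_sub, cf_sub, cf_sub, cf_add,
      cf_add]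
    refine Prod.ext rfl (Prod.ext rfl ?_)
    change _ = _ + _
    ring
  map_smul' := by
    intro r a
    have hsm : ∀ (c : F) (a : Quat p F), spl p I (c • a) = c • spl p I a := by
      intro c a
      ext i j
      fin_cases i <;> fin_cases j <;> simp [spl] <;> ring
    have e1 : aaMap p (algebraMap R F) (r • a).1 =
        algebraMap R F r • aaMap p (algebraMap R F) a.1 := by
      rw [Prod.smul_fst, aaMap_smul]
    have e2 : (c : ℤ) • aaMap p (algebraMap R F) (r • a).2 =
        algebraMap R F r • ((c : ℤ) • aaMap p (algebraMap R F) a.2) := by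
      rw [Prod.smul_snd, aaMap_smul, smul_comm (c : ℤ)]
    rw [e1, e2]
    generalize aaMap p (algebraMap R F) a.1 = x1
    generalize (c : ℤ) • aaMap p (algebraMap R F) a.2 = x2
    rw [Prod.smul_fst, Prod.smul_snd, Prod.smul_fst, Prod.smul_snd, cf_smul, hsm, cf_smul, hsm,
      ← smul_sub, cf_smul]
    refine Prod.ext ?_ (Prod.ext ?_ ?_)
    · exact (Algebra.smul_def _ _).symm
    · exact (Algebra.smul_def _ _).symm
    · exact (Algebra.smul_def _ _).symm

/-- lifting trace zero matrices with given value of the functional -/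
lemma lift_mat (hsur : Function.Surjective (algebraMap R F)) {x : Fin 2 → F} (hx : x ≠ 0) (s : F) :
    ∃ n : Matrix (Fin 2) (Fin 2) R, n.trace = 0 ∧ cf x (n.map (algebraMap R F)) = s := by
  obtain ⟨a, b, hab⟩ := cf_surj hx s
  obtain ⟨a', rfl⟩ := hsur a
  obtain ⟨b', rfl⟩ := hsur b
  refine ⟨!![0, a'; b', 0], ?_, ?_⟩
  · simp [Matrix.trace_fin_two]
  · rw [← hab]
    congr 1
    ext i j
    fin_cases i <;> fin_cases j <;> simp

lemma lift_quat [IsDomain R] (hsur : Function.Surjective (algebraMap R F)) (J : R) (hJ : J ^ 2 = -1)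
    (h2 : IsUnit (2 : R)) (hpu : IsUnit (p : R)) {x : Fin 2 → F} (hx : x ≠ 0) (s : F) :
    ∃ n : Quat p R, n.re = 0 ∧
      cf x (spl p (algebraMap R F J) (quatMap p (algebraMap R F) n)) = s := by
  obtain ⟨m, hm, hs⟩ := lift_mat hsur hx s
  obtain ⟨n, hn⟩ := (((p_SPL p R J hJ).2.2.2.2.2.2) h2 hpu).2 m
  refine ⟨n, ?_, ?_⟩
  · have : (spl p J n).trace = 2 * n.re := by
      simp [spl, Matrix.trace_fin_two]
      ring
    rw [hn, hm] at this
    exact (mul_eq_zero.mp this.symm).resolve_left h2.ne_zero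
  · rw [← map_spl, hn, hs]

omit hp in
/-- products with `z` -/
lemma hrel [IsDomain R] {t : R} (ht0 : t ≠ 0) {z z' : AA p R} (hz : z * z' = t • 1)
    (q : AA p R × AA p R) (hq : germ p t z z' q = 0) :
    aaMap p (algebraMap R F) q.1 * aaMap p (algebraMap R F) z =
      aaMap p (algebraMap R F) z * -(aaMap p (algebraMap R F) q.2) := by
  have h1 : z' * q.1 * z + t • q.2 = 0 := hq
  have h2 : t • (q.1 * z + z * q.2) = 0 := by
    calc t • (q.1 * z + z * q.2) = (t • 1) * q.1 * z + z * (t • q.2) := by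
          rw [smul_add, smul_mul_assoc, one_mul, smul_mul_assoc, mul_smul_comm]
      _ = z * (z' * q.1 * z + t • q.2) := by
          rw [← hz, mul_add]
          simp only [mul_assoc]
      _ = 0 := by rw [h1, mul_zero]
  have h3 := tors p ht0 h2
  have h4 : q.1 * z = z * -q.2 := by
    rw [mul_neg]
    exact eq_neg_of_add_eq_zero_left h3
  rw [← map_mul, h4, map_mul, map_neg]

omit hp in
/-- divisibility of elements of `M₂ × D` -/
lemma div_aa {t : R} (hdiv : ∀ r : R, algebraMap R F r = 0 → ∃ s, r = t * s) (a : AA p R)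
    (ha : aaMap p (algebraMap R F) a = 0) : ∃ b, a = t • b := by
  have h1 := congrArg Prod.fst ha
  have h2 := congrArg Prod.snd ha
  have k1 : ∀ i j, algebraMap R F (a.1 i j) = 0 := fun i j => congrFun (congrFun h1 i) j
  choose f hf using fun i j => hdiv _ (k1 i j)
  obtain ⟨b0, hb0⟩ := hdiv _ (congrArg QuaternionAlgebra.re h2 : algebraMap R F a.2.re = 0)
  obtain ⟨b1, hb1⟩ := hdiv _ (congrArg QuaternionAlgebra.imI h2 : algebraMap R F a.2.imI = 0)
  obtain ⟨b2, hb2⟩ := hdiv _ (congrArg QuaternionAlgebra.imJ h2 : algebraMap R F a.2.imJ = 0)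
  obtain ⟨b3, hb3⟩ := hdiv _ (congrArg QuaternionAlgebra.imK h2 : algebraMap R F a.2.imK = 0)
  refine ⟨(Matrix.of f, ⟨b0, b1, b2, b3⟩), Prod.ext ?_ ?_⟩
  · ext i j
    simp [hf i j]
  · ext
    · simpa using hb0
    · simpa using hb1
    · simpa using hb2
    · simpa using hb3

omit hp in
lemma mem_cf {v : Fin 2 → F} (hv : v ≠ 0) {A : Matrix (Fin 2) (Fin 2) F}
    (h : ∀ u ∈ Submodule.span F {v}, A *ᵥ u ∈ Submodule.span F {v}) : cf v A = 0 :=
  (cf_eq_zero hv A).mpr h

lemma degS_aux [IsDomain R] (t : R) (ht0 : t ≠ 0) (hθt : algebraMap R F t = 0)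
    (hdiv : ∀ r : R, algebraMap R F r = 0 → ∃ s, r = t * s)
    (hsur : Function.Surjective (algebraMap R F)) (z z' : AA p R) (hz : z * z' = t • 1)
    (hz' : z' * z = t • 1) (I₁ : F) (hI1 : I₁ ^ 2 = -1) (u2R : IsUnit (2 : R))
    (upR : IsUnit (p : R)) (u2F : IsUnit (2 : F)) (upF : IsUnit (p : F)) (J : R)
    (hJ : J ^ 2 = -1) (hI₁ : I₁ = algebraMap R F J) (η₁ : F) (w : Fin 2 → F) (hw : w ≠ 0)
    (hx : (![-η₁, 1] : Fin 2 → F) ≠ 0)
    (hran : ranFl p (aaMap p (algebraMap R F) z) = (lineOf η₁, idealOf p I₁ (Submodule.span F {w})))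
    (hker : kerFl p (aaMap p (algebraMap R F) z) = (Submodule.span F {w}, idealOf p I₁ (lineOf η₁)))
    (c : ℤˣ) :
    LatTriv p t z z' ≤ LatMax p t z z' ∧
    LatS p (algebraMap R F) I₁ η₁ (Submodule.span F {w}) c t z z' ≤ LatMax p t z z' ∧
    Module.length R (LatMax p t z z' ⧸ (LatTriv p t z z').submoduleOf (LatMax p t z z')) = 2 ∧
    Module.length R (LatMax p t z z' ⧸
      (LatS p (algebraMap R F) I₁ η₁ (Submodule.span F {w}) c t z z').submoduleOf
        (LatMax p t z z')) = 3 := by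
  have hline : lineOf η₁ = Submodule.span F {![-η₁, 1]} := rfl
  have hZ' : aaMap p (algebraMap R F) z' * aaMap p (algebraMap R F) z = 0 := by
    rw [← map_mul, hz', aaMap_smul, hθt, zero_smul]
  have hsneg : ∀ a : Quat p F, spl p I₁ (-a) = -spl p I₁ a := by
    intro a
    ext i j
    fin_cases i <;> fin_cases j <;> simp [spl] <;> ring
  have hs0 : spl p I₁ (0 : Quat p F) = 0 := by
    ext i j
    fin_cases i <;> fin_cases j <;> simp [spl]
  refine ⟨?_, ?_, ?_, ?_⟩
  · exact Submodule.map_mono (Submodule.prod_mono bot_le le_rfl)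
  · apply Submodule.map_mono
    intro q hq
    exact ⟨hq.1, hq.2.1⟩
  · -- length two
    let Q : Submodule R (AA p R × AA p R) := ((lieDer p R).prod (lieDer p R)) ⊓
      LinearMap.ker (Phi0 p I₁ ![-η₁, 1] w)
    have hLt : LatTriv p t z z' = Q.map (germ p t z z') := by
      apply le_antisymm
      · rintro _ ⟨q, ⟨hq1, hq2⟩, rfl⟩
        have h0 : q.1 = 0 := hq1
        refine ⟨q, ⟨⟨?_, hq2⟩, ?_⟩, rfl⟩
        · change q.1 ∈ lieDer p R
          rw [h0]
          exact Submodule.zero_mem _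
        · change (cf ![-η₁, 1] (aaMap p (algebraMap R F) q.1).1,
            cf w (spl p I₁ (aaMap p (algebraMap R F) q.1).2)) = 0
          rw [h0, map_zero]
          change (cf ![-η₁, 1] (0 : Matrix (Fin 2) (Fin 2) F), cf w (spl p I₁ (0 : Quat p F))) = 0
          rw [hs0]
          simp [cf]
      · rintro _ ⟨q, ⟨⟨hq1, hq2⟩, hq3⟩, rfl⟩
        have hq3' : (cf ![-η₁, 1] (aaMap p (algebraMap R F) q.1).1,
            cf w (spl p I₁ (aaMap p (algebraMap R F) q.1).2)) = 0 := hq3
        obtain ⟨c1, c2⟩ := Prod.mk.inj hq3'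
        have k := kill p I₁ hI1 hran hZ' ((cf_eq_zero hx _).mp c1) ((cf_eq_zero hw _).mp c2)
        rw [← map_mul, ← map_mul] at k
        obtain ⟨b, hb⟩ := div_aa p hdiv _ k
        refine ⟨(0, b + q.2), ⟨rfl, Submodule.add_mem _ (gz_conj p ht0 hz hq1 hb) hq2⟩, ?_⟩
        change z' * 0 * z + t • (b + q.2) = z' * q.1 * z + t • q.2
        rw [hb, mul_zero, zero_mul, zero_add, smul_add]
    rw [hLt]
    unfold LatMax
    rw [len_aux (germ p t z z') (Phi0 p I₁ ![-η₁, 1] w) _ Q (fun a => Iff.rfl)]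
    · rw [Module.length_eq_of_surjective hsur, Module.length_eq_finrank]
      simp
    · intro q hq h0
      obtain ⟨h1, h2⟩ := pres_ran p I₁ hI1 u2F upF hran (hrel p ht0 hz q h0)
      exact Prod.ext (mem_cf hx h1) (mem_cf hw h2)
    · rintro ⟨a, b⟩
      obtain ⟨n1, hn1, hv1⟩ := lift_mat hsur hx a
      obtain ⟨n2, hn2, hv2⟩ := lift_quat p hsur J hJ u2R upR hw b
      refine ⟨((n1, n2), 0), ⟨⟨hn1, hn2⟩, Submodule.zero_mem _⟩, ?_⟩
      refine Prod.ext hv1 ?_
      rw [hI₁]
      exact hv2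
  · -- length three
    unfold LatS LatMax
    rw [len_aux (germ p t z z') (PhiS p I₁ ![-η₁, 1] w c) _
      (tangentPairs p (algebraMap R F) (TangentS p I₁ η₁ (Submodule.span F {w})) c)]
    · rw [Module.length_eq_of_surjective hsur, Module.length_eq_finrank]
      simp
    · intro q
      constructor
      · rintro ⟨h1, h2, h3, h4, h5⟩
        refine ⟨⟨h1, h2⟩, Prod.ext (mem_cf hx h3) (Prod.ext (mem_cf hx h4) (mem_cf hw h5))⟩
      · rintro ⟨⟨h1, h2⟩, h3⟩
        obtain ⟨c1, c23⟩ := Prod.mk.inj h3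
        obtain ⟨c2, c3⟩ := Prod.mk.inj c23
        exact ⟨h1, h2, (cf_eq_zero hx _).mp c1, (cf_eq_zero hx _).mp c2, (cf_eq_zero hw _).mp c3⟩
    · intro q hq h0
      have hr := hrel p (F := F) ht0 hz q h0
      obtain ⟨h1, h2⟩ := pres_ran p I₁ hI1 u2F upF hran hr
      obtain ⟨h3, h4⟩ := pres_ker p I₁ hI1 u2F upF hker hr
      have e3 : cf w (aaMap p (algebraMap R F) q.2).1 = 0 := by
        have := mem_cf hw h3
        have h5 : (-(aaMap p (algebraMap R F) q.2)).1 =
            (-1 : F) • (aaMap p (algebraMap R F) q.2).1 := by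
          rw [Prod.fst_neg, neg_one_smul]
        rw [h5, cf_smul] at this
        simpa using this
      have e4 : cf ![-η₁, 1] (spl p I₁ (aaMap p (algebraMap R F) q.2).2) = 0 := by
        have := mem_cf hx h4
        have h5 : spl p I₁ (-(aaMap p (algebraMap R F) q.2)).2 =
            (-1 : F) • spl p I₁ (aaMap p (algebraMap R F) q.2).2 := by
          rw [Prod.snd_neg, hsneg, neg_one_smul]
        rw [h5, cf_smul] at this
        simpa using this
      refine Prod.ext (mem_cf hx h1) (Prod.ext ?_ ?_)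
      · change cf ![-η₁, 1] (spl p I₁ ((c : ℤ) • aaMap p (algebraMap R F) q.2).2) = 0
        rcases Int.units_eq_one_or c with rfl | rfl
        · simpa using e4
        · have h5 : spl p I₁ ((((-1 : ℤˣ) : ℤ)) • aaMap p (algebraMap R F) q.2).2 =
              (-1 : F) • spl p I₁ (aaMap p (algebraMap R F) q.2).2 := by
            rw [Units.val_neg, Units.val_one, neg_one_zsmul, Prod.snd_neg, hsneg, neg_one_smul]
          rw [h5, cf_smul, e4, mul_zero]
      · change cf w (spl p I₁ (aaMap p (algebraMap R F) q.1).2 -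
          ((c : ℤ) • aaMap p (algebraMap R F) q.2).1) = 0
        rw [cf_sub, mem_cf hw h2, zero_sub, neg_eq_zero]
        rcases Int.units_eq_one_or c with rfl | rfl
        · simpa using e3
        · have h5 : ((((-1 : ℤˣ) : ℤ)) • aaMap p (algebraMap R F) q.2).1 =
              (-1 : F) • (aaMap p (algebraMap R F) q.2).1 := by
            rw [Units.val_neg, Units.val_one, neg_one_zsmul, Prod.fst_neg, neg_one_smul]
          rw [h5, cf_smul, e3, mul_zero]
    · rintro ⟨a, b, d⟩
      obtain ⟨n1, hn1, hv1⟩ := lift_mat hsur hx a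
      obtain ⟨n2, hn2, hv2⟩ := lift_quat p hsur J hJ u2R upR hw d
      obtain ⟨m2, hm2, hv3⟩ := lift_quat p hsur J hJ u2R upR hx (((c : ℤ) : F) * b)
      refine ⟨((n1, n2), (0, m2)), ⟨⟨hn1, hn2⟩, ⟨by simp, hm2⟩⟩, ?_⟩
      refine Prod.ext hv1 (Prod.ext ?_ ?_)
      · change cf ![-η₁, 1] (spl p I₁ ((c : ℤ) • quatMap p (algebraMap R F) m2)) = b
        rcases Int.units_eq_one_or c with rfl | rfl
        · rw [hI₁]
          simpa using hv3
        · rw [Units.val_neg, Units.val_one, neg_one_zsmul, hsneg]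
          rw [cf_neg, hI₁, hv3]
          simp
      · change cf w (spl p I₁ (quatMap p (algebraMap R F) n2) -
          ((c : ℤ) • ((0 : Matrix (Fin 2) (Fin 2) R).map (algebraMap R F)))) = d
        have h0 : ((0 : Matrix (Fin 2) (Fin 2) R).map (algebraMap R F)) = 0 :=
          Matrix.map_zero _ (map_zero _)
        rw [h0, smul_zero, sub_zero, hI₁]
        exact hv2

end main

end Dg

open Dg in
theorem degS (p : ℕ) [hp : Fact p.Prime] (I η : PadicAlgCl p) (hI : I ^ 2 = -1) :
    DegreeCount p I η := by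
  intro R _ _ _ _ t z z' ℓ I₁ η₁ c hI₁ hη₁ ht hz hz' hℓ hran hker
  have hsur : Function.Surjective (algebraMap R (IsLocalRing.ResidueField R)) :=
    IsLocalRing.residue_surjective
  have hI1 : I₁ ^ 2 = -1 := by
    rw [hI₁, ← map_pow, ← map_pow, hI, map_neg, map_neg, map_one, map_one]
  have u2 : IsUnit (2 : PadicAlgCl p) := isUnit_iff_ne_zero.mpr two_ne_zero
  have up : IsUnit (p : PadicAlgCl p) := isUnit_iff_ne_zero.mpr (Tr.p_ne p)
  have u2R : IsUnit (2 : R) := by
    have := u2.map (algebraMap (PadicAlgCl p) R)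
    rwa [map_ofNat] at this
  have upR : IsUnit (p : R) := by
    have := up.map (algebraMap (PadicAlgCl p) R)
    rwa [map_natCast] at this
  have u2F : IsUnit (2 : IsLocalRing.ResidueField R) := by
    have := u2R.map (algebraMap R (IsLocalRing.ResidueField R))
    rwa [map_ofNat] at this
  have upF : IsUnit (p : IsLocalRing.ResidueField R) := by
    have := upR.map (algebraMap R (IsLocalRing.ResidueField R))
    rwa [map_natCast] at this
  have ht0 : t ≠ 0 := ht.ne_zero
  have hθt : algebraMap R (IsLocalRing.ResidueField R) t = 0 := by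
    change IsLocalRing.residue R t = 0
    rw [IsLocalRing.residue_eq_zero_iff, ht.maximalIdeal_eq]
    exact Ideal.mem_span_singleton_self t
  have hdiv : ∀ r : R, algebraMap R (IsLocalRing.ResidueField R) r = 0 → ∃ s, r = t * s := by
    intro r hr
    have : IsLocalRing.residue R r = 0 := hr
    rw [IsLocalRing.residue_eq_zero_iff, ht.maximalIdeal_eq, Ideal.mem_span_singleton] at this
    exact this
  obtain ⟨w, hw, rfl⟩ := Tr.line_span hℓ
  have hx : (![-η₁, 1] : Fin 2 → IsLocalRing.ResidueField R) ≠ 0 := by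
    intro h
    have := congrFun h 1
    simp at this
  exact degS_aux p t ht0 hθt hdiv hsur z z' hz hz' I₁ hI1 u2R upR u2F upF (algebraMap _ R I)
    (by rw [← map_pow, hI, map_neg, map_one]) hI₁ η₁ w hw hx hran hker c

end

end TWT
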