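import Pool.Agent.TWT.Trans3
import Pool.Agent.TWT.DegP

/-!
# The degree count in the formulation of `State`
-/

namespace Crys

open Matrix

noncomputable section

namespace D2

section general

variable {R M N : Type} [CommRing R] [AddCommGroup M] [Module R M] [AddCommGroup N] [Module R N]

theorem len_map (f : M →ₗ[R] N) (hf : Function.Injective f) (A B : Submodule R M) (hBA : B ≤ A) :
    Module.length R (A.map f ⧸ (B.map f).submoduleOf (A.map f)) =
      Module.length R (A ⧸ B.submoduleOf A) := by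
  have h1 : (⊤ : Submodule R A).map (f.comp A.subtype) = A.map f := by
    rw [Submodule.map_comp, Submodule.map_top, Submodule.range_subtype]
  have h2 : (B.submoduleOf A).map (f.comp A.subtype) = B.map f := by
    rw [Submodule.map_comp]
    congr 1
    rw [Submodule.submoduleOf, Submodule.map_comap_subtype]
    exact inf_eq_right.mpr hBA
  have h3 := TWT.Dg.len_aux (f.comp A.subtype) (B.submoduleOf A).mkQ ⊤ (B.submoduleOf A)
    (fun a => by simp) (fun a _ ha => by
      have : (a : M) = 0 := hf (by rw [map_zero]; exact ha)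
      have h0 : a = 0 := Subtype.ext this
      rw [h0, map_zero])
    (fun v => by
      obtain ⟨a, rfl⟩ := (B.submoduleOf A).mkQ_surjective v
      exact ⟨a, trivial, rfl⟩)
  rw [h1, h2] at h3
  exact h3

theorem colength_map (f : M →ₗ[R] N) (hf : Function.Injective f) (A B : Submodule R M) (n : ℕ)
    (hBA : B ≤ A) (h : Module.length R (A ⧸ B.submoduleOf A) = n) :
    HasColength (A.map f) (B.map f) n :=
  ⟨Submodule.map_mono hBA, (len_map f hf A B hBA).trans h⟩

end general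

variable (p : ℕ) [hp : Fact p.Prime] {R F : Type} [CommRing R] [Field F]

/-- `M₂ × D → M₆` as a linear map. -/
def blkL : TWT.AA p R →ₗ[R] Matrix Six Six R where
  toFun := TWT.blk p
  map_add' := map_add _
  map_smul' := TWT.Tr.blk_smul p

omit hp in
theorem blkL_injective : Function.Injective (blkL p (R := R)) := TWT.Tr.blk_injective p

/-- The pair with given coordinates. -/
def pr (a : Matrix (Fin 2) (Fin 2) R) (x : Fin 4 → R) : TWT.AA p R := (a, TWT.quatOf p x)

/-- The coordinates. -/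
def co (q : TWT.AA p R) : Fin 4 → R := ![q.2.re, q.2.imI, q.2.imJ, q.2.imK]

omit hp in
theorem blk_pr (a : Matrix (Fin 2) (Fin 2) R) (x : Fin 4 → R) :
    blk p a x = TWT.blk p (pr p a x) := rfl

omit hp in
theorem pr_co (q : TWT.AA p R) : pr p q.1 (co p q) = q := rfl

omit hp in
theorem blk_co (q : TWT.AA p R) : blk p q.1 (co p q) = TWT.blk p q := rfl

omit hp in
theorem germ_eq (t : R) (Z Z' : TWT.AA p R) (a : Matrix (Fin 2) (Fin 2) R) (x : Fin 4 → R)
    (a' : Matrix (Fin 2) (Fin 2) R) (x' : Fin 4 → R) :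
    germ p t (TWT.blk p Z) (TWT.blk p Z') a x a' x' =
      blkL p (TWT.germ p t Z Z' (pr p a x, pr p a' x')) := by
  change TWT.blk p Z' * TWT.blk p (pr p a x) * TWT.blk p Z + t • TWT.blk p (pr p a' x') =
    TWT.blk p (Z' * pr p a x * Z + t • pr p a' x')
  rw [map_add, map_mul, map_mul, TWT.Tr.blk_smul]

omit hp in
theorem latMax_eq (t : R) (Z Z' : TWT.AA p R) :
    latMax p t (TWT.blk p Z) (TWT.blk p Z') = (TWT.LatMax p t Z Z').map (blkL p) := by
  have : {y | ∃ a x a' x', IsLie a x ∧ IsLie a' x' ∧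
      y = germ p t (TWT.blk p Z) (TWT.blk p Z') a x a' x'} =
      (((TWT.LatMax p t Z Z').map (blkL p) : Submodule R (Matrix Six Six R)) :
        Set (Matrix Six Six R)) := by
    ext y
    constructor
    · rintro ⟨a, x, a', x', h1, h2, rfl⟩
      rw [germ_eq]
      exact ⟨_, ⟨(pr p a x, pr p a' x'), ⟨h1, h2⟩, rfl⟩, rfl⟩
    · rintro ⟨_, ⟨q, ⟨h1, h2⟩, rfl⟩, rfl⟩
      refine ⟨q.1.1, co p q.1, q.2.1, co p q.2, h1, h2, ?_⟩
      rw [germ_eq]
      rfl
  unfold latMax
  rw [this, Submodule.span_eq]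

omit hp in
theorem latTriv_eq (t : R) (Z Z' : TWT.AA p R) :
    latTriv p t (TWT.blk p Z) (TWT.blk p Z') = (TWT.LatTriv p t Z Z').map (blkL p) := by
  have hz : pr p (0 : Matrix (Fin 2) (Fin 2) R) 0 = 0 := rfl
  have : {y | ∃ a' x', IsLie a' x' ∧
      y = germ p t (TWT.blk p Z) (TWT.blk p Z') 0 0 a' x'} =
      (((TWT.LatTriv p t Z Z').map (blkL p) : Submodule R (Matrix Six Six R)) :
        Set (Matrix Six Six R)) := by
    ext y
    constructor
    · rintro ⟨a', x', h2, rfl⟩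
      rw [germ_eq]
      exact ⟨_, ⟨(pr p 0 0, pr p a' x'), ⟨hz, h2⟩, rfl⟩, rfl⟩
    · rintro ⟨_, ⟨q, ⟨h1, h2⟩, rfl⟩, rfl⟩
      refine ⟨q.2.1, co p q.2, h2, ?_⟩
      have h1' : q.1 = 0 := h1
      rw [germ_eq, hz, ← h1']
      rfl
  unfold latTriv
  rw [this, Submodule.span_eq]

theorem pres_iff (v : Fin 2 → F) (M : Matrix (Fin 2) (Fin 2) F) :
    M *ᵥ v ∈ line v ↔ ∀ u ∈ Submodule.span F {v}, M *ᵥ u ∈ Submodule.span F {v} := by
  constructor
  · intro h u hu
    obtain ⟨c, rfl⟩ := Submodule.mem_span_singleton.mp hu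
    rw [Matrix.mulVec_smul]
    exact Submodule.smul_mem _ _ ((T2.mem_line v _).mp h)
  · intro h
    exact (T2.mem_line v _).mpr (h v (Submodule.mem_span_singleton_self v))

omit hp in
theorem tangent_iff (I η : F) (v : Fin 2 → F) (n m : TWT.AA p F) :
    IsTangent p I η v n.1 (co p n) m.1 (co p m) ↔
      (n, m) ∈ TWT.TangentS p I η (Submodule.span F {v}) := by
  constructor
  · rintro ⟨h1, h2, h3⟩
    exact ⟨(pres_iff _ _).mp h1, (pres_iff _ _).mp h2, (pres_iff _ _).mp h3⟩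
  · rintro ⟨h1, h2, h3⟩
    exact ⟨(pres_iff _ _).mpr h1, (pres_iff _ _).mpr h2, (pres_iff _ _).mpr h3⟩

omit hp in
theorem latS_eq (θ : R →+* F) (I η : F) (v : Fin 2 → F) (c : ℤˣ) (t : R) (Z Z' : TWT.AA p R) :
    latS p θ I η v (c : ℤ) t (TWT.blk p Z) (TWT.blk p Z') =
      (TWT.LatS p θ I η (Submodule.span F {v}) c t Z Z').map (blkL p) := by
  have : {y | ∃ a x a' x', IsLie a x ∧ IsLie a' x' ∧
      IsTangent p I η v (a.map θ) (fun i => θ (x i)) ((c : ℤ) • a'.map θ)
        (fun i => (c : ℤ) • θ (x' i)) ∧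
      y = germ p t (TWT.blk p Z) (TWT.blk p Z') a x a' x'} =
      (((TWT.LatS p θ I η (Submodule.span F {v}) c t Z Z').map (blkL p) :
        Submodule R (Matrix Six Six R)) : Set (Matrix Six Six R)) := by
    ext y
    constructor
    · rintro ⟨a, x, a', x', h1, h2, h3, rfl⟩
      rw [germ_eq]
      refine ⟨_, ⟨(pr p a x, pr p a' x'), ⟨h1, h2, ?_⟩, rfl⟩, rfl⟩
      exact (tangent_iff p I η v (TWT.aaMap p θ (pr p a x))
        ((c : ℤ) • TWT.aaMap p θ (pr p a' x'))).mp h3
    · rintro ⟨_, ⟨q, ⟨h1, h2, h3⟩, rfl⟩, rfl⟩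
      refine ⟨q.1.1, co p q.1, q.2.1, co p q.2, h1, h2, ?_, ?_⟩
      · exact (tangent_iff p I η v (TWT.aaMap p θ q.1) ((c : ℤ) • TWT.aaMap p θ q.2)).mpr h3
      · rw [germ_eq]
        rfl
  unfold latS
  rw [this, Submodule.span_eq]

omit hp in
/-- the periods -/
theorem ran_of_hodge (θ : R →+* F) (I : F) (v w : Fin 2 → F) (Z : TWT.AA p R)
    (h : hodge θ (TWT.blk p Z) = flagS p I v w) :
    TWT.ranFl p (TWT.aaMap p θ Z) =
      (Submodule.span F {v}, TWT.idealOf p I (Submodule.span F {w})) := by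
  have h1 : LinearMap.range (Matrix.toLin' (TWT.blk p (TWT.aaMap p θ Z))) =
      TWT.sumSub p (Submodule.span F {v}) (TWT.idealOf p I (Submodule.span F {w})) := by
    ext u
    rw [← TWT.Tr.map_blk]
    have h2 := Set.ext_iff.mp h u
    exact ((T2.mem_im _ u).symm.trans h2).trans (T2.mem_flagS p I v w u)
  rw [TWT.Tr.ran_blk] at h1
  obtain ⟨a, b⟩ := TWT.Tr.sumSub_inj p h1
  exact Prod.ext a b

omit hp in
theorem ker_of_hodgeTate (θ : R →+* F) (I : F) (v w : Fin 2 → F) (Z : TWT.AA p R)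
    (h : hodgeTate θ (TWT.blk p Z) = flagS p I v w) :
    TWT.kerFl p (TWT.aaMap p θ Z) =
      (Submodule.span F {v}, TWT.idealOf p I (Submodule.span F {w})) := by
  have h1 : LinearMap.ker (Matrix.toLin' (TWT.blk p (TWT.aaMap p θ Z))) =
      TWT.sumSub p (Submodule.span F {v}) (TWT.idealOf p I (Submodule.span F {w})) := by
    ext u
    rw [← TWT.Tr.map_blk]
    have h2 := Set.ext_iff.mp h u
    exact ((T2.mem_ker _ u).symm.trans h2).trans (T2.mem_flagS p I v w u)
  rw [TWT.Tr.ker_blk] at h1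
  obtain ⟨a, b⟩ := TWT.Tr.sumSub_inj p h1
  exact Prod.ext a b

end D2

open D2 in
theorem degreeCount (p : ℕ) [hp : Fact p.Prime] (I η : Qb p) (hI : I ^ 2 = -1) :
    DegreeCount p I η := by
  intro R F _ _ _ _ _ θ t z z' hsur ht hz hz' hzz v c hv hc hh hht
  obtain ⟨a, x, rfl⟩ := hz
  obtain ⟨a', x', rfl⟩ := hz'
  set Z : TWT.AA p R := pr p a x with hZ
  set Z' : TWT.AA p R := pr p a' x' with hZ'
  have e1 : blk p a x = TWT.blk p Z := rfl
  have e2 : blk p a' x' = TWT.blk p Z' := rfl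
  rw [e1] at hzz hh hht ⊢
  rw [e2] at hzz ⊢
  obtain ⟨g1, g2⟩ := hzz
  have f1 : Z * Z' = t • 1 := by
    apply TWT.Tr.blk_injective p
    rw [map_mul, TWT.Tr.blk_smul, map_one]
    exact g1
  have f2 : Z' * Z = t • 1 := by
    apply TWT.Tr.blk_injective p
    rw [map_mul, TWT.Tr.blk_smul, map_one]
    exact g2
  let _ : Algebra R F := θ.toAlgebra
  have hθ : algebraMap R F = θ := rfl
  have hc0 : CharZero (Qb p) := TWT.Tr.charZ p
  have u2 : IsUnit (2 : Qb p) := isUnit_iff_ne_zero.mpr two_ne_zero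
  have up : IsUnit (p : Qb p) := isUnit_iff_ne_zero.mpr (TWT.Tr.p_ne p)
  have u2R : IsUnit (2 : R) := by
    have := u2.map (algebraMap (Qb p) R)
    rwa [map_ofNat] at this
  have upR : IsUnit (p : R) := by
    have := up.map (algebraMap (Qb p) R)
    rwa [map_natCast] at this
  have u2F : IsUnit (2 : F) := by
    have := u2R.map θ
    rwa [map_ofNat] at this
  have upF : IsUnit (p : F) := by
    have := upR.map θ
    rwa [map_natCast] at this
  have hmax : RingHom.ker θ = Ideal.span {t} := by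
    have h1 : (RingHom.ker θ).IsMaximal := RingHom.ker_isMaximal_of_surjective θ hsur
    rw [IsLocalRing.eq_maximalIdeal h1, ht.maximalIdeal_eq]
  have hθt : θ t = 0 := by
    rw [← RingHom.mem_ker, hmax]
    exact Ideal.mem_span_singleton_self t
  have hdiv : ∀ r : R, θ r = 0 → ∃ s, r = t * s := by
    intro r hr
    rw [← RingHom.mem_ker, hmax, Ideal.mem_span_singleton] at hr
    exact hr
  have hJ : (algebraMap (Qb p) R I) ^ 2 = -1 := by rw [← map_pow, hI, map_neg, map_one]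
  have hI1 : (θ (algebraMap (Qb p) R I)) ^ 2 = -1 := by rw [← map_pow, hJ, map_neg, map_one]
  have hx : (![-(θ (algebraMap (Qb p) R η)), 1] : Fin 2 → F) ≠ 0 := by
    intro h
    have := congrFun h 1
    simp at this
  obtain ⟨c', rfl⟩ : ∃ c' : ℤˣ, c = (c' : ℤ) := by
    rcases hc with rfl | rfl
    · exact ⟨1, rfl⟩
    · exact ⟨-1, rfl⟩
  obtain ⟨k1, k2, k3, k4⟩ := TWT.Dg.degS_aux p (F := F) t ht.ne_zero hθt hdiv hsur Z Z' f1 f2
    (θ (algebraMap (Qb p) R I)) hI1 u2R upR u2F upF (algebraMap (Qb p) R I) hJ rfl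
    (θ (algebraMap (Qb p) R η)) v hv hx (ran_of_hodge p θ _ _ _ Z hh)
    (ker_of_hodgeTate p θ _ _ _ Z hht) c'
  rw [latMax_eq, latTriv_eq, latS_eq]
  exact ⟨colength_map _ (blkL_injective p) _ _ 2 k1 k3, colength_map _ (blkL_injective p) _ _ 3 k2 k4⟩

end

end Crys
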