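import Pool.Agent.TWT.Trans3
import Pool.Agent.TWT.Deg2
import Pool.Agent.TWT.All

/-!
# Assembly
-/

namespace Crys

open Matrix

theorem twinBasic (p : ℕ) [hp : Fact p.Prime] : TwinBasic p := by
  obtain ⟨h1, h2, h3⟩ := TWT.Tr.twin_basic p
  refine ⟨?_, h2, h3⟩
  have h4 := congrArg (TWT.blk p) h1
  rw [map_mul, TWT.Tr.blk_smul, map_one, ← TWT.Tr.map_blk] at h4
  exact h4

theorem final (p : ℕ) [Fact p.Prime] (h : p % 4 = 3) :
    ∃ I η : Qb p, I ^ 2 = -1 ∧ η ^ 2 = (p : Qb p) ^ 5 ∧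
      (twin p I).IsDatum ∧ TwinBasic p ∧
      curveS p (toCp p I) (toCp p η) ⊆ (twin p I).D ∧ DegreeCount p I η ∧
      ∃ z : Matrix Six Six (Bcris p), (twin p I).IsPoint z ∧
        (hodge (thetaB p) z, hodgeTate (thetaB p) z) ∈ curveS p (toCp p I) (toCp p η) ∧
        (twin p I).InSpecial (twin p I) z ∧
        ∀ Y : Datum p Six, (twin p I).IsStrict Y → ¬ (twin p I).InSpecial Y z := by
  obtain ⟨I, η, hI, hη, h1, -, h3, z, h4, h5, -, h7⟩ := TWT.main2_of_main p (TWT.main_v1 p h)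
  have hd : (twin p I).IsDatum := T2.twin_isDatum p I h1
  have hz : (twin p I).IsPoint z := T2.twin_isPoint p I z h4
  refine ⟨I, η, hI, hη, hd, twinBasic p, T2.curve_sub p I η h3, degreeCount p I η hI, z, hz,
    T2.curve_mem p I η z h5, T2.self p I hd z hz, ?_⟩
  intro Y hY hin
  exact h7 (T2.cD p Y) (T2.twin_isStrict p I Y hY) (T2.twin_inSpecial p I Y z hin)

end Crys
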