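import Pool.Agent.TWT.Defs

/-!
# TWT: general definitions, the datum, the statement

Closed subgroups `G` of `GL_ι` over `ℚ_p`, cocharacters with weights `0, 1` on the standard
representation, elements `b` of `G(Breve)`; the `ℂ_p`-points of the infinite level local Shimura
variety, its two periods, special subdata and their images; the datum `GL₂ × D^×`.
-/

namespace TWT

open WittVector Matrix

noncomputable section

variable (p : ℕ) [hp : Fact p.Prime]

/-- `ℚ_p → B_cris⁺`. -/
instance algBcris : Algebra ℚ_[p] (Bcris p) := ((brB p).comp (algebraMap ℚ_[p] (Breve p))).toAlgebra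

section general

variable (ι : Type) [Fintype ι] [DecidableEq ι]

/-- The entries of a matrix, as values for the variables of a polynomial. -/
def ent {ι R : Type} (m : Matrix ι ι R) : ι × ι → R := fun ij => m ij.1 ij.2

/-- A closed subgroup of `GL_ι` over `ℚ_p`: polynomial equations over `ℚ_p` whose invertible
solutions form a subgroup of `GL_ι(R)` for every commutative `ℚ_p`-algebra `R`. -/
structure ClGrp where
  eqs : Set (MvPolynomial (ι × ι) ℚ_[p])
  pts : ∀ (R : Type) [CommRing R] [Algebra ℚ_[p] R], Subgroup (Matrix ι ι R)ˣ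
  mem_pts : ∀ (R : Type) [CommRing R] [Algebra ℚ_[p] R] (g : (Matrix ι ι R)ˣ),
    g ∈ pts R ↔ ∀ f ∈ eqs, MvPolynomial.aeval (ent (g : Matrix ι ι R)) f = 0

/-- A datum `(G, [μ], b)`: the cocharacter is `μ(s) = s e + (1 - e)` with an idempotent `e`. -/
structure Datum where
  G : ClGrp p ι
  e : Matrix ι ι (PadicAlgCl p)
  b : (Matrix ι ι (Breve p))ˣ

variable {p ι}

/-- `μ` is a cocharacter of `G` over `ℚ̄_p` and `b` is an element of `G(Breve)`. -/
structure Datum.IsDatum (X : Datum p ι) : Prop where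
  idem : X.e * X.e = X.e
  cochar : ∀ s : PadicAlgCl p, s ≠ 0 → ∃ h ∈ X.G.pts (PadicAlgCl p),
    (h : Matrix ι ι (PadicAlgCl p)) = s • X.e + (1 - X.e)
  b_mem : X.b ∈ X.G.pts (Breve p)

/-- The Hodge-Tate period of `z`: the kernel of `θ(z)`. -/
def HTPeriod (z : Matrix ι ι (Bcris p)) : Submodule ℂ_[p] (ι → ℂ_[p]) :=
  LinearMap.ker (Matrix.toLin' ((thetaB p).mapMatrix z))

/-- The Hodge period of `z`: the image of `θ(z)`. -/
def HodgePeriod (z : Matrix ι ι (Bcris p)) : Submodule ℂ_[p] (ι → ℂ_[p]) :=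
  LinearMap.range (Matrix.toLin' ((thetaB p).mapMatrix z))

/-- The flag `h Fil(μ)` of `Fl_[μ](ℂ_p)`, where `Fil(μ)` is the image of `e`. -/
def Datum.flag (X : Datum p ι) (h : Matrix ι ι ℂ_[p]) : Submodule ℂ_[p] (ι → ℂ_[p]) :=
  LinearMap.range (Matrix.toLin' (h * (algebraMap (PadicAlgCl p) ℂ_[p]).mapMatrix X.e))

/-- The flag `h Fil(μ⁻¹)` of `Fl_[μ⁻¹](ℂ_p)`, where `Fil(μ⁻¹)` is the image of `1 - e`. -/
def Datum.flag' (X : Datum p ι) (h : Matrix ι ι ℂ_[p]) : Submodule ℂ_[p] (ι → ℂ_[p]) :=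
  LinearMap.range (Matrix.toLin' (h * (algebraMap (PadicAlgCl p) ℂ_[p]).mapMatrix (1 - X.e)))

/-- The `ℂ_p`-points of `D = Fl_[μ⁻¹] × Fl_[μ]`. -/
def Datum.D (X : Datum p ι) :
    Set (Submodule ℂ_[p] (ι → ℂ_[p]) × Submodule ℂ_[p] (ι → ℂ_[p])) :=
  {q | (∃ h ∈ X.G.pts ℂ_[p], q.1 = X.flag' (h : Matrix ι ι ℂ_[p])) ∧
    ∃ h ∈ X.G.pts ℂ_[p], q.2 = X.flag (h : Matrix ι ι ℂ_[p])}

/-- The `ℂ_p`-points of the infinite level local Shimura variety of `(G, b, [μ])`: isomorphisms
`z : E₁ → E_b` of `G`-bundles on the Fargues-Fontaine curve away from `∞`, of relative position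
`[μ]` at `∞`. In terms of period rings: `z ∈ G(B_cris)` with `b φ(z) = z`, such that `z` and `t z⁻¹`
have entries in `B_cris⁺` (weights `0` and `1`), and the kernel of `θ(z)` is in `Fl_[μ](ℂ_p)`. -/
structure Datum.IsPoint (X : Datum p ι) (z : Matrix ι ι (Bcris p)) : Prop where
  eqs : ∀ f ∈ X.G.eqs, MvPolynomial.aeval (ent z) f = 0
  frob : (brB p).mapMatrix (X.b : Matrix ι ι (Breve p)) * (phiB p).mapMatrix z = z
  inv : ∃ z' : Matrix ι ι (Bcris p), ∃ t ∈ TT p, z * z' = t • 1 ∧ z' * z = t • 1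
  type : ∃ h ∈ X.G.pts ℂ_[p], HTPeriod z = X.flag (h : Matrix ι ι ℂ_[p])

/-- `Y = (H, b_H, [μ_H])` is a special subdatum of `X = (G, b, [μ])`, and `g ∈ G(Breve)`
`σ`-conjugates `b_H` to `b`. -/
structure Datum.IsSub (X Y : Datum p ι) (g : (Matrix ι ι (Breve p))ˣ) : Prop where
  isDatum : Y.IsDatum
  le : ∀ (R : Type) [CommRing R] [Algebra ℚ_[p] R], Y.G.pts R ≤ X.G.pts R
  conj : ∃ a ∈ X.G.pts (PadicAlgCl p), Y.e = (a : Matrix ι ι (PadicAlgCl p)) * X.e *
    ((a⁻¹ : (Matrix ι ι (PadicAlgCl p))ˣ) : Matrix ι ι (PadicAlgCl p))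
  g_mem : g ∈ X.G.pts (Breve p)
  sconj : (X.b : Matrix ι ι (Breve p)) * (sigma p).mapMatrix (g : Matrix ι ι (Breve p)) =
    (g : Matrix ι ι (Breve p)) * (Y.b : Matrix ι ι (Breve p))

/-- `z` lies in the special subvariety of the local Shimura variety of `X` which is the image of
that of the special subdatum `Y` under some `g`. -/
def Datum.InSpecial (X Y : Datum p ι) (z : Matrix ι ι (Bcris p)) : Prop :=
  ∃ g, X.IsSub Y g ∧ ∃ y : Matrix ι ι (Bcris p), Y.IsPoint y ∧
    z = (brB p).mapMatrix (g : Matrix ι ι (Breve p)) * y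

/-- `Y = (H, b_H, [μ_H])` is strict: the commutator subgroups of `H(ℚ̄_p)` and `G(ℚ̄_p)` are
different. For connected `H` this says `H^der ≠ G^der`; connectedness of `H` is not asked. -/
def Datum.IsStrict (X Y : Datum p ι) : Prop :=
  ⁅Y.G.pts (PadicAlgCl p), Y.G.pts (PadicAlgCl p)⁆ ≠
    ⁅X.G.pts (PadicAlgCl p), X.G.pts (PadicAlgCl p)⁆

end general

/-! ## The group `GL₂ × D^×` in `GL₆` -/

/-- Index set of the standard representation `ℚ_p² ⊕ D`. -/
abbrev Six : Type := Fin 2 ⊕ Fin 4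

/-- Left multiplication by the quaternion `x` in the basis `1, i, j, k`. -/
def lm {R : Type} [CommRing R] (x : Quat p R) : Matrix (Fin 4) (Fin 4) R :=
  !![x.re, -x.imI, (p : R) * x.imJ, (p : R) * x.imK;
     x.imI, x.re, (p : R) * x.imK, -((p : R) * x.imJ);
     x.imJ, x.imK, x.re, -x.imI;
     x.imK, -x.imJ, x.imI, x.re]

omit hp in
lemma lm_mul {R : Type} [CommRing R] (x y : Quat p R) : lm p (x * y) = lm p x * lm p y := by
  ext i j
  fin_cases i <;> fin_cases j <;>
    simp [lm, Matrix.mul_apply, Fin.sum_univ_four] <;> ring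

omit hp in
lemma lm_one {R : Type} [CommRing R] : lm p (1 : Quat p R) = 1 := by
  ext i j
  fin_cases i <;> fin_cases j <;> simp [lm]

omit hp in
lemma lm_add {R : Type} [CommRing R] (x y : Quat p R) : lm p (x + y) = lm p x + lm p y := by
  ext i j
  fin_cases i <;> fin_cases j <;> simp [lm] <;> ring

/-- `M₂(R) × D(R) → M₆(R)`, `(a, x) ↦ diag(a, L_x)`. -/
def blk {R : Type} [CommRing R] : AA p R →+* Matrix Six Six R where
  toFun x := Matrix.fromBlocks x.1 0 0 (lm p x.2)
  map_one' := by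
    simp [lm_one, Matrix.fromBlocks_one]
  map_mul' x y := by
    simp [lm_mul, Matrix.fromBlocks_multiply]
  map_zero' := by
    have : lm p (0 : Quat p R) = 0 := by
      ext i j
      fin_cases i <;> fin_cases j <;> simp [lm]
    simp [this]
  map_add' x y := by
    simp [lm_add, Matrix.fromBlocks_add]

/-- The same on unit groups. -/
def blkU {R : Type} [CommRing R] : (AA p R)ˣ →* (Matrix Six Six R)ˣ :=
  Units.map (blk p (R := R)).toMonoidHom

omit hp in
lemma blkU_val {R : Type} [CommRing R] (u : (AA p R)ˣ) :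
    ((blkU p u : (Matrix Six Six R)ˣ) : Matrix Six Six R) = blk p (u : AA p R) := rfl

/-- The quaternion with the coordinates of the first column of the lower block. -/
def quatOf {R : Type} [CommRing R] (v : Fin 4 → R) : Quat p R := ⟨v 0, v 1, v 2, v 3⟩

/-- Equations of the subgroup of block diagonal matrices `diag(a, L_x)`: the off-diagonal blocks
vanish and the lower block is the left multiplication by the quaternion given by its first
column. -/
def twinEqs : Set (MvPolynomial (Six × Six) ℚ_[p]) :=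
  {f | ∃ (i : Fin 2) (j : Fin 4), f = MvPolynomial.X (Sum.inl i, Sum.inr j)} ∪
  {f | ∃ (i : Fin 2) (j : Fin 4), f = MvPolynomial.X (Sum.inr j, Sum.inl i)} ∪
  {f | ∃ a b : Fin 4, f = MvPolynomial.X (Sum.inr a, Sum.inr b) -
    lm p (quatOf p fun c => MvPolynomial.X ((Sum.inr c, Sum.inr 0) : Six × Six)) a b}

section units

variable {R : Type} [CommRing R]

omit hp in
lemma lm_injective {x y : Quat p R} (h : lm p x = lm p y) : x = y := by
  have h0 := congrFun (congrFun h 0) 0
  have h1 := congrFun (congrFun h 1) 0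
  have h2 := congrFun (congrFun h 2) 0
  have h3 := congrFun (congrFun h 3) 0
  simp only [lm, Matrix.of_apply, Matrix.cons_val', Matrix.cons_val_zero, Matrix.cons_val_one,
    Matrix.cons_val_fin_one, Matrix.cons_val] at h0 h1 h2 h3
  exact QuaternionAlgebra.ext h0 h1 h2 h3

omit hp in
lemma quatOf_lm (x : Quat p R) : quatOf p (fun c => lm p x c 0) = x := by
  simp [quatOf, lm]

omit hp in
lemma mulVec_quat (x : Quat p R) (v : Fin 4 → R) : x * quatOf p v = quatOf p (lm p x *ᵥ v) := by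
  ext <;> simp [quatOf, lm, Matrix.mulVec, dotProduct, Fin.sum_univ_four] <;> ring

omit hp in
lemma exists_unit {a : Matrix (Fin 2) (Fin 2) R} {x : Quat p R}
    {g : (Matrix Six Six R)ˣ} (hg : (g : Matrix Six Six R) = blk p (a, x)) :
    ∃ u : (AA p R)ˣ, blkU p u = g := by
  set h : Matrix Six Six R := ((g⁻¹ : (Matrix Six Six R)ˣ) : Matrix Six Six R) with hh
  have e1 : Matrix.fromBlocks a 0 0 (lm p x) *
      Matrix.fromBlocks h.toBlocks₁₁ h.toBlocks₁₂ h.toBlocks₂₁ h.toBlocks₂₂ = 1 := by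
    rw [Matrix.fromBlocks_toBlocks]
    have : (g : Matrix Six Six R) * h = 1 := Units.mul_inv g
    rw [hg] at this
    exact this
  have e2 : Matrix.fromBlocks h.toBlocks₁₁ h.toBlocks₁₂ h.toBlocks₂₁ h.toBlocks₂₂ *
      Matrix.fromBlocks a 0 0 (lm p x) = 1 := by
    rw [Matrix.fromBlocks_toBlocks]
    have : h * (g : Matrix Six Six R) = 1 := Units.inv_mul g
    rw [hg] at this
    exact this
  rw [Matrix.fromBlocks_multiply, ← Matrix.fromBlocks_one, Matrix.fromBlocks_inj] at e1 e2
  obtain ⟨a1, -, -, a4⟩ := e1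
  obtain ⟨b1, -, -, b4⟩ := e2
  simp only [Matrix.zero_mul, Matrix.mul_zero, add_zero, zero_add] at a1 a4 b1 b4
  set y : Quat p R := quatOf p (fun c => h.toBlocks₂₂ c 0) with hy
  have hxy : x * y = 1 := by
    rw [hy, mulVec_quat]
    have : lm p x *ᵥ (fun c => h.toBlocks₂₂ c 0) = fun c => (1 : Matrix (Fin 4) (Fin 4) R) c 0 := by
      funext c
      rw [← a4]
      rfl
    rw [this]
    ext <;> simp [quatOf]
  have hL : lm p y = h.toBlocks₂₂ := by
    calc lm p y = (h.toBlocks₂₂ * lm p x) * lm p y := by rw [b4, one_mul]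
      _ = h.toBlocks₂₂ * lm p (x * y) := by rw [mul_assoc, lm_mul]
      _ = h.toBlocks₂₂ := by rw [hxy, lm_one, mul_one]
  have hyx : y * x = 1 := by
    apply lm_injective p
    rw [lm_mul, lm_one, hL, b4]
  refine ⟨⟨(a, x), (h.toBlocks₁₁, y), Prod.ext a1 hxy, Prod.ext b1 hyx⟩, ?_⟩
  apply Units.ext
  rw [hg]
  rfl

end units

/-- The group `G = GL₂ × D^×` as a closed subgroup of `GL₆`: `G(R)` is the group of the matrices
`diag(a, L_x)` with `a ∈ GL₂(R)`, `x ∈ D(R)^×`. -/
def twinG : ClGrp p Six where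
  eqs := twinEqs p
  pts R _ _ := (blkU p (R := R)).range
  mem_pts R _ _ g := by
    have key : ∀ (v : Fin 4 → MvPolynomial (Six × Six) ℚ_[p]) (a b : Fin 4),
        MvPolynomial.aeval (ent (g : Matrix Six Six R)) (lm p (quatOf p v) a b) =
        lm p (quatOf p fun c => MvPolynomial.aeval (ent (g : Matrix Six Six R)) (v c)) a b := by
      intro v a b
      fin_cases a <;> fin_cases b <;> simp [lm, quatOf]
    constructor
    · rintro ⟨u, rfl⟩ f hf
      rcases hf with (⟨i, j, rfl⟩ | ⟨i, j, rfl⟩) | ⟨a, b, rfl⟩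
      · simp [ent, blkU_val, blk]
      · simp [ent, blkU_val, blk]
      · rw [map_sub, key]
        simp only [MvPolynomial.aeval_X, ent]
        have h1 : ∀ a b : Fin 4, (blk p (u : AA p R)) (Sum.inr a) (Sum.inr b) =
            lm p (u : AA p R).2 a b := fun a b => rfl
        rw [blkU_val, h1]
        simp only [h1]
        rw [quatOf_lm, sub_self]
    · intro h
      have h1 : ∀ (i : Fin 2) (j : Fin 4), (g : Matrix Six Six R) (Sum.inl i) (Sum.inr j) = 0 := by
        intro i j
        have := h _ (Or.inl (Or.inl ⟨i, j, rfl⟩))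
        simpa [ent] using this
      have h2 : ∀ (i : Fin 2) (j : Fin 4), (g : Matrix Six Six R) (Sum.inr j) (Sum.inl i) = 0 := by
        intro i j
        have := h _ (Or.inl (Or.inr ⟨i, j, rfl⟩))
        simpa [ent] using this
      have h3 : ∀ a b : Fin 4, (g : Matrix Six Six R) (Sum.inr a) (Sum.inr b) =
          lm p (quatOf p fun c => (g : Matrix Six Six R) (Sum.inr c) (Sum.inr 0)) a b := by
        intro a b
        have := h _ (Or.inr ⟨a, b, rfl⟩)
        rw [map_sub, key, sub_eq_zero] at this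
        simpa [ent] using this
      refine exists_unit p (a := (g : Matrix Six Six R).toBlocks₁₁)
        (x := quatOf p fun c => (g : Matrix Six Six R) (Sum.inr c) (Sum.inr 0)) ?_
      change (g : Matrix Six Six R) = Matrix.fromBlocks _ 0 0 (lm p _)
      ext i j
      rcases i with i | i <;> rcases j with j | j
      · rfl
      · exact h1 i j
      · exact h2 j i
      · exact h3 i j

/-- The element `β⁻¹ = ((0 1/p; 1 0), j/p)` of `GL₂ × D^×`. -/
def bTwin : (AA p (Breve p))ˣ where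
  val := (!![0, (p : Breve p)⁻¹; 1, 0], ⟨0, 0, (p : Breve p)⁻¹, 0⟩)
  inv := beta p (Breve p)
  val_inv := by
    have hp0 : (p : Breve p) ≠ 0 := by
      have : CharZero (Breve p) := charZero_of_injective_algebraMap
        (algebraMap ℚ_[p] (Breve p)).injective
      exact_mod_cast hp.out.ne_zero
    refine Prod.ext ?_ ?_
    · ext i j
      fin_cases i <;> fin_cases j <;> simp [beta, Matrix.mul_apply, Fin.sum_univ_two, hp0]
    · ext <;> simp [beta, hp0]
  inv_val := by
    have hp0 : (p : Breve p) ≠ 0 := by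
      have : CharZero (Breve p) := charZero_of_injective_algebraMap
        (algebraMap ℚ_[p] (Breve p)).injective
      exact_mod_cast hp.out.ne_zero
    refine Prod.ext ?_ ?_
    · ext i j
      fin_cases i <;> fin_cases j <;> simp [beta, Matrix.mul_apply, Fin.sum_univ_two, hp0]
    · ext <;> simp [beta, hp0]

/-- The reduced norm of a quaternion. -/
def rnorm {R : Type} [CommRing R] (x : Quat p R) : R :=
  x.re ^ 2 + x.imI ^ 2 - (p : R) * (x.imJ ^ 2 + x.imK ^ 2)

/-- The idempotent `(E₁₁, (1 - I i) / 2)` of `M₂(ℚ̄_p) × D(ℚ̄_p)`, of rank one in both factors. -/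
def eTwin (I : PadicAlgCl p) : AA p (PadicAlgCl p) := (!![1, 0; 0, 0], ⟨1 / 2, -I / 2, 0, 0⟩)

/-- The datum: `G = GL₂ × D^×`, `μ` of type `(1, 0)` in both factors, `b = ((0 1/p; 1 0), j/p)`. -/
def twin (I : PadicAlgCl p) : Datum p Six where
  G := twinG p
  e := blk p (eTwin p I)
  b := blkU p (bTwin p)

/-- The subspace `ℓ ⊕ J` of `F² ⊕ D(F)`. -/
def sumSub {F : Type} [Field F] (ℓ : Submodule F (Fin 2 → F)) (J : Submodule F (Quat p F)) :
    Submodule F (Six → F) where
  carrier := {v | (fun i => v (Sum.inl i)) ∈ ℓ ∧ quatOf p (fun i => v (Sum.inr i)) ∈ J}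
  zero_mem' := ⟨ℓ.zero_mem, J.zero_mem⟩
  add_mem' := fun hv hw => ⟨ℓ.add_mem hv.1 hw.1, J.add_mem hv.2 hw.2⟩
  smul_mem' := by
    intro c v hv
    refine ⟨ℓ.smul_mem c hv.1, ?_⟩
    have := J.smul_mem c hv.2
    convert this using 1
    ext <;> simp [quatOf]

/-- The `ℂ_p`-points of the curve `S ≅ ℙ¹` in `D`: with `x` the line spanned by `(-η, 1)` and `J(ℓ)`
the right ideal of `D(ℂ_p)` attached to the line `ℓ`, these are the pairs
`(x ⊕ J(ℓ), ℓ ⊕ J(x))`, for all lines `ℓ` of `ℂ_p²`. -/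
def CurveS (I η : PadicAlgCl p) :
    Set (Submodule ℂ_[p] (Six → ℂ_[p]) × Submodule ℂ_[p] (Six → ℂ_[p])) :=
  {q | ∃ ℓ : Submodule ℂ_[p] (Fin 2 → ℂ_[p]), Module.finrank ℂ_[p] ℓ = 1 ∧
    q = (sumSub p (lineOf (algebraMap (PadicAlgCl p) ℂ_[p] η))
      (idealOf p (algebraMap (PadicAlgCl p) ℂ_[p] I) ℓ),
      sumSub p ℓ (idealOf p (algebraMap (PadicAlgCl p) ℂ_[p] I)
        (lineOf (algebraMap (PadicAlgCl p) ℂ_[p] η))))}

/-- `b` is the basic element of `B(G, [μ⁻¹])`: `b σ(b) = 1/p` (so `b` has slope `-1/2` in both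
factors), and the determinant of its first component and the reduced norm of its second component
have valuation `-1` (the invariant of `[μ⁻¹]`). -/
def TwinBasic : Prop :=
  (bTwin p : AA p (Breve p)) * aaMap p (sigma p) (bTwin p : AA p (Breve p)) = (p : Breve p)⁻¹ • 1 ∧
  (bTwin p : AA p (Breve p)).1.det = -(p : Breve p)⁻¹ ∧
  rnorm p (bTwin p : AA p (Breve p)).2 = -(p : Breve p)⁻¹

/-- The statement: the datum `GL₂ × D^×` is a datum, `S` lies in `D`, and some `ℂ_p`-point `z` of
the infinite level local Shimura variety has its two periods on `S` and lies in no strictly special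
subvariety (it lies in the special subvariety of the datum itself). -/
def Main2 (I η : PadicAlgCl p) : Prop :=
  (twin p I).IsDatum ∧ TwinBasic p ∧ CurveS p I η ⊆ (twin p I).D ∧
  ∃ z : Matrix Six Six (Bcris p), (twin p I).IsPoint z ∧
    (HodgePeriod z, HTPeriod z) ∈ CurveS p I η ∧
    (twin p I).InSpecial (twin p I) z ∧
    ∀ Y : Datum p Six, (twin p I).IsStrict Y → ¬ (twin p I).InSpecial Y z

end

end TWT
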