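import Pool.Agent.TWT.Base

/-!
# TWT: the field `Breve = W(𝔽̄_p)[1/p]` and its map to `B_cris⁺`
-/

namespace TWT

open WittVector Matrix

noncomputable section

variable (p : ℕ) [hp : Fact p.Prime]

lemma domTl : IsDomain (Tl p) :=
  PreTilt.isDomain ℂ_[p] (PadicComplex.valued p).v (OC p) (PadicComplexInt.integers p) p

omit hp in
lemma pow_mul_fix {R : Type} [CommRing R] {x : R} {n : ℕ} (h : x ^ p ^ n = x) (m : ℕ) :
    x ^ p ^ (n * m) = x := by
  induction m with
  | zero => simp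
  | succ m ih => rw [Nat.mul_succ, pow_add, pow_mul, ih, h]

/-- The algebraic closure of `𝔽_p` in the tilt `O♭`. -/
def k0 : Subring (Tl p) where
  carrier := {x | ∃ n : ℕ, 0 < n ∧ x ^ p ^ n = x}
  one_mem' := ⟨1, one_pos, one_pow _⟩
  zero_mem' := ⟨1, one_pos, zero_pow (pow_ne_zero _ hp.out.ne_zero)⟩
  mul_mem' := by
    rintro x y ⟨n, hn, hx⟩ ⟨m, hm, hy⟩
    refine ⟨n * m, Nat.mul_pos hn hm, ?_⟩
    rw [mul_pow, pow_mul_fix p hx m, mul_comm n m, pow_mul_fix p hy n]
  add_mem' := by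
    rintro x y ⟨n, hn, hx⟩ ⟨m, hm, hy⟩
    refine ⟨n * m, Nat.mul_pos hn hm, ?_⟩
    rw [add_pow_char_pow, pow_mul_fix p hx m, mul_comm n m, pow_mul_fix p hy n]
  neg_mem' := by
    rintro x ⟨n, hn, hx⟩
    refine ⟨n, hn, ?_⟩
    have h := sub_pow_char_pow (p := p) (n := n) (0 : Tl p) x
    rw [zero_sub, zero_pow (pow_ne_zero _ hp.out.ne_zero), hx, zero_sub] at h
    exact h

lemma k0_isField : IsField (k0 p) where
  exists_pair_ne := ⟨0, 1, by
    intro h
    have := domTl p
    exact zero_ne_one (congrArg Subtype.val h)⟩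
  mul_comm := mul_comm
  mul_inv_cancel := by
    rintro ⟨x, n, hn, hx⟩ hx0
    have := domTl p
    have hx0' : x ≠ 0 := fun h => hx0 (Subtype.ext h)
    have h2 : 2 ≤ p ^ n := by
      calc 2 ≤ p := hp.out.two_le
        _ = p ^ 1 := (pow_one p).symm
        _ ≤ p ^ n := Nat.pow_le_pow_right hp.out.pos hn
    refine ⟨⟨x ^ (p ^ n - 2), ?_⟩, ?_⟩
    · exact Subring.pow_mem (k0 p) ⟨n, hn, hx⟩ _
    · apply Subtype.ext
      change x * x ^ (p ^ n - 2) = 1
      have h3 : x * (x * x ^ (p ^ n - 2)) = x * 1 := by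
        rw [mul_one, ← mul_assoc, ← pow_two, ← pow_add, Nat.add_sub_cancel' h2, hx]
      exact mul_left_cancel₀ hx0' h3

/-- The same, as a field. -/
def K0 : Type := k0 p

instance fieldK0 : Field (K0 p) := (k0_isField p).toField

/-- The inclusion of `𝔽̄_p` into the tilt. -/
def inclK0 : K0 p →+* Tl p := (k0 p).subtype

lemma inclK0_injective : Function.Injective (inclK0 p) := Subtype.val_injective

instance charK0 : CharP (K0 p) p := (inclK0 p).charP (inclK0_injective p) p

instance perfectK0 : PerfectRing (K0 p) p := by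
  refine PerfectRing.ofSurjective _ _ ?_
  intro y
  obtain ⟨n, hn, hx⟩ : ∃ n : ℕ, 0 < n ∧ (inclK0 p y) ^ p ^ n = inclK0 p y := y.2
  have hmem : (inclK0 p y) ^ p ^ (n - 1) ∈ k0 p := Subring.pow_mem (k0 p) y.2 _
  let y' : K0 p := ⟨(inclK0 p y) ^ p ^ (n - 1), hmem⟩
  have h1 : inclK0 p y' = (inclK0 p y) ^ p ^ (n - 1) := rfl
  refine ⟨y', inclK0_injective p ?_⟩
  have h2 : inclK0 p (_root_.frobenius (K0 p) p y') = (inclK0 p y') ^ p := by
    rw [_root_.frobenius_def, map_pow]
  rw [h2, h1, ← pow_mul, ← pow_succ, Nat.sub_add_cancel hn, hx]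

/-- The completion `W(𝔽̄_p)[1/p]` of the maximal unramified extension of `ℚ_p`. -/
abbrev Breve : Type := FractionRing (WittVector p (K0 p))

/-- The Frobenius automorphism of `Breve`. -/
def sigma : Breve p →+* Breve p := WittVector.FractionRing.frobeniusRingHom p (K0 p)

/-- `ℤ_p → W(𝔽̄_p)`. -/
def zpHom : ℤ_[p] →+* WittVector p (K0 p) :=
  (WittVector.map (ZMod.castHom (dvd_refl p) (K0 p))).comp
    ((WittVector.equiv p).symm : ℤ_[p] →+* WittVector p (ZMod p))

lemma zpHom_injective : Function.Injective (zpHom p) := by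
  intro x y h
  have h1 := WittVector.map_injective (p := p) (ZMod.castHom (dvd_refl p) (K0 p))
    (ZMod.castHom (dvd_refl p) (K0 p)).injective h
  exact (WittVector.equiv p).symm.injective h1

/-- `ℚ_p → Breve`. -/
instance algBreve : Algebra ℚ_[p] (Breve p) :=
  (IsFractionRing.lift (A := ℤ_[p]) (K := ℚ_[p])
    (g := (algebraMap (WittVector p (K0 p)) (Breve p)).comp (zpHom p))
    ((IsFractionRing.injective (WittVector p (K0 p)) (Breve p)).comp
      (zpHom_injective p))).toAlgebra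

/-- `W(𝔽̄_p) → A_cris → B_cris⁺`. -/
def wB : WittVector p (K0 p) →+* Bcris p :=
  (algebraMap (Acris p) (Bcris p)).comp ((jj p).comp (WittVector.map (inclK0 p)))

lemma wB_isUnit (x : nonZeroDivisors (WittVector p (K0 p))) : IsUnit (wB p x) := by
  obtain ⟨n, u, hu⟩ := WittVector.exists_eq_pow_p_mul' (p := p) (k := K0 p)
    (x : WittVector p (K0 p)) (nonZeroDivisors.ne_zero x.2)
  rw [hu, map_mul, map_pow]
  refine IsUnit.mul (IsUnit.pow _ ?_) ?_
  · rw [map_natCast]
    have := IsLocalization.Away.algebraMap_isUnit (S := Bcris p) (p : Acris p)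
    rwa [map_natCast] at this
  · exact u.isUnit.map (wB p)

/-- `Breve → B_cris⁺`. -/
def brB : Breve p →+* Bcris p := IsLocalization.lift (M := nonZeroDivisors (WittVector p (K0 p)))
  (g := wB p) (wB_isUnit p)

end

end TWT
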