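import Pool.Agent.TWT.Targets

/-!
# TWT: approximations from the series of Teichmüller elements
-/

namespace TWT

open WittVector Matrix

noncomputable section

namespace AP0_

lemma div2 {B : Type} [CommRing B] (q : B) (hq : ∀ a : B, q * a = 0 → a = 0)
    (τ x y z u r z' u' : B)
    (h : q ^ 2 * τ = q ^ 2 * x + q ^ 3 * y + q * z + u + q ^ 4 * r)
    (hz : z = q ^ 4 * z') (hu : u = q ^ 4 * u') :
    ∃ r' : B, τ = x + q * y + q ^ 2 * r' := by
  refine ⟨q * z' + u' + r, ?_⟩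
  have h1 : q * (q * (τ - (x + q * y + q ^ 2 * (q * z' + u' + r)))) = 0 := by
    rw [hz, hu] at h
    linear_combination h
  exact sub_eq_zero.mp (hq _ (hq _ h1))

variable (p : ℕ) [hp : Fact p.Prime]

lemma frob_teich (x : Tl p) : WittVector.frobenius (WittVector.teichmuller p x) =
    WittVector.teichmuller p (x ^ p) := by
  ext n
  rw [WittVector.coeff_frobenius_charP]
  rcases n with - | n
  · rw [WittVector.teichmuller_coeff_zero, WittVector.teichmuller_coeff_zero]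
  · rw [WittVector.teichmuller_coeff_pos _ _ _ n.succ_pos,
      WittVector.teichmuller_coeff_pos _ _ _ n.succ_pos, zero_pow hp.out.ne_zero]

lemma phiA_tm (x : Tl p) : phiA p (tm p x) = tm p (x ^ p) := by
  rw [tm, phiA_jj, frob_teich]
  rfl

lemma thetaA_tm (x : Tl p) : thetaA p (tm p x) = sh p x := by
  rw [tm, thetaA_jj]
  exact fontaineTheta_teichmuller x

lemma tm_mul (x y : Tl p) : tm p (x * y) = tm p x * tm p y := by
  rw [tm, tm, tm, map_mul, map_mul]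

lemma tm_pow (x : Tl p) (n : ℕ) : tm p (x ^ n) = tm p x ^ n := by
  rw [tm, tm, map_pow, map_pow]

lemma nO_mul (x y : OC p) : nO p (x * y) = nO p x * nO p y := by
  show ‖((x * y : OC p) : ℂ_[p])‖ = ‖(x : ℂ_[p])‖ * ‖(y : ℂ_[p])‖
  rw [← norm_mul]
  rfl

lemma nO_pow (x : OC p) (n : ℕ) : nO p (x ^ n) = nO p x ^ n := by
  show ‖((x ^ n : OC p) : ℂ_[p])‖ = ‖(x : ℂ_[p])‖ ^ n
  rw [← norm_pow]
  rfl

lemma big {A' : Type} [CommRing A'] (κ : Acris p →+* A') (hκ : KapOK p A' κ) (w : Tl p)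
    (hw : nO p (sh p w) ^ (2 * p ^ 2) ≤ np p) (n : ℕ) (hn : 4 * (2 * p ^ 2) ≤ n) :
    ∃ x : A', κ (tm p (w ^ n)) = (p : A') ^ 4 * x := by
  have h1 : nO p (sh p (w ^ (2 * p ^ 2))) ≤ np p := by
    rw [sh, map_pow, nO_pow]
    exact hw
  obtain ⟨x, hx⟩ := hκ.2 _ h1
  refine ⟨x ^ 4 * κ (tm p (w ^ (n - 4 * (2 * p ^ 2)))), ?_⟩
  have h2 : w ^ n = (w ^ (2 * p ^ 2)) ^ 4 * w ^ (n - 4 * (2 * p ^ 2)) := by
    rw [← pow_mul, ← pow_add]
    congr 1
    omega
  rw [h2, tm_mul, tm_pow, map_mul, map_pow, hx]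
  ring

lemma bigO (w : Tl p)
    (hw : nO p (sh p w) ^ (2 * p ^ 2) ≤ np p) (n : ℕ) (hn : 4 * (2 * p ^ 2) ≤ n) :
    ∃ x : OC p, sh p w ^ n = (p : OC p) ^ 4 * x := by
  have h1 : sh p w ^ n ∈ (Ideal.span {(p : OC p)}) ^ 4 := by
    rw [mem_pow_iff]
    show nO p (sh p w ^ n) ≤ _
    rw [nO_pow]
    calc nO p (sh p w) ^ n ≤ nO p (sh p w) ^ (2 * p ^ 2 * 4) :=
          pow_le_pow_of_le_one (norm_nonneg _) (norm_OC_le p _) (by omega)
      _ = (nO p (sh p w) ^ (2 * p ^ 2)) ^ 4 := pow_mul _ _ _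
      _ ≤ np p ^ 4 := pow_le_pow_left₀ (pow_nonneg (norm_nonneg _) _) hw 4
  rw [Ideal.span_singleton_pow, Ideal.mem_span_singleton] at h1
  exact h1

lemma torO (a : OC p) (h : (p : OC p) * a = 0) : a = 0 := by
  have h0 : (p : OC p) ≠ 0 := by
    intro h1
    have h2 := congrArg (fun z : OC p => (z : ℂ_[p])) h1
    exact p_ne_zero p (by simpa using h2)
  exact (mul_eq_zero.mp h).resolve_left h0

lemma normO (a b : OC p) (r : OC p) (h : a = b + (p : OC p) ^ 2 * r) :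
    nO p (a - b) ≤ np p ^ 2 := by
  rw [h, add_sub_cancel_left]
  exact (mem_pow_iff p _ 2).mp (by
    rw [Ideal.span_singleton_pow, Ideal.mem_span_singleton]
    exact dvd_mul_right _ _)

end AP0_

open AP0_

theorem p_AP0 (p : ℕ) [Fact p.Prime] (hSER : T_SER p) : T_AP0 p := by
  intro hp3 A' _ κ hκ w hw
  obtain ⟨τ, r, hg, he⟩ := hSER hp3 w hw
  have hpp : 9 ≤ p ^ 2 := by nlinarith
  have h4 : 4 * (2 * p ^ 2) ≤ p ^ 4 := by
    have : p ^ 4 = p ^ 2 * p ^ 2 := by ring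
    rw [this]
    nlinarith
  have h6 : 4 * (2 * p ^ 2) ≤ p ^ 6 := h4.trans (Nat.pow_le_pow_right (by omega) (by omega))
  have h5 : 4 * (2 * p ^ 2) ≤ p * p ^ 4 := h4.trans (Nat.le_mul_of_pos_left _ (by omega))
  have h7 : 4 * (2 * p ^ 2) ≤ p * p ^ 6 := h6.trans (Nat.le_mul_of_pos_left _ (by omega))
  have he2 := congrArg (phiA p) he
  simp only [map_add, map_mul, map_pow, map_natCast, phiA_tm] at he2
  have e2 : (w ^ p ^ 2) ^ p = w ^ p ^ 3 := by
    rw [← pow_mul, ← pow_succ]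
  have e4 : (w ^ p ^ 4) ^ p = w ^ (p * p ^ 4) := by
    rw [← pow_mul, mul_comm]
  have e6 : (w ^ p ^ 6) ^ p = w ^ (p * p ^ 6) := by
    rw [← pow_mul, mul_comm]
  rw [e2, e4, e6] at he2
  refine ⟨τ, hg, ?_, ?_, ?_, ?_⟩
  · have h := congrArg (thetaA p) he
    simp only [map_add, map_mul, map_pow, map_natCast, thetaA_tm, sh] at h
    obtain ⟨a, ha⟩ := bigO p w hw _ h4
    obtain ⟨b, hb⟩ := bigO p w hw _ h6
    obtain ⟨r', hr'⟩ := div2 (p : OC p) (torO p) _ _ _ _ _ _ a b h ha hb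
    exact normO p _ _ r' hr'
  · have h := congrArg (thetaA p) he2
    simp only [map_add, map_mul, map_pow, map_natCast, thetaA_tm, sh] at h
    obtain ⟨a, ha⟩ := bigO p w hw _ h5
    obtain ⟨b, hb⟩ := bigO p w hw _ h7
    obtain ⟨r', hr'⟩ := div2 (p : OC p) (torO p) _ _ _ _ _ _ a b h ha hb
    exact normO p _ _ r' hr'
  · have h := congrArg κ he
    simp only [map_add, map_mul, map_pow, map_natCast] at h
    obtain ⟨a, ha⟩ := big p κ hκ w hw _ h4
    obtain ⟨b, hb⟩ := big p κ hκ w hw _ h6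
    exact div2 (p : A') hκ.1 _ _ _ _ _ _ a b h ha hb
  · have h := congrArg κ he2
    simp only [map_add, map_mul, map_pow, map_natCast] at h
    obtain ⟨a, ha⟩ := big p κ hκ w hw _ h5
    obtain ⟨b, hb⟩ := big p κ hκ w hw _ h7
    exact div2 (p : A') hκ.1 _ _ _ _ _ _ a b h ha hb

end

end TWT
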