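import Pool.Agent.TWT.Targets

/-!
# TWT: target `PER` (perturbation)
-/

namespace TWT

open WittVector Matrix

noncomputable section

namespace PER_

variable (p : ℕ) [hp : Fact p.Prime]

lemma nO_mul (x y : OC p) : nO p (x * y) = nO p x * nO p y := by
  have : ((x * y : OC p) : ℂ_[p]) = (x : ℂ_[p]) * (y : ℂ_[p]) := rfl
  unfold nO
  rw [this, norm_mul]

lemma nO_neg (x : OC p) : nO p (-x) = nO p x := by
  have : ((-x : OC p) : ℂ_[p]) = -(x : ℂ_[p]) := rfl
  unfold nO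
  rw [this, norm_neg]

lemma nO_pow (x : OC p) (n : ℕ) : nO p (x ^ n) = nO p x ^ n := by
  have : ((x ^ n : OC p) : ℂ_[p]) = (x : ℂ_[p]) ^ n := rfl
  unfold nO
  rw [this, norm_pow]

lemma le_one (x : OC p) : nO p x ≤ 1 := norm_OC_le p x

lemma dvd1 (x : OC p) : nO p x ≤ np p ↔ ∃ c, x = (p : OC p) * c := by
  have h := mem_pow_iff p x 1
  rw [pow_one, pow_one, Ideal.mem_span_singleton'] at h
  constructor
  · intro hx
    obtain ⟨c, hc⟩ := h.2 hx
    exact ⟨c, by rw [← hc, mul_comm]⟩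
  · rintro ⟨c, hc⟩
    exact h.1 ⟨c, by rw [hc, mul_comm]⟩

lemma dvdn (n : ℕ) (x : OC p) : nO p x ≤ np p ^ n ↔ ∃ c, x = (p : OC p) ^ n * c := by
  have h := mem_pow_iff p x n
  rw [Ideal.span_singleton_pow, Ideal.mem_span_singleton'] at h
  constructor
  · intro hx
    obtain ⟨c, hc⟩ := h.2 hx
    exact ⟨c, by rw [← hc, mul_comm]⟩
  · rintro ⟨c, hc⟩
    exact h.1 ⟨c, by rw [hc, mul_comm]⟩

lemma eq_zero (x : OC p) (h : ∀ n : ℕ, ∃ c, x = (p : OC p) ^ n * c) : x = 0 := by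
  have h1 : ∀ n : ℕ, ‖(x : ℂ_[p])‖ ≤ ‖(p : ℂ_[p])‖ ^ n := fun n => (dvdn p n x).2 (h n)
  have h2 : ‖(x : ℂ_[p])‖ ≤ 0 :=
    ge_of_tendsto' (tendsto_pow_atTop_nhds_zero_of_lt_one (norm_nonneg _)
      (norm_p_lt_one p)) h1
  exact Subtype.ext (norm_le_zero_iff.mp h2)

/-- one step -/
lemma step (h3 : T_SEC p) (hp3 : 3 ≤ p) (A' : Type) [CommRing A'] (κ : Acris p →+* A')
    (hκ : KapOK p A' κ) (η : OC p) (hη : nO p η ^ 2 ≤ np p) (d : Acris p)
    (hd : nO p (thetaA p (phiA p d)) ≤ np p) :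
    ∃ d' : Acris p, Good p d' ∧ nO p (thetaA p (phiA p d')) ≤ np p ∧
      (p : OC p) * thetaA p d' = -(η * thetaA p (phiA p d)) := by
  obtain ⟨b, hb⟩ := (dvd1 p _).1 hd
  have hc : nO p (-(η * b)) ^ 2 ≤ np p := by
    rw [nO_neg, nO_mul, mul_pow]
    calc nO p η ^ 2 * nO p b ^ 2 ≤ nO p η ^ 2 * 1 :=
          mul_le_mul_of_nonneg_left (pow_le_one₀ (norm_nonneg _) (le_one p b)) (by positivity)
      _ ≤ np p := by rw [mul_one]; exact hη
  obtain ⟨s, hs1, hs2, hs3, -⟩ := h3 hp3 A' κ hκ _ hc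
  refine ⟨s, hs1, hs3, ?_⟩
  rw [hs2, hb]
  ring

end PER_

open PER_ in
/-- perturbation -/
theorem p_PER (p : ℕ) [Fact p.Prime] (h1 : T_ATF p) (h2 : T_AX2 p) (h3 : T_SEC p)
    (h4 : T_SE2 p) : T_PER p := by
  intro hp3 η hη w hw
  obtain ⟨A', _, κ, hκ, -⟩ := h2
  obtain ⟨d0, ⟨hg0, -, ha0, -, -⟩, ht0⟩ := h4 hp3 A' κ hκ w hw
  have hpd : ∃ c, thetaA p (phiA p d0) -
      (sh p w ^ p ^ 3 + (p : OC p) * sh p w ^ p) = (p : OC p) ^ 2 * c := (dvdn p 2 _).1 ha0
  have hn0 : nO p (thetaA p (phiA p d0)) ≤ np p := by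
    have hw3 : nO p (sh p w ^ p ^ 3) ≤ np p := by
      rw [nO_pow]
      refine le_trans ?_ hw
      refine pow_le_pow_of_le_one (norm_nonneg _) (le_one p _) ?_
      calc 2 * p ^ 2 ≤ p * p ^ 2 := Nat.mul_le_mul_right _ (by omega)
        _ = p ^ 3 := by ring
    obtain ⟨c1, hc1⟩ := (dvd1 p _).1 hw3
    obtain ⟨c2, hc2⟩ := hpd
    refine (dvd1 p _).2 ⟨c1 + sh p w ^ p + p * c2, ?_⟩
    have : thetaA p (phiA p d0) = sh p w ^ p ^ 3 + (p : OC p) * sh p w ^ p +
        (p : OC p) ^ 2 * c2 := by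
      rw [← hc2]; ring
    rw [this, hc1]
    ring
  -- the sequence
  have hstep : ∀ d : {d : Acris p // Good p d ∧ nO p (thetaA p (phiA p d)) ≤ np p},
      ∃ d' : {d : Acris p // Good p d ∧ nO p (thetaA p (phiA p d)) ≤ np p},
        (p : OC p) * thetaA p d'.1 = -(η * thetaA p (phiA p d.1)) := by
    intro d
    obtain ⟨d', h5, h6, h7⟩ := step p h3 hp3 A' κ hκ η hη d.1 d.2.2
    exact ⟨⟨d', h5, h6⟩, h7⟩
  choose f hf using hstep
  set X : ℕ → {d : Acris p // Good p d ∧ nO p (thetaA p (phiA p d)) ≤ np p} :=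
    fun n => f^[n] ⟨d0, hg0, hn0⟩ with hX
  set D : ℕ → Acris p := fun n => (X n).1 with hD
  have hD0 : D 0 = d0 := rfl
  have hG : ∀ n, phiA p (phiA p (D n)) = p * D n := fun n => (X n).2.1
  have hN : ∀ n, nO p (thetaA p (phiA p (D n))) ≤ np p := fun n => (X n).2.2
  have hR : ∀ n, (p : OC p) * thetaA p (D (n + 1)) = -(η * thetaA p (phiA p (D n))) := by
    intro n
    have : X (n + 1) = f (X n) := Function.iterate_succ_apply' f n _
    rw [hD]
    dsimp only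
    rw [this]
    exact hf (X n)
  obtain ⟨S, hS⟩ := h1.2.2 D
  refine ⟨S, ?_, ?_, ?_⟩
  · -- Good
    refine sub_eq_zero.1 (h1.2.1 _ fun n => ?_)
    obtain ⟨r, hr⟩ := hS n
    refine ⟨phiA p (phiA p r) - p * r, ?_⟩
    rw [hr]
    simp only [map_add, map_sum, map_mul, map_pow, map_natCast]
    have e : ∑ i ∈ Finset.range n, (p : Acris p) ^ i * phiA p (phiA p (D i)) =
        p * ∑ i ∈ Finset.range n, (p : Acris p) ^ i * D i := by
      rw [Finset.mul_sum]
      refine Finset.sum_congr rfl fun i _ => ?_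
      rw [hG i]
      ring
    rw [e]
    ring
  · rw [← ht0]
    refine sub_eq_zero.1 (eq_zero p _ fun n => ?_)
    obtain ⟨r, hr⟩ := hS n
    have hsum : ∀ m, ∑ i ∈ Finset.range m, (p : OC p) ^ i * thetaA p (D i) +
        η * ∑ i ∈ Finset.range m, (p : OC p) ^ i * thetaA p (phiA p (D i)) =
        thetaA p d0 - (p : OC p) ^ m * thetaA p (D m) := by
      intro m
      induction m with
      | zero => simp [hD0]
      | succ m ih =>
        rw [Finset.sum_range_succ, Finset.sum_range_succ]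
        have h5 : thetaA p d0 = ∑ i ∈ Finset.range m, (p : OC p) ^ i * thetaA p (D i) +
            η * ∑ i ∈ Finset.range m, (p : OC p) ^ i * thetaA p (phiA p (D i)) +
            (p : OC p) ^ m * thetaA p (D m) := by
          rw [ih]; ring
        have h6 : (p : OC p) ^ (m + 1) * thetaA p (D (m + 1)) =
            (p : OC p) ^ m * ((p : OC p) * thetaA p (D (m + 1))) := by ring
        rw [h5, h6, hR m]
        ring
    refine ⟨thetaA p r + η * thetaA p (phiA p r) - thetaA p (D n), ?_⟩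
    rw [hr]
    simp only [map_add, map_sum, map_mul, map_pow, map_natCast]
    linear_combination hsum n
  · obtain ⟨r, hr⟩ := hS 2
    obtain ⟨c, hc⟩ := hpd
    obtain ⟨b, hb⟩ := (dvd1 p _).1 (hN 1)
    refine (dvdn p 2 _).2 ⟨c + b + thetaA p (phiA p r), ?_⟩
    rw [hr]
    simp only [Finset.sum_range_succ, Finset.sum_range_zero, map_add, map_mul, map_pow,
      map_natCast, hD0, hb, map_zero]
    linear_combination hc

end

end TWT
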