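import Pool.Agent.TWT.Crys
import Pool.Agent.TWT.Gen

/-!
# Local Shimura varieties at infinite level, special subvarieties, the counterexample

Closed subgroups `G` of `GL_ι` over `ℚ_p`, cocharacters with weights `0, 1`, elements `b` of
`G(Breve)`; the `ℂ_p`-points of the infinite level local Shimura variety, the two periods, special
subdata; the datum `GL₂ × D^×`, the curve `S`, the lattices of `E_max` and `E_S`.
-/

set_option warn.classDefReducibility false

namespace Crys

open Matrix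

noncomputable section

/-! ### Matrices -/

section matrices

variable {ι : Type} [Fintype ι] [DecidableEq ι] {R F : Type} [CommRing R] [CommRing F]

/-- The image of a matrix. -/
def im (m : Matrix ι ι R) : Set (ι → R) := {u | ∃ w, u = m *ᵥ w}

/-- The kernel of a matrix. -/
def ker (m : Matrix ι ι R) : Set (ι → R) := {u | m *ᵥ u = 0}

/-- The Hodge period of `z`: the image of `θ(z)`. -/
def hodge (θ : R →+* F) (z : Matrix ι ι R) : Set (ι → F) := im (z.map θ)

/-- The Hodge-Tate period of `z`: the kernel of `θ(z)`. -/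
def hodgeTate (θ : R →+* F) (z : Matrix ι ι R) : Set (ι → F) := ker (z.map θ)

variable (ι R) in
/-- `GL_ι(R)`. -/
def GLn : Type := (Matrix ι ι R)ˣ

variable (ι R) in
def groupGL : Group (GLn ι R) := (inferInstance : Group (Matrix ι ι R)ˣ)

attribute [instance] groupGL

/-- The matrix of an element of `GL_ι(R)`. -/
def mat (g : GLn ι R) : Matrix ι ι R := Units.val g

/-- `μ(s) = s e + (1 - e)`. -/
def mu (e : Matrix ι ι R) (s : R) : Matrix ι ι R := s • e + (1 - e)

/-- `e` is an idempotent and `μ` is a cocharacter of `H`. -/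
def IsCochar (H : Subgroup (GLn ι R)) (e : Matrix ι ι R) : Prop :=
  e * e = e ∧ ∀ s : R, s ≠ 0 → ∃ h ∈ H, mat h = mu e s

/-- `e'` is a conjugate of `e` by an element of `H`. -/
def IsConj (H : Subgroup (GLn ι R)) (e e' : Matrix ι ι R) : Prop :=
  ∃ a ∈ H, e' * mat a = mat a * e

/-- `z z' = z' z = t`. -/
def InvUpTo (t : R) (z z' : Matrix ι ι R) : Prop := z * z' = t • 1 ∧ z' * z = t • 1

/-- `b f(z) = z`. -/
def IsFixed (f : R →+* R) (b z : Matrix ι ι R) : Prop := b * z.map f = z

/-- `b f(g) = g b'`. -/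
def IsTwisted (f : R →+* R) (b b' g : Matrix ι ι R) : Prop := b * g.map f = g * b'

/-- `z = g y`. -/
def IsTranslate (g z y : Matrix ι ι R) : Prop := z = g * y

end matrices

/-! ### Data, points, special subvarieties -/

section general

variable (p : ℕ) [hp : Fact p.Prime] (ι : Type) [Fintype ι] [DecidableEq ι]

variable {p ι} in
/-- The matrix `m` satisfies the polynomial equations `E`. -/
def Sat {R : Type} [CommRing R] [Algebra ℚ_[p] R] (E : Set (MvPolynomial (ι × ι) ℚ_[p]))
    (m : Matrix ι ι R) : Prop :=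
  ∀ f ∈ E, MvPolynomial.aeval (fun ij : ι × ι => m ij.1 ij.2) f = 0

/-- A closed subgroup of `GL_ι` over `ℚ_p`: polynomial equations over `ℚ_p` whose invertible
solutions form a subgroup of `GL_ι(R)` for every commutative `ℚ_p`-algebra `R`. -/
structure ClGrp where
  eqs : Set (MvPolynomial (ι × ι) ℚ_[p])
  pts : ∀ (R : Type) [CommRing R] [Algebra ℚ_[p] R], Subgroup (GLn ι R)
  mem_pts : ∀ (R : Type) [CommRing R] [Algebra ℚ_[p] R] (g : GLn ι R), g ∈ pts R ↔ Sat eqs (mat g)

/-- A datum `(G, [μ], b)`: the cocharacter is `μ(s) = s e + (1 - e)` with an idempotent `e`. -/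
structure Datum where
  G : ClGrp p ι
  e : Matrix ι ι (Qb p)
  b : GLn ι (Breve p)

variable {p ι}

/-- `μ` is a cocharacter of `G` over `ℚ̄_p` and `b` is an element of `G(Breve)`. -/
structure Datum.IsDatum (X : Datum p ι) : Prop where
  cochar : IsCochar (X.G.pts (Qb p)) X.e
  b_mem : X.b ∈ X.G.pts (Breve p)

/-- `q` is in `Fl_[μ](ℂ_p)`: it is a translate of `Fil(μ)`, the image of `e`, by an element of
`G(ℂ_p)`. -/
def Datum.Fl (X : Datum p ι) : Set (Set (ι → Cp p)) :=
  {q | ∃ h ∈ X.G.pts (Cp p), q = im (mat h * X.e.map (toCp p))}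

/-- `q` is in `Fl_[μ⁻¹](ℂ_p)`: it is a translate of `Fil(μ⁻¹)`, the image of `1 - e`. -/
def Datum.Fl' (X : Datum p ι) : Set (Set (ι → Cp p)) :=
  {q | ∃ h ∈ X.G.pts (Cp p), q = im (mat h * (1 - X.e).map (toCp p))}

/-- The `ℂ_p`-points of `D = Fl_[μ⁻¹] × Fl_[μ]`. -/
def Datum.D (X : Datum p ι) : Set (Set (ι → Cp p) × Set (ι → Cp p)) := X.Fl' ×ˢ X.Fl

/-- The `ℂ_p`-points of the infinite level local Shimura variety of `(G, b, [μ])`: isomorphisms
`z : E₁ → E_b` of `G`-bundles on the Fargues-Fontaine curve away from `∞`, of relative position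
`[μ]` at `∞`. In terms of period rings: `z ∈ G(B_cris)` with `b φ(z) = z`, such that `z` and `t z⁻¹`
have entries in `B_cris⁺` (weights `0` and `1`), and the kernel of `θ(z)` is in `Fl_[μ](ℂ_p)`. -/
structure Datum.IsPoint (X : Datum p ι) (z : Matrix ι ι (Bcris p)) : Prop where
  eqs : Sat X.G.eqs z
  frob : IsFixed (phiB p) ((mat X.b).map (brB p)) z
  inv : ∃ t ∈ tSet p, ∃ z', InvUpTo t z z'
  type : hodgeTate (thetaB p) z ∈ X.Fl

/-- `Y = (H, b_H, [μ_H])` is a special subdatum of `X = (G, b, [μ])`, and `g ∈ G(Breve)`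
`σ`-conjugates `b_H` to `b`: `b σ(g) = g b_H`. It is not asked that `b_H` is basic. -/
structure Datum.IsSub (X Y : Datum p ι) (g : GLn ι (Breve p)) : Prop where
  isDatum : Y.IsDatum
  le : ∀ (R : Type) [CommRing R] [Algebra ℚ_[p] R], Y.G.pts R ≤ X.G.pts R
  conj : IsConj (X.G.pts (Qb p)) X.e Y.e
  g_mem : g ∈ X.G.pts (Breve p)
  sconj : IsTwisted (sigma p) (mat X.b) (mat Y.b) (mat g)

/-- `z` lies in the image, under some `g`, of the local Shimura variety of the special subdatum
`Y`. -/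
def Datum.InSpecial (X Y : Datum p ι) (z : Matrix ι ι (Bcris p)) : Prop :=
  ∃ g y, X.IsSub Y g ∧ Y.IsPoint y ∧ IsTranslate ((mat g).map (brB p)) z y

/-- `Y = (H, b_H, [μ_H])` is strict: the commutator subgroups of `H(ℚ̄_p)` and `G(ℚ̄_p)` are
different. For connected `H` this says `H^der ≠ G^der`; connectedness of `H` is not asked. -/
def Datum.IsStrict (X Y : Datum p ι) : Prop :=
  ⁅Y.G.pts (Qb p), Y.G.pts (Qb p)⁆ ≠ ⁅X.G.pts (Qb p), X.G.pts (Qb p)⁆

end general

/-! ### The group `GL₂ × D^×` in `GL₆` -/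

section twin

variable (p : ℕ)

/-- Index set of the standard representation `ℚ_p² ⊕ D`. -/
abbrev Six : Type := Fin 2 ⊕ Fin 4

variable {R : Type} [CommRing R]

/-- The matrix `L_x` of the left multiplication by the quaternion `x₀ + x₁ i + x₂ j + x₃ k` of
`D = (-1, p)` (`i² = -1`, `j² = p`, `k = ij = -ji`) in the basis `1, i, j, k`. -/
def lmul (x : Fin 4 → R) : Matrix (Fin 4) (Fin 4) R :=
  !![x 0, -x 1, (p : R) * x 2, (p : R) * x 3;
     x 1, x 0, (p : R) * x 3, -((p : R) * x 2);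
     x 2, x 3, x 0, -x 1;
     x 3, -x 2, x 1, x 0]

/-- The reduced norm of a quaternion. -/
def rnorm (x : Fin 4 → R) : R := x 0 ^ 2 + x 1 ^ 2 - (p : R) * (x 2 ^ 2 + x 3 ^ 2)

/-- The matrix `diag(a, L_x)` for `a ∈ M₂(R)`, `x ∈ D(R)`. -/
def blk (a : Matrix (Fin 2) (Fin 2) R) (x : Fin 4 → R) : Matrix Six Six R :=
  Matrix.fromBlocks a 0 0 (lmul p x)

/-- The matrices `diag(a, L_x)`. -/
def IsBlk (m : Matrix Six Six R) : Prop := ∃ a x, m = blk p a x

/-- Equations of the matrices `diag(a, L_x)`: the off-diagonal blocks vanish and the lower block is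
the left multiplication by the quaternion given by its first column. -/
def twinEqs (p : ℕ) [Fact p.Prime] : Set (MvPolynomial (Six × Six) ℚ_[p]) :=
  {f | ∃ (i : Fin 2) (j : Fin 4), f = MvPolynomial.X (Sum.inl i, Sum.inr j)} ∪
  {f | ∃ (i : Fin 2) (j : Fin 4), f = MvPolynomial.X (Sum.inr j, Sum.inl i)} ∪
  {f | ∃ a b : Fin 4, f = MvPolynomial.X (Sum.inr a, Sum.inr b) -
    lmul p (fun c => MvPolynomial.X ((Sum.inr c, Sum.inr 0) : Six × Six)) a b}

/-- The splitting `D(F) → M₂(F)` given by a square root `I` of `-1`. -/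
def spl (I : R) (x : Fin 4 → R) : Matrix (Fin 2) (Fin 2) R :=
  !![x 0 + x 1 * I, x 2 + x 3 * I; (p : R) * (x 2 - x 3 * I), x 0 - x 1 * I]

/-- The line spanned by `v`. -/
def line (v : Fin 2 → R) : Set (Fin 2 → R) := {u | ∃ c : R, u = c • v}

/-- The subspace `ℓ ⊕ J(ℓ')` of `F² ⊕ D(F)`, where `ℓ`, `ℓ'` are the lines spanned by `v`, `w`, and
`J(ℓ')` is the right ideal of the quaternions `x` for which `spl x` has image in `ℓ'`. -/
def flagS (I : R) (v w : Fin 2 → R) : Set (Six → R) :=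
  {u | (fun i => u (Sum.inl i)) ∈ line v ∧ ∀ y, spl p I (fun i => u (Sum.inr i)) *ᵥ y ∈ line w}

/-- The points of the curve `S ≅ ℙ¹` in `D`, over a field: the pairs `(x ⊕ J(ℓ), ℓ ⊕ J(x))` for all
lines `ℓ` (spanned by `v`), with the fixed line `x` spanned by `(-η, 1)`. -/
def curveS (I η : R) : Set (Set (Six → R) × Set (Six → R)) :=
  {q | ∃ v : Fin 2 → R, v ≠ 0 ∧ q = (flagS p I ![-η, 1] v, flagS p I v ![-η, 1])}

end twin

/-! ### The degree of `E_S` -/

section degree

variable (p : ℕ) {R F : Type} [CommRing R] [CommRing F]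

/-- `𝔤°(R)`, the Lie algebra of `G^der = SL₂ × SL₁(D)`: pairs `(a, x)` in `M₂(R) × D(R)` of trace
zero. -/
def IsLie (a : Matrix (Fin 2) (Fin 2) R) (x : Fin 4 → R) : Prop := a.trace = 0 ∧ x 0 = 0

/-- The element `t (z⁻¹ (a, x) z + (a', x'))` of `M₂(R) × D(R)`, as a matrix; here `z' = t z⁻¹`. -/
def germ (t : R) (z z' : Matrix Six Six R) (a : Matrix (Fin 2) (Fin 2) R) (x : Fin 4 → R)
    (a' : Matrix (Fin 2) (Fin 2) R) (x' : Fin 4 → R) : Matrix Six Six R :=
  z' * blk p a x * z + t • blk p a' x'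

/-- `((a, x), (a', x'))` in `𝔤° × 𝔤°` is tangent to `S` at `s = ((x₀, J(ℓ)), (ℓ, J(x₀)))`, where `ℓ`
is spanned by `v` and `x₀` by `(-η, 1)`. Here `(n, m)` acts on the two flags of `s` by `1 + ε n` and
`1 + ε m`; so this says that `a` fixes the line `x₀`, `x'` fixes the ideal `J(x₀)`, and `x` and `a'`
move the line `ℓ` in the same way. -/
def IsTangent (I η : F) (v : Fin 2 → F) (a : Matrix (Fin 2) (Fin 2) F) (x : Fin 4 → F)
    (a' : Matrix (Fin 2) (Fin 2) F) (x' : Fin 4 → F) : Prop :=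
  a *ᵥ ![-η, 1] ∈ line ![-η, 1] ∧ spl p I x' *ᵥ ![-η, 1] ∈ line ![-η, 1] ∧
    (spl p I x - a') *ᵥ v ∈ line v

/-- `t` times the lattice `z⁻¹ 𝔤°(R) z + 𝔤°(R)` of `E_max` at `∞`. -/
def latMax (t : R) (z z' : Matrix Six Six R) : Submodule R (Matrix Six Six R) :=
  Submodule.span R {y | ∃ a x a' x', IsLie a x ∧ IsLie a' x' ∧ y = germ p t z z' a x a' x'}

/-- `t` times the lattice `𝔤°(R)` of the trivial bundle `𝔤° ⊗ O` at `∞`. -/
def latTriv (t : R) (z z' : Matrix Six Six R) : Submodule R (Matrix Six Six R) :=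
  Submodule.span R {y | ∃ a' x', IsLie a' x' ∧ y = germ p t z z' 0 0 a' x'}

/-- `t` times the lattice of `E_S` at `∞`: the sums `z⁻¹ n z + m` for which the reduction of
`(n, c m)` is tangent to `S`. The deformation `(1 + ε n) z (1 + ε m)` of `z` moves the Hodge period
by `1 + ε n` and the Hodge-Tate period by `1 - ε m`, so `c = -1` gives the derivative of the period
map; the other sign of the second component of `T_D` is covered by `c = 1`. -/
def latS (θ : R →+* F) (I η : F) (v : Fin 2 → F) (c : ℤ) (t : R) (z z' : Matrix Six Six R) :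
    Submodule R (Matrix Six Six R) :=
  Submodule.span R {y | ∃ a x a' x', IsLie a x ∧ IsLie a' x' ∧
    IsTangent p I η v (a.map θ) (fun i => θ (x i)) (c • a'.map θ) (fun i => c • θ (x' i)) ∧
    y = germ p t z z' a x a' x'}

/-- `A / B` has length `n`. -/
def HasColength {M : Type} [AddCommGroup M] [Module R M] (A B : Submodule R M) (n : ℕ) : Prop :=
  B ≤ A ∧ Module.length R (A ⧸ B.submoduleOf A) = n

/-- At a point `z` with periods in `S`: `E_max / (𝔤° ⊗ O)` has length `2` and `E_max / E_S` has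
length `3`. -/
def DegreeAt (θ : R →+* F) (I η : F) (t : R) (z z' : Matrix Six Six R) : Prop :=
  ∀ (v : Fin 2 → F) (c : ℤ), v ≠ 0 → c = 1 ∨ c = -1 → hodge θ z = flagS p I ![-η, 1] v →
    hodgeTate θ z = flagS p I v ![-η, 1] →
    HasColength (latMax p t z z') (latTriv p t z z') 2 ∧
    HasColength (latMax p t z z') (latS p θ I η v c t z z') 3

end degree

/-! ### The datum and the statement -/

section group

variable (p : ℕ) [hp : Fact p.Prime] {R : Type} [CommRing R] [Algebra ℚ_[p] R]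

/-- The quaternion `x₀ + x₁ i + x₂ j + x₃ k`. -/
theorem isBlk_iff (g : GLn Six R) : IsBlk p (mat g) ↔ (g : (Matrix Six Six R)ˣ) ∈ (TWT.twinG p).pts R := by
  constructor
  · rintro ⟨a, x, h⟩
    refine TWT.exists_unit p (g := g) (a := a) (x := ⟨x 0, x 1, x 2, x 3⟩) ?_
    exact h
  · rintro ⟨u, hu⟩
    refine ⟨(u : TWT.AA p R).1, ![(u : TWT.AA p R).2.re, (u : TWT.AA p R).2.imI,
      (u : TWT.AA p R).2.imJ, (u : TWT.AA p R).2.imK], ?_⟩
    exact (congrArg Units.val hu).symm

theorem isBlk_one : (1 : GLn Six R) ∈ {g | IsBlk p (mat g)} :=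
  (isBlk_iff p _).mpr (one_mem ((TWT.twinG p).pts R))

theorem isBlk_mul {g h : GLn Six R} (hg : g ∈ {g | IsBlk p (mat g)})
    (hh : h ∈ {g | IsBlk p (mat g)}) : g * h ∈ {g | IsBlk p (mat g)} :=
  (isBlk_iff p _).mpr (mul_mem ((isBlk_iff p _).mp hg) ((isBlk_iff p _).mp hh))

theorem isBlk_inv {g : GLn Six R} (hg : g ∈ {g | IsBlk p (mat g)}) :
    g⁻¹ ∈ {g | IsBlk p (mat g)} :=
  (isBlk_iff p _).mpr (inv_mem ((isBlk_iff p _).mp hg))

theorem isBlk_sat (g : GLn Six R) : IsBlk p (mat g) ↔ Sat (twinEqs p) (mat g) :=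
  (isBlk_iff p g).trans ((TWT.twinG p).mem_pts R g)

end group

section statement

variable (p : ℕ) [hp : Fact p.Prime]

/-- The group `G = GL₂ × D^×` as a closed subgroup of `GL₆`: `G(R)` is the group of the invertible
matrices `diag(a, L_x)` with `a ∈ M₂(R)`, `x ∈ D(R)`. -/
def twinG : ClGrp p Six where
  eqs := twinEqs p
  pts R _ _ :=
    { carrier := {g | IsBlk p (mat g)}
      one_mem' := isBlk_one p
      mul_mem' := isBlk_mul p
      inv_mem' := isBlk_inv p }
  mem_pts R _ _ g := isBlk_sat p g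

/-- The first component of `b`. -/
def b₁ : Matrix (Fin 2) (Fin 2) (Breve p) := !![0, (p : Breve p)⁻¹; 1, 0]

/-- The second component `j / p` of `b`. -/
def b₂ : Fin 4 → Breve p := ![0, 0, (p : Breve p)⁻¹, 0]

/-- The inverse of `b`, the matrix of `((0 1; p 0), j)`. -/
def binv : Matrix Six Six (Breve p) := blk p !![0, 1; (p : Breve p), 0] ![0, 0, 1, 0]

theorem b_mul : blk p (b₁ p) (b₂ p) * binv p = 1 :=
  congrArg (TWT.blk p) (TWT.bTwin p).val_inv |>.trans (map_one _) |> fun h =>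
    (map_mul (TWT.blk p) _ _).symm.trans h

theorem mul_b : binv p * blk p (b₁ p) (b₂ p) = 1 :=
  congrArg (TWT.blk p) (TWT.bTwin p).inv_val |>.trans (map_one _) |> fun h =>
    (map_mul (TWT.blk p) _ _).symm.trans h

/-- The element `b = ((0 1/p; 1 0), j/p)` of `G(Breve)`. -/
def bTwin : GLn Six (Breve p) := Units.mk (blk p (b₁ p) (b₂ p)) (binv p) (b_mul p) (mul_b p)

/-- `b` is the basic element of `B(G, [μ⁻¹])`: `b σ(b) = 1/p` (so `b` has slope `-1/2` in both
factors), and the determinant of its first component and the reduced norm of its second component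
have valuation `-1` (the invariant of `[μ⁻¹]`). -/
def TwinBasic : Prop :=
  mat (bTwin p) * (mat (bTwin p)).map (sigma p) = (p : Breve p)⁻¹ • 1 ∧
  (b₁ p).det = -(p : Breve p)⁻¹ ∧ rnorm p (b₂ p) = -(p : Breve p)⁻¹

/-- The datum: `G = GL₂ × D^×`, `μ` of type `(1, 0)` in both factors (`e` is the idempotent
`(E₁₁, (1 - I i) / 2)`, of rank one in both factors), and `b`. -/
def twin (I : Qb p) : Datum p Six where
  G := twinG p
  e := blk p !![1, 0; 0, 0] ![1 / 2, -I / 2, 0, 0]
  b := bTwin p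

/-- The degree of `E_S` is `2 - 3 = -1` at every geometric point of the local Shimura variety with
periods in `S`. Here `R` is any discrete valuation ring over `ℚ̄_p` with residue field `F`, for
instance `R = B_dR⁺(C')` and `F = C'` for a geometric point `Spd C'`, `t` is a uniformizer and
`z ∈ G(R[1/t])` is the germ of the modification at `∞`. -/
def DegreeCount (I η : Qb p) : Prop :=
  ∀ (R F : Type) [CommRing R] [IsDomain R] [IsDiscreteValuationRing R] [Algebra (Qb p) R] [Field F]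
    (θ : R →+* F) (t : R) (z z' : Matrix Six Six R), Function.Surjective θ → Irreducible t →
    IsBlk p z → IsBlk p z' → InvUpTo t z z' →
    DegreeAt p θ (θ (algebraMap (Qb p) R I)) (θ (algebraMap (Qb p) R η)) t z z'

end statement

end

end Crys
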