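import Pool.Agent.TWT.Defs

/-!
# TWT: targets (statements only; proofs in `Blueprint.md`)
-/

namespace TWT

open WittVector Matrix

noncomputable section

variable (p : ℕ) [hp : Fact p.Prime]

/-! ## Notation -/

/-- The untilt `x♯`. -/
abbrev sh (x : Tl p) : OC p := PreTilt.untilt x

/-- The norm on `O`. -/
abbrev nO (x : OC p) : ℝ := ‖(x : ℂ_[p])‖

/-- The norm of `p`. -/
abbrev np : ℝ := ‖(p : ℂ_[p])‖

/-- The Teichmüller element `[x]` in `A_cris`. -/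
def tm (x : Tl p) : Acris p := jj p (WittVector.teichmuller p x)

/-- `φ² s = p s`. -/
def Good (s : Acris p) : Prop := phiA p (phiA p s) = p * s

/-- The reduced norm of a quaternion. -/
def nrd {R : Type} [CommRing R] (x : Quat p R) : R :=
  x.re ^ 2 + x.imI ^ 2 - (p : R) * (x.imJ ^ 2 + x.imK ^ 2)

/-! ## U. The tilt -/

/-- the untilt is onto, only zero has untilt zero, divisibility is decided by the norm -/
def T_UNT : Prop := (∀ x : OC p, ∃ u : Tl p, sh p u = x) ∧ (∀ u : Tl p, sh p u = 0 ↔ u = 0) ∧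
  (∀ u v : Tl p, nO p (sh p u) ≤ nO p (sh p v) → ∃ w, u = v * w) ∧
  (∀ u v : Tl p, u * v = 0 → u = 0 ∨ v = 0)

/-- a square root of `-1` in `A_inf` -/
def T_IOT : Prop := p % 4 = 3 → ∃ ω : Ainf p, ω * ω = -1 ∧ WittVector.frobenius ω = -ω

/-- the kernel of `θ` is generated by `p - [ϖ]` -/
def T_KER : Prop := ∀ ϖ : Tl p, sh p ϖ = (p : OC p) → ∀ a : Ainf p, theta p a = 0 →
  ∃ c, a = ((p : Ainf p) - WittVector.teichmuller p ϖ) * c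

/-! ## P. The ring `A_cris` -/

/-- no `p`-torsion, separated, sums of series -/
def T_ATF : Prop := (∀ a : Acris p, (p : Acris p) * a = 0 → a = 0) ∧
  (∀ a : Acris p, (∀ n : ℕ, ∃ r, a = (p : Acris p) ^ n * r) → a = 0) ∧
  (∀ s : ℕ → Acris p, ∃ S : Acris p, ∀ n, ∃ r,
    S = ∑ i ∈ Finset.range n, (p : Acris p) ^ i * s i + (p : Acris p) ^ n * r)

/-- `[x]` is divisible by `p` for small `x` -/
def T_APD : Prop := ∀ x : Tl p, nO p (sh p x) ≤ (np p) ^ p → ∃ a : Acris p, tm p x = p * a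

/-- admissible auxiliary rings -/
def KapOK (A' : Type) [CommRing A'] (κ : Acris p →+* A') : Prop :=
  (∀ a : A', (p : A') * a = 0 → a = 0) ∧
  ∀ u : Tl p, nO p (sh p u) ≤ np p → ∃ x : A', κ (tm p u) = p * x

/-- the auxiliary ring `A_max` -/
def T_AX2 : Prop := ∃ (A' : Type) (_ : CommRing A') (κ : Acris p →+* A'), KapOK p A' κ ∧
  ∀ (ϖ v e : Tl p) (X : A'), sh p ϖ = (p : OC p) → κ (tm p ϖ) = p * X →
    np p < nO p (sh p v) ^ (p + 1) →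
    ¬ ∃ a : A', κ (tm p (v ^ (p + 1))) * (1 + X * κ (tm p e)) = p * a

/-! ## S. Periods of the Lubin-Tate tower -/

/-- the series `∑ pⁿ [w^(p^(2-2n))]` over all integers `n` -/
def T_SER : Prop := 3 ≤ p → ∀ w : Tl p, nO p (sh p w) ^ (2 * p ^ 2) ≤ np p →
  ∃ τ r : Acris p, Good p τ ∧ (p : Acris p) ^ 2 * τ =
    (p : Acris p) ^ 2 * tm p (w ^ p ^ 2) + (p : Acris p) ^ 3 * tm p w +
    (p : Acris p) * tm p (w ^ p ^ 4) + tm p (w ^ p ^ 6) + (p : Acris p) ^ 4 * r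

/-- approximate values of `s` -/
def Appr {A' : Type} [CommRing A'] (κ : Acris p →+* A') (w : Tl p) (s : Acris p) : Prop :=
  Good p s ∧
  nO p (thetaA p s - (sh p w ^ p ^ 2 + (p : OC p) * sh p w)) ≤ np p ^ 2 ∧
  nO p (thetaA p (phiA p s) - (sh p w ^ p ^ 3 + (p : OC p) * sh p w ^ p)) ≤ np p ^ 2 ∧
  (∃ r : A', κ s = κ (tm p (w ^ p ^ 2)) + p * κ (tm p w) + p ^ 2 * r) ∧
  (∃ r : A', κ (phiA p s) = κ (tm p (w ^ p ^ 3)) + p * κ (tm p (w ^ p)) + p ^ 2 * r)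

def T_AP0 : Prop := 3 ≤ p → ∀ (A' : Type) [CommRing A'] (κ : Acris p →+* A'), KapOK p A' κ →
  ∀ w : Tl p, nO p (sh p w) ^ (2 * p ^ 2) ≤ np p → ∃ τ : Acris p, Appr p κ w τ

/-- roots of `W^(p²) + p W = c` -/
def T_ROOT : Prop := 3 ≤ p → ∀ c : OC p, nO p c ^ 2 ≤ np p → ∃ w : Tl p,
  sh p w ^ p ^ 2 + (p : OC p) * sh p w = c ∧ nO p (sh p w) ^ (2 * p ^ 2) ≤ np p ∧
  (nO p c ≤ np p → nO p (sh p w) ^ p ^ 2 ≤ np p)

/-- sections of `θ` on the `p`-eigenspace of `φ²` -/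
def T_SEC : Prop := 3 ≤ p → ∀ (A' : Type) [CommRing A'] (κ : Acris p →+* A'), KapOK p A' κ →
  ∀ c : OC p, nO p c ^ 2 ≤ np p → ∃ s : Acris p, Good p s ∧ thetaA p s = c ∧
    nO p (thetaA p (phiA p s)) ≤ np p ∧
    (nO p c ≤ np p → (∃ x : A', κ s = p * x) ∧ ∃ x : A', κ (phiA p s) = p * x)

/-- precise sections -/
def T_SE2 : Prop := 3 ≤ p → ∀ (A' : Type) [CommRing A'] (κ : Acris p →+* A'), KapOK p A' κ →
  ∀ w : Tl p, nO p (sh p w) ^ (2 * p ^ 2) ≤ np p → ∃ s : Acris p, Appr p κ w s ∧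
    thetaA p s = sh p w ^ p ^ 2 + (p : OC p) * sh p w

/-- perturbation -/
def T_PER : Prop := 3 ≤ p → ∀ η : OC p, nO p η ^ 2 ≤ np p → ∀ w : Tl p,
  nO p (sh p w) ^ (2 * p ^ 2) ≤ np p → ∃ s : Acris p, Good p s ∧
    thetaA p s + η * thetaA p (phiA p s) = sh p w ^ p ^ 2 + (p : OC p) * sh p w ∧
    nO p (thetaA p (phiA p s) - (sh p w ^ p ^ 3 + (p : OC p) * sh p w ^ p)) ≤ np p ^ 2

/-- the Lubin-Tate period -/
def T_LT0 : Prop := 3 ≤ p → ∃ (t₀ : Acris p) (W₀ : OC p), Good p t₀ ∧ thetaA p t₀ = 0 ∧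
  W₀ ^ (p ^ 2 - 1) = -(p : OC p) ∧ nO p (thetaA p (phiA p t₀)) = np p * nO p W₀ ^ p ∧
  ¬ ∃ a, t₀ * phiA p t₀ = (p : Acris p) ^ 3 * a

/-- the periods of the point -/
def T_EX : Prop := p % 4 = 3 → ∀ ω : Ainf p, ω * ω = -1 → WittVector.frobenius ω = -ω →
  ∀ η : OC p, η ^ 2 = (p : OC p) ^ 5 → ∃ t₁ t₂ : Acris p, Good p t₁ ∧ Good p t₂ ∧
    thetaA p t₁ + η * thetaA p (phiA p t₁) = 0 ∧ thetaA p t₂ + η * thetaA p (phiA p t₂) = 0 ∧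
    thetaA p (phiA p t₁) ≠ 0 ∧
    thetaA p (phiA p t₂) + theta p ω * thetaA p (phiA p t₁) ≠ 0 ∧
    nO p (thetaA p (phiA p t₂) + theta p ω * thetaA p (phiA p t₁)) <
      nO p (thetaA p (phiA p t₁)) ∧
    (∀ m : ℤ, nO p (thetaA p (phiA p t₂) + theta p ω * thetaA p (phiA p t₁)) ≠
      np p ^ m * nO p (thetaA p (phiA p t₁))) ∧
    t₁ * phiA p t₂ - t₂ * phiA p t₁ ≠ 0

/-- properties of the splitting -/
def T_SPL : Prop := ∀ (R : Type) [CommRing R] (I : R), I ^ 2 = -1 →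
  spl p I 1 = 1 ∧ (∀ x y : Quat p R, spl p I (x * y) = spl p I x * spl p I y) ∧
  (∀ x y : Quat p R, spl p I (x + y) = spl p I x + spl p I y) ∧
  (∀ (c : R) (x : Quat p R), spl p I (c • x) = c • spl p I x) ∧
  (∀ x : Quat p R, (spl p I x).det = nrd p x) ∧
  (∀ x : Quat p R, (beta p R).1 * spl p I x = spl p (-I) x * (beta p R).1) ∧
  (IsUnit (2 : R) → IsUnit (p : R) → Function.Bijective (spl p I : Quat p R → _))

/-- the point -/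
def T_PT : Prop := p % 4 = 3 → ∃ I η : PadicAlgCl p, I ^ 2 = -1 ∧ η ^ 2 = (p : PadicAlgCl p) ^ 5 ∧
  ∃ (z : AA p (Bcris p)) (y : ℂ_[p]), IsPt p z ∧
    Hdg p z = (lineOf (algebraMap (PadicAlgCl p) ℂ_[p] η),
      idealOf p (algebraMap (PadicAlgCl p) ℂ_[p] I) (Submodule.span ℂ_[p] {![y, 1]})) ∧
    HT p z = (Submodule.span ℂ_[p] {![y, 1]},
      idealOf p (algebraMap (PadicAlgCl p) ℂ_[p] I)
        (lineOf (algebraMap (PadicAlgCl p) ℂ_[p] η))) ∧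
    y ≠ algebraMap (PadicAlgCl p) ℂ_[p] I ∧ ‖y - algebraMap (PadicAlgCl p) ℂ_[p] I‖ < 1 ∧
    ∀ m : ℤ, ‖y - algebraMap (PadicAlgCl p) ℂ_[p] I‖ ≠ np p ^ m

/-! ## V. Valuations -/

/-- `y` is not quadratic -/
def T_NQ : Prop := p % 4 = 3 → ∀ I y : ℂ_[p], I ^ 2 = -1 → y ≠ I → ‖y - I‖ < 1 →
  (∀ m : ℤ, ‖y - I‖ ≠ np p ^ m) → ∀ a b c : ℚ_[p],
  algebraMap ℚ_[p] ℂ_[p] a * y ^ 2 + algebraMap ℚ_[p] ℂ_[p] b * y + algebraMap ℚ_[p] ℂ_[p] c = 0 →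
  a = 0 ∧ b = 0 ∧ c = 0

/-- the line of `η` is fixed by no quaternion of trace zero -/
def T_NX : Prop := p % 4 = 3 → ∀ I η : ℂ_[p], I ^ 2 = -1 → η ^ 2 = (p : ℂ_[p]) ^ 5 →
  ∀ N : Quat p ℚ_[p], N.re = 0 →
  spl p I (quatMap p (algebraMap ℚ_[p] ℂ_[p]) N) *ᵥ ![-η, 1] ∈ lineOf η → N = 0

/-- `D` has no nilpotents -/
def T_DV : Prop := p % 4 = 3 → ∀ x : Quat p ℚ_[p], x * x = 0 → x = 0

/-! ## G. Groups -/

/-- the group normalises a unique line of nilpotents -/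
def NilC {k M : Type} [Field k] [Ring M] [Algebra k M] (P : Subgroup Mˣ) : Prop :=
  ∃ n : M, n ≠ 0 ∧ n * n = 0 ∧ (∀ g ∈ P, ∃ c : k, (g : M) * n = c • (n * g)) ∧
    ∀ n' : M, n' * n' = 0 → (∀ g ∈ P, ∃ c : k, (g : M) * n' = c • (n' * g)) →
      ∃ c : k, n' = c • n

/-- the group permutes `e` and `1 - e` -/
def TorC {M : Type} [Ring M] (P : Subgroup Mˣ) (e : M) : Prop :=
  ∀ g ∈ P, (g : M) * e = e * g ∨ (g : M) * e = (1 - e) * g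

/-- the group contains all elements of determinant one -/
def BigM {k : Type} [Field k] (P : Subgroup (Matrix (Fin 2) (Fin 2) k)ˣ) : Prop :=
  ∀ g : Matrix (Fin 2) (Fin 2) k, g.det = 1 → ∃ h ∈ P, (h : Matrix (Fin 2) (Fin 2) k) = g

/-- the group contains all elements of reduced norm one -/
def BigQ {k : Type} [Field k] (P : Subgroup (Quat p k)ˣ) : Prop :=
  ∀ g : Quat p k, nrd p g = 1 → ∃ h ∈ P, (h : Quat p k) = g

/-- trichotomy for groups containing the torus of an idempotent -/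
def T_TRI : Prop := ∀ (k : Type) [Field k] [IsAlgClosed k] [CharZero k]
  (P : Subgroup (Matrix (Fin 2) (Fin 2) k)ˣ) (e : Matrix (Fin 2) (Fin 2) k), e * e = e → e ≠ 0 →
  e ≠ 1 → (∀ s : k, s ≠ 0 → ∃ g ∈ P, (g : Matrix (Fin 2) (Fin 2) k) = s • e + (1 - e)) →
  NilC (k := k) P ∨ TorC P e ∨ BigM P

/-- the same for quaternions -/
def T_TRQ : Prop := ∀ (k : Type) [Field k] [IsAlgClosed k] [CharZero k]
  (P : Subgroup (Quat p k)ˣ) (e : Quat p k), e * e = e → e ≠ 0 →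
  e ≠ 1 → (∀ s : k, s ≠ 0 → ∃ g ∈ P, (g : Quat p k) = s • e + (1 - e)) →
  NilC (k := k) P ∨ TorC P e ∨ BigQ p P

/-- normal subgroups of `SL₂(k)` -/
def T_SIM : Prop := ∀ (k : Type) [Field k] [IsAlgClosed k] [CharZero k]
  (N : Subgroup (Matrix (Fin 2) (Fin 2) k)ˣ),
  (∀ g : (Matrix (Fin 2) (Fin 2) k)ˣ, (g : Matrix (Fin 2) (Fin 2) k).det = 1 →
    ∀ n ∈ N, g * n * g⁻¹ ∈ N) →
  (∃ n ∈ N, (n : Matrix (Fin 2) (Fin 2) k).det = 1 ∧ (n : Matrix (Fin 2) (Fin 2) k) ≠ 1 ∧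
    (n : Matrix (Fin 2) (Fin 2) k) ≠ -1) → BigM N

/-- normal subgroups of the norm one group of `D(k)` -/
def T_SIQ : Prop := ∀ (k : Type) [Field k] [IsAlgClosed k] [CharZero k]
  (N : Subgroup (Quat p k)ˣ),
  (∀ g : (Quat p k)ˣ, nrd p (g : Quat p k) = 1 → ∀ n ∈ N, g * n * g⁻¹ ∈ N) →
  (∃ n ∈ N, nrd p (n : Quat p k) = 1 ∧ (n : Quat p k) ≠ 1 ∧ (n : Quat p k) ≠ -1) → BigQ p N

/-- first projection of the group of `ℚ̄_p`-points -/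
def P1 (H : ClSub p) : Subgroup (Matrix (Fin 2) (Fin 2) (PadicAlgCl p))ˣ :=
  (H.pts (PadicAlgCl p)).map (Units.map
    (RingHom.fst (Matrix (Fin 2) (Fin 2) (PadicAlgCl p)) (Quat p (PadicAlgCl p)) : _ →* _))

/-- second projection of the group of `ℚ̄_p`-points -/
def P2 (H : ClSub p) : Subgroup (Quat p (PadicAlgCl p))ˣ :=
  (H.pts (PadicAlgCl p)).map (Units.map
    (RingHom.snd (Matrix (Fin 2) (Fin 2) (PadicAlgCl p)) (Quat p (PadicAlgCl p)) : _ →* _))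

/-- the cocharacter `μ_e` is a cocharacter of `H` -/
def Coch (H : ClSub p) (e : AA p (PadicAlgCl p)) : Prop :=
  (e * e = e ∧ e.1 ≠ 0 ∧ e.1 ≠ 1 ∧ e.2 ≠ 0 ∧ e.2 ≠ 1) ∧
    ∀ s : PadicAlgCl p, s ≠ 0 → ∃ h ∈ H.pts (PadicAlgCl p),
      (h : AA p (PadicAlgCl p)) = s • e + (1 - e)

/-- vectors whose line is stable under the Galois group -/
def T_DES : Prop := ∀ (ι : Type) [Fintype ι] (x : ι → PadicAlgCl p), x ≠ 0 →
  (∀ σ : PadicAlgCl p ≃ₐ[ℚ_[p]] PadicAlgCl p, ∃ c, ∀ i, σ (x i) = c * x i) →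
  ∃ (c : PadicAlgCl p) (y : ι → ℚ_[p]), c ≠ 0 ∧ ∀ i, c * x i = algebraMap _ _ (y i)

/-- the Galois group acts on the points -/
def T_STA : Prop := ∀ (H : ClSub p) (σ : PadicAlgCl p ≃ₐ[ℚ_[p]] PadicAlgCl p)
  (g : (AA p (PadicAlgCl p))ˣ), g ∈ H.pts (PadicAlgCl p) →
  Units.map (aaMap p (σ : PadicAlgCl p →+* PadicAlgCl p) : _ →* _) g ∈ H.pts (PadicAlgCl p)

/-- specialization -/
def T_SPE : Prop := ∀ (H : ClSub p) (K : Type) [Field K] [Algebra ℚ_[p] K] (h : (AA p K)ˣ),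
  h ∈ H.pts K → ∀ f : MvPolynomial (Fin 8) ℚ_[p],
  MvPolynomial.aeval (coord p (h : AA p K)) f ≠ 0 → ∃ h' ∈ H.pts (PadicAlgCl p),
    MvPolynomial.aeval (coord p (h' : AA p (PadicAlgCl p))) f ≠ 0

/-- the isocrystal of `β` has no rational line -/
def T_ISO : Prop := ∀ (g b : (Matrix (Fin 2) (Fin 2) (Breve p))ˣ) (v : Fin 2 → ℚ_[p]), v ≠ 0 →
  (∃ l : Breve p, (b : Matrix (Fin 2) (Fin 2) (Breve p)) *ᵥ
    (fun i => algebraMap ℚ_[p] (Breve p) (v i)) = l • fun i => algebraMap ℚ_[p] (Breve p) (v i)) →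
  (beta p (Breve p)).1 * (g : Matrix (Fin 2) (Fin 2) (Breve p)) =
    (sigma p).mapMatrix (g : Matrix (Fin 2) (Fin 2) (Breve p)) * b → False

def T_NL1 : Prop := ∀ H : ClSub p, NilC (k := PadicAlgCl p) (P1 p H) →
  ∀ g βH : (AA p (Breve p))ˣ, βH ∈ H.pts (Breve p) →
  beta p (Breve p) * (g : AA p (Breve p)) = aaMap p (sigma p) g * βH → False

def T_NL2 : Prop := p % 4 = 3 → ∀ H : ClSub p, ¬ NilC (k := PadicAlgCl p) (P2 p H)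

def T_TO1 : Prop := ∀ (H : ClSub p) (e : AA p (PadicAlgCl p)), Coch p H e →
  TorC (P1 p H) e.1 → ∀ h ∈ H.pts ℂ_[p], ∀ y : ℂ_[p],
  (ranFl p ((h : AA p ℂ_[p]) * aaMap p (algebraMap (PadicAlgCl p) ℂ_[p]) e)).1 =
    Submodule.span ℂ_[p] {![y, 1]} →
  ∃ a b c : ℚ_[p], ¬ (a = 0 ∧ b = 0 ∧ c = 0) ∧ algebraMap ℚ_[p] ℂ_[p] a * y ^ 2 +
    algebraMap ℚ_[p] ℂ_[p] b * y + algebraMap ℚ_[p] ℂ_[p] c = 0

def T_TO2 : Prop := ∀ (H : ClSub p) (e : AA p (PadicAlgCl p)), Coch p H e →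
  TorC (P2 p H) e.2 → ∀ h ∈ H.pts ℂ_[p], ∀ (I : ℂ_[p]) (ℓ : Submodule ℂ_[p] (Fin 2 → ℂ_[p])),
  I ^ 2 = -1 →
  (ranFl p ((h : AA p ℂ_[p]) * aaMap p (algebraMap (PadicAlgCl p) ℂ_[p]) e)).2 =
    idealOf p I ℓ →
  ∃ N : Quat p ℚ_[p], N ≠ 0 ∧ N.re = 0 ∧
    ∀ v ∈ ℓ, spl p I (quatMap p (algebraMap ℚ_[p] ℂ_[p]) N) *ᵥ v ∈ ℓ

/-- Goursat and Galois -/
def T_GOU : Prop := p % 4 = 3 → ∀ H : ClSub p, BigM (P1 p H) → BigQ p (P2 p H) → ¬ Strict p H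

/-- the theorem -/
def T_FIN : Prop := p % 4 = 3 → Main p

end

end TWT
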