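import Pool.Agent.TWT.State
import Pool.Agent.TWT.Trans

/-!
# From the statement in `Gen` to the statement in `State`
-/

namespace Crys

open Matrix

noncomputable section

namespace T2

variable (p : ℕ) [hp : Fact p.Prime]

theorem phiB_eq : phiB p = TWT.phiB p := rfl

theorem thetaB_eq : thetaB p = TWT.thetaB p := rfl

theorem brB_eq : brB p = TWT.brB p := rfl

theorem sigma_eq : sigma p = TWT.sigma p := rfl

section gen

variable {ι : Type} [Fintype ι] [DecidableEq ι]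

/-- the same group -/
def cG (G : ClGrp p ι) : TWT.ClGrp p ι where
  eqs := G.eqs
  pts R _ _ := G.pts R
  mem_pts R _ _ g := G.mem_pts R g

/-- the same datum -/
def cD (Y : Datum p ι) : TWT.Datum p ι where
  G := cG p Y.G
  e := Y.e
  b := Y.b

variable {p}

theorem mem_im {R : Type} [CommRing R] (m : Matrix ι ι R) (u : ι → R) :
    u ∈ im m ↔ u ∈ LinearMap.range (Matrix.toLin' m) := by
  constructor
  · rintro ⟨w, rfl⟩
    exact ⟨w, by rw [Matrix.toLin'_apply]⟩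
  · rintro ⟨w, rfl⟩
    exact ⟨w, by rw [Matrix.toLin'_apply]⟩

theorem mem_ker {R : Type} [CommRing R] (m : Matrix ι ι R) (u : ι → R) :
    u ∈ ker m ↔ u ∈ LinearMap.ker (Matrix.toLin' m) := by
  rw [LinearMap.mem_ker, Matrix.toLin'_apply]
  rfl

/-- the type condition -/
theorem type_iff (Y : Datum p ι) (z : Matrix ι ι (Bcris p)) :
    hodgeTate (thetaB p) z ∈ Y.Fl ↔
      ∃ h ∈ (cD p Y).G.pts ℂ_[p], TWT.HTPeriod z = (cD p Y).flag (h : Matrix ι ι ℂ_[p]) := by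
  constructor
  · rintro ⟨h, hh, he⟩
    refine ⟨h, hh, ?_⟩
    ext u
    have := Set.ext_iff.mp he u
    exact ((mem_ker _ u).symm.trans this).trans (mem_im _ u)
  · rintro ⟨h, hh, he⟩
    refine ⟨h, hh, ?_⟩
    ext u
    have := SetLike.ext_iff.mp he u
    exact ((mem_ker _ u).trans this).trans (mem_im _ u).symm

theorem point_iff (Y : Datum p ι) (z : Matrix ι ι (Bcris p)) :
    Y.IsPoint z ↔ (cD p Y).IsPoint z := by
  constructor
  · rintro ⟨h1, h2, ⟨t, ht, z', h3, h4⟩, h5⟩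
    exact ⟨h1, h2, ⟨z', t, ht, h3, h4⟩, (type_iff Y z).mp h5⟩
  · rintro ⟨h1, h2, ⟨z', t, ht, h3, h4⟩, h5⟩
    exact ⟨h1, h2, ⟨t, ht, z', h3, h4⟩, (type_iff Y z).mpr h5⟩

theorem datum_iff (Y : Datum p ι) : Y.IsDatum ↔ (cD p Y).IsDatum := by
  constructor
  · rintro ⟨⟨h1, h2⟩, h3⟩
    exact ⟨h1, h2, h3⟩
  · rintro ⟨h1, h2, h3⟩
    exact ⟨⟨h1, h2⟩, h3⟩

end gen

end T2

end

end Crys
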