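import Pool.Agent.TWT.Trans2

/-!
# From the statement in `Gen` to the statement in `State`, second part
-/

namespace Crys

open Matrix

noncomputable section

namespace T2

variable (p : ℕ) [hp : Fact p.Prime]

theorem pts_twin {R : Type} [CommRing R] [Algebra ℚ_[p] R] (g : GLn Six R) :
    g ∈ (twinG p).pts R ↔ (g : (Matrix Six Six R)ˣ) ∈ (TWT.twinG p).pts R :=
  isBlk_iff p g

theorem pts_eq {R : Type} [CommRing R] [Algebra ℚ_[p] R] :
    ((twinG p).pts R : Subgroup (Matrix Six Six R)ˣ) = (TWT.twinG p).pts R := by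
  ext g
  exact isBlk_iff p g

theorem e_eq (I : Qb p) : (twin p I).e = (TWT.twin p I).e := rfl

theorem b_eq (I : Qb p) : (twin p I).b = (TWT.twin p I).b := rfl

theorem twin_isDatum (I : Qb p) (h : (TWT.twin p I).IsDatum) : (twin p I).IsDatum := by
  obtain ⟨h1, h2, h3⟩ := h
  refine ⟨⟨h1, ?_⟩, (pts_twin p _).mpr h3⟩
  intro s hs
  obtain ⟨u, hu, hus⟩ := h2 s hs
  exact ⟨u, (pts_twin p _).mpr hu, hus⟩

theorem twin_isPoint (I : Qb p) (z : Matrix Six Six (Bcris p)) (h : (TWT.twin p I).IsPoint z) :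
    (twin p I).IsPoint z := by
  rw [point_iff]
  obtain ⟨h1, h2, h3, ⟨h, hh, h5⟩⟩ := h
  exact ⟨h1, h2, h3, ⟨h, (pts_twin p _).mpr hh, h5⟩⟩

theorem twin_isSub (I : Qb p) (Y : Datum p Six) (g : GLn Six (Breve p))
    (h : (twin p I).IsSub Y g) : (TWT.twin p I).IsSub (cD p Y) g := by
  obtain ⟨h1, h2, ⟨a, ha, hae⟩, h4, h5⟩ := h
  refine ⟨(datum_iff Y).mp h1, ?_, ⟨a, (pts_twin p _).mp ha, ?_⟩, (pts_twin p _).mp h4, h5⟩
  · intro R _ _ g hg
    exact (pts_twin p _).mp (h2 R hg)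
  · have key : ∀ (A : Type) [Ring A] (u : Aˣ) (x y : A), y * u = u * x → y = u * x * ↑u⁻¹ := by
      intro A _ u x y hxy
      rw [← hxy, mul_assoc, Units.mul_inv, mul_one]
    exact key _ a _ _ hae

theorem twin_inSpecial (I : Qb p) (Y : Datum p Six) (z : Matrix Six Six (Bcris p))
    (h : (twin p I).InSpecial Y z) : (TWT.twin p I).InSpecial (cD p Y) z := by
  obtain ⟨g, y, h1, h2, h3⟩ := h
  exact ⟨g, twin_isSub p I Y g h1, y, (point_iff Y y).mp h2, h3⟩

theorem twin_isStrict (I : Qb p) (Y : Datum p Six) (h : (twin p I).IsStrict Y) :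
    (TWT.twin p I).IsStrict (cD p Y) := by
  intro h1
  apply h
  have h2 : ((twinG p).pts (Qb p) : Subgroup (Matrix Six Six (Qb p))ˣ) =
      (TWT.twinG p).pts (Qb p) := pts_eq p
  have h3 : ⁅((twinG p).pts (Qb p) : Subgroup (Matrix Six Six (Qb p))ˣ),
      ((twinG p).pts (Qb p) : Subgroup (Matrix Six Six (Qb p))ˣ)⁆ =
      ⁅(TWT.twinG p).pts (Qb p), (TWT.twinG p).pts (Qb p)⁆ := by
    rw [h2]
    rfl
  exact h1.trans h3.symm

theorem self (I : Qb p) (hd : (twin p I).IsDatum) (z : Matrix Six Six (Bcris p))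
    (h : (twin p I).IsPoint z) : (twin p I).InSpecial (twin p I) z := by
  refine ⟨1, z, ⟨hd, fun R _ _ => le_rfl, ⟨1, one_mem _, ?_⟩, one_mem _, ?_⟩, h, ?_⟩
  · change (twin p I).e * 1 = 1 * (twin p I).e
    rw [mul_one, one_mul]
  · change mat (twin p I).b * (1 : Matrix Six Six (Breve p)).map (sigma p) =
      1 * mat (twin p I).b
    rw [Matrix.map_one _ (map_zero _) (map_one _), mul_one, one_mul]
  · change z = (1 : Matrix Six Six (Breve p)).map (brB p) * z
    rw [Matrix.map_one _ (map_zero _) (map_one _), one_mul]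

section flags

variable {F : Type} [Field F]

theorem mem_line (v u : Fin 2 → F) : u ∈ line v ↔ u ∈ Submodule.span F {v} := by
  rw [Submodule.mem_span_singleton]
  constructor
  · rintro ⟨c, rfl⟩
    exact ⟨c, rfl⟩
  · rintro ⟨c, rfl⟩
    exact ⟨c, rfl⟩

omit hp in
theorem mem_flagS (I : F) (v w : Fin 2 → F) (u : Six → F) : u ∈ flagS p I v w ↔
    u ∈ TWT.sumSub p (Submodule.span F {v}) (TWT.idealOf p I (Submodule.span F {w})) := by
  constructor
  · rintro ⟨h1, h2⟩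
    exact ⟨(mem_line v _).mp h1, fun y => (mem_line w _).mp (h2 y)⟩
  · rintro ⟨h1, h2⟩
    exact ⟨(mem_line v _).mpr h1, fun y => (mem_line w _).mpr (h2 y)⟩

omit hp in
theorem flagS_eq_im (I : F) (v w : Fin 2 → F) (m : Matrix Six Six F)
    (h : TWT.sumSub p (Submodule.span F {v}) (TWT.idealOf p I (Submodule.span F {w})) =
      LinearMap.range (Matrix.toLin' m)) : flagS p I v w = im m := by
  ext u
  rw [mem_flagS, h]
  exact (mem_im m u).symm

omit hp in
theorem im_eq_flagS (I : F) (v w : Fin 2 → F) (m : Matrix Six Six F)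
    (h : LinearMap.range (Matrix.toLin' m) =
      TWT.sumSub p (Submodule.span F {v}) (TWT.idealOf p I (Submodule.span F {w}))) :
    im m = flagS p I v w := (flagS_eq_im p I v w m h.symm).symm

omit hp in
theorem ker_eq_flagS (I : F) (v w : Fin 2 → F) (m : Matrix Six Six F)
    (h : LinearMap.ker (Matrix.toLin' m) =
      TWT.sumSub p (Submodule.span F {v}) (TWT.idealOf p I (Submodule.span F {w}))) :
    ker m = flagS p I v w := by
  ext u
  rw [mem_flagS, ← h]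
  exact mem_ker m u

end flags

theorem curve_sub (I η : Qb p) (h : TWT.CurveS p I η ⊆ (TWT.twin p I).D) :
    curveS p (toCp p I) (toCp p η) ⊆ (twin p I).D := by
  rintro _ ⟨v, hv, rfl⟩
  obtain ⟨⟨a, ha, hae⟩, ⟨b, hb, hbe⟩⟩ := h ⟨Submodule.span ℂ_[p] {v}, finrank_span_singleton hv, rfl⟩
  refine ⟨⟨a, (pts_twin p _).mpr ha, ?_⟩, ⟨b, (pts_twin p _).mpr hb, ?_⟩⟩
  · exact flagS_eq_im p (F := ℂ_[p]) _ _ _ _ hae
  · exact flagS_eq_im p (F := ℂ_[p]) _ _ _ _ hbe

theorem curve_mem (I η : Qb p) (z : Matrix Six Six (Bcris p))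
    (h : (TWT.HodgePeriod z, TWT.HTPeriod z) ∈ TWT.CurveS p I η) :
    (hodge (thetaB p) z, hodgeTate (thetaB p) z) ∈ curveS p (toCp p I) (toCp p η) := by
  obtain ⟨ℓ, hℓ, hq⟩ := h
  obtain ⟨v, hv, rfl⟩ := TWT.Tr.line_span hℓ
  obtain ⟨h1, h2⟩ := Prod.mk.inj hq
  refine ⟨v, hv, Prod.ext ?_ ?_⟩
  · exact im_eq_flagS p (F := ℂ_[p]) _ _ _ _ h1
  · exact ker_eq_flagS p (F := ℂ_[p]) _ _ _ _ h2

end T2

end

end Crys
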